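import Mathlib
import Pool.Agent.H61.UProj.Near

set_option autoImplicit false

/-!
# Project CZ: definitions shared by all modules

`Cn n`, `Un n`, `haarU n`, `Rn i`, `uni`, `adj`, `moved`, `projVol`, `VE` come from
`Pool.Agent.H61.UProj` (files Base, Defs, Near).  `inner ℂ z w = ∑ conj (z j) * w j`,
`inner ℝ z w = Re (inner ℂ z w)`.
-/

open MeasureTheory Pool.Agent.H61.UProj
open scoped ENNReal

noncomputable section

namespace Pool.Agent.H89.CZ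

/-- The zonotope `∑ j, [0, v j]`. -/
def zon {V : Type*} [AddCommGroup V] [Module ℝ V] {N : ℕ} (v : Fin N → V) : Set V :=
  {z | ∃ t : Fin N → ℝ, (∀ j, 0 ≤ t j ∧ t j ≤ 1) ∧ z = ∑ j, t j • v j}

/-- `(1 / d!) * ∑ f, g (v ∘ f)`, the sum over all maps `f : Fin d → Fin N`. -/
def PZ {V : Type*} (d : ℕ) (g : (Fin d → V) → ℝ) {N : ℕ} (v : Fin N → V) : ℝ :=
  (∑ f : Fin d → Fin N, g (v ∘ f)) / (Nat.factorial d : ℝ)

/-- The same with weights: `(1 / d!) * ∑ f, (∏ k, lam (f k)) * G f`. -/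
def PW {ι : Type*} [Fintype ι] (d : ℕ) (G : (Fin d → ι) → ℝ) (lam : ι → ℝ) : ℝ :=
  (∑ f : Fin d → ι, (∏ k, lam (f k)) * G f) / (Nat.factorial d : ℝ)

/-- The bilinear form `∑ f, (∏ k, lam (f k)) * ∑ l m, u l * w m * G (l, m, f)`. -/
def BW {ι : Type*} [Fintype ι] (d : ℕ) (G : (Fin (d + 2) → ι) → ℝ) (lam u w : ι → ℝ) : ℝ :=
  ∑ f : Fin d → ι, (∏ k, lam (f k)) *
    ∑ l, ∑ m, u l * w m * G (Fin.cons l (Fin.cons m f))

/-! ### Pairs of vectors of `ℂⁿ` -/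

variable {n i : ℕ}

/-- `Im ⟨z, w⟩`. -/
def om (z w : Cn n) : ℝ := (inner ℂ z w).im

/-- The area of the parallelogram spanned by `z`, `w`. -/
def area (z w : Cn n) : ℝ := √(‖z‖ ^ 2 * ‖w‖ ^ 2 - (inner ℝ z w) ^ 2)

/-- `⟨p ∧ q, r ∧ s⟩` for the real inner product. -/
def pair2 (p q r s : Cn n) : ℝ := inner ℝ p r * inner ℝ q s - inner ℝ p s * inner ℝ q r

/-- `det (w, p, q)` in the real orthonormal basis `o`. -/
def detO (o : OrthonormalBasis (Fin (i + 2)) ℝ (Cn n)) (w : Fin i → Cn n) (p q : Cn n) : ℝ :=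
  o.toBasis.det (Fin.append w ![p, q])

/-- `∫ |det (w, φ a, φ b)| dφ`. -/
def gv (o : OrthonormalBasis (Fin (i + 2)) ℝ (Cn n)) (a b : Cn n) (w : Fin i → Cn n) : ℝ :=
  ∫ φ, |detO o w (uni φ a) (uni φ b)| ∂(haarU n)

/-- `(2n - 1 - x) / (4 n (n - 1))`. -/
def al (n : ℕ) (x : ℝ) : ℝ := (2 * n - 1 - x) / (4 * n * (n - 1))

/-- `((2n - 1) x - 1) / (4 n (n - 1))`. -/
def be (n : ℕ) (x : ℝ) : ℝ := ((2 * n - 1) * x - 1) / (4 * n * (n - 1))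

/-! ### The kernel on `ℂ × ℂ` -/

/-- Real inner product on `ℂ × ℂ`. -/
def dotR (u v : ℂ × ℂ) : ℝ :=
  (starRingEnd ℂ u.1 * v.1 + starRingEnd ℂ u.2 * v.2).re

/-- Square of the norm. -/
def nsq (u : ℂ × ℂ) : ℝ := Complex.normSq u.1 + Complex.normSq u.2

/-- Area of the parallelogram. -/
def ar (u v : ℂ × ℂ) : ℝ := √(nsq u * nsq v - dotR u v ^ 2)

/-- `Im (conj x * x') + c * Im (conj y * y')`. -/
def ta (c : ℝ) (u v : ℂ × ℂ) : ℝ :=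
  (starRingEnd ℂ u.1 * v.1).im + c * (starRingEnd ℂ u.2 * v.2).im

/-- The kernel `area + b * ta ^ 2 / area` (it is `0` when the area is `0`). -/
def Ker (b c : ℝ) (u v : ℂ × ℂ) : ℝ := ar u v + b * ta c u v ^ 2 / ar u v

/-- `C(2m, m) / 4^m` -/
def dd (m : ℕ) : ℝ := (Nat.centralBinom m : ℝ) / 4 ^ m

/-- `C(2M, M+h) / 4^M` -/
def cb (M h : ℕ) : ℝ := ((2 * M).choose (M + h) : ℝ) / 4 ^ M

/-- Coordinates with respect to four real vectors. -/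
def prj (e : Fin 4 → Cn n) (z : Cn n) : ℂ × ℂ :=
  (⟨inner ℝ (e 0) z, inner ℝ (e 1) z⟩, ⟨inner ℝ (e 2) z, inner ℝ (e 3) z⟩)

end Pool.Agent.H89.CZ
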