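import Mathlib
import Pool.Agent.H89.CZ.Defs

set_option autoImplicit false

/-!
# HB: the unitary group acting on `ℂⁿ`, and its Haar probability measure

`uni φ : Cn n →ₗᵢ[ℝ] Cn n` is multiplication by the unitary matrix `φ`
(`uni φ z = Matrix.toEuclideanLin φ z`, so `uni φ z j = ∑ l, φ j l * z l`; see `isoOf`, `ap_apply`,
`ap_mul` in `Pool.Agent.H61.UProj`).
-/

open MeasureTheory Pool.Agent.H61.UProj
open scoped ENNReal

noncomputable section

namespace Pool.Agent.H89.CZ

variable {n : ℕ}

theorem uni_apply (φ : Un n) (z : Cn n) (j : Fin n) :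
    uni φ z j = ∑ l, (φ : Matrix (Fin n) (Fin n) ℂ) j l * z l := rfl

private theorem uni_eq_ap (φ : Un n) (z : Cn n) :
    uni φ z = ap (φ : Matrix (Fin n) (Fin n) ℂ) z := rfl

theorem uni_mul (g φ : Un n) (z : Cn n) : uni (g * φ) z = uni g (uni φ z) := by
  rw [uni_eq_ap, uni_eq_ap, uni_eq_ap, ← ap_mul]
  rfl

theorem uni_one (z : Cn n) : uni (1 : Un n) z = z := by
  ext j
  rw [uni_apply]
  simp [Matrix.one_apply]

theorem uni_inv_uni (φ : Un n) (z : Cn n) : uni φ⁻¹ (uni φ z) = z := by
  rw [← uni_mul, inv_mul_cancel, uni_one]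

theorem uni_uni_inv (φ : Un n) (z : Cn n) : uni φ (uni φ⁻¹ z) = z := by
  rw [← uni_mul, mul_inv_cancel, uni_one]

theorem uni_csmul (φ : Un n) (c : ℂ) (z : Cn n) : uni φ (c • z) = c • uni φ z := by
  rw [uni_eq_ap, uni_eq_ap]
  exact map_smul (Matrix.toEuclideanLin (φ : Matrix (Fin n) (Fin n) ℂ)) c z

theorem inner_uni (φ : Un n) (z w : Cn n) : inner ℂ (uni φ z) (uni φ w) = inner ℂ z w := by
  have h1 : inner ℂ (uni φ z) (uni φ w) =
      inner ℂ z (ap ((φ : Matrix (Fin n) (Fin n) ℂ).conjTranspose) (uni φ w)) := by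
    rw [uni_eq_ap φ z]
    change inner ℂ (Matrix.toEuclideanLin (φ : Matrix (Fin n) (Fin n) ℂ) z) _ =
      inner ℂ z (Matrix.toEuclideanLin ((φ : Matrix (Fin n) (Fin n) ℂ).conjTranspose) _)
    rw [Matrix.toEuclideanLin_conjTranspose_eq_adjoint, LinearMap.adjoint_inner_right]
  rw [h1]
  congr 1
  rw [uni_eq_ap, ← ap_mul]
  have h2 : ((φ : Matrix (Fin n) (Fin n) ℂ).conjTranspose) * (φ : Matrix (Fin n) (Fin n) ℂ) = 1 :=
    Matrix.mem_unitaryGroup_iff'.1 φ.2
  rw [h2]
  ext j
  rw [ap_apply]
  simp [Matrix.one_apply]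

theorem om_uni (φ : Un n) (z w : Cn n) : om (uni φ z) (uni φ w) = om z w := by
  unfold om
  rw [inner_uni]

theorem inner_uni_left (φ : Un n) (z w : Cn n) :
    inner ℝ (uni φ z) w = inner ℝ z (uni φ⁻¹ w) := by
  have h := inner_uni φ z (uni φ⁻¹ w)
  rw [uni_uni_inv] at h
  rw [re_inner, re_inner, h]

theorem continuous_uni2 : Continuous (fun q : Un n × Cn n => uni q.1 q.2) := by
  have hc : Continuous (fun φ : Un n => (φ : Matrix (Fin n) (Fin n) ℂ)) := continuous_subtype_val
  have h : Continuous (fun q : Un n × Cn n =>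
      ap ((fun φ : Un n => (φ : Matrix (Fin n) (Fin n) ℂ)) q.1) q.2) := continuous_ap_pair hc
  have e : (fun q : Un n × Cn n => uni q.1 q.2) = fun q : Un n × Cn n =>
      ap ((fun φ : Un n => (φ : Matrix (Fin n) (Fin n) ℂ)) q.1) q.2 := by
    funext q
    exact uni_eq_ap q.1 q.2
  rw [e]
  exact h

theorem continuous_uni (z : Cn n) : Continuous (fun φ : Un n => uni φ z) := by
  have h1 : Continuous (fun φ : Un n => ((φ, z) : Un n × Cn n)) :=
    Continuous.prodMk continuous_id continuous_const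
  have h2 : (fun φ : Un n => uni φ z) =
      (fun q : Un n × Cn n => uni q.1 q.2) ∘ (fun φ : Un n => ((φ, z) : Un n × Cn n)) := by
    funext φ
    simp only [Function.comp_apply]
  rw [h2]
  exact Continuous.comp continuous_uni2 h1

theorem integrable_of_continuous {F : Type*} [NormedAddCommGroup F] [NormedSpace ℝ F]
    {f : Un n → F} (hf : Continuous f) : Integrable f (haarU n) :=
  hf.integrable_of_hasCompactSupport (HasCompactSupport.of_compactSpace f)

theorem integral_mulLeft {F : Type*} [NormedAddCommGroup F] [NormedSpace ℝ F]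
    (f : Un n → F) (g : Un n) : ∫ φ, f (g * φ) ∂(haarU n) = ∫ φ, f φ ∂(haarU n) :=
  MeasureTheory.integral_mul_left_eq_self f g

private theorem haar_right : (haarU n).IsMulRightInvariant := by
  refine ⟨fun g => ?_⟩
  have hm : Measurable (fun x : Un n => x * g) := (continuous_mul_const g).measurable
  have : ((haarU n).map (fun x => x * g)).IsMulLeftInvariant := by
    refine ⟨fun a => ?_⟩
    rw [Measure.map_map (continuous_const_mul a).measurable hm]
    have h1 : (fun x => a * x) ∘ (fun x => x * g) = (fun x => x * g) ∘ (fun x => a * x) := by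
      funext x
      simp [mul_assoc]
    rw [h1, ← Measure.map_map hm (continuous_const_mul a).measurable, map_mul_left_eq_self]
  have : IsProbabilityMeasure ((haarU n).map (fun x => x * g)) :=
    Measure.isProbabilityMeasure_map hm.aemeasurable
  have : ((haarU n).map (fun x => x * g)).IsHaarMeasure := by
    exact Measure.isHaarMeasure_of_isCompact_nonempty_interior _ Set.univ isCompact_univ
      (by simp) (by simp) (by simp)
  exact Measure.isHaarMeasure_eq_of_isProbabilityMeasure _ _

private theorem haar_inv : (haarU n).IsInvInvariant := by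
  have := haar_right (n := n)
  refine ⟨?_⟩
  have hm : Measurable (fun x : Un n => x⁻¹) := continuous_inv.measurable
  have : ((haarU n).inv).IsMulLeftInvariant := by
    infer_instance
  have : IsProbabilityMeasure ((haarU n).inv) :=
    Measure.isProbabilityMeasure_map hm.aemeasurable
  have : ((haarU n).inv).IsHaarMeasure := by
    exact Measure.isHaarMeasure_of_isCompact_nonempty_interior _ Set.univ isCompact_univ
      (by simp) (by simp) (by simp)
  exact Measure.isHaarMeasure_eq_of_isProbabilityMeasure _ _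

theorem integral_mulRight {F : Type*} [NormedAddCommGroup F] [NormedSpace ℝ F]
    (f : Un n → F) (g : Un n) : ∫ φ, f (φ * g) ∂(haarU n) = ∫ φ, f φ ∂(haarU n) := by
  have := haar_right (n := n)
  exact MeasureTheory.integral_mul_right_eq_self f g

theorem integral_inv {F : Type*} [NormedAddCommGroup F] [NormedSpace ℝ F]
    (f : Un n → F) : ∫ φ, f φ⁻¹ ∂(haarU n) = ∫ φ, f φ ∂(haarU n) := by
  have := haar_inv (n := n)
  exact MeasureTheory.integral_inv_eq_self f (haarU n)

/-- Extension of an orthonormal family on an injective set of indices to a basis. -/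
private theorem exists_onb {k : ℕ} {u : Fin k → Cn n} (hu : Orthonormal ℂ u)
    {ι : Fin k → Fin n} (hι : Function.Injective ι) :
    ∃ b : OrthonormalBasis (Fin n) ℂ (Cn n), ∀ j, b (ι j) = u j := by
  classical
  let v : Fin n → Cn n := fun l => if h : ∃ j, ι j = l then u h.choose else 0
  have hv : ∀ j, v (ι j) = u j := by
    intro j
    have h : ∃ j', ι j' = ι j := ⟨j, rfl⟩
    simp only [v, dif_pos h]
    rw [hι h.choose_spec]
  have hres : Orthonormal ℂ ((Set.range ι).domRestrict v) := by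
    have h2 : (Set.range ι).domRestrict v = u ∘ (Equiv.ofInjective ι hι).symm := by
      funext l
      obtain ⟨l, j, rfl⟩ := l
      refine (hv j).trans ?_
      rw [Function.comp_apply]
      congr 1
      rw [Equiv.eq_symm_apply]
      rfl
    rw [h2]
    exact hu.comp _ (Equiv.injective _)
  obtain ⟨b, hb⟩ := hres.exists_orthonormalBasis_extension_of_card_eq (by simp)
  exact ⟨b, fun j => by rw [hb _ ⟨j, rfl⟩, hv]⟩

/-- The unitary matrix with columns `b`. -/
private theorem exists_uni_basis (b : OrthonormalBasis (Fin n) ℂ (Cn n)) :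
    ∃ φ : Un n, ∀ j, uni φ (EuclideanSpace.single j 1) = b j := by
  let M : Matrix (Fin n) (Fin n) ℂ := fun l j => b j l
  have hMM : M.conjTranspose * M = 1 := by
    ext i j
    rw [Matrix.mul_apply, Matrix.one_apply]
    have h2 : inner ℂ (b i) (b j) = if i = j then (1 : ℂ) else 0 :=
      orthonormal_iff_ite.1 b.orthonormal i j
    rw [← h2, PiLp.inner_apply]
    refine Finset.sum_congr rfl fun l _ => ?_
    rw [RCLike.inner_apply, Matrix.conjTranspose_apply, mul_comm]
    rfl
  refine ⟨⟨M, Matrix.mem_unitaryGroup_iff'.2 hMM⟩, fun j => ?_⟩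
  ext l
  rw [uni_apply, Finset.sum_eq_single j]
  · simp [M]
  · intro a _ ha
    simp [ha]
  · simp

private theorem exists_uni_bases (b c : OrthonormalBasis (Fin n) ℂ (Cn n)) :
    ∃ φ : Un n, ∀ j, uni φ (b j) = c j := by
  obtain ⟨φ, hφ⟩ := exists_uni_basis b
  obtain ⟨ψ, hψ⟩ := exists_uni_basis c
  refine ⟨ψ * φ⁻¹, fun j => ?_⟩
  rw [uni_mul, ← hφ, uni_inv_uni, hψ]

private theorem exists_uni_family {k : ℕ} {e f : Fin k → Cn n} (he : Orthonormal ℂ e)
    (hf : Orthonormal ℂ f) : ∃ φ : Un n, ∀ j, uni φ (e j) = f j := by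
  have hk : k ≤ n := by
    have h := he.linearIndependent.fintype_card_le_finrank
    simpa using h
  obtain ⟨b, hb⟩ := exists_onb he (Fin.castLE_injective hk)
  obtain ⟨c, hc⟩ := exists_onb hf (Fin.castLE_injective hk)
  obtain ⟨φ, hφ⟩ := exists_uni_bases b c
  exact ⟨φ, fun j => by rw [← hb, hφ, hc]⟩

/-- `U(n)` is transitive on spheres. -/
theorem exists_uni_eq (z w : Cn n) (h : ‖z‖ = ‖w‖) : ∃ φ : Un n, uni φ z = w := by
  by_cases hz : z = 0
  · subst hz
    rw [norm_zero] at h
    have hw : w = 0 := norm_eq_zero.1 h.symm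
    exact ⟨1, by rw [hw, uni_one]⟩
  · have hz' : ‖z‖ ≠ 0 := norm_ne_zero_iff.2 hz
    have hw' : ‖w‖ ≠ 0 := h ▸ hz'
    have key : ∀ u : Cn n, ‖u‖ ≠ 0 →
        Orthonormal ℂ (fun _ : Fin 1 => ((‖u‖⁻¹ : ℝ) : ℂ) • u) := by
      intro u hu
      refine ⟨fun i => ?_, fun i j hij => absurd (Subsingleton.elim i j) hij⟩
      rw [norm_smul, Complex.norm_real, norm_inv, norm_norm, inv_mul_cancel₀ hu]
    obtain ⟨φ, hφ⟩ := exists_uni_family (key z hz') (key w hw')
    refine ⟨φ, ?_⟩
    have h1 := hφ 0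
    rw [uni_csmul, ← h] at h1
    have h2 : ((‖z‖⁻¹ : ℝ) : ℂ) ≠ 0 := by
      rw [Complex.ofReal_ne_zero]
      exact inv_ne_zero hz'
    exact smul_right_injective _ h2 h1

/-- `U(n)` is transitive on complex orthonormal pairs. -/
theorem exists_uni_pair {e f : Fin 2 → Cn n} (he : Orthonormal ℂ e) (hf : Orthonormal ℂ f) :
    ∃ φ : Un n, ∀ k, uni φ (e k) = f k :=
  exists_uni_family he hf

end Pool.Agent.H89.CZ
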