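import Mathlib
import Pool.Agent.H89.CZ.Defs

set_option autoImplicit false

/-!
# KSer: the coefficients `dd m = C(2m, m) / 4^m`

`(1 - t)^(-1/2) = ∑ dd m t^m` for `|t| < 1`,
`1 - (1 - t)^(1/2) = ∑_{m ≥ 0} dd m / (2m+2) t^(m+1)` for `|t| ≤ 1`.

Proofs.
* `dd_succ`: `dd (m+1) = dd m * (2m+1)/(2m+2)` (`Nat.succ_mul_centralBinom_succ`).
* `dd_sum`: `∑_{m < K} dd m / (2m+2) = 1 - dd K` (induction, `dd m - dd (m+1) = dd m / (2m+2)`).
* `dd_tendsto`: `dd m → 0`: `dd m ^ 2 ≤ 1/(m+1)` by induction (`dd_sq_le`)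
  (`((2m+1)/(2m+2))² ≤ (m+1)/(m+2)`).
* `hasSum_inv_sqrt`: the binomial series (search `Real.one_add_rpow`, `binomialSeries`,
  `hasFPowerSeriesOnBall` for `(1+x)^a`), `Ring.choose (-1/2) m * (-1)^m = dd m`.  Alternative:
  let `S(t) = ∑ dd m t^m` (radius ≥ 1); from `dd_succ`, `2(1-t) S' = S`, so `S² (1-t)` has
  derivative zero and equals `1`.  Another: `∑_j dd j dd (m-j) = 1` (Cauchy product).
* `hasSum_sqrt`: for `|x| < 1`: `√(1-x²) = (1-x²)/√(1-x²)`, so `1 - √(1-x²) =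
  1 - (1-x²) ∑ dd m x^(2m) = ∑ (dd m - dd (m+1)) x^(2m+2)`, and
  `dd m - dd (m+1) = dd m/(2m+2)`.  For `x = ±1` use `dd_sum` and `dd_tendsto`
  (nonnegative terms: `hasSum_iff_tendsto_nat_of_nonneg`).
* `cb_le_one`: `C(2M, M+h) ≤ 2^(2M)`.
-/

noncomputable section

namespace Pool.Agent.H89.CZ

theorem dd_zero : dd 0 = 1 := by
  simp [dd]

theorem dd_pos (m : ℕ) : 0 < dd m := by
  have h : (0 : ℝ) < (Nat.centralBinom m : ℝ) := by exact_mod_cast Nat.centralBinom_pos m
  exact div_pos h (by positivity)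

theorem dd_succ (m : ℕ) : dd (m + 1) = dd m * ((2 * m + 1) / (2 * m + 2)) := by
  have h := Nat.succ_mul_centralBinom_succ m
  have h' : ((m : ℝ) + 1) * (Nat.centralBinom (m + 1) : ℝ)
      = 2 * (2 * m + 1) * (Nat.centralBinom m : ℝ) := by exact_mod_cast h
  unfold dd
  rw [pow_succ, div_mul_div_comm, div_eq_div_iff (by positivity) (by positivity)]
  linear_combination (2 * 4 ^ m) * h'

theorem dd_le_one (m : ℕ) : dd m ≤ 1 := by
  induction m with
  | zero => exact le_of_eq dd_zero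
  | succ m ih =>
    rw [dd_succ]
    have h1 : ((2 * m + 1) / (2 * m + 2) : ℝ) ≤ 1 := by
      rw [div_le_one (by positivity)]
      linarith
    have h2 : (0 : ℝ) ≤ (2 * m + 1) / (2 * m + 2) := by positivity
    calc dd m * ((2 * m + 1) / (2 * m + 2)) ≤ 1 * 1 := mul_le_mul ih h1 h2 zero_le_one
      _ = 1 := one_mul 1

private theorem KSer_diff (m : ℕ) : dd m - dd (m + 1) = dd m / (2 * m + 2) := by
  rw [dd_succ]
  have h : (2 * (m : ℝ) + 2) ≠ 0 := by positivity
  field_simp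
  ring

theorem dd_sum (K : ℕ) : ∑ m ∈ Finset.range K, dd m / (2 * m + 2) = 1 - dd K := by
  induction K with
  | zero => simp [dd_zero]
  | succ K ih =>
    rw [Finset.sum_range_succ, ih]
    have h := KSer_diff K
    linarith

theorem dd_sq_le (m : ℕ) : dd m ^ 2 ≤ 1 / (m + 1) := by
  induction m with
  | zero => simp [dd_zero]
  | succ m ih =>
    rw [dd_succ, mul_pow]
    have h2 : (0 : ℝ) ≤ ((2 * m + 1) / (2 * m + 2)) ^ 2 := by positivity
    calc dd m ^ 2 * ((2 * m + 1) / (2 * m + 2)) ^ 2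
        ≤ 1 / (m + 1) * ((2 * m + 1) / (2 * m + 2)) ^ 2 :=
          mul_le_mul_of_nonneg_right ih h2
      _ ≤ 1 / (((m + 1 : ℕ) : ℝ) + 1) := by
          rw [div_pow, div_mul_div_comm, div_le_div_iff₀ (by positivity) (by positivity)]
          push_cast
          have hm : (0 : ℝ) ≤ m := Nat.cast_nonneg m
          nlinarith [mul_nonneg hm hm, mul_nonneg hm (mul_nonneg hm hm)]

theorem dd_tendsto : Filter.Tendsto dd Filter.atTop (nhds 0) := by
  have h1 : Filter.Tendsto (fun m : ℕ => dd m ^ 2) Filter.atTop (nhds 0) :=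
    squeeze_zero (fun m => sq_nonneg _) dd_sq_le tendsto_one_div_add_atTop_nhds_zero_nat
  have h2 : Filter.Tendsto (fun m : ℕ => √(dd m ^ 2)) Filter.atTop (nhds (√0)) :=
    (Real.continuous_sqrt.tendsto 0).comp h1
  rw [Real.sqrt_zero] at h2
  refine h2.congr (fun m => ?_)
  exact Real.sqrt_sq (dd_pos m).le

theorem summable_dd : Summable (fun m : ℕ => dd m / (2 * m + 2)) := by
  refine summable_of_sum_range_le (c := 1) (fun m => ?_) (fun K => ?_)
  · have h := dd_pos m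
    positivity
  · rw [dd_sum K]
    have h := dd_pos K
    linarith

private theorem KSer_choose (n : ℕ) : Ring.choose ((1 / 2 : ℝ) + n - 1) n = dd n := by
  rw [← Ring.multichoose_eq]
  have h := Ring.factorial_nsmul_multichoose_eq_ascPochhammer (1 / 2 : ℝ) n
  rw [Polynomial.ascPochhammer_smeval_eq_eval, nsmul_eq_mul] at h
  have hf : (n.factorial : ℝ) ≠ 0 := by exact_mod_cast Nat.factorial_ne_zero n
  have key : ∀ k : ℕ, (ascPochhammer ℝ k).eval (1 / 2 : ℝ) = (k.factorial : ℝ) * dd k := by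
    intro k
    induction k with
    | zero => simp [dd_zero]
    | succ k ih =>
      rw [ascPochhammer_succ_eval, ih, Nat.factorial_succ, dd_succ]
      push_cast
      have h2 : (2 * (k : ℝ) + 2) ≠ 0 := by positivity
      field_simp
      ring
  rw [key n] at h
  exact mul_left_cancel₀ hf h

theorem hasSum_inv_sqrt {x : ℝ} (hx : |x| < 1) :
    HasSum (fun m : ℕ => dd m * x ^ (2 * m)) (1 / √(1 - x ^ 2)) := by
  have H := Real.one_div_one_sub_rpow_hasFPowerSeriesOnBall_zero (1 / 2)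
  have hx2 : x ^ 2 < 1 := (sq_lt_one_iff_abs_lt_one x).mpr hx
  have hmem : x ^ 2 ∈ Metric.eball (0 : ℝ) 1 := by
    rw [Metric.mem_eball, edist_zero_right]
    have h : ‖x ^ 2‖ < 1 := by
      rw [Real.norm_eq_abs, abs_of_nonneg (sq_nonneg x)]
      exact hx2
    rw [← ofReal_norm]
    exact (ENNReal.ofReal_lt_one).mpr h
  have h := H.hasSum hmem
  rw [zero_add, ← Real.sqrt_eq_rpow] at h
  have hfun : (fun m : ℕ => dd m * x ^ (2 * m)) = fun m : ℕ =>
      (FormalMultilinearSeries.ofScalars ℝ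
        (fun n : ℕ => Ring.choose ((1 / 2 : ℝ) + n - 1) n) m) (fun _ => x ^ 2) := by
    funext m
    rw [FormalMultilinearSeries.ofScalars_apply_eq, KSer_choose, smul_eq_mul, pow_mul]
  rw [hfun]
  exact h

theorem hasSum_sqrt {x : ℝ} (hx : |x| ≤ 1) :
    HasSum (fun m : ℕ => dd m / (2 * m + 2) * x ^ (2 * m + 2)) (1 - √(1 - x ^ 2)) := by
  rcases hx.lt_or_eq with hlt | heq
  · have hx2 : x ^ 2 < 1 := (sq_lt_one_iff_abs_lt_one x).mpr hlt
    have h := hasSum_inv_sqrt hlt
    have h1 : HasSum (fun m : ℕ => dd (m + 1) * x ^ (2 * (m + 1)))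
        (1 / √(1 - x ^ 2) - 1) := by
      have h2 := (hasSum_nat_add_iff' (f := fun m : ℕ => dd m * x ^ (2 * m)) 1).mpr h
      simpa [dd_zero] using h2
    have h3 := (h.mul_right (x ^ 2)).sub h1
    have hs : 0 < √(1 - x ^ 2) := Real.sqrt_pos.mpr (by linarith)
    have hss : √(1 - x ^ 2) * √(1 - x ^ 2) = 1 - x ^ 2 :=
      Real.mul_self_sqrt (by linarith)
    have hval : 1 / √(1 - x ^ 2) * x ^ 2 - (1 / √(1 - x ^ 2) - 1) = 1 - √(1 - x ^ 2) := by
      field_simp
      nlinarith [hss]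
    rw [hval] at h3
    have hfun : (fun m : ℕ => dd m / (2 * m + 2) * x ^ (2 * m + 2))
        = fun m : ℕ => dd m * x ^ (2 * m) * x ^ 2 - dd (m + 1) * x ^ (2 * (m + 1)) := by
      funext m
      rw [← KSer_diff m, show 2 * (m + 1) = 2 * m + 2 from rfl, pow_add]
      ring
    rw [hfun]
    exact h3
  · have hx2 : x ^ 2 = 1 := by rw [← sq_abs, heq, one_pow]
    have hfun : (fun m : ℕ => dd m / (2 * m + 2) * x ^ (2 * m + 2))
        = fun m : ℕ => dd m / (2 * m + 2) := by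
      funext m
      rw [show 2 * m + 2 = 2 * (m + 1) from rfl, pow_mul, hx2, one_pow, mul_one]
    rw [hfun, hx2, sub_self, Real.sqrt_zero, sub_zero,
      hasSum_iff_tendsto_nat_of_nonneg (fun m => ?_)]
    · have h := (tendsto_const_nhds (x := (1 : ℝ)) (f := Filter.atTop (α := ℕ))).sub dd_tendsto
      rw [sub_zero] at h
      refine h.congr (fun K => ?_)
      exact (dd_sum K).symm
    · have h := dd_pos m
      positivity

theorem cb_nonneg (M h : ℕ) : 0 ≤ cb M h := by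
  unfold cb
  positivity

theorem cb_le_one (M h : ℕ) : cb M h ≤ 1 := by
  unfold cb
  rw [div_le_one (by positivity)]
  have h1 := Nat.choose_le_two_pow (2 * M) (M + h)
  rw [pow_mul] at h1
  have h2 : (2 : ℕ) ^ 2 = 4 := by norm_num
  rw [h2] at h1
  exact_mod_cast h1

theorem cb_zero (M : ℕ) : cb M 0 = dd M := by
  unfold cb dd
  rw [Nat.centralBinom_eq_two_mul_choose, add_zero]

end Pool.Agent.H89.CZ
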