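import Mathlib
import Pool.Agent.H89.CZ.Defs

set_option autoImplicit false

/-!
# NF0: elementary properties of `om z w = Im (inner ℂ z w)` and `area`

`abs_om_le_area`: `‖z‖²‖w‖² ≥ |inner ℂ z w|² = (inner ℝ z w)² + (om z w)²`.
`area_sum`: for real orthonormal `e : Fin 4 → Cn n`: real coordinates.
-/

open Pool.Agent.H61.UProj

noncomputable section

namespace Pool.Agent.H89.CZ

variable {n : ℕ}

private theorem inner_re (x y : Cn n) : (inner ℂ x y : ℂ).re = inner ℝ x y := by
  rw [PiLp.inner_apply, PiLp.inner_apply, Complex.re_sum]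
  refine Finset.sum_congr rfl fun j _ => ?_
  rw [Complex.inner, RCLike.inner_apply]

private theorem rsmul_eq (t : ℝ) (x : Cn n) : t • x = (t : ℂ) • x := by
  ext j
  simp

theorem om_add_left (x y z : Cn n) : om (x + y) z = om x z + om y z := by
  simp [om]

theorem om_add_right (x y z : Cn n) : om x (y + z) = om x y + om x z := by
  simp [om]

theorem om_smul_left (t : ℝ) (x y : Cn n) : om (t • x) y = t * om x y := by
  rw [rsmul_eq, om, om, inner_smul_left, Complex.conj_ofReal]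
  simp

theorem om_smul_right (t : ℝ) (x y : Cn n) : om x (t • y) = t * om x y := by
  rw [rsmul_eq, om, om, inner_smul_right]
  simp

theorem om_swap (x y : Cn n) : om y x = -om x y := by
  rw [om, om, ← inner_conj_symm y x, Complex.conj_im]

theorem om_self (x : Cn n) : om x x = 0 := by
  have h := om_swap x x
  linarith

theorem abs_om_le (x y : Cn n) : |om x y| ≤ ‖x‖ * ‖y‖ :=
  (Complex.abs_im_le_norm _).trans (norm_inner_le_norm x y)

theorem continuous_om : Continuous (fun q : Cn n × Cn n => om q.1 q.2) :=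
  Complex.continuous_im.comp (continuous_fst.inner continuous_snd)

theorem abs_om_le_area (x y : Cn n) : |om x y| ≤ area x y := by
  refine Real.abs_le_sqrt ?_
  have h1 : ‖(inner ℂ x y : ℂ)‖ ^ 2 ≤ ‖x‖ ^ 2 * ‖y‖ ^ 2 := by
    rw [← mul_pow]
    exact pow_le_pow_left₀ (norm_nonneg _) (norm_inner_le_norm x y) 2
  have h2 : ‖(inner ℂ x y : ℂ)‖ ^ 2 = (inner ℝ x y) ^ 2 + om x y ^ 2 := by
    rw [Complex.sq_norm, Complex.normSq_apply, inner_re, om]
    ring
  linarith

theorem om_sq_le_one {a : Fin 2 → Cn n} (ha : Orthonormal ℝ a) : om (a 0) (a 1) ^ 2 ≤ 1 := by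
  have h := abs_om_le (a 0) (a 1)
  rw [ha.1 0, ha.1 1, mul_one] at h
  rw [← sq_abs]
  exact pow_le_one₀ (abs_nonneg _) h

/-- `om`, `area` of combinations of an orthonormal family. -/
theorem om_comb {e : Fin 4 → Cn n} (r s : Fin 4 → ℝ) (h02 : om (e 0) (e 2) = 0)
    (h03 : om (e 0) (e 3) = 0) (h12 : om (e 1) (e 2) = 0) (h13 : om (e 1) (e 3) = 0) :
    om (∑ l, r l • e l) (∑ l, s l • e l) =
      om (e 0) (e 1) * (r 0 * s 1 - r 1 * s 0) + om (e 2) (e 3) * (r 2 * s 3 - r 3 * s 2) := by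
  have h20 : om (e 2) (e 0) = 0 := by rw [om_swap, h02, neg_zero]
  have h30 : om (e 3) (e 0) = 0 := by rw [om_swap, h03, neg_zero]
  have h21 : om (e 2) (e 1) = 0 := by rw [om_swap, h12, neg_zero]
  have h31 : om (e 3) (e 1) = 0 := by rw [om_swap, h13, neg_zero]
  have h10 : om (e 1) (e 0) = -om (e 0) (e 1) := om_swap _ _
  have h32 : om (e 3) (e 2) = -om (e 2) (e 3) := om_swap _ _
  simp only [Fin.sum_univ_four, om_add_left, om_add_right, om_smul_left, om_smul_right, om_self,
    h02, h03, h12, h13, h20, h30, h21, h31, h10, h32]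
  ring

theorem area_comb {e : Fin 4 → Cn n} (he : Orthonormal ℝ e) (r s : Fin 4 → ℝ) :
    area (∑ l, r l • e l) (∑ l, s l • e l) =
      √((∑ l, r l ^ 2) * (∑ l, s l ^ 2) - (∑ l, r l * s l) ^ 2) := by
  have key : ∀ u v : Fin 4 → ℝ, (inner ℝ (∑ l, u l • e l) (∑ l, v l • e l) : ℝ) =
      ∑ l, u l * v l := fun u v => by
    rw [he.inner_sum]
    simp
  have hn : ∀ u : Fin 4 → ℝ, ‖∑ l, u l • e l‖ ^ 2 = ∑ l, u l ^ 2 := fun u => by
    rw [← real_inner_self_eq_norm_sq, key]
    exact Finset.sum_congr rfl fun l _ => (sq (u l)).symm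
  rw [area, hn, hn, key]

/-- the planar area of the projections -/
theorem ar_prj (e : Fin 4 → Cn n) (u v : Cn n) :
    ar (prj e u) (prj e v) =
      √((∑ l, (inner ℝ (e l) u : ℝ) ^ 2) * (∑ l, (inner ℝ (e l) v : ℝ) ^ 2) -
        (∑ l, (inner ℝ (e l) u : ℝ) * inner ℝ (e l) v) ^ 2) := by
  rw [ar]
  congr 1
  simp only [nsq, dotR, prj, Complex.normSq_apply, Fin.sum_univ_four, Complex.add_re,
    Complex.mul_re, Complex.conj_re, Complex.conj_im]
  ring

end Pool.Agent.H89.CZ
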