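import Mathlib
import Pool.Agent.H89.CZ.Defs

set_option autoImplicit false

/-!
# TAlg: algebra of the two-vector `a ∧ b` on the first two coordinates

For `a, b : Cn (m+2)` (only the coordinates `0, 1` matter):
* `wv = Im (conj a0 b0 + conj a1 b1)`, `dv = a0 b1 - a1 b0`, `rv = √(wv² + |dv|²)`,
* `sv = Im (conj a0 b0) - Im (conj a1 b1)`, `zv = conj a0 b1 - a1 conj b0`.

* `sq_eq`: `wv² + |dv|² = sv² + |zv|²`.  (Write `a_j = p_j + i q_j`, `b_j = r_j + i s_j` and `ring`.)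
* `pair2_eq`: `pair2 a b e0 (cs i e0 + sn e1) = ½ (cs wv + sn Re dv + cs sv + sn Re zv)`.  The real
  inner products of `a` with `e0`, `i e0`, `e1` are `Re a0`, `Im a0`, `Re a1`, so the left side is
  `cs (Re a0 Im b0 - Im a0 Re b0) + sn (Re a0 Re b1 - Re a1 Re b0)`.
* `wv_emb`, `dv_emb`, `sv_emb`: let `a' 0 = α a0 + β a1`, `a' 1 = -conj β a0 + conj α a1` and the
  same for `b'`, with `|α|² + |β|² = 1`.  Then `wv a' b' = wv a b`, `dv a' b' = dv a b`,
  `sv a' b' = sv a b (|α|² - |β|²) + 2 Re ((i conj zv) α conj β)`.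
  (`Im (conj (α a0 + β a1) (α b0 + β b1)) = |α|² Im(conj a0 b0) + |β|² Im(conj a1 b1)
  + Im (conj α β (conj a0 b1 - a1 conj b0))`, `sv = 2 Im (conj a0 b0) - wv`, and
  `Im (conj α β ζ) = Re (i conj ζ α conj β)`.)
* `wv_phase`, `dv_phase`, `sv_phase`: `a' j = ζ a_j`, `b' j = ζ b_j` (`j = 0, 1`), `|ζ| = 1`:
  `wv`, `sv` unchanged, `dv` multiplied by `ζ²`.
* `abs_le_rv`: `|cs wv + sn Re (θ dv)| ≤ rv` if `cs² + sn² = 1`, `|θ| = 1`.
* bounds: `wv² / (8 rv) …`: `|(2 wv² + 3 |dv|²)/(8 rv)| ≤ rv`, and `rv ≤ ‖a‖ ‖b‖`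
  (`rv² = |a|²|b|² - (real inner product)²` on the first two coordinates; or crude bound
  `rv ≤ 4 ‖a‖ ‖b‖`).
* continuity of `wv`, `dv`, `rv` in `(a, b)`; continuity of `wv²/rv`, `|dv|²/rv`:
  `x²/√(x²+y²)` is continuous (it is `≤ √(x²+y²)`); only needed: measurability and boundedness.
-/

open Pool.Agent.H61.UProj

noncomputable section

namespace Pool.Agent.H89.CZ

variable {m : ℕ}

def wv (a b : Cn (m + 2)) : ℝ :=
  (starRingEnd ℂ (a 0) * b 0 + starRingEnd ℂ (a 1) * b 1).im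

def dv (a b : Cn (m + 2)) : ℂ := a 0 * b 1 - a 1 * b 0

def rv (a b : Cn (m + 2)) : ℝ := √(wv a b ^ 2 + Complex.normSq (dv a b))

def sv (a b : Cn (m + 2)) : ℝ :=
  (starRingEnd ℂ (a 0) * b 0).im - (starRingEnd ℂ (a 1) * b 1).im

def zv (a b : Cn (m + 2)) : ℂ := starRingEnd ℂ (a 0) * b 1 - a 1 * starRingEnd ℂ (b 0)

theorem sq_eq (a b : Cn (m + 2)) :
    wv a b ^ 2 + Complex.normSq (dv a b) = sv a b ^ 2 + Complex.normSq (zv a b) := by
  simp only [wv, dv, sv, zv, Complex.normSq_apply, Complex.add_re, Complex.add_im, Complex.sub_re,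
    Complex.sub_im, Complex.mul_re, Complex.mul_im, Complex.conj_re, Complex.conj_im]
  ring

private theorem TAlg_single (a : Cn (m + 2)) (k : Fin (m + 2)) (z : ℂ) :
    inner ℝ a (EuclideanSpace.single k z) = (starRingEnd ℂ (a k) * z).re := by
  rw [real_inner_eq]
  congr 1
  rw [Finset.sum_eq_single k]
  · simp
  · intro j _ hj
    simp [hj]
  · intro hk
    exact absurd (Finset.mem_univ k) hk

theorem pair2_eq (a b : Cn (m + 2)) (cs sn : ℝ) :
    pair2 a b (EuclideanSpace.single 0 1)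
      (EuclideanSpace.single 0 (cs * Complex.I) + EuclideanSpace.single 1 (sn : ℂ)) =
    (cs * wv a b + sn * (dv a b).re + cs * sv a b + sn * (zv a b).re) / 2 := by
  rw [pair2, inner_add_right, inner_add_right, TAlg_single, TAlg_single, TAlg_single, TAlg_single,
    TAlg_single, TAlg_single]
  simp only [wv, dv, sv, zv, Complex.add_re, Complex.add_im, Complex.sub_re,
    Complex.sub_im, Complex.mul_re, Complex.mul_im, Complex.conj_re, Complex.conj_im,
    Complex.ofReal_re, Complex.ofReal_im, Complex.I_re, Complex.I_im, Complex.one_re,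
    Complex.one_im]
  ring

theorem emb_eq {a b a' b' : Cn (m + 2)} {α β : ℂ}
    (h : Complex.normSq α + Complex.normSq β = 1)
    (ha0 : a' 0 = α * a 0 + β * a 1)
    (ha1 : a' 1 = -starRingEnd ℂ β * a 0 + starRingEnd ℂ α * a 1)
    (hb0 : b' 0 = α * b 0 + β * b 1)
    (hb1 : b' 1 = -starRingEnd ℂ β * b 0 + starRingEnd ℂ α * b 1) :
    wv a' b' = wv a b ∧ dv a' b' = dv a b ∧
      sv a' b' = sv a b * (Complex.normSq α - Complex.normSq β) +
        2 * ((Complex.I * starRingEnd ℂ (zv a b)) * α * starRingEnd ℂ β).re := by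
  have h' : α * starRingEnd ℂ α + β * starRingEnd ℂ β = 1 := by
    rw [Complex.mul_conj, Complex.mul_conj, ← Complex.ofReal_add, h, Complex.ofReal_one]
  refine ⟨?_, ?_, ?_⟩
  · have h2 := h
    simp only [Complex.normSq_apply] at h2
    simp only [wv, ha0, ha1, hb0, hb1, Complex.add_re, Complex.add_im, Complex.sub_re,
      Complex.sub_im, Complex.mul_re, Complex.mul_im, Complex.conj_re, Complex.conj_im,
      Complex.neg_re, Complex.neg_im]
    linear_combination ((a 0).re * (b 0).im - (a 0).im * (b 0).re + ((a 1).re * (b 1).im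
      - (a 1).im * (b 1).re)) * h2
  · simp only [dv, ha0, ha1, hb0, hb1]
    linear_combination (a 0 * b 1 - a 1 * b 0) * h'
  · simp only [sv, zv, ha0, ha1, hb0, hb1, Complex.normSq_apply, Complex.add_re, Complex.add_im,
      Complex.sub_re, Complex.sub_im, Complex.mul_re, Complex.mul_im, Complex.conj_re,
      Complex.conj_im, Complex.neg_re, Complex.neg_im, Complex.I_re, Complex.I_im]
    ring

theorem phase_eq {a b a' b' : Cn (m + 2)} {ζ : ℂ} (h : Complex.normSq ζ = 1)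
    (ha0 : a' 0 = ζ * a 0) (ha1 : a' 1 = ζ * a 1)
    (hb0 : b' 0 = ζ * b 0) (hb1 : b' 1 = ζ * b 1) :
    wv a' b' = wv a b ∧ dv a' b' = ζ ^ 2 * dv a b ∧ sv a' b' = sv a b := by
  refine ⟨?_, ?_, ?_⟩
  · have h2 := h
    simp only [Complex.normSq_apply] at h2
    simp only [wv, ha0, ha1, hb0, hb1, Complex.add_re, Complex.add_im,
      Complex.mul_re, Complex.mul_im, Complex.conj_re, Complex.conj_im]
    linear_combination ((a 0).re * (b 0).im - (a 0).im * (b 0).re + ((a 1).re * (b 1).im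
      - (a 1).im * (b 1).re)) * h2
  · simp only [dv, ha0, ha1, hb0, hb1]
    ring
  · have h2 := h
    simp only [Complex.normSq_apply] at h2
    simp only [sv, ha0, ha1, hb0, hb1,
      Complex.mul_re, Complex.mul_im, Complex.conj_re, Complex.conj_im]
    linear_combination ((a 0).re * (b 0).im - (a 0).im * (b 0).re - ((a 1).re * (b 1).im
      - (a 1).im * (b 1).re)) * h2

theorem abs_le_rv (a b : Cn (m + 2)) {cs sn : ℝ} (h : cs ^ 2 + sn ^ 2 = 1) {θ : ℂ}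
    (hθ : ‖θ‖ = 1) : |cs * wv a b + sn * (θ * dv a b).re| ≤ rv a b := by
  have hr : (θ * dv a b).re ^ 2 ≤ Complex.normSq (dv a b) := by
    have h1 : Complex.normSq (θ * dv a b) = Complex.normSq (dv a b) := by
      rw [map_mul, Complex.normSq_eq_norm_sq θ, hθ]
      ring
    rw [← h1, Complex.normSq_apply]
    nlinarith [mul_self_nonneg (θ * dv a b).im]
  refine Real.abs_le_sqrt ?_
  have h2 : (cs * wv a b + sn * (θ * dv a b).re) ^ 2 ≤
      (cs ^ 2 + sn ^ 2) * (wv a b ^ 2 + (θ * dv a b).re ^ 2) := by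
    nlinarith [sq_nonneg (cs * (θ * dv a b).re - sn * wv a b)]
  rw [h, one_mul] at h2
  linarith

private theorem TAlg_norm (a : Cn (m + 2)) (k : Fin (m + 2)) : ‖a k‖ ≤ ‖a‖ :=
  PiLp.norm_apply_le a k

theorem rv_le (a b : Cn (m + 2)) : rv a b ≤ 4 * ‖a‖ * ‖b‖ := by
  have ha0 := TAlg_norm a 0
  have ha1 := TAlg_norm a 1
  have hb0 := TAlg_norm b 0
  have hb1 := TAlg_norm b 1
  have hA := norm_nonneg a
  have hB := norm_nonneg b
  have h00 : ‖a 0‖ * ‖b 0‖ ≤ ‖a‖ * ‖b‖ := mul_le_mul ha0 hb0 (norm_nonneg _) hA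
  have h11 : ‖a 1‖ * ‖b 1‖ ≤ ‖a‖ * ‖b‖ := mul_le_mul ha1 hb1 (norm_nonneg _) hA
  have h01 : ‖a 0‖ * ‖b 1‖ ≤ ‖a‖ * ‖b‖ := mul_le_mul ha0 hb1 (norm_nonneg _) hA
  have h10 : ‖a 1‖ * ‖b 0‖ ≤ ‖a‖ * ‖b‖ := mul_le_mul ha1 hb0 (norm_nonneg _) hA
  have hw : |wv a b| ≤ 2 * (‖a‖ * ‖b‖) := by
    calc |wv a b| ≤ ‖starRingEnd ℂ (a 0) * b 0 + starRingEnd ℂ (a 1) * b 1‖ :=
          Complex.abs_im_le_norm _
      _ ≤ ‖starRingEnd ℂ (a 0) * b 0‖ + ‖starRingEnd ℂ (a 1) * b 1‖ := norm_add_le _ _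
      _ = ‖a 0‖ * ‖b 0‖ + ‖a 1‖ * ‖b 1‖ := by
          rw [norm_mul, norm_mul, RCLike.norm_conj, RCLike.norm_conj]
      _ ≤ 2 * (‖a‖ * ‖b‖) := by linarith
  have hd : ‖dv a b‖ ≤ 2 * (‖a‖ * ‖b‖) := by
    calc ‖dv a b‖ ≤ ‖a 0 * b 1‖ + ‖a 1 * b 0‖ := norm_sub_le _ _
      _ = ‖a 0‖ * ‖b 1‖ + ‖a 1‖ * ‖b 0‖ := by rw [norm_mul, norm_mul]
      _ ≤ 2 * (‖a‖ * ‖b‖) := by linarith
  have hX : 0 ≤ ‖a‖ * ‖b‖ := mul_nonneg hA hB
  have hw2 : wv a b ^ 2 ≤ (2 * (‖a‖ * ‖b‖)) ^ 2 := sq_le_sq' (abs_le.1 hw).1 (abs_le.1 hw).2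
  have hd2 : Complex.normSq (dv a b) ≤ (2 * (‖a‖ * ‖b‖)) ^ 2 := by
    rw [Complex.normSq_eq_norm_sq]
    exact pow_le_pow_left₀ (norm_nonneg _) hd 2
  unfold rv
  rw [mul_assoc]
  refine Real.sqrt_le_iff.2 ⟨by positivity, ?_⟩
  nlinarith

theorem rv_nonneg (a b : Cn (m + 2)) : 0 ≤ rv a b := by
  exact Real.sqrt_nonneg _

theorem sq_div_le (a b : Cn (m + 2)) : wv a b ^ 2 / rv a b ≤ rv a b ∧
    Complex.normSq (dv a b) / rv a b ≤ rv a b := by
  have h0 := rv_nonneg a b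
  have h1 : rv a b * rv a b = wv a b ^ 2 + Complex.normSq (dv a b) := by
    unfold rv
    exact Real.mul_self_sqrt (add_nonneg (sq_nonneg _) (Complex.normSq_nonneg _))
  have h2 := Complex.normSq_nonneg (dv a b)
  have h3 := sq_nonneg (wv a b)
  exact ⟨div_le_of_le_mul₀ h0 h0 (by linarith), div_le_of_le_mul₀ h0 h0 (by linarith)⟩

private theorem TAlg_p1 (k : Fin (m + 2)) :
    Continuous (fun q : Cn (m + 2) × Cn (m + 2) => q.1 k) :=
  (EuclideanSpace.proj k : Cn (m + 2) →L[ℂ] ℂ).continuous.comp continuous_fst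

private theorem TAlg_p2 (k : Fin (m + 2)) :
    Continuous (fun q : Cn (m + 2) × Cn (m + 2) => q.2 k) :=
  (EuclideanSpace.proj k : Cn (m + 2) →L[ℂ] ℂ).continuous.comp continuous_snd

private theorem TAlg_c1 (k : Fin (m + 2)) :
    Continuous (fun q : Cn (m + 2) × Cn (m + 2) => starRingEnd ℂ (q.1 k)) :=
  Complex.continuous_conj.comp (TAlg_p1 k)

private theorem TAlg_c2 (k : Fin (m + 2)) :
    Continuous (fun q : Cn (m + 2) × Cn (m + 2) => starRingEnd ℂ (q.2 k)) :=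
  Complex.continuous_conj.comp (TAlg_p2 k)

theorem continuous_wv : Continuous (fun q : Cn (m + 2) × Cn (m + 2) => wv q.1 q.2) := by
  unfold wv
  exact Complex.continuous_im.comp (((TAlg_c1 0).mul (TAlg_p2 0)).add ((TAlg_c1 1).mul (TAlg_p2 1)))

theorem continuous_dv : Continuous (fun q : Cn (m + 2) × Cn (m + 2) => dv q.1 q.2) := by
  unfold dv
  exact ((TAlg_p1 0).mul (TAlg_p2 1)).sub ((TAlg_p1 1).mul (TAlg_p2 0))

theorem continuous_rv : Continuous (fun q : Cn (m + 2) × Cn (m + 2) => rv q.1 q.2) := by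
  unfold rv
  exact ((continuous_wv.pow 2).add (Complex.continuous_normSq.comp continuous_dv)).sqrt

theorem continuous_sv : Continuous (fun q : Cn (m + 2) × Cn (m + 2) => sv q.1 q.2) := by
  unfold sv
  exact (Complex.continuous_im.comp ((TAlg_c1 0).mul (TAlg_p2 0))).sub
    (Complex.continuous_im.comp ((TAlg_c1 1).mul (TAlg_p2 1)))

theorem continuous_zv : Continuous (fun q : Cn (m + 2) × Cn (m + 2) => zv q.1 q.2) := by
  unfold zv
  exact ((TAlg_c1 0).mul (TAlg_p2 1)).sub ((TAlg_p1 1).mul (TAlg_c2 0))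

end Pool.Agent.H89.CZ
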