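import Mathlib
import Pool.Agent.H89.CZ.HB

set_option autoImplicit false

/-!
# TMom: moments of an entry of a Haar distributed matrix in `U(2)`, and the uniform law

Write `x = g 0 0`, `y = g 0 1` (first row of `g`), `|x|² + |y|² = 1`.

`moment_mixed`: `∫ x^p conj(x)^q = 0` for `p ≠ q`: replace `g` by `h * g`, `h = ζ • 1`, `|ζ| = 1`
(`integral_mulLeft`): the integral `I` satisfies `I = ζ^p conj(ζ)^q I`; choose `ζ` with
`ζ^p conj(ζ)^q = ζ^(p-q) ≠ 1` (for example `ζ = exp (i π / (p - q))`).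

`moment`: `∫ |x|^(2k) = 1/(k+1)`.  Put `m_j = ∫ |x|^(2j) |y|^(2(k-j))`, `0 ≤ j ≤ k`.  For
`0 ≤ s ≤ 1` let `h` be the real rotation matrix `!![√s, -√(1-s); √(1-s), √s]`; the `(0,0)` entry
of `g * h` is `√s x + √(1-s) y`, so by `integral_mulRight`
`m_k = ∫ |√s x + √(1-s) y|^(2k) = ∑_{a,b ≤ k} C(k,a) C(k,b) s^((a+b)/2) (1-s)^((2k-a-b)/2)
 ∫ x^a y^(k-a) conj(x)^b conj(y)^(k-b)`.  The terms with `a ≠ b` vanish (replace `g` by
`g * diag(ζ, 1)`).  Hence `m_k = ∑_j C(k,j)² s^j (1-s)^(k-j) m_j` for all `s ∈ [0,1]`.  Since also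
`m_k = m_k (s + 1 - s)^k = ∑_j C(k,j) s^j (1-s)^(k-j) m_k`, and the functions `s^j (1-s)^(k-j)`
are linearly independent (`bernsteinPolynomial.linearIndependent`, or divide by `(1-s)^k` and
compare polynomials in `s/(1-s)`), `C(k,j) m_j = m_k` for all `j`.  Finally
`1 = ∫ (|x|² + |y|²)^k = ∑_j C(k,j) m_j = (k+1) m_k`.
(Any other proof is fine, for instance induction on `k`.)

`law`: `∫ F(|x|²) = ∫_0^1 F(t) dt` for continuous `F : ℝ → ℝ`: true for polynomials by `moment`;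
by the Weierstrass theorem (`exists_polynomial_near_of_continuousOn` on `[0,1]`) both sides are
within `ε` of those of a polynomial, as `|x|² ∈ [0,1]`.
-/

open MeasureTheory Pool.Agent.H61.UProj
open scoped ENNReal

noncomputable section

namespace Pool.Agent.H89.CZ

/-- the entry `(0, 0)` -/
private def TMom_X (g : Un 2) : ℂ := (g : Matrix (Fin 2) (Fin 2) ℂ) 0 0

/-- the entry `(0, 1)` -/
private def TMom_Y (g : Un 2) : ℂ := (g : Matrix (Fin 2) (Fin 2) ℂ) 0 1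

private theorem TMom_contX : Continuous TMom_X := by
  unfold TMom_X
  exact continuous_subtype_val.matrix_elem 0 0

private theorem TMom_contY : Continuous TMom_Y := by
  unfold TMom_Y
  exact continuous_subtype_val.matrix_elem 0 1

private theorem TMom_norm (g : Un 2) : ‖TMom_X g‖ ^ 2 + ‖TMom_Y g‖ ^ 2 = 1 := by
  have h1 : (g : Matrix (Fin 2) (Fin 2) ℂ) * star (g : Matrix (Fin 2) (Fin 2) ℂ) = 1 := Matrix.mem_unitaryGroup_iff.1 g.2
  have h2 := congrFun (congrFun h1 0) 0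
  rw [Matrix.mul_apply, Fin.sum_univ_two, Matrix.star_eq_conjTranspose, Matrix.conjTranspose_apply, Matrix.conjTranspose_apply,
    Matrix.one_apply_eq] at h2
  have h3 : TMom_X g * (starRingEnd ℂ) (TMom_X g) + TMom_Y g * (starRingEnd ℂ) (TMom_Y g) = 1 := h2
  rw [Complex.mul_conj', Complex.mul_conj'] at h3
  exact_mod_cast h3

private theorem TMom_diag_mem {z w : ℂ} (hz : ‖z‖ = 1) (hw : ‖w‖ = 1) :
    (!![z, 0; 0, w] : Matrix (Fin 2) (Fin 2) ℂ) ∈ Matrix.unitaryGroup (Fin 2) ℂ := by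
  have hz' : z * (starRingEnd ℂ) z = 1 := by
    rw [Complex.mul_conj', hz]
    norm_num
  have hw' : w * (starRingEnd ℂ) w = 1 := by
    rw [Complex.mul_conj', hw]
    norm_num
  rw [Matrix.mem_unitaryGroup_iff, Matrix.star_eq_conjTranspose]
  ext i j
  fin_cases i <;> fin_cases j <;> simp [Matrix.mul_apply, Fin.sum_univ_two, hz', hw']

private theorem TMom_rot_mem {c d : ℝ} (h : c ^ 2 + d ^ 2 = 1) :
    (!![(c : ℂ), -(d : ℂ); (d : ℂ), (c : ℂ)] : Matrix (Fin 2) (Fin 2) ℂ) ∈ Matrix.unitaryGroup (Fin 2) ℂ := by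
  have h1 : (c : ℂ) * c + (d : ℂ) * d = 1 := by
    have h2 : c * c + d * d = 1 := by
      rw [← h]
      ring
    exact_mod_cast h2
  have h1' : (d : ℂ) * d + (c : ℂ) * c = 1 := by
    rw [← h1]
    ring
  rw [Matrix.mem_unitaryGroup_iff, Matrix.star_eq_conjTranspose]
  ext i j
  fin_cases i <;> fin_cases j <;> simp [Matrix.mul_apply, Fin.sum_univ_two, h1, h1', mul_comm]

private theorem TMom_mulX (g h : Un 2) : TMom_X (g * h) = TMom_X g * (h : Matrix (Fin 2) (Fin 2) ℂ) 0 0 + TMom_Y g * (h : Matrix (Fin 2) (Fin 2) ℂ) 1 0 := by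
  show ((g : Matrix (Fin 2) (Fin 2) ℂ) * (h : Matrix (Fin 2) (Fin 2) ℂ)) 0 0 = _
  rw [Matrix.mul_apply, Fin.sum_univ_two]
  rfl

private theorem TMom_mulY (g h : Un 2) : TMom_Y (g * h) = TMom_X g * (h : Matrix (Fin 2) (Fin 2) ℂ) 0 1 + TMom_Y g * (h : Matrix (Fin 2) (Fin 2) ℂ) 1 1 := by
  show ((g : Matrix (Fin 2) (Fin 2) ℂ) * (h : Matrix (Fin 2) (Fin 2) ℂ)) 0 1 = _
  rw [Matrix.mul_apply, Fin.sum_univ_two]
  rfl

/-- a unit `ζ` with `ζ ^ p * conj ζ ^ q = -1` -/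
private theorem TMom_root {p q : ℕ} (hpq : p ≠ q) : ∃ z : ℂ, ‖z‖ = 1 ∧ z ^ p * ((starRingEnd ℂ) z) ^ q = -1 := by
  have hne : ((p : ℝ) - (q : ℝ)) ≠ 0 := by
    intro h
    exact hpq (by exact_mod_cast sub_eq_zero.1 h)
  refine ⟨Complex.exp ((Real.pi / ((p : ℝ) - (q : ℝ)) : ℝ) * Complex.I), Complex.norm_exp_ofReal_mul_I _, ?_⟩
  rw [← Complex.exp_conj, ← Complex.exp_nat_mul, ← Complex.exp_nat_mul, ← Complex.exp_add, map_mul, Complex.conj_I, Complex.conj_ofReal]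
  rw [← Complex.exp_pi_mul_I]
  congr 1
  have hne' : ((p : ℂ) - (q : ℂ)) ≠ 0 := by exact_mod_cast hne
  push_cast
  field_simp
  ring

private theorem TMom_mixed2 (a b c : ℕ) {d : ℕ} (hbd : b ≠ d) :
    ∫ g : Un 2, TMom_X g ^ a * TMom_Y g ^ b * ((starRingEnd ℂ) (TMom_X g)) ^ c * ((starRingEnd ℂ) (TMom_Y g)) ^ d ∂(haarU 2) = 0 := by
  obtain ⟨z, hz, hz1⟩ := TMom_root hbd
  have h1 := integral_mulRight (fun g : Un 2 => TMom_X g ^ a * TMom_Y g ^ b * ((starRingEnd ℂ) (TMom_X g)) ^ c * ((starRingEnd ℂ) (TMom_Y g)) ^ d)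
    ⟨_, TMom_diag_mem norm_one hz⟩
  have h2 : ∀ g : Un 2, (TMom_X (g * ⟨_, TMom_diag_mem norm_one hz⟩) ^ a * TMom_Y (g * ⟨_, TMom_diag_mem norm_one hz⟩) ^ b *
      ((starRingEnd ℂ) (TMom_X (g * ⟨_, TMom_diag_mem norm_one hz⟩))) ^ c * ((starRingEnd ℂ) (TMom_Y (g * ⟨_, TMom_diag_mem norm_one hz⟩))) ^ d) =
      -(TMom_X g ^ a * TMom_Y g ^ b * ((starRingEnd ℂ) (TMom_X g)) ^ c * ((starRingEnd ℂ) (TMom_Y g)) ^ d) := by
    intro g
    rw [TMom_mulX, TMom_mulY]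
    have e1 : TMom_X g * (!![(1 : ℂ), 0; 0, z] : Matrix (Fin 2) (Fin 2) ℂ) 0 0 + TMom_Y g * (!![(1 : ℂ), 0; 0, z] : Matrix (Fin 2) (Fin 2) ℂ) 1 0 = TMom_X g := by
      simp
    have e2 : TMom_X g * (!![(1 : ℂ), 0; 0, z] : Matrix (Fin 2) (Fin 2) ℂ) 0 1 + TMom_Y g * (!![(1 : ℂ), 0; 0, z] : Matrix (Fin 2) (Fin 2) ℂ) 1 1 = TMom_Y g * z := by
      simp
    simp only [e1, e2]
    rw [map_mul, mul_pow, mul_pow]
    calc _ = (TMom_X g ^ a * TMom_Y g ^ b * ((starRingEnd ℂ) (TMom_X g)) ^ c * ((starRingEnd ℂ) (TMom_Y g)) ^ d) * (z ^ b * ((starRingEnd ℂ) z) ^ d) := by ring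
      _ = _ := by rw [hz1, mul_neg_one]
  simp only [h2] at h1
  rw [integral_neg] at h1
  exact self_eq_neg.1 h1.symm

private theorem TMom_scale (k : ℕ) (t : ℝ) :
    ∫ g : Un 2, ‖TMom_X g + t * TMom_Y g‖ ^ (2 * k) ∂(haarU 2) = (1 + t ^ 2) ^ k * ∫ g : Un 2, ‖TMom_X g‖ ^ (2 * k) ∂(haarU 2) := by
  have ht : 0 < 1 + t ^ 2 := by positivity
  have hs : 0 < √(1 + t ^ 2) := Real.sqrt_pos.2 ht
  have hs2 : √(1 + t ^ 2) ^ 2 = 1 + t ^ 2 := Real.sq_sqrt ht.le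
  have hcd : (1 / √(1 + t ^ 2)) ^ 2 + (t / √(1 + t ^ 2)) ^ 2 = 1 := by
    rw [div_pow, div_pow, hs2, one_pow, ← add_div, div_self ht.ne']
  have h1 := integral_mulRight (fun g : Un 2 => ‖TMom_X g‖ ^ (2 * k)) ⟨_, TMom_rot_mem hcd⟩
  rw [← h1, ← integral_const_mul]
  congr 1
  funext g
  rw [TMom_mulX]
  have e1 : TMom_X g * (!![((1 / √(1 + t ^ 2) : ℝ) : ℂ), -((t / √(1 + t ^ 2) : ℝ) : ℂ); ((t / √(1 + t ^ 2) : ℝ) : ℂ), ((1 / √(1 + t ^ 2) : ℝ) : ℂ)] :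
      Matrix (Fin 2) (Fin 2) ℂ) 0 0 + TMom_Y g * (!![((1 / √(1 + t ^ 2) : ℝ) : ℂ), -((t / √(1 + t ^ 2) : ℝ) : ℂ); ((t / √(1 + t ^ 2) : ℝ) : ℂ),
      ((1 / √(1 + t ^ 2) : ℝ) : ℂ)] : Matrix (Fin 2) (Fin 2) ℂ) 1 0 = ((1 / √(1 + t ^ 2) : ℝ) : ℂ) * (TMom_X g + t * TMom_Y g) := by
    have hs' : ((√(1 + t ^ 2) : ℝ) : ℂ) ≠ 0 := by exact_mod_cast hs.ne'
    simp only [Matrix.of_apply, Matrix.cons_val_zero, Matrix.cons_val_one, Matrix.cons_val', Matrix.cons_val_fin_one]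
    push_cast
    field_simp
  simp only [e1]
  rw [norm_mul, mul_pow, Complex.norm_real, Real.norm_of_nonneg (by positivity), pow_mul (1 / √(1 + t ^ 2)), div_pow, hs2, one_pow, ← mul_assoc,
    ← mul_pow, mul_one_div_cancel ht.ne', one_pow, one_mul]

private theorem TMom_sq (k : ℕ) (z : ℂ) : ((‖z‖ ^ (2 * k) : ℝ) : ℂ) = z ^ k * ((starRingEnd ℂ) z) ^ k := by
  rw [← mul_pow, Complex.mul_conj', pow_mul]
  push_cast
  rfl

/-- the moments `∫ |x| ^ (2 (k - j)) |y| ^ (2 j)` -/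
private def TMom_n (k j : ℕ) : ℝ := ∫ g : Un 2, (‖TMom_X g‖ ^ 2) ^ (k - j) * (‖TMom_Y g‖ ^ 2) ^ j ∂(haarU 2)

private theorem TMom_expand (k : ℕ) (t : ℝ) :
    ∫ g : Un 2, ‖TMom_X g + t * TMom_Y g‖ ^ (2 * k) ∂(haarU 2) = ∑ j ∈ Finset.range (k + 1), ((k.choose j : ℝ)) ^ 2 * TMom_n k j * (t ^ 2) ^ j := by
  have hX := TMom_contX
  have hY := TMom_contY
  have hcX : Continuous fun g : Un 2 => (starRingEnd ℂ) (TMom_X g) := Complex.continuous_conj.comp hX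
  have hcY : Continuous fun g : Un 2 => (starRingEnd ℂ) (TMom_Y g) := Complex.continuous_conj.comp hY
  have h1 : ((∫ g : Un 2, ‖TMom_X g + t * TMom_Y g‖ ^ (2 * k) ∂(haarU 2) : ℝ) : ℂ) =
      ∫ g : Un 2, ∑ i ∈ Finset.range (k + 1), ∑ j ∈ Finset.range (k + 1), ((k.choose i : ℂ) * (k.choose j : ℂ) * (t : ℂ) ^ (i + j)) *
        (TMom_X g ^ (k - i) * TMom_Y g ^ i * ((starRingEnd ℂ) (TMom_X g)) ^ (k - j) * ((starRingEnd ℂ) (TMom_Y g)) ^ j) ∂(haarU 2) := by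
    rw [← integral_complex_ofReal]
    congr 1
    funext g
    have e1 := TMom_sq k (TMom_X g + t * TMom_Y g)
    rw [e1, map_add, map_mul, Complex.conj_ofReal, add_comm (TMom_X g), add_comm ((starRingEnd ℂ) (TMom_X g)),
      add_pow, add_pow, Finset.sum_mul_sum]
    refine Finset.sum_congr rfl fun i _ => Finset.sum_congr rfl fun j _ => ?_
    rw [mul_pow, mul_pow, pow_add]
    ring
  have h2 : ∀ i j : ℕ, Integrable (fun g : Un 2 => ((k.choose i : ℂ) * (k.choose j : ℂ) * (t : ℂ) ^ (i + j)) *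
        (TMom_X g ^ (k - i) * TMom_Y g ^ i * ((starRingEnd ℂ) (TMom_X g)) ^ (k - j) * ((starRingEnd ℂ) (TMom_Y g)) ^ j)) (haarU 2) := by
    intro i j
    refine integrable_of_continuous ?_
    exact continuous_const.mul ((((hX.pow _).mul (hY.pow _)).mul (hcX.pow _)).mul (hcY.pow _))
  rw [integral_finsetSum _ (fun i _ => integrable_finsetSum _ fun j _ => h2 i j)] at h1
  have h3 : ∀ i ∈ Finset.range (k + 1), ∫ g : Un 2, ∑ j ∈ Finset.range (k + 1), ((k.choose i : ℂ) * (k.choose j : ℂ) * (t : ℂ) ^ (i + j)) *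
        (TMom_X g ^ (k - i) * TMom_Y g ^ i * ((starRingEnd ℂ) (TMom_X g)) ^ (k - j) * ((starRingEnd ℂ) (TMom_Y g)) ^ j) ∂(haarU 2) =
      (((k.choose i : ℝ) ^ 2 * TMom_n k i * (t ^ 2) ^ i : ℝ) : ℂ) := by
    intro i hi
    rw [integral_finsetSum _ (fun j _ => h2 i j), Finset.sum_eq_single i]
    · rw [integral_const_mul]
      have e1 : (TMom_n k i : ℂ) = ∫ g : Un 2, (TMom_X g ^ (k - i) * TMom_Y g ^ i * ((starRingEnd ℂ) (TMom_X g)) ^ (k - i) *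
          ((starRingEnd ℂ) (TMom_Y g)) ^ i) ∂(haarU 2) := by
        unfold TMom_n
        rw [← integral_complex_ofReal]
        congr 1
        funext g
        rw [← pow_mul, ← pow_mul, Complex.ofReal_mul, TMom_sq, TMom_sq]
        ring
      rw [← e1]
      push_cast
      ring
    · intro j _ hji
      rw [integral_const_mul, TMom_mixed2 _ _ _ (Ne.symm hji), mul_zero]
    · intro h
      exact absurd hi h
  rw [Finset.sum_congr rfl h3, ← Complex.ofReal_sum] at h1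
  exact_mod_cast h1

private theorem TMom_coeff (k j : ℕ) (hj : j ≤ k) : (k.choose j : ℝ) * TMom_n k j = ∫ g : Un 2, ‖TMom_X g‖ ^ (2 * k) ∂(haarU 2) := by
  obtain ⟨m, hm⟩ : ∃ m : ℝ, m = ∫ g : Un 2, ‖TMom_X g‖ ^ (2 * k) ∂(haarU 2) := ⟨_, rfl⟩
  rw [← hm]
  have hP : (∑ i ∈ Finset.range (k + 1), Polynomial.C ((k.choose i : ℝ) ^ 2 * TMom_n k i) * Polynomial.X ^ i - Polynomial.C m * (1 + Polynomial.X) ^ k :
      Polynomial ℝ) = 0 := by
    refine Polynomial.eq_zero_of_infinite_isRoot _ ((Set.Ioi_infinite (0 : ℝ)).mono ?_)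
    intro v hv
    have hv0 : (0 : ℝ) ≤ v := le_of_lt hv
    show Polynomial.IsRoot _ v
    rw [Polynomial.IsRoot.def, Polynomial.eval_sub, Polynomial.eval_finsetSum, Polynomial.eval_mul, Polynomial.eval_C, Polynomial.eval_pow,
      Polynomial.eval_add, Polynomial.eval_one, Polynomial.eval_X]
    have h1 := TMom_scale k (√v)
    rw [TMom_expand, Real.sq_sqrt hv0, ← hm] at h1
    rw [sub_eq_zero, mul_comm, ← h1]
    refine Finset.sum_congr rfl fun i _ => ?_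
    rw [Polynomial.eval_mul, Polynomial.eval_C, Polynomial.eval_pow, Polynomial.eval_X]
  have h1 := congrArg (fun P => Polynomial.coeff P j) hP
  simp only [Polynomial.coeff_sub, Polynomial.finsetSum_coeff, Polynomial.coeff_C_mul, Polynomial.coeff_X_pow, Polynomial.coeff_zero,
    Polynomial.coeff_one_add_X_pow] at h1
  rw [Finset.sum_eq_single j, if_pos rfl, mul_one, sub_eq_zero] at h1
  · have hc : (k.choose j : ℝ) ≠ 0 := by
      have := Nat.choose_pos hj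
      exact_mod_cast this.ne'
    refine mul_right_cancel₀ hc ?_
    rw [← h1]
    ring
  · intro i _ hij
    rw [if_neg (Ne.symm hij), mul_zero]
  · intro h
    exact absurd (Finset.mem_range.2 (by omega)) h

private theorem TMom_moment (k : ℕ) : ∫ g : Un 2, ‖TMom_X g‖ ^ (2 * k) ∂(haarU 2) = 1 / (k + 1) := by
  obtain ⟨m, hm⟩ : ∃ m : ℝ, m = ∫ g : Un 2, ‖TMom_X g‖ ^ (2 * k) ∂(haarU 2) := ⟨_, rfl⟩
  have hX := TMom_contX
  have hY := TMom_contY
  have h1 : (1 : ℝ) = ∫ g : Un 2, ∑ j ∈ Finset.range (k + 1), (k.choose j : ℝ) * ((‖TMom_X g‖ ^ 2) ^ (k - j) * (‖TMom_Y g‖ ^ 2) ^ j) ∂(haarU 2) := by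
    have e1 : ∀ g : Un 2, ∑ j ∈ Finset.range (k + 1), (k.choose j : ℝ) * ((‖TMom_X g‖ ^ 2) ^ (k - j) * (‖TMom_Y g‖ ^ 2) ^ j) = 1 := by
      intro g
      have e2 := add_pow (‖TMom_Y g‖ ^ 2) (‖TMom_X g‖ ^ 2) k
      rw [add_comm, TMom_norm, one_pow] at e2
      rw [e2]
      refine Finset.sum_congr rfl fun j _ => ?_
      ring
    simp only [e1]
    simp
  have hX2 : Continuous fun g : Un 2 => ‖TMom_X g‖ ^ 2 := hX.norm.pow 2
  have hY2 : Continuous fun g : Un 2 => ‖TMom_Y g‖ ^ 2 := hY.norm.pow 2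
  have hint : ∀ j : ℕ, Integrable (fun g : Un 2 => (k.choose j : ℝ) * ((‖TMom_X g‖ ^ 2) ^ (k - j) * (‖TMom_Y g‖ ^ 2) ^ j)) (haarU 2) := fun j =>
    integrable_of_continuous (continuous_const.mul ((hX2.pow _).mul (hY2.pow _)))
  rw [integral_finsetSum _ (fun j _ => hint j)] at h1
  have h2 : ∀ j ∈ Finset.range (k + 1), ∫ g : Un 2, (k.choose j : ℝ) * ((‖TMom_X g‖ ^ 2) ^ (k - j) * (‖TMom_Y g‖ ^ 2) ^ j) ∂(haarU 2) = m := by
    intro j hj
    rw [integral_const_mul, hm]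
    exact TMom_coeff k j (Nat.lt_succ_iff.1 (Finset.mem_range.1 hj))
  rw [Finset.sum_congr rfl h2, Finset.sum_const, Finset.card_range, nsmul_eq_mul] at h1
  rw [← hm, eq_div_iff (by positivity)]
  push_cast at h1
  linarith

theorem moment (k : ℕ) :
    ∫ g : Un 2, ‖(g : Matrix (Fin 2) (Fin 2) ℂ) 0 0‖ ^ (2 * k) ∂(haarU 2) = 1 / (k + 1) :=
  TMom_moment k

theorem moment_mixed {p q : ℕ} (hpq : p ≠ q) :
    ∫ g : Un 2, (g : Matrix (Fin 2) (Fin 2) ℂ) 0 0 ^ p *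
      (starRingEnd ℂ ((g : Matrix (Fin 2) (Fin 2) ℂ) 0 0)) ^ q ∂(haarU 2) = 0 := by
  obtain ⟨z, hz, hz1⟩ := TMom_root hpq
  have h1 := integral_mulRight (fun g : Un 2 => TMom_X g ^ p * ((starRingEnd ℂ) (TMom_X g)) ^ q) ⟨_, TMom_diag_mem hz norm_one⟩
  have h2 : ∀ g : Un 2, (TMom_X (g * ⟨_, TMom_diag_mem hz norm_one⟩) ^ p * ((starRingEnd ℂ) (TMom_X (g * ⟨_, TMom_diag_mem hz norm_one⟩))) ^ q) =
      -(TMom_X g ^ p * ((starRingEnd ℂ) (TMom_X g)) ^ q) := by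
    intro g
    rw [TMom_mulX]
    have e1 : TMom_X g * (!![z, 0; 0, (1 : ℂ)] : Matrix (Fin 2) (Fin 2) ℂ) 0 0 + TMom_Y g * (!![z, 0; 0, (1 : ℂ)] : Matrix (Fin 2) (Fin 2) ℂ) 1 0 =
        TMom_X g * z := by
      simp
    simp only [e1]
    rw [map_mul, mul_pow, mul_pow]
    calc _ = (TMom_X g ^ p * ((starRingEnd ℂ) (TMom_X g)) ^ q) * (z ^ p * ((starRingEnd ℂ) z) ^ q) := by ring
      _ = _ := by rw [hz1, mul_neg_one]
  simp only [h2] at h1
  rw [integral_neg] at h1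
  exact self_eq_neg.1 h1.symm

theorem law {F : ℝ → ℝ} (hF : Continuous F) :
    ∫ g : Un 2, F (‖(g : Matrix (Fin 2) (Fin 2) ℂ) 0 0‖ ^ 2) ∂(haarU 2) =
      ∫ t in (0 : ℝ)..1, F t := by
  have hX := TMom_contX
  have hmem : ∀ g : Un 2, ‖TMom_X g‖ ^ 2 ∈ Set.Icc (0 : ℝ) 1 := fun g => ⟨by positivity, by
    have h1 := TMom_norm g
    have h2 : 0 ≤ ‖TMom_Y g‖ ^ 2 := by positivity
    linarith⟩
  have hX2 : Continuous fun g : Un 2 => ‖TMom_X g‖ ^ 2 := hX.norm.pow 2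
  have hI : ∀ {G : ℝ → ℝ}, Continuous G → Integrable (fun g : Un 2 => G (‖TMom_X g‖ ^ 2)) (haarU 2) := fun hG =>
    integrable_of_continuous (hG.comp hX2)
  have hpoly : ∀ P : Polynomial ℝ, ∫ g : Un 2, P.eval (‖TMom_X g‖ ^ 2) ∂(haarU 2) = ∫ t in (0 : ℝ)..1, P.eval t := by
    intro P
    induction P using Polynomial.induction_on' with
    | add P Q hP hQ =>
      simp only [Polynomial.eval_add]
      rw [integral_add (hI P.continuous) (hI Q.continuous),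
        intervalIntegral.integral_add (P.continuous.intervalIntegrable _ _) (Q.continuous.intervalIntegrable _ _), hP, hQ]
    | monomial n a =>
      simp only [Polynomial.eval_monomial]
      rw [integral_const_mul, intervalIntegral.integral_const_mul, integral_pow]
      simp only [← pow_mul]
      rw [TMom_moment]
      simp
  show ∫ g : Un 2, F (‖TMom_X g‖ ^ 2) ∂(haarU 2) = _
  refine eq_of_forall_dist_le fun ε hε => ?_
  obtain ⟨P, hP⟩ := exists_polynomial_near_of_continuousOn 0 1 F hF.continuousOn (ε / 2) (by positivity)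
  have h1 : |∫ g : Un 2, F (‖TMom_X g‖ ^ 2) ∂(haarU 2) - ∫ g : Un 2, P.eval (‖TMom_X g‖ ^ 2) ∂(haarU 2)| ≤ ε / 2 := by
    rw [← integral_sub (hI hF) (hI P.continuous)]
    have h2 := norm_integral_le_of_norm_le_const (μ := haarU 2) (f := fun g : Un 2 => F (‖TMom_X g‖ ^ 2) - P.eval (‖TMom_X g‖ ^ 2)) (C := ε / 2)
      (Filter.Eventually.of_forall fun g => by
        rw [Real.norm_eq_abs, abs_sub_comm]
        exact (hP _ (hmem g)).le)
    simpa using h2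
  have h3 : |(∫ t in (0 : ℝ)..1, F t) - ∫ t in (0 : ℝ)..1, P.eval t| ≤ ε / 2 := by
    rw [← intervalIntegral.integral_sub (hF.intervalIntegrable _ _) (P.continuous.intervalIntegrable _ _)]
    have h4 := intervalIntegral.norm_integral_le_of_norm_le_const (a := (0 : ℝ)) (b := 1) (f := fun t => F t - P.eval t) (C := ε / 2)
      (fun t ht => by
        rw [Set.uIoc_of_le zero_le_one] at ht
        rw [Real.norm_eq_abs, abs_sub_comm]
        exact (hP t ⟨ht.1.le, ht.2⟩).le)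
    simpa using h4
  rw [hpoly P] at h1
  rw [Real.dist_eq]
  rw [abs_sub_comm] at h3
  have h5 := abs_sub_le (∫ g : Un 2, F (‖TMom_X g‖ ^ 2) ∂(haarU 2)) (∫ t in (0 : ℝ)..1, P.eval t) (∫ t in (0 : ℝ)..1, F t)
  linarith

end Pool.Agent.H89.CZ
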