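import Mathlib
import Pool.Agent.H89.CZ.TMom

set_option autoImplicit false

/-!
# TArch: the theorem of Archimedes in the form needed

For real `p`, complex `ζ`, `ρ = √(p² + |ζ|²) > 0` and real `C`, `|C| ≤ ρ`:
`∫ |C + p (|g00|² - |g01|²) + 2 Re (ζ g00 conj g01)| dg = (C² + ρ²) / (2ρ)` over `g ∈ U(2)`.

Proof.  Let `H = !![p, ζ; conj ζ, -p]` (Hermitian, trace `0`, determinant `-ρ²`), and let `r` be
the first row of `g`.  Then `p (|g00|² - |g01|²) + 2 Re (ζ g00 conj g01) = Re (r Hᵀ' rᴴ)` with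
`r H' rᴴ = p g00 conj g00 + conj-symmetric off-diagonal terms - p g01 conj g01`
(take `H' = !![p, ζ; conj ζ, -p]`: `r H' rᴴ = g00 p conj g00 + g00 ζ conj g01 + g01 conj ζ conj g00
 - g01 p conj g01`).  There is a unitary `V` with `V H' Vᴴ = diag(ρ, -ρ)`, i.e.
`H' = Vᴴ diag(ρ,-ρ) V`; explicit choice: if `(v0, v1)` is a unit vector with
`H' (conj v) = ρ (conj v)`, ... (or use the spectral theorem `Matrix.IsHermitian`, eigenvalues are
`±ρ` by trace and determinant).  Then `r H' rᴴ = (r Vᴴ) diag(ρ,-ρ) (r Vᴴ)ᴴ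
= ρ (|(g Vᴴ)00|² - |(g Vᴴ)01|²) = ρ (2 |(g Vᴴ)00|² - 1)` because the first row of the unitary
matrix `g Vᴴ` has norm 1.  By right invariance and `law`, the integral is
`∫_0^1 |C + ρ (2t - 1)| dt = (1/(2ρ)) ∫_{C-ρ}^{C+ρ} |s| ds = ((C+ρ)² + (ρ-C)²)/(4ρ)
= (C² + ρ²)/(2ρ)`.
-/

open MeasureTheory Pool.Agent.H61.UProj
open scoped ENNReal

noncomputable section

namespace Pool.Agent.H89.CZ

private theorem TArch_lin (c d a b : ℝ) : ∫ t in a..b, (c + d * t) = c * (b - a) + d * ((b ^ 2 - a ^ 2) / 2) := by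
  rw [intervalIntegral.integral_add (by simp) (by apply Continuous.intervalIntegrable; fun_prop),
    intervalIntegral.integral_const, intervalIntegral.integral_const_mul, integral_id, smul_eq_mul]
  ring

private theorem TArch_int {C ρ : ℝ} (hρ : 0 < ρ) (hC : |C| ≤ ρ) :
    ∫ t in (0 : ℝ)..1, |C + ρ * (2 * t - 1)| = (C ^ 2 + ρ ^ 2) / (2 * ρ) := by
  obtain ⟨h1, h2⟩ := abs_le.1 hC
  obtain ⟨t0, ht0⟩ : ∃ t0 : ℝ, t0 = (ρ - C) / (2 * ρ) := ⟨_, rfl⟩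
  have h3 : 2 * ρ * t0 = ρ - C := by rw [ht0]; field_simp
  have h0 : 0 ≤ t0 := by rw [ht0]; apply div_nonneg <;> linarith
  have h4 : t0 ≤ 1 := by rw [ht0, div_le_one (by linarith)]; linarith
  have hi : ∀ a b : ℝ, IntervalIntegrable (fun t => |C + ρ * (2 * t - 1)|) volume a b := fun a b => by
    apply Continuous.intervalIntegrable; fun_prop
  rw [← intervalIntegral.integral_add_adjacent_intervals (hi 0 t0) (hi t0 1)]
  have e1 : ∫ t in (0 : ℝ)..t0, |C + ρ * (2 * t - 1)| = ∫ t in (0 : ℝ)..t0, (-(C - ρ) + (-(2 * ρ)) * t) := by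
    apply intervalIntegral.integral_congr
    intro t ht
    rw [Set.uIcc_of_le h0] at ht
    have : C + ρ * (2 * t - 1) ≤ 0 := by nlinarith [ht.2]
    simp only
    rw [abs_of_nonpos this]
    ring
  have e2 : ∫ t in t0..(1 : ℝ), |C + ρ * (2 * t - 1)| = ∫ t in t0..(1 : ℝ), ((C - ρ) + (2 * ρ) * t) := by
    apply intervalIntegral.integral_congr
    intro t ht
    rw [Set.uIcc_of_le h4] at ht
    have : 0 ≤ C + ρ * (2 * t - 1) := by nlinarith [ht.1]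
    simp only
    rw [abs_of_nonneg this]
    ring
  rw [e1, e2, TArch_lin, TArch_lin, ht0]
  field_simp
  ring

private theorem TArch_row (g : Un 2) :
    ‖(g : Matrix (Fin 2) (Fin 2) ℂ) 0 1‖ ^ 2 = 1 - ‖(g : Matrix (Fin 2) (Fin 2) ℂ) 0 0‖ ^ 2 := by
  have h : (g : Matrix (Fin 2) (Fin 2) ℂ) * star (g : Matrix (Fin 2) (Fin 2) ℂ) = 1 :=
    Matrix.mem_unitaryGroup_iff.1 g.2
  have h1 := congrFun (congrFun h 0) 0
  rw [Matrix.mul_apply, Fin.sum_univ_two, Matrix.star_apply, Matrix.star_apply, Matrix.one_apply_eq] at h1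
  have h2 : ∀ z : ℂ, z * star z = ((‖z‖ ^ 2 : ℝ) : ℂ) := fun z => by
    rw [Complex.sq_norm]
    exact Complex.mul_conj z
  rw [h2, h2] at h1
  have h3 : ‖(g : Matrix (Fin 2) (Fin 2) ℂ) 0 0‖ ^ 2 + ‖(g : Matrix (Fin 2) (Fin 2) ℂ) 0 1‖ ^ 2 = 1 := by
    exact_mod_cast h1
  linarith

private theorem TArch_uv {ρ p : ℝ} {ζ : ℂ} (hρ : 0 < ρ) (h : ρ ^ 2 = p ^ 2 + Complex.normSq ζ) :
    ∃ u v : ℂ, u * starRingEnd ℂ u = (((ρ + p) / (2 * ρ) : ℝ) : ℂ) ∧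
      v * starRingEnd ℂ v = (((ρ - p) / (2 * ρ) : ℝ) : ℂ) ∧ 2 * (ρ : ℂ) * (u * starRingEnd ℂ v) = ζ := by
  have hz := Complex.normSq_nonneg ζ
  have hp1 : -ρ ≤ p := by nlinarith
  rcases eq_or_lt_of_le hp1 with hp | hp
  · have hz0 : Complex.normSq ζ = 0 := by nlinarith
    have hζ : ζ = 0 := Complex.normSq_eq_zero.1 hz0
    refine ⟨0, 1, ?_, ?_, ?_⟩
    · rw [← hp]; simp
    · rw [← hp]
      have : (ρ - -ρ) / (2 * ρ) = 1 := by field_simp; ring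
      rw [this]; simp
    · rw [hζ]; simp
  · obtain ⟨a, ha⟩ : ∃ a : ℝ, a = √((ρ + p) / (2 * ρ)) := ⟨_, rfl⟩
    have hpos : 0 < (ρ + p) / (2 * ρ) := div_pos (by linarith) (by linarith)
    have ha2 : a * a = (ρ + p) / (2 * ρ) := by rw [ha]; exact Real.mul_self_sqrt hpos.le
    have ha0 : 0 < a := by rw [ha]; exact Real.sqrt_pos.2 hpos
    have haC : (a : ℂ) ≠ 0 := by exact_mod_cast ha0.ne'
    have hρC : (ρ : ℂ) ≠ 0 := by exact_mod_cast hρ.ne'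
    refine ⟨(a : ℂ), starRingEnd ℂ ζ / (2 * ρ * a), ?_, ?_, ?_⟩
    · rw [Complex.conj_ofReal, ← Complex.ofReal_mul, ha2]
    · have e : starRingEnd ℂ ζ / (2 * ρ * a) * starRingEnd ℂ (starRingEnd ℂ ζ / (2 * ρ * a)) =
          (((Complex.normSq ζ) / (4 * ρ ^ 2 * (a * a)) : ℝ) : ℂ) := by
        rw [map_div₀, Complex.conj_conj, map_mul, map_mul, Complex.conj_ofReal, Complex.conj_ofReal, map_ofNat]
        push_cast
        rw [← Complex.mul_conj ζ]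
        field_simp
        ring
      rw [e, ha2]
      congr 1
      have : Complex.normSq ζ = (ρ - p) * (ρ + p) := by nlinarith
      rw [this]
      have h5 : ρ + p ≠ 0 := by linarith
      field_simp
      try ring
    · rw [map_div₀, Complex.conj_conj, map_mul, map_mul, Complex.conj_ofReal, Complex.conj_ofReal, map_ofNat]
      field_simp

private theorem TArch_id {ρ p : ℝ} {ζ u v x y : ℂ} (hρ : 0 < ρ)
    (hu : u * starRingEnd ℂ u = (((ρ + p) / (2 * ρ) : ℝ) : ℂ))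
    (hv : v * starRingEnd ℂ v = (((ρ - p) / (2 * ρ) : ℝ) : ℂ)) (huv : 2 * (ρ : ℂ) * (u * starRingEnd ℂ v) = ζ) :
    p * (‖x‖ ^ 2 - ‖y‖ ^ 2) + 2 * (ζ * x * starRingEnd ℂ y).re =
      ρ * (‖x * u + y * v‖ ^ 2 - ‖x * -starRingEnd ℂ v + y * starRingEnd ℂ u‖ ^ 2) := by
  have h2 : ∀ z : ℂ, ((‖z‖ ^ 2 : ℝ) : ℂ) = z * starRingEnd ℂ z := fun z => by
    rw [Complex.sq_norm]
    exact (Complex.mul_conj z).symm
  have h3 : ((2 * (ζ * x * starRingEnd ℂ y).re : ℝ) : ℂ) = ζ * x * starRingEnd ℂ y + starRingEnd ℂ (ζ * x * starRingEnd ℂ y) :=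
    (Complex.add_conj _).symm
  have hρC : (ρ : ℂ) ≠ 0 := by exact_mod_cast hρ.ne'
  have huv' := congrArg (starRingEnd ℂ) huv
  simp only [map_mul, Complex.conj_conj, Complex.conj_ofReal, map_ofNat] at huv'
  have hd : (ρ : ℂ) * (u * starRingEnd ℂ u - v * starRingEnd ℂ v) = p := by
    rw [hu, hv]
    push_cast
    field_simp
    ring
  apply Complex.ofReal_injective
  rw [Complex.ofReal_add, Complex.ofReal_mul, Complex.ofReal_sub, h2, h2, h3, Complex.ofReal_mul, Complex.ofReal_sub, h2, h2]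
  simp only [map_mul, map_add, map_neg, Complex.conj_conj]
  linear_combination (-(x * starRingEnd ℂ x - y * starRingEnd ℂ y)) * hd - (x * starRingEnd ℂ y) * huv - (starRingEnd ℂ x * y) * huv'

theorem archimedes (C p : ℝ) (ζ : ℂ) (hρ : 0 < p ^ 2 + Complex.normSq ζ)
    (hC : |C| ≤ √(p ^ 2 + Complex.normSq ζ)) :
    ∫ g : Un 2, |C + p * (‖(g : Matrix (Fin 2) (Fin 2) ℂ) 0 0‖ ^ 2 -
        ‖(g : Matrix (Fin 2) (Fin 2) ℂ) 0 1‖ ^ 2) +
        2 * (ζ * (g : Matrix (Fin 2) (Fin 2) ℂ) 0 0 *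
          starRingEnd ℂ ((g : Matrix (Fin 2) (Fin 2) ℂ) 0 1)).re| ∂(haarU 2) =
      (C ^ 2 + (p ^ 2 + Complex.normSq ζ)) / (2 * √(p ^ 2 + Complex.normSq ζ)) := by
  obtain ⟨ρ, hρd⟩ : ∃ ρ : ℝ, ρ = √(p ^ 2 + Complex.normSq ζ) := ⟨_, rfl⟩
  have hρ0 : 0 < ρ := by rw [hρd]; exact Real.sqrt_pos.2 hρ
  have hρ2 : ρ ^ 2 = p ^ 2 + Complex.normSq ζ := by rw [hρd]; exact Real.sq_sqrt hρ.le
  rw [← hρd] at hC ⊢
  rw [← hρ2]
  obtain ⟨u, v, hu, hv, huv⟩ := TArch_uv hρ0 hρ2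
  have huv1 : u * starRingEnd ℂ u + v * starRingEnd ℂ v = 1 := by
    rw [hu, hv, ← Complex.ofReal_add]
    have : (ρ + p) / (2 * ρ) + (ρ - p) / (2 * ρ) = 1 := by field_simp; ring
    rw [this, Complex.ofReal_one]
  have hW : !![u, -starRingEnd ℂ v; v, starRingEnd ℂ u] ∈ Matrix.unitaryGroup (Fin 2) ℂ := by
    rw [Matrix.mem_unitaryGroup_iff]
    ext i j
    rw [Matrix.mul_apply, Fin.sum_univ_two]
    fin_cases i <;> fin_cases j
    · simp [Matrix.star_apply]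
      linear_combination huv1
    · simp [Matrix.star_apply]
      ring
    · simp [Matrix.star_apply]
      ring
    · simp [Matrix.star_apply]
      linear_combination huv1
  obtain ⟨W, hWd⟩ : ∃ W : Un 2, W = ⟨_, hW⟩ := ⟨_, rfl⟩
  have hmul : ∀ g : Un 2, ((g * W : Un 2) : Matrix (Fin 2) (Fin 2) ℂ) 0 0 =
      (g : Matrix (Fin 2) (Fin 2) ℂ) 0 0 * u + (g : Matrix (Fin 2) (Fin 2) ℂ) 0 1 * v ∧
      ((g * W : Un 2) : Matrix (Fin 2) (Fin 2) ℂ) 0 1 =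
      (g : Matrix (Fin 2) (Fin 2) ℂ) 0 0 * -starRingEnd ℂ v + (g : Matrix (Fin 2) (Fin 2) ℂ) 0 1 * starRingEnd ℂ u := by
    intro g
    rw [hWd]
    constructor
    · change ((g : Matrix (Fin 2) (Fin 2) ℂ) * !![u, -starRingEnd ℂ v; v, starRingEnd ℂ u]) 0 0 = _
      rw [Matrix.mul_apply, Fin.sum_univ_two]
      simp
    · change ((g : Matrix (Fin 2) (Fin 2) ℂ) * !![u, -starRingEnd ℂ v; v, starRingEnd ℂ u]) 0 1 = _
      rw [Matrix.mul_apply, Fin.sum_univ_two]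
      simp
  have key : ∀ g : Un 2, |C + p * (‖(g : Matrix (Fin 2) (Fin 2) ℂ) 0 0‖ ^ 2 -
        ‖(g : Matrix (Fin 2) (Fin 2) ℂ) 0 1‖ ^ 2) +
        2 * (ζ * (g : Matrix (Fin 2) (Fin 2) ℂ) 0 0 *
          starRingEnd ℂ ((g : Matrix (Fin 2) (Fin 2) ℂ) 0 1)).re| =
      (fun h : Un 2 => |C + ρ * (2 * ‖(h : Matrix (Fin 2) (Fin 2) ℂ) 0 0‖ ^ 2 - 1)|) (g * W) := by
    intro g
    have h1 := TArch_id (x := (g : Matrix (Fin 2) (Fin 2) ℂ) 0 0) (y := (g : Matrix (Fin 2) (Fin 2) ℂ) 0 1) hρ0 hu hv huv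
    have h2 := TArch_row (g * W)
    have h3 := hmul g
    simp only
    rw [add_assoc, h1, ← h3.1, ← h3.2, h2]
    congr 1
    ring
  simp only [key]
  rw [integral_mulRight (fun h : Un 2 => |C + ρ * (2 * ‖(h : Matrix (Fin 2) (Fin 2) ℂ) 0 0‖ ^ 2 - 1)|) W]
  rw [law (F := fun t => |C + ρ * (2 * t - 1)|) (by fun_prop)]
  exact TArch_int hρ0 hC

end Pool.Agent.H89.CZ
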