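import Mathlib
import Pool.Agent.H89.CZ.HB

set_option autoImplicit false

/-!
# TEmb: two by two blocks in `U(m+2)`, and Gram–Schmidt for a pair

* `exists_emb`: for `g ∈ U(2)` with first row `(α, β)`, `|α|² + |β|² = 1`, the matrix which is
  `!![α, β; -conj β, conj α]` on the coordinates `0, 1` and the identity on the others is unitary.
* `exists_phase`: the diagonal matrix with entries `ζ, ζ, 1, …, 1`.
* `exists_first_row`: every `(α, β)` with `|α|² + |β|² = 1` is the first row of some `g ∈ U(2)`.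
* `exists_pair_frame`: let `f1, f2 : Cn (m+2)` be real orthonormal, `cs = om f1 f2`.  Then
  `|cs| ≤ 1` and, with `sn = √(1 - cs²)`, there is `ψ ∈ U(m+2)` with `ψ e0 = f1` and
  `ψ (cs i e0 + sn e1) = f2`, where `e0 = single 0 1`, `e1 = single 1 1`.
  Proof: `inner ℂ f1 f2 = i cs` (its real part is `inner ℝ f1 f2 = 0`).  Put
  `r = f2 - (i cs) • f1`, complex orthogonal to `f1`, `‖r‖² = 1 - cs²`.  If `sn > 0`, `f3 = r/sn`;
  if `sn = 0` take any unit vector complex orthogonal to `f1` (dimension `m + 2 ≥ 2`).  Then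
  `(f1, f3)` is complex orthonormal, `f2 = i cs f1 + sn f3`, and `exists_uni_pair` gives `ψ`.
-/

open MeasureTheory Pool.Agent.H61.UProj
open scoped ENNReal

noncomputable section

namespace Pool.Agent.H89.CZ

private theorem TEmb_re {n : ℕ} (z w : Cn n) : inner ℝ z w = (inner ℂ z w).re := by
  rw [real_inner_eq, PiLp.inner_apply]
  congr 1
  refine Finset.sum_congr rfl fun j _ => ?_
  rw [RCLike.inner_apply, mul_comm]

private theorem TEmb_pair {n : ℕ} {a b : Cn n} (h1 : inner ℂ a a = 1) (h2 : inner ℂ b b = 1)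
    (h3 : inner ℂ a b = 0) : Orthonormal ℂ ![a, b] := by
  rw [orthonormal_iff_ite]
  have h4 : inner ℂ b a = 0 := by
    rw [← inner_conj_symm, h3, map_zero]
  intro i j
  fin_cases i <;> fin_cases j
  · exact h1.trans (by simp)
  · exact h3.trans (by simp)
  · exact h4.trans (by simp)
  · exact h2.trans (by simp)

private theorem TEmb_std (m : ℕ) : Orthonormal ℂ
    (![EuclideanSpace.single 0 1, EuclideanSpace.single 1 1] : Fin 2 → Cn (m + 2)) := by
  apply TEmb_pair
  · rw [EuclideanSpace.inner_single_left]; simp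
  · rw [EuclideanSpace.inner_single_left]; simp
  · rw [EuclideanSpace.inner_single_left]; simp

private theorem TEmb_act {m : ℕ} {a b : Cn (m + 2)} (h1 : inner ℂ a a = 1) (h2 : inner ℂ b b = 1)
    (h3 : inner ℂ a b = 0) : ∃ h : Un (m + 2), ∀ z : Cn (m + 2),
      (uni h z) 0 = inner ℂ a z ∧ (uni h z) 1 = inner ℂ b z := by
  obtain ⟨φ, hφ⟩ := exists_uni_pair (TEmb_std m) (TEmb_pair h1 h2 h3)
  refine ⟨φ⁻¹, fun z => ?_⟩
  have e0 : uni φ (EuclideanSpace.single 0 1) = a := by simpa using hφ 0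
  have e1 : uni φ (EuclideanSpace.single 1 1) = b := by simpa using hφ 1
  constructor
  · rw [← e0]
    conv_rhs => rw [← uni_uni_inv φ z, inner_uni, EuclideanSpace.inner_single_left]
    simp
  · rw [← e1]
    conv_rhs => rw [← uni_uni_inv φ z, inner_uni, EuclideanSpace.inner_single_left]
    simp

theorem first_row (g : Un 2) : Complex.normSq ((g : Matrix (Fin 2) (Fin 2) ℂ) 0 0) +
    Complex.normSq ((g : Matrix (Fin 2) (Fin 2) ℂ) 0 1) = 1 := by
  have h := Matrix.mem_unitaryGroup_iff.1 g.2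
  have h2 := congrFun (congrFun h 0) 0
  rw [Matrix.mul_apply, Fin.sum_univ_two] at h2
  simp only [Matrix.star_apply, Matrix.one_apply_eq, RCLike.star_def, Complex.mul_conj] at h2
  exact_mod_cast h2

theorem exists_emb {m : ℕ} (g : Un 2) : ∃ h : Un (m + 2), ∀ z : Cn (m + 2),
    (uni h z) 0 = (g : Matrix (Fin 2) (Fin 2) ℂ) 0 0 * z 0 +
      (g : Matrix (Fin 2) (Fin 2) ℂ) 0 1 * z 1 ∧
    (uni h z) 1 = -starRingEnd ℂ ((g : Matrix (Fin 2) (Fin 2) ℂ) 0 1) * z 0 +
      starRingEnd ℂ ((g : Matrix (Fin 2) (Fin 2) ℂ) 0 0) * z 1 := by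
  have hrow := first_row g
  set α := (g : Matrix (Fin 2) (Fin 2) ℂ) 0 0
  set β := (g : Matrix (Fin 2) (Fin 2) ℂ) 0 1
  have hrow' : α * starRingEnd ℂ α + β * starRingEnd ℂ β = 1 := by
    rw [Complex.mul_conj, Complex.mul_conj]
    exact_mod_cast hrow
  obtain ⟨h, hh⟩ := TEmb_act (m := m)
    (a := EuclideanSpace.single 0 (starRingEnd ℂ α) + EuclideanSpace.single 1 (starRingEnd ℂ β))
    (b := EuclideanSpace.single 0 (-β) + EuclideanSpace.single 1 α)
    (by
      simp only [inner_add_left, inner_add_right, EuclideanSpace.inner_single_left]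
      simp
      linear_combination hrow')
    (by
      simp only [inner_add_left, inner_add_right, EuclideanSpace.inner_single_left]
      simp
      linear_combination hrow')
    (by
      simp only [inner_add_left, inner_add_right, EuclideanSpace.inner_single_left]
      simp
      ring)
  refine ⟨h, fun z => ?_⟩
  obtain ⟨h1, h2⟩ := hh z
  rw [h1, h2]
  constructor
  · rw [inner_add_left, EuclideanSpace.inner_single_left, EuclideanSpace.inner_single_left]
    simp
  · rw [inner_add_left, EuclideanSpace.inner_single_left, EuclideanSpace.inner_single_left]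
    simp

theorem exists_phase {m : ℕ} (ζ : ℂ) (hζ : ‖ζ‖ = 1) : ∃ h : Un (m + 2), ∀ z : Cn (m + 2),
    (uni h z) 0 = ζ * z 0 ∧ (uni h z) 1 = ζ * z 1 := by
  have hz : ζ * starRingEnd ℂ ζ = 1 := by
    rw [Complex.mul_conj, Complex.normSq_eq_norm_sq, hζ]
    simp
  obtain ⟨h, hh⟩ := TEmb_act (m := m)
    (a := EuclideanSpace.single 0 (starRingEnd ℂ ζ))
    (b := EuclideanSpace.single 1 (starRingEnd ℂ ζ))
    (by rw [EuclideanSpace.inner_single_left]; simpa using hz)
    (by rw [EuclideanSpace.inner_single_left]; simpa using hz)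
    (by rw [EuclideanSpace.inner_single_left]; simp)
  refine ⟨h, fun z => ?_⟩
  obtain ⟨h1, h2⟩ := hh z
  rw [h1, h2, EuclideanSpace.inner_single_left, EuclideanSpace.inner_single_left]
  simp

theorem exists_first_row (α β : ℂ) (h : Complex.normSq α + Complex.normSq β = 1) :
    ∃ g : Un 2, (g : Matrix (Fin 2) (Fin 2) ℂ) 0 0 = α ∧
      (g : Matrix (Fin 2) (Fin 2) ℂ) 0 1 = β := by
  have hrow' : α * starRingEnd ℂ α + β * starRingEnd ℂ β = 1 := by
    rw [Complex.mul_conj, Complex.mul_conj]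
    exact_mod_cast h
  have hM : !![α, β; -starRingEnd ℂ β, starRingEnd ℂ α] ∈ Matrix.unitaryGroup (Fin 2) ℂ := by
    rw [Matrix.mem_unitaryGroup_iff]
    ext i j
    rw [Matrix.mul_apply, Fin.sum_univ_two]
    fin_cases i <;> fin_cases j <;> simp [Matrix.star_apply]
    · linear_combination hrow'
    · ring
    · ring
    · linear_combination hrow'
  exact ⟨⟨_, hM⟩, by simp, by simp⟩

private theorem TEmb_orth {m : ℕ} (a : Cn (m + 2)) : ∃ b : Cn (m + 2), inner ℂ b b = 1 ∧
    inner ℂ a b = 0 := by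
  classical
  have h1 : ∃ c : Cn (m + 2), c ≠ 0 ∧ inner ℂ a c = 0 := by
    have h2 : (Submodule.span ℂ {a})ᗮ ≠ ⊥ := by
      intro h
      have h3 := Submodule.finrank_add_finrank_orthogonal (Submodule.span ℂ {a})
      rw [h, finrank_bot] at h3
      have h4 : Module.finrank ℂ (Submodule.span ℂ ({a} : Set (Cn (m + 2)))) ≤ 1 :=
        (finrank_span_le_card (R := ℂ) ({a} : Set (Cn (m + 2)))).trans (by simp)
      have h5 : Module.finrank ℂ (Cn (m + 2)) = m + 2 := by simp
      omega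
    obtain ⟨c, hc, hc0⟩ := Submodule.exists_mem_ne_zero_of_ne_bot h2
    refine ⟨c, hc0, ?_⟩
    rw [Submodule.mem_orthogonal_singleton_iff_inner_right] at hc
    exact hc
  obtain ⟨c, hc0, hc⟩ := h1
  have hn : (‖c‖ : ℂ) ≠ 0 := by
    simpa using hc0
  refine ⟨((‖c‖ : ℂ))⁻¹ • c, ?_, ?_⟩
  · rw [inner_smul_left, inner_smul_right, inner_self_eq_norm_sq_to_K]
    simp only [map_inv₀, Complex.conj_ofReal]
    field_simp
    simp
  · rw [inner_smul_right, hc, mul_zero]

theorem exists_pair_frame {m : ℕ} {f : Fin 2 → Cn (m + 2)} (hf : Orthonormal ℝ f) :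
    ∃ (cs sn : ℝ) (ψ : Un (m + 2)), cs = om (f 0) (f 1) ∧ cs ^ 2 + sn ^ 2 = 1 ∧
      uni ψ (EuclideanSpace.single 0 1) = f 0 ∧
      uni ψ (EuclideanSpace.single 0 (cs * Complex.I) + EuclideanSpace.single 1 (sn : ℂ)) =
        f 1 := by
  have n0 : ‖f 0‖ = 1 := hf.1 0
  have n1 : ‖f 1‖ = 1 := hf.1 1
  have i0 : inner ℂ (f 0) (f 0) = 1 := by
    rw [inner_self_eq_norm_sq_to_K, n0]; simp
  have i1 : inner ℂ (f 1) (f 1) = 1 := by
    rw [inner_self_eq_norm_sq_to_K, n1]; simp
  have h01 : inner ℝ (f 0) (f 1) = 0 := hf.2 (by decide)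
  set cs := om (f 0) (f 1) with hcs
  have hc : inner ℂ (f 0) (f 1) = cs * Complex.I := by
    apply Complex.ext
    · rw [← TEmb_re, h01]; simp
    · simp [hcs, om]
  have hc' : inner ℂ (f 1) (f 0) = -(cs * Complex.I) := by
    rw [← inner_conj_symm, hc]; simp
  set r := f 1 - ((cs : ℂ) * Complex.I) • f 0 with hr
  have hr0 : inner ℂ (f 0) r = 0 := by
    rw [hr, inner_sub_right, inner_smul_right, i0, hc]; ring
  have hrr : inner ℂ r r = ((1 - cs ^ 2 : ℝ) : ℂ) := by
    have : inner ℂ r r = inner ℂ (f 1) r - starRingEnd ℂ ((cs : ℂ) * Complex.I) * inner ℂ (f 0) r := by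
      conv_lhs => rw [hr, inner_sub_left, inner_smul_left]
    rw [this, hr0, mul_zero, sub_zero, hr, inner_sub_right, inner_smul_right, i1, hc']
    push_cast
    linear_combination (cs : ℂ) ^ 2 * Complex.I_sq
  have hnr : ‖r‖ ^ 2 = 1 - cs ^ 2 := by
    have := inner_self_eq_norm_sq_to_K (𝕜 := ℂ) r
    rw [hrr] at this
    have h2 := congrArg Complex.re this
    simp only [Complex.ofReal_re] at h2
    rw [h2]
    norm_cast
  have key : ∃ f3 : Cn (m + 2), inner ℂ f3 f3 = 1 ∧ inner ℂ (f 0) f3 = 0 ∧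
      r = ((‖r‖ : ℝ) : ℂ) • f3 := by
    by_cases hr1 : r = 0
    · obtain ⟨b, hb1, hb2⟩ := TEmb_orth (f 0)
      exact ⟨b, hb1, hb2, by simp [hr1]⟩
    · have hn : ((‖r‖ : ℝ) : ℂ) ≠ 0 := by simpa using hr1
      refine ⟨((‖r‖ : ℂ))⁻¹ • r, ?_, ?_, ?_⟩
      · rw [inner_smul_left, inner_smul_right, inner_self_eq_norm_sq_to_K]
        simp only [map_inv₀, Complex.conj_ofReal]
        field_simp
        simp
      · rw [inner_smul_right, hr0, mul_zero]
      · rw [smul_smul, mul_inv_cancel₀ hn, one_smul]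
  obtain ⟨f3, h33, h03, hrf⟩ := key
  obtain ⟨ψ, hψ⟩ := exists_uni_pair (TEmb_std m) (TEmb_pair i0 h33 h03)
  have e0 : uni ψ (EuclideanSpace.single 0 1) = f 0 := by simpa using hψ 0
  have e1 : uni ψ (EuclideanSpace.single 1 1) = f3 := by simpa using hψ 1
  refine ⟨cs, ‖r‖, ψ, rfl, by rw [hnr]; ring, e0, ?_⟩
  have s0 : (EuclideanSpace.single 0 ((cs : ℂ) * Complex.I) : Cn (m + 2)) =
      ((cs : ℂ) * Complex.I) • EuclideanSpace.single 0 1 := by
    ext j
    by_cases hj : j = 0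
    · subst hj; simp
    · simp [hj]
  have s1 : (EuclideanSpace.single 1 (((‖r‖ : ℝ) : ℂ)) : Cn (m + 2)) =
      ((‖r‖ : ℝ) : ℂ) • EuclideanSpace.single 1 1 := by
    ext j
    by_cases hj : j = 1
    · subst hj; simp
    · simp [hj]
  rw [map_add, s0, s1, uni_csmul, uni_csmul, e0, e1, ← hrf, hr]
  abel

end Pool.Agent.H89.CZ
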