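import Mathlib
import Pool.Agent.H89.CZ.TArch
import Pool.Agent.H89.CZ.TAlg
import Pool.Agent.H89.CZ.TEmb

set_option autoImplicit false

/-!
# TMean: the mean of `|⟨φa ∧ φb, e0 ∧ (cs i e0 + sn e1)⟩|`

All algebra is in TAlg.  Let `D(φ) = pair2 (φa) (φb) e0 (cs i e0 + sn e1)`, `cs² + sn² = 1`; write
`w, d, s, ζ, ρ` for `wv, dv, sv, zv, rv` at `(φa, φb)`.

(1) `D = ½ (cs w + sn Re d + cs s + sn Re ζ)` (`pair2_eq`).

(2) Choose `η` with `cs = cos η`, `sn = sin η` and `g = gη ∈ U(2)` with first row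
`α = cos(η/2)`, `β = i sin(η/2)` (`exists_first_row`), `h = emb g` (`exists_emb`).  By `emb_eq`:
`sv (ha) (hb) = cs s + 2 Re (i conj ζ · α conj β)`, `α conj β = -i cos(η/2) sin(η/2)
= -i sn/2`, so `2 Re (i conj ζ (-i sn/2)) = sn Re ζ`.  Hence
`|D(φ)| = ½ |cs w + sn Re d + s|` evaluated at `(hφa, hφb)`, and by left invariance
(`integral_mulLeft`, `uni_mul`) `∫ |D| = ∫ ½ |cs w + sn Re d + s| dφ`.

(3) For `θ ∈ {1, -1, i, -i}` choose `ζ'` with `ζ'² = θ`, `|ζ'| = 1`, and `exists_phase`, `phase_eq`: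
`∫ |D| = ∫ ½ |cs w + sn Re (θ d) + s| dφ`.

(4) Fix `θ`, put `C(φ) = cs w + sn Re (θ d)`.  For every `g ∈ U(2)` with first row `(α, β)`, by left
invariance with `emb g` and `emb_eq`:
`∫ |D| = ∫_φ ½ |C + s (|α|²-|β|²) + 2 Re ((i conj ζ) α conj β)| dφ`.  Integrate over `g ∈ U(2)`
(probability measure) and exchange the two integrals (the integrand is continuous on the compact
space `U(2) × U(m+2)`: `integral_integral_swap`, `integrable_of_continuous` on the product or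
`Continuous.integrable…`).  The inner integral over `g` is given by `archimedes` with `p = s` and
`ζ := i conj ζ`, `|i conj ζ| = |ζ|`: it equals `½ (C² + ρ²)/(2ρ)` if `ρ > 0` (`sq_eq`,
`abs_le_rv`); if `ρ = 0` then `s = 0`, `ζ = 0`, `C = 0` and the integrand is `0 = (C²+ρ²)/(4ρ)`.
So `∫ |D| = ∫_φ (C² + ρ²)/(4ρ) dφ`.

(5) Average over the four values of `θ`: `¼ ∑_θ C_θ² = cs² w² + ½ sn² |d|²`, hence
`∫ |D| = ∫_φ (cs² w² + ½ (1 - cs²)|d|² + w² + |d|²)/(4ρ)
 = ∫_φ (2w² + 3|d|²)/(8ρ) + cs² ∫_φ (2w² - |d|²)/(8ρ) = M1 a b + cs² M2 a b`.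
Integrability of all the quotients: measurable (quotients of continuous functions) and bounded
(`sq_div_le`, `rv_le`, `‖φa‖ = ‖a‖`).
-/

open MeasureTheory Pool.Agent.H61.UProj
open scoped ENNReal

noncomputable section

namespace Pool.Agent.H89.CZ

variable {m : ℕ}

def M1 (a b : Cn (m + 2)) : ℝ :=
  ∫ φ, (2 * wv (uni φ a) (uni φ b) ^ 2 + 3 * Complex.normSq (dv (uni φ a) (uni φ b))) /
    (8 * rv (uni φ a) (uni φ b)) ∂(haarU (m + 2))

def M2 (a b : Cn (m + 2)) : ℝ :=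
  ∫ φ, (2 * wv (uni φ a) (uni φ b) ^ 2 - Complex.normSq (dv (uni φ a) (uni φ b))) /
    (8 * rv (uni φ a) (uni φ b)) ∂(haarU (m + 2))

theorem TMean_exists_angle {cs sn : ℝ} (h : cs ^ 2 + sn ^ 2 = 1) :
    ∃ η : ℝ, Real.cos η = cs ∧ Real.sin η = sn := by
  have hn : ‖(⟨cs, sn⟩ : ℂ)‖ = 1 := by
    rw [Complex.norm_eq_sqrt_sq_add_sq]
    simp [h]
  have hz : (⟨cs, sn⟩ : ℂ) ≠ 0 := by
    intro h0
    rw [h0] at hn
    simp at hn
  refine ⟨Complex.arg ⟨cs, sn⟩, ?_, ?_⟩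
  · rw [Complex.cos_arg hz, hn]
    simp
  · rw [Complex.sin_arg, hn]
    simp

theorem TMean_re (z : ℂ) (x y : ℝ) :
    (Complex.I * starRingEnd ℂ z * (x : ℂ) * starRingEnd ℂ ((y : ℂ) * Complex.I)).re =
      y * x * z.re := by
  simp
  ring

def TMean_C (cs sn : ℝ) (θ : ℂ) (a b : Cn (m + 2)) : ℝ :=
  cs * wv a b + sn * (θ * dv a b).re

def TMean_F (cs sn : ℝ) (θ : ℂ) (a b : Cn (m + 2)) (φ : Un (m + 2)) : ℝ :=
  |TMean_C cs sn θ (uni φ a) (uni φ b) + sv (uni φ a) (uni φ b)| / 2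

def TMean_G (cs sn : ℝ) (θ : ℂ) (a b : Cn (m + 2)) (g : Un 2) (φ : Un (m + 2)) : ℝ :=
  |TMean_C cs sn θ (uni φ a) (uni φ b) + sv (uni φ a) (uni φ b) *
      (‖(g : Matrix (Fin 2) (Fin 2) ℂ) 0 0‖ ^ 2 - ‖(g : Matrix (Fin 2) (Fin 2) ℂ) 0 1‖ ^ 2) +
      2 * (Complex.I * starRingEnd ℂ (zv (uni φ a) (uni φ b)) *
        (g : Matrix (Fin 2) (Fin 2) ℂ) 0 0 *
          starRingEnd ℂ ((g : Matrix (Fin 2) (Fin 2) ℂ) 0 1)).re|

theorem TMean_step4a (cs sn : ℝ) (θ : ℂ) (a b : Cn (m + 2)) (g : Un 2) :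
    ∫ φ, TMean_F cs sn θ a b φ ∂(haarU (m + 2)) =
      (∫ φ, TMean_G cs sn θ a b g φ ∂(haarU (m + 2))) / 2 := by
  obtain ⟨h, hh⟩ := exists_emb (m := m) g
  rw [← integral_mulLeft _ h, ← integral_div]
  refine integral_congr_ae (Filter.Eventually.of_forall fun φ => ?_)
  have e := emb_eq (a := uni φ a) (b := uni φ b) (a' := uni (h * φ) a) (b' := uni (h * φ) b)
    (first_row g)
    (by rw [uni_mul]; exact (hh _).1) (by rw [uni_mul]; exact (hh _).2)
    (by rw [uni_mul]; exact (hh _).1) (by rw [uni_mul]; exact (hh _).2)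
  obtain ⟨e1, e2, e3⟩ := e
  simp only [TMean_F, TMean_G, TMean_C]
  rw [e1, e2, e3, Complex.normSq_eq_norm_sq, Complex.normSq_eq_norm_sq, ← add_assoc]

theorem TMean_step3 (cs sn : ℝ) {θ : ℂ} (hθ : ‖θ‖ = 1) (a b : Cn (m + 2)) :
    ∫ φ, TMean_F cs sn θ a b φ ∂(haarU (m + 2)) =
      ∫ φ, TMean_F cs sn 1 a b φ ∂(haarU (m + 2)) := by
  obtain ⟨ζ, hζ⟩ := IsAlgClosed.exists_pow_nat_eq θ (n := 2) (by norm_num)
  have hn : ‖ζ‖ = 1 := by
    have h1 : ‖ζ‖ ^ 2 = 1 := by rw [← norm_pow, hζ, hθ]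
    have h2 : 0 ≤ ‖ζ‖ := norm_nonneg ζ
    nlinarith
  obtain ⟨h, hh⟩ := exists_phase (m := m) ζ hn
  rw [← integral_mulLeft (fun φ => TMean_F cs sn 1 a b φ) h]
  refine integral_congr_ae (Filter.Eventually.of_forall fun φ => ?_)
  have e := phase_eq (a := uni φ a) (b := uni φ b) (a' := uni (h * φ) a) (b' := uni (h * φ) b)
    (ζ := ζ) (by rw [Complex.normSq_eq_norm_sq, hn]; norm_num)
    (by rw [uni_mul]; exact (hh _).1) (by rw [uni_mul]; exact (hh _).2)
    (by rw [uni_mul]; exact (hh _).1) (by rw [uni_mul]; exact (hh _).2)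
  obtain ⟨e1, e2, e3⟩ := e
  simp only [TMean_F, TMean_C]
  rw [e1, e2, e3, hζ, one_mul]

theorem TMean_step2 (a b : Cn (m + 2)) {cs sn : ℝ} (h : cs ^ 2 + sn ^ 2 = 1) :
    ∫ φ, |pair2 (uni φ a) (uni φ b) (EuclideanSpace.single 0 1)
      (EuclideanSpace.single 0 (cs * Complex.I) + EuclideanSpace.single 1 (sn : ℂ))|
        ∂(haarU (m + 2)) = ∫ φ, TMean_F cs sn 1 a b φ ∂(haarU (m + 2)) := by
  obtain ⟨η, hc, hs⟩ := TMean_exists_angle h
  have hc2 : Real.cos (η / 2) ^ 2 - Real.sin (η / 2) ^ 2 = cs := by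
    rw [← hc, ← Real.cos_two_mul' (η / 2)]
    congr 1
    ring
  have hs2 : 2 * (Real.sin (η / 2) * Real.cos (η / 2)) = sn := by
    rw [← hs, ← mul_assoc, ← Real.sin_two_mul (η / 2)]
    congr 1
    ring
  have h1 : Complex.normSq ((Real.cos (η / 2) : ℝ) : ℂ) +
      Complex.normSq (((Real.sin (η / 2) : ℝ) : ℂ) * Complex.I) = 1 := by
    rw [Complex.normSq_mul, Complex.normSq_ofReal, Complex.normSq_ofReal, Complex.normSq_I]
    nlinarith [Real.sin_sq_add_cos_sq (η / 2)]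
  obtain ⟨g, hg0, hg1⟩ := exists_first_row _ _ h1
  rw [TMean_step4a cs sn 1 a b g, ← integral_div]
  refine integral_congr_ae (Filter.Eventually.of_forall fun φ => ?_)
  simp only []
  rw [pair2_eq, abs_div, abs_of_pos (by norm_num : (0 : ℝ) < 2)]
  simp only [TMean_G, TMean_C]
  rw [hg0, hg1]
  congr 2
  have hn0 : ‖((Real.cos (η / 2) : ℝ) : ℂ)‖ ^ 2 = Real.cos (η / 2) ^ 2 := by
    rw [← Complex.normSq_eq_norm_sq, Complex.normSq_ofReal]
    ring
  have hn1 : ‖((Real.sin (η / 2) : ℝ) : ℂ) * Complex.I‖ ^ 2 = Real.sin (η / 2) ^ 2 := by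
    rw [← Complex.normSq_eq_norm_sq, Complex.normSq_mul, Complex.normSq_ofReal,
      Complex.normSq_I]
    ring
  rw [hn0, hn1, hc2]
  set z := zv (uni φ a) (uni φ b)
  have hz : (Complex.I * starRingEnd ℂ z * ((Real.cos (η / 2) : ℝ) : ℂ) *
      starRingEnd ℂ (((Real.sin (η / 2) : ℝ) : ℂ) * Complex.I)).re =
      Real.sin (η / 2) * Real.cos (η / 2) * z.re := TMean_re z _ _
  rw [hz, one_mul, ← hs2]
  ring

theorem TMean_sct (n : ℕ) : SecondCountableTopology (Un n) := by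
  have : SecondCountableTopology (Matrix (Fin n) (Fin n) ℂ) :=
    inferInstanceAs (SecondCountableTopology (Fin n → Fin n → ℂ))
  exact TopologicalSpace.Subtype.secondCountableTopology _

theorem TMean_add4 {n : ℕ} {f1 f2 f3 f4 : Un n → ℝ} (h1 : Integrable f1 (haarU n))
    (h2 : Integrable f2 (haarU n)) (h3 : Integrable f3 (haarU n))
    (h4 : Integrable f4 (haarU n)) :
    ∫ φ, ((f1 φ + f2 φ) + (f3 φ + f4 φ)) ∂(haarU n) =
      ((∫ φ, f1 φ ∂(haarU n)) + ∫ φ, f2 φ ∂(haarU n)) +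
        ((∫ φ, f3 φ ∂(haarU n)) + ∫ φ, f4 φ ∂(haarU n)) := by
  have e1 : Integrable (fun φ => f1 φ + f2 φ) (haarU n) := h1.add h2
  have e2 : Integrable (fun φ => f3 φ + f4 φ) (haarU n) := h3.add h4
  rw [integral_add e1 e2, integral_add h1 h2, integral_add h3 h4]

theorem TMean_lin {n : ℕ} {A B : Un n → ℝ} (hA : Integrable A (haarU n))
    (hB : Integrable B (haarU n)) (x y : ℝ) :
    ∫ φ, ((x * A φ + y * B φ) + (A φ + B φ)) ∂(haarU n) =
      (x * (∫ φ, A φ ∂(haarU n)) + y * ∫ φ, B φ ∂(haarU n)) +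
        ((∫ φ, A φ ∂(haarU n)) + ∫ φ, B φ ∂(haarU n)) := by
  rw [TMean_add4 (hA.const_mul x) (hB.const_mul y) hA hB, integral_const_mul,
    integral_const_mul]

attribute [local irreducible] wv dv sv zv rv

theorem TMean_cont_wv (a b : Cn (m + 2)) :
    Continuous (fun φ : Un (m + 2) => wv (uni φ a) (uni φ b)) :=
  continuous_wv.comp ((continuous_uni a).prodMk (continuous_uni b))

theorem TMean_cont_dv (a b : Cn (m + 2)) :
    Continuous (fun φ : Un (m + 2) => dv (uni φ a) (uni φ b)) :=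
  continuous_dv.comp ((continuous_uni a).prodMk (continuous_uni b))

theorem TMean_cont_rv (a b : Cn (m + 2)) :
    Continuous (fun φ : Un (m + 2) => rv (uni φ a) (uni φ b)) :=
  continuous_rv.comp ((continuous_uni a).prodMk (continuous_uni b))

theorem TMean_cont_sv (a b : Cn (m + 2)) :
    Continuous (fun φ : Un (m + 2) => sv (uni φ a) (uni φ b)) :=
  continuous_sv.comp ((continuous_uni a).prodMk (continuous_uni b))

theorem TMean_cont_zv (a b : Cn (m + 2)) :
    Continuous (fun φ : Un (m + 2) => zv (uni φ a) (uni φ b)) :=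
  continuous_zv.comp ((continuous_uni a).prodMk (continuous_uni b))

theorem TMean_cont_C (cs sn : ℝ) (θ : ℂ) (a b : Cn (m + 2)) :
    Continuous (fun φ : Un (m + 2) => TMean_C cs sn θ (uni φ a) (uni φ b)) := by
  have h1 := TMean_cont_wv a b
  have h2 := TMean_cont_dv a b
  unfold TMean_C
  exact (continuous_const.mul h1).add
    (continuous_const.mul (Complex.continuous_re.comp (continuous_const.mul h2)))

theorem TMean_cont_G (cs sn : ℝ) (θ : ℂ) (a b : Cn (m + 2)) :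
    Continuous (fun q : Un 2 × Un (m + 2) => TMean_G cs sn θ a b q.1 q.2) := by
  have h1 : Continuous (fun q : Un 2 × Un (m + 2) => TMean_C cs sn θ (uni q.2 a) (uni q.2 b)) :=
    (TMean_cont_C cs sn θ a b).comp continuous_snd
  have h2 : Continuous (fun q : Un 2 × Un (m + 2) => sv (uni q.2 a) (uni q.2 b)) :=
    (TMean_cont_sv a b).comp continuous_snd
  have h3 : Continuous (fun q : Un 2 × Un (m + 2) => zv (uni q.2 a) (uni q.2 b)) :=
    (TMean_cont_zv a b).comp continuous_snd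
  have h4 : ∀ i j, Continuous (fun q : Un 2 × Un (m + 2) =>
      (q.1 : Matrix (Fin 2) (Fin 2) ℂ) i j) := fun i j =>
    (continuous_subtype_val.comp continuous_fst).matrix_elem i j
  have h5 := h4 0 0
  have h6 := h4 0 1
  unfold TMean_G
  have h7 : Continuous (fun q : Un 2 × Un (m + 2) =>
      Complex.I * starRingEnd ℂ (zv (uni q.2 a) (uni q.2 b)) *
        (q.1 : Matrix (Fin 2) (Fin 2) ℂ) 0 0 *
          starRingEnd ℂ ((q.1 : Matrix (Fin 2) (Fin 2) ℂ) 0 1)) :=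
    ((continuous_const.mul (Complex.continuous_conj.comp h3)).mul h5).mul
      (Complex.continuous_conj.comp h6)
  have h8 := Complex.continuous_re.comp h7
  exact ((h1.add (h2.mul ((h5.norm.pow 2).sub (h6.norm.pow 2)))).add
    (continuous_const.mul h8)).abs

theorem TMean_step4 {cs sn : ℝ} (h : cs ^ 2 + sn ^ 2 = 1) {θ : ℂ} (hθ : ‖θ‖ = 1)
    (a b : Cn (m + 2)) :
    ∫ φ, TMean_F cs sn θ a b φ ∂(haarU (m + 2)) =
      ∫ φ, (TMean_C cs sn θ (uni φ a) (uni φ b) ^ 2 + rv (uni φ a) (uni φ b) ^ 2) /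
        (4 * rv (uni φ a) (uni φ b)) ∂(haarU (m + 2)) := by
  have : SecondCountableTopology (Un 2) := TMean_sct 2
  have : SecondCountableTopology (Un (m + 2)) := TMean_sct (m + 2)
  have hI : Integrable (Function.uncurry (fun (g : Un 2) (φ : Un (m + 2)) =>
      TMean_G cs sn θ a b g φ)) ((haarU 2).prod (haarU (m + 2))) := by
    have hc : Continuous (Function.uncurry (fun (g : Un 2) (φ : Un (m + 2)) =>
      TMean_G cs sn θ a b g φ)) := TMean_cont_G cs sn θ a b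
    exact hc.integrable_of_hasCompactSupport (HasCompactSupport.of_compactSpace _)
  have hsw := integral_integral_swap hI
  have h1 : ∫ g : Un 2, (∫ φ, TMean_G cs sn θ a b g φ ∂(haarU (m + 2))) ∂(haarU 2) =
      2 * ∫ φ, TMean_F cs sn θ a b φ ∂(haarU (m + 2)) := by
    have h2 : ∀ g : Un 2, (∫ φ, TMean_G cs sn θ a b g φ ∂(haarU (m + 2))) =
        2 * ∫ φ, TMean_F cs sn θ a b φ ∂(haarU (m + 2)) := by
      intro g
      rw [TMean_step4a cs sn θ a b g]
      ring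
    simp only [h2]
    simp
  rw [h1] at hsw
  have h3 : ∀ φ : Un (m + 2), (∫ g : Un 2, TMean_G cs sn θ a b g φ ∂(haarU 2)) =
      2 * ((TMean_C cs sn θ (uni φ a) (uni φ b) ^ 2 + rv (uni φ a) (uni φ b) ^ 2) /
        (4 * rv (uni φ a) (uni φ b))) := by
    intro φ
    set p := sv (uni φ a) (uni φ b) with hp
    set Z := Complex.I * starRingEnd ℂ (zv (uni φ a) (uni φ b)) with hZ
    set C := TMean_C cs sn θ (uni φ a) (uni φ b) with hC
    have hZn : Complex.normSq Z = Complex.normSq (zv (uni φ a) (uni φ b)) := by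
      rw [hZ, Complex.normSq_mul, Complex.normSq_I, Complex.normSq_conj, one_mul]
    have hr : rv (uni φ a) (uni φ b) = √(p ^ 2 + Complex.normSq Z) := by
      rw [hZn, hp, ← sq_eq, rv]
    have hCr : |C| ≤ √(p ^ 2 + Complex.normSq Z) := by
      rw [← hr]
      exact abs_le_rv _ _ h hθ
    have h0 : 0 ≤ p ^ 2 + Complex.normSq Z := add_nonneg (sq_nonneg _) (Complex.normSq_nonneg _)
    rcases h0.lt_or_eq with hpos | hzero
    · have ha := archimedes C p Z hpos hCr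
      have hs : √(p ^ 2 + Complex.normSq Z) ^ 2 = p ^ 2 + Complex.normSq Z := Real.sq_sqrt h0
      have hsp : 0 < √(p ^ 2 + Complex.normSq Z) := Real.sqrt_pos.2 hpos
      rw [hr, hs]
      calc _ = ∫ g : Un 2, |C + p * (‖(g : Matrix (Fin 2) (Fin 2) ℂ) 0 0‖ ^ 2 -
        ‖(g : Matrix (Fin 2) (Fin 2) ℂ) 0 1‖ ^ 2) +
        2 * (Z * (g : Matrix (Fin 2) (Fin 2) ℂ) 0 0 *
          starRingEnd ℂ ((g : Matrix (Fin 2) (Fin 2) ℂ) 0 1)).re| ∂(haarU 2) := rfl
        _ = _ := by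
          rw [ha]
          field_simp
          ring
    · have hp0 : p = 0 := by
        have := Complex.normSq_nonneg Z
        nlinarith [sq_nonneg p]
      have hZ0 : Z = 0 := by
        have := Complex.normSq_nonneg Z
        have h5 : Complex.normSq Z = 0 := by nlinarith [sq_nonneg p]
        exact Complex.normSq_eq_zero.1 h5
      have hr0 : rv (uni φ a) (uni φ b) = 0 := by rw [hr, ← hzero, Real.sqrt_zero]
      have hC0 : C = 0 := by
        rw [← hzero, Real.sqrt_zero] at hCr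
        exact abs_eq_zero.1 (le_antisymm hCr (abs_nonneg _))
      have hG : ∀ g : Un 2, TMean_G cs sn θ a b g φ = 0 := by
        intro g
        unfold TMean_G
        rw [← hC, ← hp, ← hZ, hC0, hp0, hZ0]
        simp
      simp only [hG]
      rw [hr0, hC0]
      simp
  simp only [h3] at hsw
  rw [integral_const_mul] at hsw
  linarith

theorem TMean_meas {f : Un (m + 2) → ℝ} (hf : Continuous f) : Measurable f := hf.measurable

theorem TMean_int {f : Un (m + 2) → ℝ} (hf : Measurable f) (a b : Cn (m + 2))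
    (hb : ∀ φ, |f φ| ≤ rv (uni φ a) (uni φ b)) : Integrable f (haarU (m + 2)) := by
  refine Integrable.mono' (integrable_of_continuous (TMean_cont_rv a b))
    hf.aestronglyMeasurable (Filter.Eventually.of_forall fun φ => ?_)
  rw [Real.norm_eq_abs]
  exact hb φ

theorem TMean_sq_le (cs sn : ℝ) (a b : Cn (m + 2)) (h : cs ^ 2 + sn ^ 2 = 1) {θ : ℂ}
    (hθ : ‖θ‖ = 1) :
    |(TMean_C cs sn θ a b ^ 2 + rv a b ^ 2) / (4 * rv a b)| ≤ rv a b := by
  have h1 : |TMean_C cs sn θ a b| ≤ rv a b := abs_le_rv a b h hθ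
  have h0 := rv_nonneg a b
  rcases h0.lt_or_eq with hpos | hz
  · rw [abs_of_nonneg (by positivity), div_le_iff₀ (by positivity)]
    have h2 : TMean_C cs sn θ a b ^ 2 ≤ rv a b ^ 2 := sq_le_sq' (by linarith [(abs_le.1 h1).1])
      (abs_le.1 h1).2
    nlinarith
  · rw [← hz]
    simp

theorem mean_pair (a b : Cn (m + 2)) {cs sn : ℝ} (h : cs ^ 2 + sn ^ 2 = 1) :
    ∫ φ, |pair2 (uni φ a) (uni φ b) (EuclideanSpace.single 0 1)
      (EuclideanSpace.single 0 (cs * Complex.I) + EuclideanSpace.single 1 (sn : ℂ))|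
        ∂(haarU (m + 2)) = M1 a b + cs ^ 2 * M2 a b := by
  rw [TMean_step2 a b h]
  set I := ∫ φ, TMean_F cs sn 1 a b φ ∂(haarU (m + 2)) with hI
  have key : ∀ θ : ℂ, ‖θ‖ = 1 → I = ∫ φ, (TMean_C cs sn θ (uni φ a) (uni φ b) ^ 2 +
      rv (uni φ a) (uni φ b) ^ 2) / (4 * rv (uni φ a) (uni φ b)) ∂(haarU (m + 2)) := by
    intro θ hθ
    rw [hI, ← TMean_step3 cs sn hθ a b, TMean_step4 h hθ a b]
  have hint : ∀ θ : ℂ, ‖θ‖ = 1 → Integrable (fun φ : Un (m + 2) =>
      (TMean_C cs sn θ (uni φ a) (uni φ b) ^ 2 +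
      rv (uni φ a) (uni φ b) ^ 2) / (4 * rv (uni φ a) (uni φ b))) (haarU (m + 2)) := by
    intro θ hθ
    refine TMean_int ?_ a b fun φ => TMean_sq_le cs sn _ _ h hθ
    exact (((TMean_cont_C cs sn θ a b).measurable.pow_const 2).add
      ((TMean_cont_rv a b).measurable.pow_const 2)).div
        ((TMean_cont_rv a b).measurable.const_mul 4)
  have n1 : ‖(1 : ℂ)‖ = 1 := by simp
  have n2 : ‖(-1 : ℂ)‖ = 1 := by simp
  have n3 : ‖Complex.I‖ = 1 := by simp
  have n4 : ‖-Complex.I‖ = 1 := by simp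
  have hsum : 4 * I = ∫ φ, (((TMean_C cs sn 1 (uni φ a) (uni φ b) ^ 2 +
      rv (uni φ a) (uni φ b) ^ 2) / (4 * rv (uni φ a) (uni φ b)) +
      (TMean_C cs sn (-1) (uni φ a) (uni φ b) ^ 2 +
      rv (uni φ a) (uni φ b) ^ 2) / (4 * rv (uni φ a) (uni φ b))) +
      ((TMean_C cs sn Complex.I (uni φ a) (uni φ b) ^ 2 +
      rv (uni φ a) (uni φ b) ^ 2) / (4 * rv (uni φ a) (uni φ b)) +
      (TMean_C cs sn (-Complex.I) (uni φ a) (uni φ b) ^ 2 +
      rv (uni φ a) (uni φ b) ^ 2) / (4 * rv (uni φ a) (uni φ b)))) ∂(haarU (m + 2)) := by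
    rw [TMean_add4 (hint _ n1) (hint _ n2) (hint _ n3) (hint _ n4),
      ← key _ n1, ← key _ n2, ← key _ n3, ← key _ n4]
    ring
  have hA : Integrable (fun φ : Un (m + 2) => wv (uni φ a) (uni φ b) ^ 2 /
      rv (uni φ a) (uni φ b)) (haarU (m + 2)) := by
    refine TMean_int (((TMean_cont_wv a b).measurable.pow_const 2).div
      (TMean_cont_rv a b).measurable) a b fun φ => ?_
    rw [abs_of_nonneg (div_nonneg (sq_nonneg _) (rv_nonneg _ _))]
    exact (sq_div_le _ _).1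
  have hB : Integrable (fun φ : Un (m + 2) => Complex.normSq (dv (uni φ a) (uni φ b)) /
      rv (uni φ a) (uni φ b)) (haarU (m + 2)) := by
    refine TMean_int ((Complex.continuous_normSq.comp (TMean_cont_dv a b)).measurable.div
      (TMean_cont_rv a b).measurable) a b fun φ => ?_
    rw [abs_of_nonneg (div_nonneg (Complex.normSq_nonneg _) (rv_nonneg _ _))]
    exact (sq_div_le _ _).2
  have e1 : M1 a b = (2 * ∫ φ, wv (uni φ a) (uni φ b) ^ 2 / rv (uni φ a) (uni φ b)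
      ∂(haarU (m + 2)) + 3 * ∫ φ, Complex.normSq (dv (uni φ a) (uni φ b)) /
        rv (uni φ a) (uni φ b) ∂(haarU (m + 2))) / 8 := by
    rw [← integral_const_mul, ← integral_const_mul, ← integral_add (hA.const_mul 2)
      (hB.const_mul 3), ← integral_div]
    refine integral_congr_ae (Filter.Eventually.of_forall fun φ => ?_)
    simp only []
    rw [← mul_div_assoc, ← mul_div_assoc, ← add_div, div_div, mul_comm (8 : ℝ)]
  have e2 : M2 a b = (2 * ∫ φ, wv (uni φ a) (uni φ b) ^ 2 / rv (uni φ a) (uni φ b)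
      ∂(haarU (m + 2)) - ∫ φ, Complex.normSq (dv (uni φ a) (uni φ b)) /
        rv (uni φ a) (uni φ b) ∂(haarU (m + 2))) / 8 := by
    rw [← integral_const_mul, ← integral_sub (hA.const_mul 2) hB, ← integral_div]
    refine integral_congr_ae (Filter.Eventually.of_forall fun φ => ?_)
    simp only []
    rw [← mul_div_assoc, ← sub_div, div_div, mul_comm (8 : ℝ)]
  have e3 : 4 * I = cs ^ 2 * (∫ φ, wv (uni φ a) (uni φ b) ^ 2 / rv (uni φ a) (uni φ b)
      ∂(haarU (m + 2))) + sn ^ 2 / 2 * (∫ φ, Complex.normSq (dv (uni φ a) (uni φ b)) /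
        rv (uni φ a) (uni φ b) ∂(haarU (m + 2))) +
      ((∫ φ, wv (uni φ a) (uni φ b) ^ 2 / rv (uni φ a) (uni φ b) ∂(haarU (m + 2))) +
        ∫ φ, Complex.normSq (dv (uni φ a) (uni φ b)) /
        rv (uni φ a) (uni φ b) ∂(haarU (m + 2))) := by
    rw [hsum, ← TMean_lin hA hB]
    refine integral_congr_ae (Filter.Eventually.of_forall fun φ => ?_)
    simp only []
    have hr2 : rv (uni φ a) (uni φ b) ^ 2 = wv (uni φ a) (uni φ b) ^ 2 +
        Complex.normSq (dv (uni φ a) (uni φ b)) := by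
      rw [rv]
      exact Real.sq_sqrt (add_nonneg (sq_nonneg _) (Complex.normSq_nonneg _))
    simp only [TMean_C, hr2, Complex.normSq_apply]
    rcases (rv_nonneg (uni φ a) (uni φ b)).lt_or_eq with hpos | hz
    · have : rv (uni φ a) (uni φ b) ≠ 0 := hpos.ne'
      simp only [Complex.mul_re, Complex.neg_re, Complex.neg_im, Complex.one_re,
        Complex.one_im, Complex.I_re, Complex.I_im]
      field_simp
      ring
    · rw [← hz]
      simp
  rw [e1, e2]
  have hs : sn ^ 2 = 1 - cs ^ 2 := by linarith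
  rw [hs] at e3
  linarith

end Pool.Agent.H89.CZ
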