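import Mathlib
import Pool.Agent.H89.CZ.TMean

set_option autoImplicit false

/-!
# TArea: the mean of `|⟨φa ∧ φb, q1 ∧ q2⟩|` for all `q1`, `q2`

`mean_area`.  If `area q1 q2 = 0` then `q1`, `q2` are real-linearly dependent (equality in
Cauchy–Schwarz), `pair2 p q q1 q2 = 0` for all `p, q`, and both sides are `0` (`x / 0 = 0`).
Otherwise let `f1 = q1/‖q1‖`, `f2 = (q2 - ⟨f1,q2⟩ f1)/‖…‖` (real Gram–Schmidt): real orthonormal,
`q1 = ‖q1‖ f1`, `q2 = t f1 + (area/‖q1‖) f2`; so `pair2 p q q1 q2 = area * pair2 p q f1 f2` and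
`om q1 q2 = area * om f1 f2` (`om f1 f1 = 0`).  By `exists_pair_frame`: `cs = om f1 f2`, `ψ`, and
`pair2 (φa) (φb) f1 f2 = pair2 (ψ⁻¹ φ a) (ψ⁻¹ φ b) e0 (cs i e0 + sn e1)` (`inner_uni_left`,
`uni_mul`).  By left invariance and `mean_pair`,
`∫ |pair2 (φa) (φb) q1 q2| = area (M1 + cs² M2) = M1 area + M2 om q1 q2 ^2 / area`.

`pair2_swap`: `pair2 p q r s = pair2 r s p q`; `pair2_uni`: invariance under `uni φ`.
`area_uni`: `area (φ z) (φ w) = area z w`.
`area_of_orthonormal`: area `1`.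
-/

open MeasureTheory Pool.Agent.H61.UProj
open scoped ENNReal

noncomputable section

namespace Pool.Agent.H89.CZ

theorem pair2_swap {n : ℕ} (p q r s : Cn n) : pair2 p q r s = pair2 r s p q := by
  unfold pair2
  rw [real_inner_comm p r, real_inner_comm q s, real_inner_comm p s, real_inner_comm q r]
  ring

theorem pair2_uni_left {n : ℕ} (φ : Un n) (p q r s : Cn n) :
    pair2 (uni φ p) (uni φ q) r s = pair2 p q (uni φ⁻¹ r) (uni φ⁻¹ s) := by
  unfold pair2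
  rw [inner_uni_left, inner_uni_left, inner_uni_left, inner_uni_left]

theorem area_of_orthonormal {n : ℕ} {a : Fin 2 → Cn n} (ha : Orthonormal ℝ a) :
    area (a 0) (a 1) = 1 := by
  unfold area
  have h0 : ‖a 0‖ = 1 := ha.1 0
  have h1 : ‖a 1‖ = 1 := ha.1 1
  have h2 : inner ℝ (a 0) (a 1) = 0 := ha.2 (by decide)
  rw [h0, h1, h2]
  norm_num

/-- Real multiples are bilinear in the last two arguments of `pair2`. -/
theorem TArea_pair2_comb {n : ℕ} (p q f g : Cn n) (s t u : ℝ) :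
    pair2 p q (s • f) (t • f + u • g) = s * u * pair2 p q f g := by
  unfold pair2
  simp only [inner_add_right, inner_smul_right]
  ring

theorem TArea_om_comb {n : ℕ} (f g : Cn n) (s t u : ℝ) :
    om (s • f) (t • f + u • g) = s * u * om f g := by
  unfold om
  have h0 : (inner ℂ f f : ℂ).im = 0 := by
    have := inner_self_im (𝕜 := ℂ) f
    simpa using this
  have h1 : ∀ (r : ℝ) (x : Cn n), r • x = (r : ℂ) • x := fun r x => by
    ext j
    simp
  rw [h1 s f, h1 t f, h1 u g, inner_smul_left, inner_add_right, inner_smul_right, inner_smul_right,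
    Complex.conj_ofReal]
  simp only [Complex.mul_im, Complex.add_im, Complex.add_re, Complex.mul_re, Complex.ofReal_re,
    Complex.ofReal_im, h0]
  ring

/-- Real Gram–Schmidt for two vectors with positive area. -/
theorem TArea_frame {n : ℕ} (q1 q2 : Cn n) (h : 0 < area q1 q2) :
    ∃ (f : Fin 2 → Cn n) (s t u : ℝ), Orthonormal ℝ f ∧ q1 = s • f 0 ∧
      q2 = t • f 0 + u • f 1 ∧ s * u = area q1 q2 := by
  have hq : q1 ≠ 0 := by
    rintro rfl
    unfold area at h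
    simp at h
  have hn : 0 < ‖q1‖ := norm_pos_iff.2 hq
  have hD : 0 < ‖q1‖ ^ 2 * ‖q2‖ ^ 2 - (inner ℝ q1 q2) ^ 2 := by
    unfold area at h
    exact Real.sqrt_pos.1 h
  have hA : area q1 q2 ^ 2 = ‖q1‖ ^ 2 * ‖q2‖ ^ 2 - (inner ℝ q1 q2) ^ 2 := by
    unfold area
    exact Real.sq_sqrt hD.le
  set c : ℝ := inner ℝ q1 q2 with hc
  set g : Cn n := q2 - (c / ‖q1‖ ^ 2) • q1 with hg
  have hqq : inner ℝ q1 q1 = ‖q1‖ ^ 2 := real_inner_self_eq_norm_sq q1
  have hq22 : inner ℝ q2 q2 = ‖q2‖ ^ 2 := real_inner_self_eq_norm_sq q2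
  have hqg : inner ℝ q1 g = 0 := by
    rw [hg, inner_sub_right, inner_smul_right, hqq, ← hc]
    field_simp
    ring
  have hgg : ‖g‖ ^ 2 = area q1 q2 ^ 2 / ‖q1‖ ^ 2 := by
    rw [← real_inner_self_eq_norm_sq g, hA]
    conv_lhs => rw [hg]
    rw [inner_sub_left, inner_sub_right, inner_sub_right, inner_smul_left, inner_smul_right,
      inner_smul_left, inner_smul_right, hqq, hq22, real_inner_comm q1 q2, ← hc]
    simp only [conj_trivial]
    field_simp
    ring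
  have hgn : ‖g‖ = area q1 q2 / ‖q1‖ := by
    have h1 : ‖g‖ ^ 2 = (area q1 q2 / ‖q1‖) ^ 2 := by rw [hgg, div_pow]
    exact (pow_left_inj₀ (norm_nonneg _) (by positivity) (by norm_num)).1 h1
  have hgp : 0 < ‖g‖ := by rw [hgn]; positivity
  refine ⟨![‖q1‖⁻¹ • q1, ‖g‖⁻¹ • g], ‖q1‖, c / ‖q1‖, ‖g‖, ⟨?_, ?_⟩, ?_, ?_, ?_⟩
  · intro i
    fin_cases i
    · simp [norm_smul, hn.ne']
    · simp [norm_smul, hgp.ne']
  · intro i j hij
    fin_cases i <;> fin_cases j
    · exact absurd rfl hij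
    · show inner ℝ (‖q1‖⁻¹ • q1) (‖g‖⁻¹ • g) = 0
      rw [inner_smul_left, inner_smul_right, hqg]
      simp
    · show inner ℝ (‖g‖⁻¹ • g) (‖q1‖⁻¹ • q1) = 0
      rw [inner_smul_left, inner_smul_right, real_inner_comm, hqg]
      simp
    · exact absurd rfl hij
  · show q1 = ‖q1‖ • (‖q1‖⁻¹ • q1)
    rw [smul_smul, mul_inv_cancel₀ hn.ne', one_smul]
  · show q2 = (c / ‖q1‖) • (‖q1‖⁻¹ • q1) + ‖g‖ • (‖g‖⁻¹ • g)
    rw [smul_smul, smul_smul, mul_inv_cancel₀ hgp.ne', one_smul, hg]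
    have h2 : c / ‖q1‖ * ‖q1‖⁻¹ = c / ‖q1‖ ^ 2 := by
      field_simp
    rw [h2]
    abel
  · rw [hgn]
    field_simp

theorem TArea_pair2_zero {n : ℕ} (q1 q2 : Cn n) (h : area q1 q2 = 0) (p q : Cn n) :
    pair2 p q q1 q2 = 0 := by
  by_cases hq : q1 = 0
  · subst hq
    simp [pair2]
  have hn : 0 < ‖q1‖ := norm_pos_iff.2 hq
  have hle : ‖q1‖ ^ 2 * ‖q2‖ ^ 2 - (inner ℝ q1 q2) ^ 2 ≤ 0 := by
    unfold area at h
    exact Real.sqrt_eq_zero'.1 h
  have hcs : |inner ℝ q1 q2| = ‖q1‖ * ‖q2‖ := by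
    apply le_antisymm (abs_real_inner_le_norm q1 q2)
    rw [← abs_of_nonneg (mul_nonneg (norm_nonneg q1) (norm_nonneg q2))]
    apply sq_le_sq.1
    rw [mul_pow]
    linarith
  have hqq : inner ℝ q1 q1 = ‖q1‖ ^ 2 := real_inner_self_eq_norm_sq q1
  have hq22 : inner ℝ q2 q2 = ‖q2‖ ^ 2 := real_inner_self_eq_norm_sq q2
  have hsq : (inner ℝ q1 q2) ^ 2 = ‖q1‖ ^ 2 * ‖q2‖ ^ 2 := by
    rw [← sq_abs, hcs, mul_pow]
  set c : ℝ := inner ℝ q1 q2 with hc
  set g : Cn n := q2 - (c / ‖q1‖ ^ 2) • q1 with hg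
  have hgg : ‖g‖ ^ 2 = 0 := by
    rw [← real_inner_self_eq_norm_sq g]
    conv_lhs => rw [hg]
    rw [inner_sub_left, inner_sub_right, inner_sub_right, inner_smul_left, inner_smul_right,
      inner_smul_left, inner_smul_right, hqq, hq22, real_inner_comm q1 q2, ← hc]
    simp only [conj_trivial]
    field_simp
    linarith
  have hg0 : g = 0 := by
    rw [← norm_eq_zero]
    exact pow_eq_zero_iff (by norm_num) |>.1 hgg
  have hq2 : q2 = (c / ‖q1‖ ^ 2) • q1 := by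
    rw [hg] at hg0
    exact sub_eq_zero.1 hg0
  rw [hq2]
  unfold pair2
  rw [inner_smul_right, inner_smul_right]
  ring

theorem mean_area {m : ℕ} (a b q1 q2 : Cn (m + 2)) :
    ∫ φ, |pair2 (uni φ a) (uni φ b) q1 q2| ∂(haarU (m + 2)) =
      M1 a b * area q1 q2 + M2 a b * om q1 q2 ^ 2 / area q1 q2 := by
  have hA0 : 0 ≤ area q1 q2 := Real.sqrt_nonneg _
  rcases hA0.eq_or_lt with h | h
  · have h' : area q1 q2 = 0 := h.symm
    have h1 : ∀ φ : Un (m + 2), |pair2 (uni φ a) (uni φ b) q1 q2| = 0 := fun φ => by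
      rw [TArea_pair2_zero q1 q2 h', abs_zero]
    simp only [h1, h', integral_zero, mul_zero, div_zero, add_zero]
  · obtain ⟨f, s, t, u, hf, hq1, hq2, hsu⟩ := TArea_frame q1 q2 h
    obtain ⟨cs, sn, ψ, hcs, h1, he, hw⟩ := exists_pair_frame hf
    have hpair : ∀ φ : Un (m + 2), |pair2 (uni φ a) (uni φ b) q1 q2| =
        area q1 q2 * |pair2 (uni (ψ⁻¹ * φ) a) (uni (ψ⁻¹ * φ) b) (EuclideanSpace.single 0 1)
          (EuclideanSpace.single 0 (cs * Complex.I) + EuclideanSpace.single 1 (sn : ℂ))| := by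
      intro φ
      have h2 : pair2 (uni φ a) (uni φ b) q1 q2 = s * u * pair2 (uni φ a) (uni φ b) (f 0) (f 1) := by
        rw [← TArea_pair2_comb (uni φ a) (uni φ b) (f 0) (f 1) s t u, ← hq1, ← hq2]
      rw [h2, hsu, abs_mul, abs_of_pos h, uni_mul, uni_mul, pair2_uni_left ψ⁻¹, inv_inv, he, hw]
    simp only [hpair]
    rw [integral_const_mul]
    have h3 := integral_mulLeft (n := m + 2) (fun φ => |pair2 (uni φ a) (uni φ b)
      (EuclideanSpace.single 0 1) (EuclideanSpace.single 0 (cs * Complex.I) +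
        EuclideanSpace.single 1 (sn : ℂ))|) ψ⁻¹
    rw [h3, mean_pair a b h1]
    have h4 : om q1 q2 = area q1 q2 * cs := by
      rw [hcs, ← hsu, ← TArea_om_comb (f 0) (f 1) s t u, ← hq1, ← hq2]
    rw [h4]
    field_simp

end Pool.Agent.H89.CZ
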