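import Mathlib
import Pool.Agent.H89.CZ.HB

set_option autoImplicit false

/-!
# TBall: integrals over the unit ball of `ℂⁿ = ℝ²ⁿ`

`B = closedBall 0 1`; the volume of `Cn n` is the Lebesgue measure of the real euclidean space
`ℝ²ⁿ` (it is invariant under all real linear isometries: `LinearIsometryEquiv.measurePreserving`;
if the volume instance of `Cn n` causes trouble, transfer with `EuclideanSpace.volume_preserving…`
or use that every real linear isometry equivalence of a finite-dimensional space preserves any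
Haar measure up to a constant which is one, since it maps `B` to itself).

* `ball_abs`: for unit vectors `u`, `u'` there is a real isometry `T` with `T u = u'`
  (reflection), so `∫_B |⟨u, q⟩| = ∫_B |⟨u', q⟩| =: c`; by homogeneity `∫_B |⟨u, q⟩| = c ‖u‖`.
* `ball_r`: let `e` be a unit vector, `f_1 = i e`, `f_2, …, f_{2n-1}` with `e` an orthonormal real
  basis.  `r(q)² = ‖q‖² - ⟨e,q⟩² = ∑_k ⟨f_k, q⟩²`.  For each `k` the isometry exchanging `f_1` and
  `f_k` and fixing the other basis vectors gives `∫_B ⟨f_1,q⟩²/r(q) = ∫_B ⟨f_k,q⟩²/r(q)`; sum over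
  `k`.  Note `om e q = Im ⟨e, q⟩ = Re ⟨i e, q⟩ = inner ℝ (i • e) q` for the Mathlib convention
  (`inner ℂ` is conjugate linear in the first variable); check the sign, it does not matter.
* `ball_pair`: a real isometry maps one orthonormal pair to another (extend both to orthonormal
  bases).
* positivity: `r` and the norm are continuous, nonnegative and positive on an open subset of `B`.
-/

open MeasureTheory Pool.Agent.H61.UProj
open scoped ENNReal

noncomputable section

namespace Pool.Agent.H89.CZ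

variable {n : ℕ}

/-- change of variables by a real isometry -/
private theorem TBall_iso (T : Cn n ≃ₗᵢ[ℝ] Cn n) (f : Cn n → ℝ) :
    ∫ q in Metric.closedBall (0 : Cn n) 1, f (T q) =
      ∫ q in Metric.closedBall (0 : Cn n) 1, f q := by
  have h1 := T.measurePreserving.setIntegral_preimage_emb
    T.toHomeomorph.measurableEmbedding f (Metric.closedBall (0 : Cn n) 1)
  have h2 : (T : Cn n → Cn n) ⁻¹' Metric.closedBall (0 : Cn n) 1 =
      Metric.closedBall (0 : Cn n) 1 := by
    ext q
    simp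
  rw [h2] at h1
  exact h1

private theorem TBall_finrank (n : ℕ) : Module.finrank ℝ (Cn n) = 2 * n := by
  rw [← Module.finrank_mul_finrank ℝ ℂ (Cn n)]
  simp

/-- an orthonormal family extends to an orthonormal basis -/
private theorem TBall_ext {k : ℕ} {a : Fin k → Cn n} (ha : Orthonormal ℝ a) :
    ∃ (hk : k ≤ 2 * n) (b : OrthonormalBasis (Fin (2 * n)) ℝ (Cn n)),
      ∀ i : Fin k, b (Fin.castLE hk i) = a i := by
  have hk : k ≤ 2 * n := by
    have h1 := ha.linearIndependent.fintype_card_le_finrank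
    rw [TBall_finrank, Fintype.card_fin] at h1
    exact h1
  refine ⟨hk, ?_⟩
  have h2 : Orthonormal ℝ (Set.domRestrict {j : Fin (2 * n) | j.val < k}
      (fun j : Fin (2 * n) => if h : j.val < k then a ⟨j.val, h⟩ else 0)) := by
    have h3 : (Set.domRestrict {j : Fin (2 * n) | j.val < k}
      (fun j : Fin (2 * n) => if h : j.val < k then a ⟨j.val, h⟩ else 0)) =
        a ∘ (fun j : {j : Fin (2 * n) | j.val < k} => ⟨j.val.val, j.2⟩) := by
      funext j
      have hj : j.val.val < k := j.2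
      simp [Set.domRestrict, hj]
    rw [h3]
    refine ha.comp _ ?_
    intro x y hxy
    have h4 : x.val.val = y.val.val := by
      have h6 := congrArg Fin.val hxy
      exact h6
    exact Subtype.ext (Fin.ext h4)
  obtain ⟨b, hb⟩ := h2.exists_orthonormalBasis_extension_of_card_eq
    (by rw [TBall_finrank, Fintype.card_fin])
  refine ⟨b, fun i => ?_⟩
  have h5 := hb (Fin.castLE hk i) i.2
  rw [h5]
  simp

private theorem TBall_trans {k : ℕ} {a a' : Fin k → Cn n} (ha : Orthonormal ℝ a)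
    (ha' : Orthonormal ℝ a') : ∃ T : Cn n ≃ₗᵢ[ℝ] Cn n, ∀ i, T (a i) = a' i := by
  obtain ⟨hk, b, hb⟩ := TBall_ext ha
  obtain ⟨hk', b', hb'⟩ := TBall_ext ha'
  refine ⟨b.equiv b' (Equiv.refl _), fun i => ?_⟩
  rw [← hb i, OrthonormalBasis.equiv_apply_basis, Equiv.refl_apply, hb' i]

private theorem TBall_one {u : Cn n} (hu : ‖u‖ = 1) : Orthonormal ℝ (fun _ : Fin 1 => u) := by
  refine ⟨fun _ => hu, fun i j hij => ?_⟩
  exact absurd (Subsingleton.elim i j) hij

theorem ball_abs (n : ℕ) : ∃ c : ℝ, ∀ u : Cn n,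
    ∫ q in Metric.closedBall (0 : Cn n) 1, |(inner ℝ u q : ℝ)| = c * ‖u‖ := by
  by_cases h : ∃ u0 : Cn n, ‖u0‖ = 1
  · obtain ⟨u0, hu0⟩ := h
    refine ⟨∫ q in Metric.closedBall (0 : Cn n) 1, |(inner ℝ u0 q : ℝ)|, fun u => ?_⟩
    rcases eq_or_ne u 0 with rfl | hu
    · simp
    · have hn : ‖u‖ ≠ 0 := norm_ne_zero_iff.2 hu
      have hu1 : ‖(‖u‖⁻¹ • u : Cn n)‖ = 1 := by
        rw [norm_smul, norm_inv, norm_norm, inv_mul_cancel₀ hn]
      obtain ⟨T, hT⟩ := TBall_trans (TBall_one hu0) (TBall_one hu1)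
      have hT0 : T u0 = ‖u‖⁻¹ • u := hT 0
      have h1 : u = ‖u‖ • T u0 := by
        rw [hT0, smul_smul, mul_inv_cancel₀ hn, one_smul]
      have h2 : ∀ q : Cn n, |(inner ℝ u (T q) : ℝ)| = |(inner ℝ u0 q : ℝ)| * ‖u‖ := by
        intro q
        have h3 : (inner ℝ u (T q) : ℝ) = ‖u‖ * inner ℝ u0 q := by
          conv_lhs => rw [h1]
          rw [real_inner_smul_left, LinearIsometryEquiv.inner_map_map]
        rw [h3, abs_mul, abs_of_nonneg (norm_nonneg u), mul_comm]
      rw [← TBall_iso T (fun q => |(inner ℝ u q : ℝ)|)]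
      simp only [h2]
      rw [integral_mul_const]
  · refine ⟨0, fun u => ?_⟩
    have hu : u = 0 := by
      by_contra hu
      apply h
      have hn : ‖u‖ ≠ 0 := norm_ne_zero_iff.2 hu
      exact ⟨‖u‖⁻¹ • u, by rw [norm_smul, norm_inv, norm_norm, inv_mul_cancel₀ hn]⟩
    subst hu
    simp

/-- distance to the real line spanned by the unit vector `e` -/
def rd (e q : Cn n) : ℝ := √(‖q‖ ^ 2 - (inner ℝ e q : ℝ) ^ 2)

private theorem TBall_rd_cont (e : Cn n) : Continuous (fun q : Cn n => rd e q) := by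
  unfold rd
  exact ((continuous_norm.pow 2).sub ((continuous_const.inner continuous_id).pow 2)).sqrt

private theorem TBall_om (e q : Cn n) : om e q = inner ℝ (Complex.I • e) q := by
  unfold om
  rw [real_inner_eq, PiLp.inner_apply, Complex.im_sum, Complex.re_sum]
  refine Finset.sum_congr rfl (fun j _ => ?_)
  have h1 : (Complex.I • e) j = Complex.I * e j := rfl
  have h2 : inner ℂ (e j) (q j) = (starRingEnd ℂ) (e j) * q j := by
    rw [RCLike.inner_apply, mul_comm]
  rw [h1, h2, map_mul, Complex.conj_I]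
  simp only [Complex.mul_re, Complex.mul_im, Complex.neg_re, Complex.neg_im, Complex.I_re,
    Complex.I_im]
  ring

private theorem TBall_pair_on (e : Cn n) (he : ‖e‖ = 1) :
    Orthonormal ℝ ![e, Complex.I • e] := by
  have h0 : inner ℝ (Complex.I • e) e = (0 : ℝ) := by
    rw [← TBall_om]
    unfold om
    exact inner_self_im (𝕜 := ℂ) e
  refine ⟨?_, ?_⟩
  · intro i
    fin_cases i
    · exact he
    · change ‖Complex.I • e‖ = 1
      rw [norm_smul, Complex.norm_I, one_mul, he]
  · intro i j hij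
    fin_cases i <;> fin_cases j
    · exact absurd rfl hij
    · change inner ℝ e (Complex.I • e) = (0 : ℝ)
      rw [real_inner_comm]
      exact h0
    · exact h0
    · exact absurd rfl hij

private theorem TBall_intOn {f : Cn n → ℝ} (hf : Measurable f) (C : ℝ)
    (hC : ∀ q ∈ Metric.closedBall (0 : Cn n) 1, |f q| ≤ C) :
    IntegrableOn f (Metric.closedBall (0 : Cn n) 1) := by
  refine Measure.integrableOn_of_bounded (M := C) (measure_closedBall_lt_top).ne
    hf.aestronglyMeasurable ?_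
  refine (ae_restrict_iff' measurableSet_closedBall).2 (Filter.Eventually.of_forall ?_)
  intro q hq
  rw [Real.norm_eq_abs]
  exact hC q hq

theorem ball_r (hn : 2 ≤ n) (e : Cn n) (he : ‖e‖ = 1) :
    ∫ q in Metric.closedBall (0 : Cn n) 1, om e q ^ 2 / rd e q =
      (∫ q in Metric.closedBall (0 : Cn n) 1, rd e q) / (2 * n - 1) := by
  obtain ⟨hk, b, hb⟩ := TBall_ext (TBall_pair_on e he)
  set i0 : Fin (2 * n) := Fin.castLE hk 0 with hi0
  set i1 : Fin (2 * n) := Fin.castLE hk 1 with hi1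
  have hb0 : b i0 = e := hb 0
  have hb1 : b i1 = Complex.I • e := hb 1
  have hne : i0 ≠ i1 := by
    intro h
    have := congrArg Fin.val h
    simp [hi0, hi1] at this
  have hsum : ∀ q : Cn n, ∑ k ∈ Finset.univ.erase i0, (inner ℝ (b k) q : ℝ) ^ 2 =
      ‖q‖ ^ 2 - (inner ℝ e q : ℝ) ^ 2 := by
    intro q
    have h1 := b.sum_sq_norm_inner_right q
    rw [← Finset.add_sum_erase _ _ (Finset.mem_univ i0)] at h1
    simp only [Real.norm_eq_abs, sq_abs] at h1
    rw [hb0] at h1
    linarith
  have hnn : ∀ q : Cn n, 0 ≤ ‖q‖ ^ 2 - (inner ℝ e q : ℝ) ^ 2 := by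
    intro q
    rw [← hsum q]
    exact Finset.sum_nonneg (fun k _ => sq_nonneg _)
  have hrd : ∀ q : Cn n, rd e q ^ 2 = ‖q‖ ^ 2 - (inner ℝ e q : ℝ) ^ 2 := by
    intro q
    exact Real.sq_sqrt (hnn q)
  have hrd0 : ∀ q : Cn n, 0 ≤ rd e q := fun q => Real.sqrt_nonneg _
  -- the swaps
  have hswap : ∀ k ∈ Finset.univ.erase i0,
      ∫ q in Metric.closedBall (0 : Cn n) 1, (inner ℝ (b k) q : ℝ) ^ 2 / rd e q =
        ∫ q in Metric.closedBall (0 : Cn n) 1, om e q ^ 2 / rd e q := by
    intro k hk0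
    have hk0' : k ≠ i0 := Finset.ne_of_mem_erase hk0
    set T := b.equiv b (Equiv.swap i1 k) with hT
    have hTe : T e = e := by
      have h1 : T (b i0) = b (Equiv.swap i1 k i0) := OrthonormalBasis.equiv_apply_basis _ _ _ _
      rw [Equiv.swap_apply_of_ne_of_ne hne (Ne.symm hk0'), hb0] at h1
      exact h1
    have hT1 : T (b i1) = b k := by
      have h1 : T (b i1) = b (Equiv.swap i1 k i1) := OrthonormalBasis.equiv_apply_basis _ _ _ _
      rw [Equiv.swap_apply_left] at h1
      exact h1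
    rw [← TBall_iso T (fun q => (inner ℝ (b k) q : ℝ) ^ 2 / rd e q)]
    refine integral_congr_ae (Filter.Eventually.of_forall (fun q => ?_))
    have h2 : (inner ℝ (b k) (T q) : ℝ) = om e q := by
      rw [← hT1, LinearIsometryEquiv.inner_map_map, hb1, TBall_om]
    have h3 : rd e (T q) = rd e q := by
      unfold rd
      rw [LinearIsometryEquiv.norm_map]
      congr 3
      conv_lhs => rw [← hTe]
      rw [LinearIsometryEquiv.inner_map_map]
    simp only [h2, h3]
  have hint : ∀ k ∈ Finset.univ.erase i0,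
      IntegrableOn (fun q : Cn n => (inner ℝ (b k) q : ℝ) ^ 2 / rd e q)
        (Metric.closedBall (0 : Cn n) 1) := by
    intro k hk0
    refine TBall_intOn ?_ 1 ?_
    · exact (((continuous_const.inner continuous_id).pow 2).measurable).div
        (TBall_rd_cont e).measurable
    · intro q hq
      have hq1 : ‖q‖ ≤ 1 := by simpa using hq
      have h1 : (inner ℝ (b k) q : ℝ) ^ 2 ≤ rd e q ^ 2 := by
        rw [hrd, ← hsum q]
        exact Finset.single_le_sum (f := fun k => (inner ℝ (b k) q : ℝ) ^ 2)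
          (fun k _ => sq_nonneg _) hk0
      have h2 : rd e q ≤ 1 := by
        have h3 : rd e q ^ 2 ≤ 1 := by
          rw [hrd]
          nlinarith [sq_nonneg (inner ℝ e q : ℝ), norm_nonneg q]
        nlinarith [hrd0 q]
      rw [abs_of_nonneg (div_nonneg (sq_nonneg _) (hrd0 q))]
      rcases (hrd0 q).eq_or_lt with h4 | h4
      · rw [← h4, div_zero]
        exact zero_le_one
      · rw [div_le_one h4]
        nlinarith
  have hcard : ((Finset.univ.erase i0).card : ℝ) = 2 * n - 1 := by
    rw [Finset.card_erase_of_mem (Finset.mem_univ _), Finset.card_univ, Fintype.card_fin,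
      Nat.cast_sub (by omega)]
    push_cast
    ring
  have htot : ∑ k ∈ Finset.univ.erase i0,
      ∫ q in Metric.closedBall (0 : Cn n) 1, (inner ℝ (b k) q : ℝ) ^ 2 / rd e q =
        ∫ q in Metric.closedBall (0 : Cn n) 1, rd e q := by
    rw [← integral_finsetSum _ hint]
    refine integral_congr_ae (Filter.Eventually.of_forall (fun q => ?_))
    simp only
    rw [← Finset.sum_div, hsum q, ← hrd q]
    rcases (hrd0 q).eq_or_lt with h4 | h4
    · rw [← h4]
      simp
    · field_simp
  rw [Finset.sum_congr rfl hswap, Finset.sum_const, nsmul_eq_mul, hcard] at htot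
  have hpos : (2 * (n : ℝ) - 1) ≠ 0 := by
    have : (2 : ℝ) ≤ n := by exact_mod_cast hn
    linarith
  rw [eq_div_iff hpos, ← htot]
  ring

private theorem TBall_pos {f : Cn n → ℝ} (hf : Continuous f) (h0 : ∀ q, 0 ≤ f q) (C : ℝ)
    (hC : ∀ q ∈ Metric.closedBall (0 : Cn n) 1, |f q| ≤ C) (q0 : Cn n) (hq0 : ‖q0‖ < 1)
    (hf0 : f q0 ≠ 0) : 0 < ∫ q in Metric.closedBall (0 : Cn n) 1, f q := by
  rw [setIntegral_pos_iff_support_of_nonneg_ae (Filter.Eventually.of_forall h0)
    (TBall_intOn hf.measurable C hC)]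
  have hopen : IsOpen (Function.support f ∩ Metric.ball (0 : Cn n) 1) :=
    hf.isOpen_support.inter Metric.isOpen_ball
  refine (hopen.measure_pos volume ⟨q0, hf0, by simpa using hq0⟩).trans_le ?_
  exact measure_mono (Set.inter_subset_inter_right _ Metric.ball_subset_closedBall)

theorem ball_r_pos (hn : 2 ≤ n) (e : Cn n) (he : ‖e‖ = 1) :
    0 < ∫ q in Metric.closedBall (0 : Cn n) 1, rd e q := by
  have hort : (inner ℝ e (Complex.I • e) : ℝ) = 0 := by
    have h1 := (TBall_pair_on e he).2 (show (0 : Fin 2) ≠ 1 by decide)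
    exact h1
  have hIe : ‖Complex.I • e‖ = 1 := by
    rw [norm_smul, Complex.norm_I, one_mul, he]
  refine TBall_pos (TBall_rd_cont e) (fun q => Real.sqrt_nonneg _) 1 ?_
    ((1 / 2 : ℝ) • (Complex.I • e)) ?_ ?_
  · intro q hq
    have hq1 : ‖q‖ ≤ 1 := by simpa using hq
    have h0 : 0 ≤ rd e q := Real.sqrt_nonneg _
    rw [abs_of_nonneg h0]
    unfold rd
    rw [Real.sqrt_le_one]
    nlinarith [sq_nonneg (inner ℝ e q : ℝ), norm_nonneg q]
  · rw [norm_smul, hIe]
    norm_num
  · unfold rd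
    rw [norm_smul, hIe, real_inner_smul_right, hort]
    have : (0 : ℝ) < ((‖(1 / 2 : ℝ)‖ * 1) ^ 2 - (1 / 2 * 0) ^ 2) := by norm_num
    exact (Real.sqrt_pos.2 this).ne'

theorem ball_norm_pos (hn : 1 ≤ n) :
    0 < ∫ q in Metric.closedBall (0 : Cn n) 1, ‖q‖ := by
  have hu : ‖(EuclideanSpace.single (⟨0, by omega⟩ : Fin n) (1 / 2 : ℂ) : Cn n)‖ = 1 / 2 := by
    rw [PiLp.norm_single]
    norm_num
  refine TBall_pos continuous_norm (fun q => norm_nonneg q) 1 ?_
    (EuclideanSpace.single (⟨0, by omega⟩ : Fin n) (1 / 2 : ℂ)) ?_ ?_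
  · intro q hq
    rw [abs_of_nonneg (norm_nonneg q)]
    simpa using hq
  · rw [hu]
    norm_num
  · rw [hu]
    norm_num

theorem ball_pair {a a' : Fin 2 → Cn n} (ha : Orthonormal ℝ a) (ha' : Orthonormal ℝ a') :
    ∫ q in Metric.closedBall (0 : Cn n) 1,
        √((inner ℝ (a 0) q : ℝ) ^ 2 + (inner ℝ (a 1) q : ℝ) ^ 2) =
      ∫ q in Metric.closedBall (0 : Cn n) 1,
        √((inner ℝ (a' 0) q : ℝ) ^ 2 + (inner ℝ (a' 1) q : ℝ) ^ 2) := by
  obtain ⟨T, hT⟩ := TBall_trans ha ha'
  rw [← TBall_iso T (fun q => √((inner ℝ (a' 0) q : ℝ) ^ 2 + (inner ℝ (a' 1) q : ℝ) ^ 2))]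
  refine integral_congr_ae (Filter.Eventually.of_forall (fun q => ?_))
  simp only
  rw [← hT 0, ← hT 1, LinearIsometryEquiv.inner_map_map, LinearIsometryEquiv.inner_map_map]

/-- invariance of ball integrals under unitary maps -/
theorem ball_uni (φ : Un n) (f : Cn n → ℝ) :
    ∫ q in Metric.closedBall (0 : Cn n) 1, f (uni φ q) =
      ∫ q in Metric.closedBall (0 : Cn n) 1, f q :=
  TBall_iso ((uni φ).toLinearIsometryEquiv rfl) f

end Pool.Agent.H89.CZ
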