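import Mathlib
import Pool.Agent.H89.CZ.TArea
import Pool.Agent.H89.CZ.TBall

set_option autoImplicit false

/-!
# TConst: `M1 + M2 / (2n - 1)` does not depend on the orthonormal pair

`n = m + 2`, `e0 = EuclideanSpace.single 0 1`, `(a, b)` real orthonormal, `B` the closed unit ball.
Consider `I = ∫_{q ∈ B} ∫_φ |pair2 (φa) (φb) e0 q| dφ dq`.
 - By `mean_area`, `area e0 q = rd e0 q` (`‖e0‖ = 1`) and `ball_r`:
   `I = (M1 a b + M2 a b/(2n-1)) * R`, `R = ∫_B rd e0 q > 0` (`ball_r_pos`).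
 - `pair2 p q' e0 q = ⟨u, q⟩` with `u = ⟨p,e0⟩ q' - ⟨q',e0⟩ p`; for `p = φa`, `q' = φb`
   (orthonormal), `‖u‖ = √(⟨φa,e0⟩² + ⟨φb,e0⟩²)`.  Exchange the integrals (the integrand is
   continuous and bounded on `B × U(n)`; both measures are finite):
   `I = c * ∫_φ √(⟨φa,e0⟩² + ⟨φb,e0⟩²)` by `ball_abs`.
 - `⟨φa,e0⟩ = ⟨a, φ⁻¹e0⟩`; with `h(v) = √(⟨a,v⟩² + ⟨b,v⟩²)` and `integral_inv`:
   `I = c ∫_φ h(φ e0)`.  For every `v`, `∫_φ h(φ v) = ‖v‖ ∫_φ h(φ e0)` (`h` is homogeneous;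
   there is `ψ` with `ψ (‖v‖ e0) = v`, `exists_uni_eq`, and `integral_mulRight`).
   Integrate over `v ∈ B` and exchange:
   `(∫_B ‖v‖) ∫_φ h(φ e0) = ∫_φ ∫_B h(φ v) dv = ∫_B h(v) dv` (`ball_uni`), and the last integral
   does not depend on the orthonormal pair (`ball_pair`); `∫_B ‖v‖ > 0` (`ball_norm_pos`).
 So `I` does not depend on `(a, b)`.
-/

open MeasureTheory Pool.Agent.H61.UProj
open scoped ENNReal

noncomputable section

namespace Pool.Agent.H89.CZ

private theorem TConst_int {n : ℕ} {f : Cn n → Un n → ℝ}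
    (hf : Continuous (Function.uncurry f)) :
    Integrable (Function.uncurry f)
      ((volume.restrict (Metric.closedBall (0 : Cn n) 1)).prod (haarU n)) := by
  have h1 : (volume.restrict (Metric.closedBall (0 : Cn n) 1)).prod (haarU n) =
      ((volume : Measure (Cn n)).prod (haarU n)).restrict
        (Metric.closedBall (0 : Cn n) 1 ×ˢ Set.univ) := by
    rw [← Measure.prod_restrict, Measure.restrict_univ]
  rw [h1]
  exact hf.continuousOn.integrableOn_compact ((isCompact_closedBall 0 1).prod isCompact_univ)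

private theorem TConst_swap {n : ℕ} {f : Cn n → Un n → ℝ}
    (hf : Continuous (Function.uncurry f)) :
    ∫ q in Metric.closedBall (0 : Cn n) 1, (∫ φ, f q φ ∂(haarU n)) =
      ∫ φ, (∫ q in Metric.closedBall (0 : Cn n) 1, f q φ) ∂(haarU n) :=
  integral_integral_swap (TConst_int hf)

private def TConst_h {n : ℕ} (a : Fin 2 → Cn n) (v : Cn n) : ℝ :=
  √((inner ℝ (a 0) v : ℝ) ^ 2 + (inner ℝ (a 1) v : ℝ) ^ 2)

private theorem TConst_h_cont {n : ℕ} (a : Fin 2 → Cn n) : Continuous (TConst_h a) := by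
  unfold TConst_h
  fun_prop

private theorem TConst_h_smul {n : ℕ} (a : Fin 2 → Cn n) {t : ℝ} (ht : 0 ≤ t) (v : Cn n) :
    TConst_h a (t • v) = t * TConst_h a v := by
  unfold TConst_h
  rw [inner_smul_right, inner_smul_right]
  have : (t * (inner ℝ (a 0) v : ℝ)) ^ 2 + (t * (inner ℝ (a 1) v : ℝ)) ^ 2 =
      t ^ 2 * ((inner ℝ (a 0) v : ℝ) ^ 2 + (inner ℝ (a 1) v : ℝ) ^ 2) := by ring
  rw [this, Real.sqrt_mul (sq_nonneg t), Real.sqrt_sq ht]

private theorem TConst_cont {n : ℕ} (a : Fin 2 → Cn n) : Continuous (Function.uncurry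
      (fun (q : Cn n) (φ : Un n) => TConst_h a (uni φ q))) := by
  have h0 := Continuous.comp (g := fun q : Un n × Cn n => uni q.1 q.2)
    (f := fun x : Cn n × Un n => (x.2, x.1)) continuous_uni2
    (continuous_snd.prodMk continuous_fst)
  exact Continuous.comp (g := TConst_h a) (TConst_h_cont a) h0

/-- the mean of `h` over the orbit of `v` -/
private theorem TConst_orbit {n : ℕ} {e : Cn n} (he : ‖e‖ = 1) (a : Fin 2 → Cn n) (v : Cn n) :
    ∫ φ, TConst_h a (uni φ v) ∂(haarU n) =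
      ‖v‖ * ∫ φ, TConst_h a (uni φ e) ∂(haarU n) := by
  obtain ⟨ψ, hψ⟩ := exists_uni_eq (‖v‖ • e) v (by
    rw [norm_smul, he, mul_one, norm_norm])
  have h1 : ∀ φ : Un n, TConst_h a (uni φ v) =
      ‖v‖ * TConst_h a (uni (φ * ψ) e) := by
    intro φ
    conv_lhs => rw [← hψ]
    rw [← uni_mul, LinearIsometry.map_smul, TConst_h_smul a (norm_nonneg v)]
  simp_rw [h1]
  rw [integral_const_mul, integral_mulRight (fun φ => TConst_h a (uni φ e)) ψ]

private theorem TConst_J {n : ℕ} {e : Cn n} (he : ‖e‖ = 1) (a : Fin 2 → Cn n) :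
    (∫ q in Metric.closedBall (0 : Cn n) 1, ‖q‖) *
      (∫ φ, TConst_h a (uni φ e) ∂(haarU n)) =
      ∫ q in Metric.closedBall (0 : Cn n) 1, TConst_h a q := by
  have h1 := TConst_swap (TConst_cont a)
  have h2 : ∀ φ : Un n,
      ∫ q in Metric.closedBall (0 : Cn n) 1, TConst_h a (uni φ q) =
        ∫ q in Metric.closedBall (0 : Cn n) 1, TConst_h a q := fun φ =>
    ball_uni φ (TConst_h a)
  have h3 : ∀ q : Cn n, ∫ φ, TConst_h a (uni φ q) ∂(haarU n) =
      ‖q‖ * ∫ φ, TConst_h a (uni φ e) ∂(haarU n) := fun q => TConst_orbit he a q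
  generalize (∫ φ, TConst_h a (uni φ e) ∂(haarU n)) = J at h3 ⊢
  simp only [h2, h3] at h1
  rw [integral_mul_const] at h1
  rw [h1, integral_const, probReal_univ, one_smul]

private theorem TConst_pair {n : ℕ} {p q : Cn n} (hp : ‖p‖ = 1) (hq : ‖q‖ = 1)
    (hpq : (inner ℝ p q : ℝ) = 0) (e s : Cn n) :
    pair2 p q e s = inner ℝ ((inner ℝ p e : ℝ) • q - (inner ℝ q e : ℝ) • p) s ∧
      ‖(inner ℝ p e : ℝ) • q - (inner ℝ q e : ℝ) • p‖ =
        √((inner ℝ p e : ℝ) ^ 2 + (inner ℝ q e : ℝ) ^ 2) := by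
  constructor
  · unfold pair2
    rw [inner_sub_left, inner_smul_left, inner_smul_left]
    simp only [conj_trivial]
    ring
  · rw [← Real.sqrt_sq (norm_nonneg ((inner ℝ p e : ℝ) • q - (inner ℝ q e : ℝ) • p))]
    congr 1
    have hqp : (inner ℝ q p : ℝ) = 0 := by rw [real_inner_comm]; exact hpq
    rw [@norm_sub_sq_real, norm_smul, norm_smul, hp, hq, inner_smul_left, inner_smul_right, hqp]
    simp

private theorem TConst_orth {n : ℕ} {a : Fin 2 → Cn n} (ha : Orthonormal ℝ a) (φ : Un n) :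
    ‖uni φ (a 0)‖ = 1 ∧ ‖uni φ (a 1)‖ = 1 ∧
      (inner ℝ (uni φ (a 0)) (uni φ (a 1)) : ℝ) = 0 := by
  refine ⟨?_, ?_, ?_⟩
  · rw [LinearIsometry.norm_map, ha.1 0]
  · rw [LinearIsometry.norm_map, ha.1 1]
  · rw [LinearIsometry.inner_map_map]
    exact ha.2 (by decide)

private theorem TConst_second {n : ℕ} (e : Cn n) {c : ℝ}
    (hc : ∀ u : Cn n, ∫ q in Metric.closedBall (0 : Cn n) 1, |(inner ℝ u q : ℝ)| = c * ‖u‖)
    {a : Fin 2 → Cn n} (ha : Orthonormal ℝ a) :
    ∫ φ, (∫ q in Metric.closedBall (0 : Cn n) 1,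
        |pair2 (uni φ (a 0)) (uni φ (a 1)) e q|) ∂(haarU n) =
      c * ∫ φ, TConst_h a (uni φ e) ∂(haarU n) := by
  have h1 : ∀ φ : Un n, ∫ q in Metric.closedBall (0 : Cn n) 1,
      |pair2 (uni φ (a 0)) (uni φ (a 1)) e q| = c * TConst_h a (uni φ⁻¹ e) := by
    intro φ
    obtain ⟨h0, h1, h2⟩ := TConst_orth ha φ
    have h3 : ∀ q : Cn n, pair2 (uni φ (a 0)) (uni φ (a 1)) e q = _ := fun q =>
      (TConst_pair h0 h1 h2 e q).1
    simp only [h3]
    rw [hc, (TConst_pair h0 h1 h2 e 0).2, inner_uni_left, inner_uni_left]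
    rfl
  simp only [h1]
  rw [integral_const_mul]
  congr 1
  exact integral_inv (fun φ => TConst_h a (uni φ e))

private theorem TConst_cont2 {n : ℕ} (e : Cn n) (a : Fin 2 → Cn n) :
    Continuous (Function.uncurry (fun (q : Cn n) (φ : Un n) =>
      |pair2 (uni φ (a 0)) (uni φ (a 1)) e q|)) := by
  unfold pair2 Function.uncurry
  have h0 : Continuous (fun x : Cn n × Un n => uni x.2 (a 0)) :=
    (continuous_uni (a 0)).comp continuous_snd
  have h1 : Continuous (fun x : Cn n × Un n => uni x.2 (a 1)) :=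
    (continuous_uni (a 1)).comp continuous_snd
  exact (((h0.inner continuous_const).mul (h1.inner continuous_fst)).sub
    ((h0.inner continuous_fst).mul (h1.inner continuous_const))).abs

private theorem TConst_first {n : ℕ} (hn : 2 ≤ n) {e : Cn n} (he : ‖e‖ = 1)
    (a : Fin 2 → Cn n) {A B : ℝ}
    (hmean : ∀ q : Cn n, ∫ φ, |pair2 (uni φ (a 0)) (uni φ (a 1)) e q| ∂(haarU n) =
        A * area e q + B * om e q ^ 2 / area e q) :
    ∫ φ, (∫ q in Metric.closedBall (0 : Cn n) 1,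
        |pair2 (uni φ (a 0)) (uni φ (a 1)) e q|) ∂(haarU n) =
      (A + B / (2 * (n : ℝ) - 1)) * ∫ q in Metric.closedBall (0 : Cn n) 1, rd e q := by
  have hcont := TConst_cont2 e a
  rw [← TConst_swap hcont]
  have hint := (TConst_int hcont).integral_prod_left
  simp only [Function.uncurry_apply_pair] at hint
  have harea : ∀ q : Cn n, area e q = rd e q := by
    intro q
    unfold area rd
    rw [he]
    simp
  have hmean' : ∀ q : Cn n,
      ∫ φ, |pair2 (uni φ (a 0)) (uni φ (a 1)) e q| ∂(haarU n) =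
        A * rd e q + B * (om e q ^ 2 / rd e q) := by
    intro q
    rw [hmean, harea, mul_div_assoc]
  simp only [hmean'] at hint ⊢
  have hrd : IntegrableOn (fun q : Cn n => A * rd e q) (Metric.closedBall (0 : Cn n) 1) := by
    refine ContinuousOn.integrableOn_compact (isCompact_closedBall 0 1)
      (Continuous.continuousOn ?_)
    unfold rd
    fun_prop
  have hsecond : IntegrableOn (fun q : Cn n => B * (om e q ^ 2 / rd e q))
      (Metric.closedBall (0 : Cn n) 1) := by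
    have h := hint.sub hrd
    refine h.congr (Filter.Eventually.of_forall fun q => ?_)
    simp
  rw [integral_add hrd hsecond, integral_const_mul, integral_const_mul, ball_r hn e he]
  ring

private theorem TConst_main {n : ℕ} (hn : 2 ≤ n) {e : Cn n} (he : ‖e‖ = 1)
    {a a' : Fin 2 → Cn n} (ha : Orthonormal ℝ a) (ha' : Orthonormal ℝ a') {A B A' B' : ℝ}
    (hmean : ∀ q : Cn n, ∫ φ, |pair2 (uni φ (a 0)) (uni φ (a 1)) e q| ∂(haarU n) =
        A * area e q + B * om e q ^ 2 / area e q)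
    (hmean' : ∀ q : Cn n, ∫ φ, |pair2 (uni φ (a' 0)) (uni φ (a' 1)) e q| ∂(haarU n) =
        A' * area e q + B' * om e q ^ 2 / area e q) :
    A + B / (2 * (n : ℝ) - 1) = A' + B' / (2 * (n : ℝ) - 1) := by
  obtain ⟨c, hc⟩ := ball_abs n
  have hR := ball_r_pos hn e he
  have hN := ball_norm_pos (n := n) (by omega)
  have hJ : ∫ φ, TConst_h a (uni φ e) ∂(haarU n) = ∫ φ, TConst_h a' (uni φ e) ∂(haarU n) := by
    have h1 := TConst_J he a
    have h2 := TConst_J he a'
    have h3 : ∫ q in Metric.closedBall (0 : Cn n) 1, TConst_h a q =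
        ∫ q in Metric.closedBall (0 : Cn n) 1, TConst_h a' q := ball_pair ha ha'
    exact mul_left_cancel₀ hN.ne' (by rw [h1, h2, h3])
  have h1 := TConst_first hn he a hmean
  have h2 := TConst_first hn he a' hmean'
  rw [TConst_second e hc ha] at h1
  rw [TConst_second e hc ha'] at h2
  rw [hJ] at h1
  exact mul_right_cancel₀ hR.ne' (h1.symm.trans h2)

theorem M_const {m : ℕ} {a a' : Fin 2 → Cn (m + 2)} (ha : Orthonormal ℝ a)
    (ha' : Orthonormal ℝ a') :
    M1 (a 0) (a 1) + M2 (a 0) (a 1) / (2 * ((m + 2 : ℕ) : ℝ) - 1) =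
      M1 (a' 0) (a' 1) + M2 (a' 0) (a' 1) / (2 * ((m + 2 : ℕ) : ℝ) - 1) := by
  have he : ‖(EuclideanSpace.single 0 1 : Cn (m + 2))‖ = 1 := by simp
  exact TConst_main (n := m + 2) (by omega) he ha ha'
    (fun q => mean_area (a 0) (a 1) _ q) (fun q => mean_area (a' 0) (a' 1) _ q)

end Pool.Agent.H89.CZ
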