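import Mathlib
import Pool.Agent.H89.CZ.TArea

set_option autoImplicit false

/-!
# TLine: complex lines, and the sum `M1 + M2`

`n = m + 2`, `e0 = EuclideanSpace.single 0 1`, `i e0 = EuclideanSpace.single 0 Complex.I`.

(A) `M_line`: for `a = e0`, `b = i e0`: `φa = g`, `φb = i g` (`uni_csmul`), `w = |g0|² + |g1|²`,
`d = g0 · i g1 - g1 · i g0 = 0`, `ρ = w`, so both integrands are `2 w² / (8 w) = w / 4` (also when
`w = 0`), and `∫ |(φ e0)_j|² = 1/n` for every `j`: these numbers are equal for all `j`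
(left multiplication by a unitary map exchanging two standard basis vectors, `exists_uni_pair` or
`swapU` in `UProj/Avg.lean`), and their sum is `∫ ‖φ e0‖² = 1`.  So
`M1 = M2 = (1/4)(2/n) = 1/(2n)`.

(B) `M_sum`: for `a`, `b` real orthonormal: `M1 a b + M2 a b = (1 + om a b ^ 2)/(2n)`.
By `mean_area` with `q1 = e0`, `q2 = i e0` (`area = 1`, `om = 1`):
`M1 a b + M2 a b = ∫ |pair2 (φa) (φb) e0 (i e0)|`.  By `pair2_uni_left`, `pair2_swap`:
`pair2 (φa) (φb) e0 (ie0) = pair2 (φ⁻¹e0) (φ⁻¹ ie0) a b`, so by `integral_inv` the integral is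
`∫ |pair2 (φe0) (φ ie0) a b| = M1 e0 (ie0) * area a b + M2 e0 (ie0) * om a b ^2 / area a b`
(`mean_area`), and `area a b = 1`; use (A).
-/

open MeasureTheory Pool.Agent.H61.UProj
open scoped ENNReal

noncomputable section

namespace Pool.Agent.H89.CZ

private theorem TLine_coord {n : ℕ} (z : Cn n) (j : Fin n) :
    inner ℂ (EuclideanSpace.single j (1 : ℂ) : Cn n) z = z j := by
  simp [EuclideanSpace.inner_single_left]

private theorem TLine_single {n : ℕ} (j : Fin n) :
    (EuclideanSpace.single j Complex.I : Cn n) =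
      Complex.I • (EuclideanSpace.single j (1 : ℂ) : Cn n) := by
  ext k
  simp

private theorem TLine_cont {n : ℕ} (e : Cn n) (j : Fin n) :
    Continuous (fun φ : Un n => Complex.normSq (uni φ e j)) := by
  have h := continuous_uni e
  fun_prop

private theorem TLine_eq {n : ℕ} (e : Cn n) (i j : Fin n) :
    ∫ φ, Complex.normSq (uni φ e i) ∂(haarU n) =
      ∫ φ, Complex.normSq (uni φ e j) ∂(haarU n) := by
  obtain ⟨ψ, hψ⟩ := exists_uni_eq (EuclideanSpace.single i (1 : ℂ) : Cn n)
    (EuclideanSpace.single j (1 : ℂ)) (by simp)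
  rw [← integral_mulLeft (fun φ : Un n => Complex.normSq (uni φ e i)) ψ⁻¹]
  refine integral_congr_ae (Filter.Eventually.of_forall fun φ => ?_)
  change Complex.normSq (uni (ψ⁻¹ * φ) e i) = Complex.normSq (uni φ e j)
  congr 1
  rw [uni_mul, ← TLine_coord (uni ψ⁻¹ (uni φ e)) i, ← inner_uni ψ, uni_uni_inv, hψ, TLine_coord]

private theorem TLine_val {m : ℕ} (j : Fin (m + 2)) :
    ∫ φ, Complex.normSq (uni φ (EuclideanSpace.single 0 (1 : ℂ) : Cn (m + 2)) j)
      ∂(haarU (m + 2)) = 1 / ((m + 2 : ℕ) : ℝ) := by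
  set e : Cn (m + 2) := EuclideanSpace.single 0 (1 : ℂ) with he
  have h1 : ∑ i, ∫ φ, Complex.normSq (uni φ e i) ∂(haarU (m + 2)) = 1 := by
    rw [← integral_finsetSum _ (fun i _ => integrable_of_continuous (TLine_cont e i))]
    have h2 : ∀ φ : Un (m + 2), ∑ i, Complex.normSq (uni φ e i) = 1 := by
      intro φ
      have h3 : ‖uni φ e‖ = 1 := by
        rw [LinearIsometry.norm_map, he]
        simp
      have h4 := EuclideanSpace.norm_sq_eq (uni φ e)
      rw [h3] at h4
      rw [← (by norm_num : (1 : ℝ) ^ 2 = 1), h4]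
      refine Finset.sum_congr rfl fun i _ => ?_
      rw [Complex.normSq_eq_norm_sq]
    simp_rw [h2]
    simp
  have h5 : ∑ i : Fin (m + 2), ∫ φ, Complex.normSq (uni φ e i) ∂(haarU (m + 2)) =
      ((m + 2 : ℕ) : ℝ) * ∫ φ, Complex.normSq (uni φ e j) ∂(haarU (m + 2)) := by
    rw [Finset.sum_congr rfl (fun i _ => TLine_eq e i j), Finset.sum_const, Finset.card_univ,
      Fintype.card_fin, nsmul_eq_mul]
  rw [h1] at h5
  have h6 : ((m + 2 : ℕ) : ℝ) ≠ 0 := by positivity
  field_simp
  rw [mul_comm]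
  exact h5.symm

private theorem TLine_int {m : ℕ} :
    ∫ φ, (Complex.normSq (uni φ (EuclideanSpace.single 0 (1 : ℂ) : Cn (m + 2)) 0) +
      Complex.normSq (uni φ (EuclideanSpace.single 0 (1 : ℂ) : Cn (m + 2)) 1)) / 4
      ∂(haarU (m + 2)) = 1 / (2 * ((m + 2 : ℕ) : ℝ)) := by
  rw [integral_div, integral_add (integrable_of_continuous (TLine_cont _ 0))
    (integrable_of_continuous (TLine_cont _ 1)), TLine_val, TLine_val]
  have h6 : ((m + 2 : ℕ) : ℝ) ≠ 0 := by positivity
  field_simp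
  norm_num

private theorem TLine_wv {m : ℕ} (g : Cn (m + 2)) :
    wv g (Complex.I • g) = Complex.normSq (g 0) + Complex.normSq (g 1) := by
  simp only [wv, PiLp.smul_apply, smul_eq_mul, Complex.normSq_apply, Complex.add_im,
    Complex.mul_im, Complex.mul_re, Complex.conj_re, Complex.conj_im, Complex.I_re, Complex.I_im]
  ring

private theorem TLine_dv {m : ℕ} (g : Cn (m + 2)) : dv g (Complex.I • g) = 0 := by
  simp only [dv, PiLp.smul_apply, smul_eq_mul]
  ring

private theorem TLine_rv {m : ℕ} (g : Cn (m + 2)) :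
    rv g (Complex.I • g) = Complex.normSq (g 0) + Complex.normSq (g 1) := by
  rw [rv, TLine_dv, TLine_wv, map_zero, add_zero, Real.sqrt_sq
    (add_nonneg (Complex.normSq_nonneg _) (Complex.normSq_nonneg _))]

theorem M_line (m : ℕ) :
    M1 (EuclideanSpace.single 0 1 : Cn (m + 2)) (EuclideanSpace.single 0 Complex.I) =
      1 / (2 * ((m + 2 : ℕ) : ℝ)) ∧
    M2 (EuclideanSpace.single 0 1 : Cn (m + 2)) (EuclideanSpace.single 0 Complex.I) =
      1 / (2 * ((m + 2 : ℕ) : ℝ)) := by
  have key : ∀ w : ℝ, 2 * w ^ 2 / (8 * w) = w / 4 := by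
    intro w
    by_cases hw : w = 0
    · simp [hw]
    · field_simp
      norm_num
  constructor
  · rw [← TLine_int (m := m), M1]
    refine integral_congr_ae (Filter.Eventually.of_forall fun φ => ?_)
    simp only []
    rw [TLine_single, uni_csmul, TLine_wv, TLine_dv, TLine_rv, map_zero, mul_zero, add_zero, key]
  · rw [← TLine_int (m := m), M2]
    refine integral_congr_ae (Filter.Eventually.of_forall fun φ => ?_)
    simp only []
    rw [TLine_single, uni_csmul, TLine_wv, TLine_dv, TLine_rv, map_zero, sub_zero, key]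

private theorem TLine_om {m : ℕ} :
    om (EuclideanSpace.single 0 1 : Cn (m + 2)) (EuclideanSpace.single 0 Complex.I) = 1 := by
  rw [om, TLine_coord]
  simp

private theorem TLine_area {m : ℕ} :
    area (EuclideanSpace.single 0 1 : Cn (m + 2)) (EuclideanSpace.single 0 Complex.I) = 1 := by
  rw [area, real_inner_eq]
  have h : (∑ j, (starRingEnd ℂ) ((EuclideanSpace.single 0 1 : Cn (m + 2)) j) *
      (EuclideanSpace.single 0 Complex.I : Cn (m + 2)) j).re = 0 := by
    rw [Finset.sum_eq_single 0]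
    · simp
    · intro b _ hb
      simp [hb]
    · simp
  rw [h]
  simp

theorem M_sum {m : ℕ} {a : Fin 2 → Cn (m + 2)} (ha : Orthonormal ℝ a) :
    M1 (a 0) (a 1) + M2 (a 0) (a 1) =
      (1 + om (a 0) (a 1) ^ 2) / (2 * ((m + 2 : ℕ) : ℝ)) := by
  have h1 := mean_area (a 0) (a 1) (EuclideanSpace.single 0 1 : Cn (m + 2))
    (EuclideanSpace.single 0 Complex.I)
  have h2 := mean_area (EuclideanSpace.single 0 1 : Cn (m + 2))
    (EuclideanSpace.single 0 Complex.I) (a 0) (a 1)
  have h3 : ∫ φ, |pair2 (uni φ (a 0)) (uni φ (a 1)) (EuclideanSpace.single 0 1 : Cn (m + 2))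
      (EuclideanSpace.single 0 Complex.I)| ∂(haarU (m + 2)) =
      ∫ φ, |pair2 (uni φ (EuclideanSpace.single 0 1 : Cn (m + 2)))
        (uni φ (EuclideanSpace.single 0 Complex.I)) (a 0) (a 1)| ∂(haarU (m + 2)) := by
    rw [← integral_inv (fun φ : Un (m + 2) =>
      |pair2 (uni φ (EuclideanSpace.single 0 1 : Cn (m + 2)))
        (uni φ (EuclideanSpace.single 0 Complex.I)) (a 0) (a 1)|)]
    refine integral_congr_ae (Filter.Eventually.of_forall fun φ => ?_)
    simp only []
    rw [pair2_uni_left, pair2_swap]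
  rw [h3, h2, area_of_orthonormal ha, TLine_area, TLine_om, (M_line m).1, (M_line m).2] at h1
  have h6 : ((m + 2 : ℕ) : ℝ) ≠ 0 := by positivity
  have h7 : M1 (a 0) (a 1) + M2 (a 0) (a 1) = 1 / (2 * ((m + 2 : ℕ) : ℝ)) +
      1 / (2 * ((m + 2 : ℕ) : ℝ)) * om (a 0) (a 1) ^ 2 := by
    linarith
  rw [h7]
  field_simp

end Pool.Agent.H89.CZ
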