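import Mathlib
import Pool.Agent.H89.CZ.TLine
import Pool.Agent.H89.CZ.TConst

set_option autoImplicit false

/-!
# TFin: Tasaki's formula for planes

For `n = m + 2`: by `M_const` compared with the orthonormal pair `e0`, `i e0` and `M_line`:
`M1 a b + M2 a b/(2n-1) = (1/(2n)) (1 + 1/(2n-1)) = 1/(2n-1)`.  With `M_sum`, `x = om a b ^ 2`,
solve the linear system: `M2 = ((2n-1) x - 1)/(4n(n-1)) = be n x`,
`M1 = (2n-1-x)/(4n(n-1)) = al n x`.  Then `mean_area`.  For general `n ≥ 2` write `n = m + 2`.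

Also elementary facts about `al`, `be`.
-/

open MeasureTheory Pool.Agent.H61.UProj
open scoped ENNReal

noncomputable section

namespace Pool.Agent.H89.CZ

theorem TFin_solve {N A B x : ℝ} (hN : 2 ≤ N)
    (h1 : A + B / (2 * N - 1) = 1 / (2 * N) + 1 / (2 * N) / (2 * N - 1))
    (h2 : A + B = (1 + x) / (2 * N)) :
    A = (2 * N - 1 - x) / (4 * N * (N - 1)) ∧ B = ((2 * N - 1) * x - 1) / (4 * N * (N - 1)) := by
  have a1 : (2 * N - 1) ≠ 0 := by
    have : (0 : ℝ) < 2 * N - 1 := by linarith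
    exact this.ne'
  have a2 : N ≠ 0 := by
    have : (0 : ℝ) < N := by linarith
    exact this.ne'
  have a3 : N - 1 ≠ 0 := by
    have : (0 : ℝ) < N - 1 := by linarith
    exact this.ne'
  have k1 : A * (2 * N - 1) + B = 1 := by
    calc A * (2 * N - 1) + B = (A + B / (2 * N - 1)) * (2 * N - 1) := by field_simp
      _ = (1 / (2 * N) + 1 / (2 * N) / (2 * N - 1)) * (2 * N - 1) := by rw [h1]
      _ = 1 := by field_simp; ring
  have k2 : 2 * N * (A + B) = 1 + x := by
    rw [h2]; field_simp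
  constructor
  · rw [eq_div_iff (by positivity)]
    linear_combination 2 * N * k1 - k2
  · rw [eq_div_iff (by positivity)]
    linear_combination (2 * N - 1) * k2 - 2 * N * k1

theorem TFin_orth (m : ℕ) :
    Orthonormal ℝ (![(EuclideanSpace.single 0 1 : Cn (m + 2)),
      EuclideanSpace.single 0 Complex.I] : Fin 2 → Cn (m + 2)) := by
  have h01 : inner ℝ (EuclideanSpace.single 0 1 : Cn (m + 2))
      (EuclideanSpace.single 0 Complex.I) = 0 := by
    rw [real_inner_eq]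
    simp
  have h10 : inner ℝ (EuclideanSpace.single 0 Complex.I : Cn (m + 2))
      (EuclideanSpace.single 0 1) = 0 := by
    rw [real_inner_comm]
    exact h01
  rw [orthonormal_iff_ite]
  intro i j
  fin_cases i <;> fin_cases j
  · simp
  · simpa using h01
  · simpa using h10
  · simp

/-- Tasaki's formula for planes. -/
theorem tasaki {n : ℕ} (hn : 2 ≤ n) {a : Fin 2 → Cn n} (ha : Orthonormal ℝ a) (q1 q2 : Cn n) :
    ∫ φ, |pair2 (uni φ (a 0)) (uni φ (a 1)) q1 q2| ∂(haarU n) =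
      al n (om (a 0) (a 1) ^ 2) * area q1 q2 +
        be n (om (a 0) (a 1) ^ 2) * om q1 q2 ^ 2 / area q1 q2 := by
  obtain ⟨m, rfl⟩ : ∃ m, n = m + 2 := ⟨n - 2, by omega⟩
  have h1 := M_const ha (TFin_orth m)
  have h2 := M_sum ha
  obtain ⟨h3, h4⟩ := M_line m
  simp only [Matrix.cons_val_zero, Matrix.cons_val_one] at h1
  rw [h3, h4] at h1
  have hN : (2 : ℝ) ≤ ((m + 2 : ℕ) : ℝ) := by exact_mod_cast hn
  obtain ⟨e1, e2⟩ := TFin_solve hN h1 h2
  rw [mean_area]
  unfold al be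
  rw [e1, e2]

theorem al_pos {n : ℕ} (hn : 2 ≤ n) {x : ℝ} (hx : x ≤ 1) : 0 < al n x := by
  have h : (2 : ℝ) ≤ n := by exact_mod_cast hn
  unfold al
  apply div_pos
  · linarith
  · have : (0 : ℝ) < n := by linarith
    have : (0 : ℝ) < n - 1 := by linarith
    positivity

theorem al_add_be_pos {n : ℕ} (hn : 2 ≤ n) {x : ℝ} (hx : 0 ≤ x) : 0 < al n x + be n x := by
  have h : (2 : ℝ) ≤ n := by exact_mod_cast hn
  unfold al be
  rw [← add_div]
  apply div_pos
  · nlinarith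
  · have : (0 : ℝ) < n := by linarith
    have : (0 : ℝ) < n - 1 := by linarith
    positivity

theorem TFin_quot {n : ℕ} (hn : 2 ≤ n) (x : ℝ) :
    be n x / al n x = ((2 * n - 1) * x - 1) / (2 * n - 1 - x) := by
  have h : (2 : ℝ) ≤ n := by exact_mod_cast hn
  have h1 : (0 : ℝ) < n := by linarith
  have h2 : (0 : ℝ) < n - 1 := by linarith
  unfold al be
  exact div_div_div_cancel_right₀ (by positivity) _ _

theorem be_div_al_ge {n : ℕ} (hn : 3 ≤ n) {x : ℝ} (hx : 0 ≤ x) (hx1 : x ≤ 1) :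
    -(1 / 5) ≤ be n x / al n x := by
  have h : (3 : ℝ) ≤ n := by exact_mod_cast hn
  rw [TFin_quot (by omega), le_div_iff₀ (by linarith)]
  nlinarith

theorem be_div_al_le {n : ℕ} (hn : 2 ≤ n) {x : ℝ} (hx1 : x ≤ 1)
    (h : (9 * n - 2) * x ≤ 5 * n + 2) : be n x / al n x ≤ 5 / 9 := by
  have h' : (2 : ℝ) ≤ n := by exact_mod_cast hn
  rw [TFin_quot hn, div_le_iff₀ (by linarith)]
  nlinarith

theorem lt_be_div_al {n : ℕ} (hn : 2 ≤ n) {x : ℝ} (hx1 : x ≤ 1)
    (h : 5 * n + 2 < (9 * n - 2) * x) : 5 / 9 < be n x / al n x := by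
  have h' : (2 : ℝ) ≤ n := by exact_mod_cast hn
  rw [TFin_quot hn, lt_div_iff₀ (by linarith)]
  nlinarith

end Pool.Agent.H89.CZ
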