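import Mathlib
import Pool.Agent.H89.CZ.HB

set_option autoImplicit false

/-!
# GV: the function `gv o a b w = ∫ |det (w, φa, φb)| dφ`

* `detO` is multilinear and alternating in all its `i + 2` arguments (`Basis.det`), continuous;
  `φ ↦ detO o w (φa) (φb)` is continuous.
* `gv_perm`: a permutation of the first `i` arguments changes `det` by a sign
  (`AlternatingMap.map_perm`; extend the permutation by the identity:
  `Fin.append (w ∘ σ) ![p,q] = (Fin.append w ![p,q]) ∘ σ'`).
* `gv_eq_zero`: two equal arguments.  `gv_smul`: homogeneity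
  (`MultilinearMap.map_smul_univ`, scalars `1` on the last two arguments).
* `continuous_gv`: `continuous_parametric_integral_of_continuous` on a compact space, or dominated
  convergence.
-/

open MeasureTheory Pool.Agent.H61.UProj
open scoped ENNReal

noncomputable section

namespace Pool.Agent.H89.CZ

variable {n i : ℕ}

private theorem GV_cont_append : Continuous (fun q : (Fin i → Cn n) × Cn n × Cn n =>
    (Fin.append q.1 ![q.2.1, q.2.2] : Fin (i + 2) → Cn n)) := by
  refine continuous_pi fun j => ?_
  refine Fin.addCases (fun k => ?_) (fun k => ?_) j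
  · simp only [Fin.append_left]
    exact (continuous_apply k).comp continuous_fst
  · simp only [Fin.append_right]
    fin_cases k
    · exact continuous_fst.comp continuous_snd
    · exact continuous_snd.comp continuous_snd

theorem continuous_detO (o : OrthonormalBasis (Fin (i + 2)) ℝ (Cn n)) :
    Continuous (fun q : (Fin i → Cn n) × Cn n × Cn n => detO o q.1 q.2.1 q.2.2) := by
  have h1 : Continuous (fun v : Fin (i + 2) → Cn n => o.toBasis.det v) := by
    have h2 : (fun v : Fin (i + 2) → Cn n => o.toBasis.det v) =
        fun v => (Matrix.of fun k l => (inner ℝ (o k) (v l) : ℝ)).det := by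
      funext v
      rw [Module.Basis.det_apply]
      congr 1
      ext k l
      rw [Module.Basis.toMatrix_apply, OrthonormalBasis.coe_toBasis_repr_apply,
        OrthonormalBasis.repr_apply_apply, Matrix.of_apply]
    rw [h2]
    refine Continuous.matrix_det ?_
    refine continuous_matrix fun k l => ?_
    exact Continuous.inner continuous_const (continuous_apply (A := fun _ : Fin (i + 2) => Cn n) l)
  exact h1.comp GV_cont_append

theorem detO_perm (o : OrthonormalBasis (Fin (i + 2)) ℝ (Cn n)) (σ : Equiv.Perm (Fin i))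
    (w : Fin i → Cn n) (p q : Cn n) : |detO o (w ∘ σ) p q| = |detO o w p q| := by
  obtain ⟨τ, hτ⟩ : ∃ τ : Equiv.Perm (Fin (i + 2)), τ =
      finSumFinEquiv.symm.trans ((Equiv.sumCongr σ (Equiv.refl (Fin 2))).trans finSumFinEquiv) :=
    ⟨_, rfl⟩
  have h1 : (Fin.append (w ∘ σ) ![p, q] : Fin (i + 2) → Cn n) = Fin.append w ![p, q] ∘ τ := by
    funext j
    refine Fin.addCases (fun k => ?_) (fun k => ?_) j
    · rw [Fin.append_left, Function.comp_apply, Function.comp_apply, hτ]
      simp only [Equiv.trans_apply, finSumFinEquiv_symm_apply_castAdd, Equiv.sumCongr_apply,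
        Sum.map_inl, finSumFinEquiv_apply_left, Fin.append_left]
    · rw [Fin.append_right, Function.comp_apply, hτ]
      simp only [Equiv.trans_apply, finSumFinEquiv_symm_apply_natAdd, Equiv.sumCongr_apply,
        Sum.map_inr, Equiv.refl_apply, finSumFinEquiv_apply_right, Fin.append_right]
  unfold detO
  rw [h1, AlternatingMap.map_perm]
  rcases Int.units_eq_one_or (Equiv.Perm.sign τ) with h2 | h2
  · rw [h2, one_smul]
  · rw [h2, Units.neg_smul, one_smul, abs_neg]

theorem gv_nonneg (o : OrthonormalBasis (Fin (i + 2)) ℝ (Cn n)) (a b : Cn n)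
    (w : Fin i → Cn n) : 0 ≤ gv o a b w :=
  integral_nonneg fun _ => abs_nonneg _

theorem gv_perm (o : OrthonormalBasis (Fin (i + 2)) ℝ (Cn n)) (a b : Cn n)
    (σ : Equiv.Perm (Fin i)) (w : Fin i → Cn n) : gv o a b (w ∘ σ) = gv o a b w := by
  unfold gv
  exact integral_congr_ae (Filter.Eventually.of_forall fun φ => detO_perm o σ w _ _)

theorem gv_eq_zero (o : OrthonormalBasis (Fin (i + 2)) ℝ (Cn n)) (a b : Cn n)
    (w : Fin i → Cn n) (k l : Fin i) (hkl : k ≠ l) (h : w k = w l) : gv o a b w = 0 := by
  unfold gv
  have h1 : ∀ φ : Un n, |detO o w (uni φ a) (uni φ b)| = 0 := by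
    intro φ
    rw [abs_eq_zero]
    unfold detO
    refine AlternatingMap.map_eq_zero_of_eq _ _ (i := Fin.castAdd 2 k) (j := Fin.castAdd 2 l) ?_ ?_
    · rw [Fin.append_left, Fin.append_left, h]
    · intro h2
      exact hkl (Fin.castAdd_injective i 2 h2)
  rw [integral_congr_ae (Filter.Eventually.of_forall h1), integral_zero]

theorem gv_smul (o : OrthonormalBasis (Fin (i + 2)) ℝ (Cn n)) (a b : Cn n)
    (t : Fin i → ℝ) (w : Fin i → Cn n) :
    gv o a b (fun k => t k • w k) = (∏ k, |t k|) * gv o a b w := by
  unfold gv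
  rw [← integral_const_mul]
  refine integral_congr_ae (Filter.Eventually.of_forall fun φ => ?_)
  show |detO o (fun k => t k • w k) (uni φ a) (uni φ b)| =
    (∏ k, |t k|) * |detO o w (uni φ a) (uni φ b)|
  have h1 : (Fin.append (fun k => t k • w k) ![uni φ a, uni φ b] : Fin (i + 2) → Cn n) =
      fun j => (Fin.append t ![1, 1] : Fin (i + 2) → ℝ) j •
        (Fin.append w ![uni φ a, uni φ b] : Fin (i + 2) → Cn n) j := by
    funext j
    refine Fin.addCases (fun k => ?_) (fun k => ?_) j
    · simp only [Fin.append_left]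
    · simp only [Fin.append_right]
      fin_cases k <;> simp
  unfold detO
  rw [h1, AlternatingMap.map_smul_univ, smul_eq_mul, abs_mul]
  congr 1
  rw [Fin.prod_univ_add]
  simp only [Fin.append_left, Fin.append_right, Fin.prod_univ_two, Matrix.cons_val_zero,
    Matrix.cons_val_one, mul_one]
  exact Finset.abs_prod _ _

theorem continuous_gv (o : OrthonormalBasis (Fin (i + 2)) ℝ (Cn n)) (a b : Cn n) :
    Continuous (gv o a b) := by
  have h1 : Continuous (Function.uncurry fun (w : Fin i → Cn n) (φ : Un n) =>
      |detO o w (uni φ a) (uni φ b)|) := by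
    have h2 : Continuous (fun q : (Fin i → Cn n) × Un n => (q.1, uni q.2 a, uni q.2 b)) :=
      continuous_fst.prodMk (((continuous_uni a).comp continuous_snd).prodMk
        ((continuous_uni b).comp continuous_snd))
    exact ((continuous_detO o).comp h2).abs
  have h3 := continuous_parametric_integral_of_continuous (μ := haarU n) h1 isCompact_univ
  simp only [Measure.restrict_univ] at h3
  exact h3

/-- the first `k` arguments may be moved behind the last two ones -/
theorem gv_append {k : ℕ} (o : OrthonormalBasis (Fin (k + 2 + 2)) ℝ (Cn n)) (a b : Cn n)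
    (w : Fin k → Cn n) (p q : Cn n) :
    gv o a b (Fin.append w ![p, q]) =
      gv o a b (Fin.cons p (Fin.cons q w : Fin (k + 1) → Cn n) : Fin (k + 2) → Cn n) := by
  obtain ⟨τ, hτ⟩ : ∃ τ : Equiv.Perm (Fin (k + 2)), τ = (finSumFinEquiv.symm.trans
      ((Equiv.sumComm (Fin k) (Fin 2)).trans (finSumFinEquiv.trans (finCongr (Nat.add_comm 2 k))))) :=
    ⟨_, rfl⟩
  have h1 : (Fin.append w ![p, q] : Fin (k + 2) → Cn n) =
      (Fin.cons p (Fin.cons q w : Fin (k + 1) → Cn n) : Fin (k + 2) → Cn n) ∘ τ := by
    funext j
    refine Fin.addCases (fun m => ?_) (fun m => ?_) j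
    · rw [Fin.append_left, Function.comp_apply, hτ]
      have h2 : (finSumFinEquiv.symm.trans ((Equiv.sumComm (Fin k) (Fin 2)).trans
          (finSumFinEquiv.trans (finCongr (Nat.add_comm 2 k))))) (Fin.castAdd 2 m) = m.succ.succ := by
        simp only [Equiv.trans_apply, finSumFinEquiv_symm_apply_castAdd, Equiv.sumComm_apply,
          Sum.swap_inl, finSumFinEquiv_apply_right]
        ext
        simp
      rw [h2, Fin.cons_succ, Fin.cons_succ]
    · rw [Fin.append_right, Function.comp_apply, hτ]
      fin_cases m
      · have h2 : (finSumFinEquiv.symm.trans ((Equiv.sumComm (Fin k) (Fin 2)).trans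
            (finSumFinEquiv.trans (finCongr (Nat.add_comm 2 k))))) (Fin.natAdd k 0) = 0 := by
          simp only [Equiv.trans_apply, finSumFinEquiv_symm_apply_natAdd, Equiv.sumComm_apply,
            Sum.swap_inr, finSumFinEquiv_apply_left]
          ext
          simp
        show p = _
        rw [show ((⟨0, by norm_num⟩ : Fin 2)) = 0 from rfl, h2, Fin.cons_zero]
      · have h2 : (finSumFinEquiv.symm.trans ((Equiv.sumComm (Fin k) (Fin 2)).trans
            (finSumFinEquiv.trans (finCongr (Nat.add_comm 2 k))))) (Fin.natAdd k 1) = Fin.succ 0 := by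
          simp only [Equiv.trans_apply, finSumFinEquiv_symm_apply_natAdd, Equiv.sumComm_apply,
            Sum.swap_inr, finSumFinEquiv_apply_left]
          ext
          simp
        show q = _
        rw [show ((⟨1, by norm_num⟩ : Fin 2)) = 1 from rfl, h2, Fin.cons_succ, Fin.cons_zero]
  rw [h1, gv_perm]

end Pool.Agent.H89.CZ
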