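import Mathlib
import Pool.Agent.H89.CZ.Defs

set_option autoImplicit false

/-!
# ZAdd: adding one vector to `PZ`

`PZ_cons`.  `∑_{f : Fin (d+1) → Fin (N+1)} g ((cons x v) ∘ f)`: split according to the set of
positions `k` with `f k = 0`.  Empty set: `f = succ ∘ f'`, gives `∑_{f'} g (v ∘ f')`.  Two or more
positions: the tuple has two equal entries, `g = 0`.  Exactly one position `p`:
`(cons x v) ∘ f = Fin.insertNth p x (v ∘ f')`, `f' : Fin d → Fin N`, and by symmetry
`g (insertNth p x w) = g (cons x w)`; there are `d + 1` positions, and `(d+1)/(d+1)! = 1/d!`.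

`PZ_smul`: if `g` is homogeneous then for `lam ≥ 0`:
`PZ d g (lam • v) = PW d (fun f => g (v ∘ f)) lam`.
The others are direct (`Equiv.sum_comp` for `PZ_congr_equiv` with the equivalence `f ↦ e ∘ f`).
-/

noncomputable section

namespace Pool.Agent.H89.CZ

private theorem ZAdd_point {V : Type*} (d : ℕ) (g : (Fin (d + 1) → V) → ℝ)
    (halt : ∀ (w : Fin (d + 1) → V) (k l : Fin (d + 1)), k ≠ l → w k = w l → g w = 0)
    {N : ℕ} (y : Fin (N + 1) → V) (f : Fin (d + 1) → Fin (N + 1)) :
    g (y ∘ f) = (if ∀ k, f k ≠ 0 then g (y ∘ f) else 0) +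
      ∑ p, (if f p = 0 ∧ ∀ k, k ≠ p → f k ≠ 0 then g (y ∘ f) else 0) := by
  by_cases h : ∀ k, f k ≠ 0
  · rw [if_pos h, Finset.sum_eq_zero, add_zero]
    intro p _
    rw [if_neg]
    exact fun hp => h p hp.1
  · rw [if_neg h, zero_add]
    push Not at h
    obtain ⟨k0, hk0⟩ := h
    by_cases h1 : ∀ k, k ≠ k0 → f k ≠ 0
    · rw [Finset.sum_eq_single k0, if_pos ⟨hk0, h1⟩]
      · intro p _ hp
        rw [if_neg]
        exact fun hc => h1 p hp hc.1
      · intro h
        exact absurd (Finset.mem_univ _) h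
    · push Not at h1
      obtain ⟨k1, hk1, hk10⟩ := h1
      have h0 : g (y ∘ f) = 0 := by
        apply halt _ k1 k0 hk1
        show y (f k1) = y (f k0)
        rw [hk0, hk10]
      rw [h0]
      simp

theorem PZ_cons {V : Type*} (d : ℕ) (g : (Fin (d + 1) → V) → ℝ)
    (hsym : ∀ (σ : Equiv.Perm (Fin (d + 1))) (w : Fin (d + 1) → V), g (w ∘ σ) = g w)
    (halt : ∀ (w : Fin (d + 1) → V) (k l : Fin (d + 1)), k ≠ l → w k = w l → g w = 0)
    {N : ℕ} (x : V) (v : Fin N → V) :
    PZ (d + 1) g (Fin.cons x v : Fin (N + 1) → V) =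
      PZ (d + 1) g v + PZ d (fun w => g (Fin.cons x w)) v := by
  have hA : ∑ f : Fin (d + 1) → Fin (N + 1),
      (if ∀ k, f k ≠ 0 then g ((Fin.cons x v : Fin (N + 1) → V) ∘ f) else 0) =
      ∑ f : Fin (d + 1) → Fin N, g (v ∘ f) := by
    symm
    apply Finset.sum_of_injOn (fun f : Fin (d + 1) → Fin N => fun k => (f k).succ)
    · intro f _ f' _ h
      funext k
      exact Fin.succ_injective _ (congrFun h k)
    · intro f _
      exact Finset.mem_coe.2 (Finset.mem_univ _)
    · intro f _ hf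
      rw [if_neg]
      intro h
      apply hf
      refine ⟨fun k => (f k).pred (h k), Finset.mem_coe.2 (Finset.mem_univ _), ?_⟩
      funext k
      exact Fin.succ_pred _ _
    · intro f _
      rw [if_pos]
      · congr 1
      · intro k
        exact Fin.succ_ne_zero _
  have hB : ∀ p : Fin (d + 1), ∑ f : Fin (d + 1) → Fin (N + 1),
      (if f p = 0 ∧ ∀ k, k ≠ p → f k ≠ 0 then
        g ((Fin.cons x v : Fin (N + 1) → V) ∘ f) else 0) =
      ∑ f : Fin d → Fin N, g (Fin.cons x (v ∘ f)) := by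
    intro p
    symm
    apply Finset.sum_of_injOn (fun f : Fin d → Fin N =>
      (p.insertNth (0 : Fin (N + 1)) (fun k => (f k).succ) : Fin (d + 1) → Fin (N + 1)))
    · intro f _ f' _ h
      funext k
      have h1 := congrFun h (p.succAbove k)
      simp only [Fin.insertNth_apply_succAbove] at h1
      exact Fin.succ_injective _ h1
    · intro f _
      exact Finset.mem_coe.2 (Finset.mem_univ _)
    · intro f _ hf
      rw [if_neg]
      rintro ⟨h0, h⟩
      apply hf
      refine ⟨fun k => (f (p.succAbove k)).pred (h _ (Fin.succAbove_ne p k)),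
        Finset.mem_coe.2 (Finset.mem_univ _), ?_⟩
      symm
      rw [Fin.eq_insertNth_iff]
      refine ⟨h0, ?_⟩
      funext k
      exact (Fin.succ_pred _ _).symm
    · intro f _
      rw [if_pos]
      · have e1 : (Fin.cons x v : Fin (N + 1) → V) ∘
            (p.insertNth (0 : Fin (N + 1)) (fun k => (f k).succ) : Fin (d + 1) → Fin (N + 1)) =
            (Fin.cons x (v ∘ f) : Fin (d + 1) → V) ∘ p.cycleRange := by
          rw [Fin.cons_comp_cycleRange, Fin.eq_insertNth_iff]
          constructor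
          · simp
          · funext k
            unfold Fin.removeNth
            simp
        rw [e1, hsym]
      · constructor
        · simp
        · intro k hk
          obtain ⟨l, rfl⟩ := Fin.exists_succAbove_eq hk
          rw [Fin.insertNth_apply_succAbove]
          exact Fin.succ_ne_zero _
  have hsum : ∑ f : Fin (d + 1) → Fin (N + 1), g ((Fin.cons x v : Fin (N + 1) → V) ∘ f) =
      ∑ f : Fin (d + 1) → Fin N, g (v ∘ f) +
        (d + 1 : ℝ) * ∑ f : Fin d → Fin N, g (Fin.cons x (v ∘ f)) := by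
    rw [Finset.sum_congr rfl (fun f _ => ZAdd_point d g halt (Fin.cons x v) f),
      Finset.sum_add_distrib, hA, Finset.sum_comm, Finset.sum_congr rfl (fun p _ => hB p),
      Finset.sum_const, Finset.card_univ, Fintype.card_fin, nsmul_eq_mul]
    push_cast
    ring
  unfold PZ
  rw [hsum, Nat.factorial_succ]
  have h1 : ((Nat.factorial d : ℕ) : ℝ) ≠ 0 := by exact_mod_cast Nat.factorial_ne_zero d
  have h2 : ((d : ℝ) + 1) ≠ 0 := by positivity
  push_cast
  field_simp

theorem PZ_smul {V : Type*} [AddCommGroup V] [Module ℝ V] (d : ℕ) (g : (Fin d → V) → ℝ)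
    (hhom : ∀ (t : Fin d → ℝ) (w : Fin d → V), g (fun k => t k • w k) = (∏ k, |t k|) * g w)
    {N : ℕ} (v : Fin N → V) (lam : Fin N → ℝ) (hlam : ∀ j, 0 ≤ lam j) :
    PZ d g (fun j => lam j • v j) = PW d (fun f : Fin d → Fin N => g (v ∘ f)) lam := by
  unfold PZ PW
  congr 1
  refine Finset.sum_congr rfl fun f _ => ?_
  have h := hhom (fun k => lam (f k)) (v ∘ f)
  have e : (fun j => lam j • v j) ∘ f = fun k => (fun k => lam (f k)) k • (v ∘ f) k := rfl
  rw [e, h]
  congr 1
  exact Finset.prod_congr rfl fun k _ => abs_of_nonneg (hlam _)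

theorem PZ_congr_equiv {V : Type*} (d : ℕ) (g : (Fin d → V) → ℝ) {N N' : ℕ}
    (e : Fin N ≃ Fin N') (v : Fin N' → V) : PZ d g (v ∘ e) = PZ d g v := by
  unfold PZ
  congr 1
  exact Fintype.sum_equiv (Equiv.arrowCongr (Equiv.refl (Fin d)) e) _ _ (fun f => rfl)

theorem PZ_zero_right {V : Type*} (d : ℕ) (hd : d ≠ 0) (g : (Fin d → V) → ℝ)
    (v : Fin 0 → V) : PZ d g v = 0 := by
  unfold PZ
  have : IsEmpty (Fin d → Fin 0) := ⟨fun f => (f ⟨0, Nat.pos_of_ne_zero hd⟩).elim0⟩
  rw [Fintype.sum_empty, zero_div]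

theorem PZ_zero_left {V : Type*} (g : (Fin 0 → V) → ℝ) {N : ℕ} (v : Fin N → V) :
    PZ 0 g v = g Fin.elim0 := by
  unfold PZ
  rw [Nat.factorial_zero, Nat.cast_one, div_one, Fintype.sum_unique]
  congr 1
  exact Subsingleton.elim _ _

theorem PZ_nonneg {V : Type*} (d : ℕ) (g : (Fin d → V) → ℝ) (hg : ∀ w, 0 ≤ g w) {N : ℕ}
    (v : Fin N → V) : 0 ≤ PZ d g v := by
  unfold PZ
  exact div_nonneg (Finset.sum_nonneg fun f _ => hg _) (Nat.cast_nonneg _)

theorem PZ_two {V : Type*} (g : (Fin 2 → V) → ℝ) {N : ℕ} (v : Fin N → V) :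
    PZ 2 g v = (∑ j, ∑ l, g ![v j, v l]) / 2 := by
  unfold PZ
  have h : ∑ f : Fin 2 → Fin N, g (v ∘ f) = ∑ j, ∑ l, g ![v j, v l] := by
    rw [← Fintype.sum_prod_type' (f := fun j l => g ![v j, v l])]
    refine Fintype.sum_equiv (finTwoArrowEquiv (Fin N)) _ _ (fun f => ?_)
    congr 1
    funext k
    fin_cases k <;> rfl
  rw [h]
  norm_num [Nat.factorial]

/-- scaling all vectors -/
theorem PZ_smul_const {V : Type*} [AddCommGroup V] [Module ℝ V] (d : ℕ) (g : (Fin d → V) → ℝ)
    (hhom : ∀ (t : Fin d → ℝ) (w : Fin d → V), g (fun k => t k • w k) = (∏ k, |t k|) * g w)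
    {N : ℕ} (v : Fin N → V) (s : ℝ) (hs : 0 ≤ s) :
    PZ d g (fun j => s • v j) = s ^ d * PZ d g v := by
  unfold PZ
  rw [← mul_div_assoc, Finset.mul_sum]
  congr 1
  refine Finset.sum_congr rfl fun f _ => ?_
  have h := hhom (fun _ => s) (v ∘ f)
  have e : (fun j => s • v j) ∘ f = fun k => (fun _ => s) k • (v ∘ f) k := rfl
  rw [e, h, Finset.prod_const, Finset.card_univ, Fintype.card_fin, abs_of_nonneg hs]

end Pool.Agent.H89.CZ
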