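import Mathlib
import Pool.Agent.H89.CZ.Defs

set_option autoImplicit false

/-!
# ZEl: elementary facts on `zon v = ∑ j, [0, v j]`

All direct from the definition.  `zon_add`: if `z = ∑ t_j lam_j v_j`, `z' = ∑ t'_j mu_j v_j` then
`z + z' = ∑ s_j (lam_j + mu_j) v_j` with `s_j = (t_j lam_j + t'_j mu_j)/(lam_j + mu_j)` (any value
if the denominator is `0`), `0 ≤ s_j ≤ 1`; conversely take `t = t' = s`.
`isCompact_zon`: image of the compact cube under a continuous map.  `interior_zon`: the zonotope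
contains the image of `{t | 0 < t_j < 1}` (other coefficients `0`) under the linear isomorphism
`ℝ^N → V` given by the basis `v`, which is open.
-/

open scoped Pointwise

noncomputable section

namespace Pool.Agent.H89.CZ

variable {V : Type*} [AddCommGroup V] [Module ℝ V]

theorem zon_comp_equiv {N N' : ℕ} (e : Fin N ≃ Fin N') (v : Fin N' → V) :
    zon (v ∘ e) = zon v := by
  ext z
  constructor
  · rintro ⟨t, ht, rfl⟩
    refine ⟨t ∘ e.symm, fun j => ht _, ?_⟩
    rw [← e.sum_comp]
    simp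
  · rintro ⟨t, ht, rfl⟩
    refine ⟨t ∘ e, fun j => ht _, ?_⟩
    rw [← e.sum_comp]
    rfl

/-- a linear image of a zonotope -/
theorem image_zon {W : Type*} [AddCommGroup W] [Module ℝ W] (f : V →ₗ[ℝ] W) {N : ℕ}
    (v : Fin N → V) : f '' zon v = zon (fun j => f (v j)) := by
  ext z
  constructor
  · rintro ⟨_, ⟨t, ht, rfl⟩, rfl⟩
    exact ⟨t, ht, by simp [map_sum]⟩
  · rintro ⟨t, ht, rfl⟩
    exact ⟨∑ j, t j • v j, ⟨t, ht, rfl⟩, by simp [map_sum]⟩

/-- `zon (lam v) + zon (mu v) = zon ((lam + mu) v)` for nonnegative weights. -/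
theorem zon_add {N : ℕ} (v : Fin N → V) (lam mu : Fin N → ℝ) (hlam : ∀ j, 0 ≤ lam j)
    (hmu : ∀ j, 0 ≤ mu j) :
    zon (fun j => lam j • v j) + zon (fun j => mu j • v j) =
      zon (fun j => (lam j + mu j) • v j) := by
  ext z
  rw [Set.mem_add]
  constructor
  · rintro ⟨_, ⟨t, ht, rfl⟩, _, ⟨t', ht', rfl⟩, rfl⟩
    refine ⟨fun j => (t j * lam j + t' j * mu j) / (lam j + mu j), fun j => ⟨?_, ?_⟩, ?_⟩
    · exact div_nonneg (add_nonneg (mul_nonneg (ht j).1 (hlam j))
        (mul_nonneg (ht' j).1 (hmu j))) (add_nonneg (hlam j) (hmu j))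
    · refine div_le_one_of_le₀ ?_ (add_nonneg (hlam j) (hmu j))
      nlinarith [mul_nonneg (sub_nonneg.2 (ht j).2) (hlam j),
        mul_nonneg (sub_nonneg.2 (ht' j).2) (hmu j)]
    · rw [← Finset.sum_add_distrib]
      refine Finset.sum_congr rfl fun j _ => ?_
      rw [smul_smul, smul_smul, smul_smul, ← add_smul]
      congr 1
      by_cases h : lam j + mu j = 0
      · have h1 := hlam j
        have h2 := hmu j
        have h3 : lam j = 0 := by linarith
        have h4 : mu j = 0 := by linarith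
        simp [h3, h4]
      · field_simp
  · rintro ⟨t, ht, rfl⟩
    refine ⟨_, ⟨t, ht, rfl⟩, _, ⟨t, ht, rfl⟩, ?_⟩
    rw [← Finset.sum_add_distrib]
    refine Finset.sum_congr rfl fun j _ => ?_
    simp only [add_smul, smul_add]

private theorem append_aux {N N' : ℕ} (v : Fin N → V) (v' : Fin N' → V) :
    zon (Fin.append v v') = zon v + zon v' := by
  ext z
  rw [Set.mem_add]
  constructor
  · rintro ⟨t, ht, rfl⟩
    refine ⟨_, ⟨fun j => t (Fin.castAdd N' j), fun j => ht _, rfl⟩,
      _, ⟨fun j => t (Fin.natAdd N j), fun j => ht _, rfl⟩, ?_⟩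
    rw [Fin.sum_univ_add]
    simp
  · rintro ⟨_, ⟨t, ht, rfl⟩, _, ⟨t', ht', rfl⟩, rfl⟩
    refine ⟨Fin.append t t', fun j => ?_, ?_⟩
    · refine Fin.addCases (fun k => ?_) (fun k => ?_) j
      · simpa using ht k
      · simpa using ht' k
    · rw [Fin.sum_univ_add]
      simp

private theorem const_zero_aux (N : ℕ) : zon (fun _ : Fin N => (0 : V)) = {0} := by
  ext z
  constructor
  · rintro ⟨t, _, rfl⟩
    simp
  · rintro rfl
    exact ⟨fun _ => 0, fun _ => ⟨le_refl _, zero_le_one⟩, by simp⟩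

private theorem zon_eq_image {N : ℕ} (v : Fin N → V) :
    zon v = (Fintype.linearCombination ℝ v) '' (Set.Icc 0 1) := by
  ext z
  constructor
  · rintro ⟨t, ht, rfl⟩
    exact ⟨t, ⟨fun j => (ht j).1, fun j => (ht j).2⟩, by simp [Fintype.linearCombination_apply]⟩
  · rintro ⟨t, ⟨h0, h1⟩, rfl⟩
    exact ⟨t, fun j => ⟨h0 j, h1 j⟩, by simp [Fintype.linearCombination_apply]⟩

/-- appending zero vectors does not change the zonotope -/
theorem zon_append_zero {N N' : ℕ} (v : Fin N → V) :
    zon (Fin.append v (fun _ : Fin N' => (0 : V))) = zon v := by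
  rw [append_aux, const_zero_aux, Set.add_singleton]
  simp

theorem zon_zero_append {N N' : ℕ} (v : Fin N → V) :
    zon (Fin.append (fun _ : Fin N' => (0 : V)) v) = zon v := by
  rw [append_aux, const_zero_aux, Set.singleton_add]
  simp

theorem zon_append {N N' : ℕ} (v : Fin N → V) (v' : Fin N' → V) :
    zon (Fin.append v v') = zon v + zon v' :=
  append_aux v v'

theorem zon_cons {N : ℕ} (x : V) (v : Fin N → V) :
    zon (Fin.cons x v : Fin (N + 1) → V) =
      {z | ∃ t : ℝ, 0 ≤ t ∧ t ≤ 1 ∧ ∃ y ∈ zon v, z = t • x + y} := by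
  ext z
  constructor
  · rintro ⟨t, ht, rfl⟩
    refine ⟨t 0, (ht 0).1, (ht 0).2, _, ⟨fun j => t j.succ, fun j => ht _, rfl⟩, ?_⟩
    rw [Fin.sum_univ_succ]
    simp
  · rintro ⟨t, h0, h1, _, ⟨s, hs, rfl⟩, rfl⟩
    refine ⟨Fin.cons t s, fun j => ?_, ?_⟩
    · refine Fin.cases ?_ (fun k => ?_) j
      · exact ⟨by simpa using h0, by simpa using h1⟩
      · simpa using hs k
    · rw [Fin.sum_univ_succ]
      simp

theorem zon_zero (v : Fin 0 → V) : zon v = {0} := by
  have h : v = fun _ => 0 := funext fun j => j.elim0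
  rw [h]
  exact const_zero_aux 0

theorem isCompact_zon {E : Type*} [NormedAddCommGroup E] [NormedSpace ℝ E] {N : ℕ}
    (v : Fin N → E) : IsCompact (zon v) := by
  rw [zon_eq_image]
  refine isCompact_Icc.image ?_
  have h : (fun t : Fin N → ℝ => Fintype.linearCombination ℝ v t) =
      fun t => ∑ j, t j • v j := by
    funext t
    simp [Fintype.linearCombination_apply]
  change Continuous (fun t : Fin N → ℝ => Fintype.linearCombination ℝ v t)
  rw [h]
  fun_prop

theorem convex_zon {N : ℕ} (v : Fin N → V) : Convex ℝ (zon v) := by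
  rw [zon_eq_image]
  exact (convex_Icc 0 1).linear_image _

theorem interior_zon {E : Type*} [NormedAddCommGroup E] [NormedSpace ℝ E]
    [FiniteDimensional ℝ E] {N N' : ℕ} (v : Fin N → E) (hli : LinearIndependent ℝ v)
    (hN : N = Module.finrank ℝ E) (v' : Fin N' → E) (f : Fin N → Fin N')
    (hf : Function.Injective f) (h : ∀ j, v' (f j) = v j) : (interior (zon v')).Nonempty := by
  set T : (Fin N → ℝ) →ₗ[ℝ] E := Fintype.linearCombination ℝ v with hT
  have hker : LinearMap.ker T = ⊥ := by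
    rw [LinearMap.ker_eq_bot']
    intro t ht
    have h1 := Fintype.linearIndependent_iff.1 hli t
      (by simpa [hT, Fintype.linearCombination_apply] using ht)
    exact funext h1
  have hsurj : Function.Surjective T := by
    refine (LinearMap.injective_iff_surjective_of_finrank_eq_finrank ?_).1
      (LinearMap.ker_eq_bot.1 hker)
    rw [Module.finrank_fin_fun, hN]
  have hopen : IsOpenMap T := T.isOpenMap_of_finiteDimensional hsurj
  have hO : IsOpen (Set.pi Set.univ (fun _ : Fin N => Set.Ioo (0 : ℝ) 1)) :=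
    isOpen_set_pi Set.finite_univ fun _ _ => isOpen_Ioo
  have hsub : T '' (Set.pi Set.univ (fun _ : Fin N => Set.Ioo (0 : ℝ) 1)) ⊆ zon v' := by
    rintro _ ⟨t, ht, rfl⟩
    refine ⟨Function.extend f t 0, fun k => ?_, ?_⟩
    · by_cases hk : ∃ j, f j = k
      · obtain ⟨j, rfl⟩ := hk
        rw [hf.extend_apply]
        have := ht j (Set.mem_univ j)
        exact ⟨this.1.le, this.2.le⟩
      · rw [Function.extend_apply' _ _ _ hk]
        exact ⟨le_refl _, zero_le_one⟩
    · rw [hT, Fintype.linearCombination_apply]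
      refine Finset.sum_of_injOn f hf.injOn (fun _ _ => Finset.mem_coe.2 (Finset.mem_univ _))
        (fun k _ hk => ?_) (fun j _ => ?_)
      · have hk' : ¬∃ j, f j = k := by
          rintro ⟨j, hj⟩
          exact hk ⟨j, Finset.mem_coe.2 (Finset.mem_univ _), hj⟩
        rw [Function.extend_apply' _ _ _ hk']
        simp
      · rw [hf.extend_apply, h]
  refine ⟨T (fun _ => 1 / 2), interior_maximal hsub (hopen _ hO) ⟨_, ?_, rfl⟩⟩
  intro j _
  constructor <;> norm_num

end Pool.Agent.H89.CZ
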