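import Mathlib
import Pool.Agent.H89.CZ.ZEl

set_option autoImplicit false

/-!
# ZSweep: the volume of a set swept along a coordinate direction

`Rn i = EuclideanSpace ℝ (Fin i)`, `tail` forgets the coordinate `0`.
For a compact convex set `K ⊆ ℝ^(i+1)`:
`vol {t e0 + y | 0 ≤ t ≤ 1, y ∈ K} = vol K + vol (tail '' K)`.
Proof by Fubini: `ℝ^(i+1) ≃ ℝ × ℝ^i` measure preservingly (`MeasurableEquiv.piFinSuccAbove`,
`volume_preserving_piFinSuccAbove`, `EuclideanSpace.volume_preserving_symm_measurableEquiv_toLp`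
and friends).  For `y ∈ ℝ^i` the slice
`K_y = {s | (s,y) ∈ K}` is compact and convex: empty or an interval `[α, β]`; the slice of the
swept set is `[α, β + 1]`.  So `length = length K_y + 1` if `y ∈ tail '' K` and `0` otherwise;
integrate over `y` (`Measure.prod_apply`, compact sets are measurable).
-/

open MeasureTheory Pool.Agent.H61.UProj
open scoped ENNReal

noncomputable section

namespace Pool.Agent.H89.CZ

/-- forget the coordinate `0` -/
def tail {i : ℕ} : Rn (i + 1) →ₗ[ℝ] Rn i where
  toFun z := WithLp.toLp 2 (fun l => z l.succ)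
  map_add' _ _ := rfl
  map_smul' _ _ := rfl

private def glue {i : ℕ} (p : ℝ × Rn i) : Rn (i + 1) :=
  WithLp.toLp 2 (Fin.cons p.1 (fun l => p.2 l) : Fin (i + 1) → ℝ)

private theorem glue_zero {i : ℕ} (p : ℝ × Rn i) : glue p 0 = p.1 := rfl

private theorem glue_succ {i : ℕ} (p : ℝ × Rn i) (l : Fin i) : glue p l.succ = p.2 l := rfl

private theorem tail_glue {i : ℕ} (p : ℝ × Rn i) : tail (glue p) = p.2 := rfl

private theorem glue_eq {i : ℕ} (z : Rn (i + 1)) : glue (z 0, tail z) = z := by
  ext l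
  refine Fin.cases ?_ (fun k => ?_) l
  · rfl
  · rfl

private theorem glue_preserving {i : ℕ} :
    MeasurePreserving (glue (i := i)) (volume.prod volume) volume := by
  have h1 : MeasurePreserving (fun p : ℝ × Rn i => (p.1, WithLp.ofLp p.2))
      (volume.prod volume) (volume.prod volume) :=
    (MeasurePreserving.id volume).prod (PiLp.volume_preserving_ofLp (Fin i))
  have h2 := (volume_preserving_piFinSuccAbove (fun _ : Fin (i + 1) => ℝ) 0).symm
  have h3 := PiLp.volume_preserving_toLp (Fin (i + 1))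
  have h4 := h3.comp (h2.comp h1)
  have h5 : (glue (i := i)) =
      WithLp.toLp 2 ∘ (MeasurableEquiv.piFinSuccAbove (fun _ : Fin (i + 1) => ℝ) 0).symm ∘
        fun p : ℝ × Rn i => (p.1, WithLp.ofLp p.2) := by
    funext p
    ext l
    refine Fin.cases ?_ (fun k => ?_) l
    · simp [glue, MeasurableEquiv.piFinSuccAbove]
    · simp [glue, MeasurableEquiv.piFinSuccAbove]
  rw [h5]
  exact h4

private theorem glue_sub {i : ℕ} (s t : ℝ) (y : Rn i) :
    glue (s, y) = t • (EuclideanSpace.single 0 (1 : ℝ) : Rn (i + 1)) + glue (s - t, y) := by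
  ext l
  refine Fin.cases ?_ (fun k => ?_) l
  · simp [glue_zero]
  · simp [glue_succ]

private theorem slice_sweep {A B : Set ℝ} (hA : IsCompact A) (hAc : Convex ℝ A)
    (hne : A.Nonempty) (hB : ∀ s, s ∈ B ↔ ∃ t : ℝ, 0 ≤ t ∧ t ≤ 1 ∧ s - t ∈ A) :
    volume B = volume A + 1 := by
  have hconn : IsConnected A := ⟨hne, hAc.isPreconnected⟩
  have hI := eq_Icc_of_connected_compact hconn hA
  set α := sInf A
  set β := sSup A
  have hab : α ≤ β := by
    obtain ⟨x, hx⟩ := hne
    rw [hI] at hx
    exact hx.1.trans hx.2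
  have hBI : B = Set.Icc α (β + 1) := by
    ext s
    rw [hB, hI]
    constructor
    · rintro ⟨t, h0, h1, h2, h3⟩
      exact ⟨by linarith, by linarith⟩
    · rintro ⟨h1, h2⟩
      by_cases h : s ≤ β
      · exact ⟨0, le_rfl, zero_le_one, by simpa using h1, by simpa using h⟩
      · push Not at h
        by_cases h' : α ≤ s - 1
        · exact ⟨1, zero_le_one, le_rfl, h', by linarith⟩
        · push Not at h'
          exact ⟨s - α, by linarith, by linarith, by simp, by simpa using hab⟩
  rw [hBI, hI, Real.volume_Icc, Real.volume_Icc, ← ENNReal.ofReal_one,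
    ← ENNReal.ofReal_add (by linarith) zero_le_one]
  congr 1
  ring

private theorem glue_continuous {i : ℕ} : Continuous (glue (i := i)) := by
  refine (PiLp.continuous_toLp 2 _).comp ?_
  refine continuous_pi fun l => ?_
  refine Fin.cases ?_ (fun k => ?_) l
  · exact continuous_fst
  · simp only [Fin.cons_succ]
    fun_prop

private theorem glue_convex {i : ℕ} (a b s s' : ℝ) (y : Rn i) (hab : a + b = 1) :
    glue (a * s + b * s', y) = a • glue (s, y) + b • glue (s', y) := by
  ext l
  refine Fin.cases ?_ (fun k => ?_) l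
  · simp [glue_zero]
  · simp only [glue_succ, PiLp.add_apply, PiLp.smul_apply, smul_eq_mul]
    rw [← add_mul, hab, one_mul]

private theorem tail_continuous {i : ℕ} : Continuous (tail (i := i)) :=
  LinearMap.continuous_of_finiteDimensional _

theorem volume_sweep {i : ℕ} {K : Set (Rn (i + 1))} (hK : IsCompact K) (hKc : Convex ℝ K) :
    volume {z : Rn (i + 1) | ∃ t : ℝ, 0 ≤ t ∧ t ≤ 1 ∧ ∃ y ∈ K,
        z = t • (EuclideanSpace.single 0 (1 : ℝ) : Rn (i + 1)) + y} =
      volume K + volume (tail '' K) := by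
  set S := {z : Rn (i + 1) | ∃ t : ℝ, 0 ≤ t ∧ t ≤ 1 ∧ ∃ y ∈ K,
        z = t • (EuclideanSpace.single 0 (1 : ℝ) : Rn (i + 1)) + y} with hSdef
  have hS : IsCompact S := by
    have h1 : S = (fun p : ℝ × Rn (i + 1) =>
        p.1 • (EuclideanSpace.single 0 (1 : ℝ) : Rn (i + 1)) + p.2) '' (Set.Icc 0 1 ×ˢ K) := by
      ext z
      constructor
      · rintro ⟨t, h0, h1, y, hy, rfl⟩
        exact ⟨(t, y), ⟨⟨h0, h1⟩, hy⟩, rfl⟩
      · rintro ⟨⟨t, y⟩, ⟨⟨h0, h1⟩, hy⟩, rfl⟩
        exact ⟨t, h0, h1, y, hy, rfl⟩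
    rw [h1]
    exact (isCompact_Icc.prod hK).image (by fun_prop)
  have hvol : ∀ A : Set (Rn (i + 1)), MeasurableSet A →
      volume A = ∫⁻ y : Rn i, volume {s : ℝ | glue (s, y) ∈ A} := by
    intro A hA
    rw [← glue_preserving.measure_preimage hA.nullMeasurableSet,
      Measure.prod_apply_symm (glue_preserving.measurable hA)]
    rfl
  have htail : MeasurableSet (tail '' K) := (hK.image tail_continuous).measurableSet
  have hmem : ∀ (s : ℝ) (y : Rn i), glue (s, y) ∈ S ↔
      ∃ t : ℝ, 0 ≤ t ∧ t ≤ 1 ∧ glue (s - t, y) ∈ K := by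
    intro s y
    constructor
    · rintro ⟨t, h0, h1, z, hz, h⟩
      refine ⟨t, h0, h1, ?_⟩
      rw [glue_sub s t y] at h
      rwa [add_left_cancel h]
    · rintro ⟨t, h0, h1, hz⟩
      exact ⟨t, h0, h1, _, hz, glue_sub s t y⟩
  have key : ∀ y : Rn i, volume {s : ℝ | glue (s, y) ∈ S} =
      volume {s : ℝ | glue (s, y) ∈ K} + (tail '' K).indicator 1 y := by
    intro y
    by_cases hy : y ∈ tail '' K
    · rw [Set.indicator_of_mem hy]
      refine slice_sweep ?_ ?_ ?_ ?_
      · refine IsCompact.of_isClosed_subset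
          (hK.image (f := fun z : Rn (i + 1) => z 0) (by fun_prop)) ?_ ?_
        · exact hK.isClosed.preimage (glue_continuous.comp (by fun_prop))
        · intro s hs
          exact ⟨glue (s, y), hs, glue_zero _⟩
      · intro s hs s' hs' a b ha hb hab
        change glue (a • s + b • s', y) ∈ K
        rw [smul_eq_mul, smul_eq_mul, glue_convex a b s s' y hab]
        exact hKc hs hs' ha hb hab
      · obtain ⟨z, hz, rfl⟩ := hy
        refine ⟨z 0, ?_⟩
        change glue (z 0, tail z) ∈ K
        rwa [glue_eq]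
      · intro s
        exact hmem s y
    · have h1 : ∀ s : ℝ, glue (s, y) ∉ K := fun s hs => hy ⟨_, hs, tail_glue _⟩
      have h2 : {s : ℝ | glue (s, y) ∈ K} = ∅ :=
        Set.eq_empty_of_forall_notMem fun s hs => h1 s hs
      have h3 : {s : ℝ | glue (s, y) ∈ S} = ∅ := by
        refine Set.eq_empty_of_forall_notMem fun s hs => ?_
        obtain ⟨t, -, -, ht⟩ := (hmem s y).1 hs
        exact h1 _ ht
      rw [h2, h3, Set.indicator_of_notMem hy]
      simp
  rw [hvol S hS.measurableSet, hvol K hK.measurableSet, lintegral_congr key,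
    lintegral_add_right _ (measurable_one.indicator htail), lintegral_indicator_one htail]

end Pool.Agent.H89.CZ
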