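import Mathlib
import Pool.Agent.H89.CZ.ZAdd
import Pool.Agent.H89.CZ.ZSweep

set_option autoImplicit false

/-!
# ZVol: the volume of a zonotope in `ℝⁱ`

`Rn i = EuclideanSpace ℝ (Fin i)`; `absdet w = |det (w k l)|`.

`volume_zon`: induction on `N`, for all `i`.
 `N = 0`: `zon v = {0}`; `vol {0}` is `1` for `i = 0` and `0` for `i > 0`; `PZ` the same.
 `N + 1`, `v = cons x v'`: `i = 0`: the space is a point: both sides are `1`.  `i = i' + 1`:
 if `x = 0`: `zon v = zon v'` and in `PZ_cons` the second term is `0` (a zero row).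
 If `x ≠ 0`: choose a linear equivalence `T` of `ℝ^(i'+1)` with `T x = e0`.  Then
 `vol (zon v) = |det T|⁻¹ vol (zon (T ∘ v))` (`MeasureTheory.Measure.addHaar_image_linearMap`,
 `image_zon`), and `absdet (T ∘ w) = |det T| absdet w`, so `PZ` scales in the same way.  For
 `x = e0`: `volume_sweep` with `K = zon v'` (`zon_cons`), `tail '' zon v' = zon (tail ∘ v')`
 (`image_zon`), induction hypothesis for `v'` (dimension `i'+1`) and for `tail ∘ v'`
 (dimension `i'`), `PZ_cons` and `absdet (cons e0 w) = absdet (tail ∘ w)` (Laplace expansion along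
 the first row: `Matrix.det_succ_row_zero`).
-/

open MeasureTheory Pool.Agent.H61.UProj
open scoped ENNReal

noncomputable section

namespace Pool.Agent.H89.CZ

/-- `|det w|` -/
def absdet (i : ℕ) (w : Fin i → Rn i) : ℝ := |(Matrix.of fun k l => w k l).det|

theorem absdet_perm (i : ℕ) (σ : Equiv.Perm (Fin i)) (w : Fin i → Rn i) :
    absdet i (w ∘ σ) = absdet i w := by
  unfold absdet
  have h : (Matrix.of fun k l => (w ∘ σ) k l) = (Matrix.of fun k l => w k l).submatrix σ id := by
    ext k l
    rfl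
  rw [h, Matrix.det_permute, abs_mul]
  rcases Int.units_eq_one_or (Equiv.Perm.sign σ) with h1 | h1 <;> rw [h1] <;> simp

theorem absdet_eq_zero (i : ℕ) (w : Fin i → Rn i) (k l : Fin i) (hkl : k ≠ l) (h : w k = w l) :
    absdet i w = 0 := by
  unfold absdet
  rw [Matrix.det_zero_of_row_eq hkl (by
    ext m
    show w k m = w l m
    rw [h]), abs_zero]

theorem absdet_cons (i : ℕ) (w : Fin i → Rn (i + 1)) :
    absdet (i + 1) (Fin.cons (EuclideanSpace.single 0 1) w) = absdet i (fun k => tail (w k)) := by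
  unfold absdet
  rw [Matrix.det_succ_row_zero, Finset.sum_eq_single 0]
  · have h0 : (Matrix.of fun k l => (Fin.cons (EuclideanSpace.single 0 1) w : Fin (i + 1) → Rn (i + 1)) k l) 0 0 = (1 : ℝ) := by
      show (EuclideanSpace.single 0 1 : Rn (i + 1)) 0 = 1
      simp
    rw [h0]
    have h1 : (Matrix.of fun k l => (Fin.cons (EuclideanSpace.single 0 1) w : Fin (i + 1) → Rn (i + 1)) k l).submatrix Fin.succ
        (Fin.succAbove 0) = Matrix.of fun k l => tail (w k) l := by
      ext k l
      rfl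
    rw [h1]
    simp
  · intro j _ hj
    have h0 : (Matrix.of fun k l => (Fin.cons (EuclideanSpace.single 0 1) w : Fin (i + 1) → Rn (i + 1)) k l) 0 j = (0 : ℝ) := by
      show (EuclideanSpace.single 0 1 : Rn (i + 1)) j = 0
      simp [hj]
    rw [h0]
    ring
  · intro h
    exact absurd (Finset.mem_univ _) h

private theorem ZVol_row_zero (i : ℕ) (w : Fin i → Rn (i + 1)) : absdet (i + 1) (Fin.cons 0 w) = 0 := by
  unfold absdet
  rw [Matrix.det_eq_zero_of_row_eq_zero 0 (fun j => by
    show (0 : Rn (i + 1)) j = 0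
    rfl), abs_zero]

theorem absdet_comp (i : ℕ) (T : Rn i →ₗ[ℝ] Rn i) (w : Fin i → Rn i) :
    absdet i (fun k => T (w k)) = |LinearMap.det T| * absdet i w := by
  unfold absdet
  obtain ⟨b, hb⟩ : ∃ b : Module.Basis (Fin i) ℝ (Rn i), b = (EuclideanSpace.basisFun (Fin i) ℝ).toBasis := ⟨_, rfl⟩
  have hr : ∀ (v : Rn i) l, b.repr v l = v l := by
    intro v l
    rw [hb]
    simp
  have h : (Matrix.of fun k l => (T (w k)) l) = (Matrix.of fun k l => w k l) * (LinearMap.toMatrix b b T).transpose := by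
    ext k l
    rw [Matrix.mul_apply]
    have h1 := LinearMap.toMatrix_mulVec_repr b b T (w k)
    have h2 := congrFun h1 l
    rw [hr] at h2
    show (T (w k)) l = _
    rw [← h2, Matrix.mulVec, dotProduct]
    refine Finset.sum_congr rfl fun m _ => ?_
    rw [hr, Matrix.transpose_apply]
    show _ = w k m * _
    ring
  rw [h, Matrix.det_mul, Matrix.det_transpose, LinearMap.det_toMatrix, abs_mul, mul_comm]

private theorem ZVol_zero {N : ℕ} (v : Fin N → Rn 0) : volume (zon v) = ENNReal.ofReal (PZ 0 (absdet 0) v) := by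
  have h1 : zon v = {0} := by
    ext z
    have hz : z = 0 := Subsingleton.elim _ _
    subst hz
    simp only [Set.mem_singleton_iff, iff_true]
    exact ⟨fun _ => 0, fun _ => ⟨le_rfl, zero_le_one⟩, Subsingleton.elim _ _⟩
  rw [h1, PZ_zero_left]
  have h2 : absdet 0 Fin.elim0 = 1 := by
    unfold absdet
    simp
  rw [h2, ENNReal.ofReal_one, volume_euclideanSpace_eq_dirac]
  simp

private theorem ZVol_scale {i N : ℕ} (v : Fin N → Rn i) (T : Rn i ≃ₗ[ℝ] Rn i)
    (h : volume (zon fun j => T (v j)) = ENNReal.ofReal (PZ i (absdet i) fun j => T (v j))) :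
    volume (zon v) = ENNReal.ofReal (PZ i (absdet i) v) := by
  obtain ⟨d, hd⟩ : ∃ d : ℝ, d = |LinearMap.det (T : Rn i →ₗ[ℝ] Rn i)| := ⟨_, rfl⟩
  have hd0 : 0 < d := by
    rw [hd]
    exact abs_pos.2 (LinearEquiv.isUnit_det' T).ne_zero
  have h1 : volume (zon fun j => T (v j)) = ENNReal.ofReal d * volume (zon v) := by
    have h2 := Measure.addHaar_image_linearMap (volume : Measure (Rn i)) (T : Rn i →ₗ[ℝ] Rn i) (zon v)
    rw [image_zon, ← hd] at h2
    exact h2
  have h3 : PZ i (absdet i) (fun j => T (v j)) = d * PZ i (absdet i) v := by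
    unfold PZ
    rw [← mul_div_assoc, Finset.mul_sum]
    congr 1
    refine Finset.sum_congr rfl fun f _ => ?_
    rw [hd]
    exact absdet_comp i (T : Rn i →ₗ[ℝ] Rn i) (v ∘ f)
  rw [h1, h3, ENNReal.ofReal_mul hd0.le] at h
  have hne : ENNReal.ofReal d ≠ 0 := by
    rw [Ne, ENNReal.ofReal_eq_zero, not_le]
    exact hd0
  exact (ENNReal.mul_right_inj hne ENNReal.ofReal_ne_top).1 h

theorem volume_zon {i N : ℕ} (v : Fin N → Rn i) :
    volume (zon v) = ENNReal.ofReal (PZ i (absdet i) v) := by
  induction N generalizing i with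
  | zero =>
    rcases i with _ | i
    · exact ZVol_zero v
    · rw [zon_zero, PZ_zero_right _ (Nat.succ_ne_zero i), ENNReal.ofReal_zero]
      exact measure_singleton 0
  | succ N ih =>
    rcases i with _ | i
    · exact ZVol_zero v
    obtain ⟨x, hx⟩ : ∃ x, x = v 0 := ⟨_, rfl⟩
    obtain ⟨v', hv'⟩ : ∃ v' : Fin N → Rn (i + 1), v' = Fin.tail v := ⟨_, rfl⟩
    have hv : v = Fin.cons x v' := by rw [hx, hv', Fin.cons_self_tail]
    have hnn : ∀ (d : ℕ) (w : Fin d → Rn d), 0 ≤ absdet d w := fun d w => abs_nonneg _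
    rcases eq_or_ne x 0 with h0 | h0
    · rw [hv, h0]
      have h1 : zon (Fin.cons (0 : Rn (i + 1)) v' : Fin (N + 1) → Rn (i + 1)) = zon v' := by
        rw [zon_cons]
        ext z
        constructor
        · rintro ⟨t, _, _, y, hy, rfl⟩
          rw [smul_zero, zero_add]
          exact hy
        · intro hz
          exact ⟨0, le_rfl, zero_le_one, z, hz, by rw [smul_zero, zero_add]⟩
      rw [h1, PZ_cons i (absdet (i + 1)) (absdet_perm (i + 1)) (absdet_eq_zero (i + 1)), ih]
      have h2 : PZ i (fun w => absdet (i + 1) (Fin.cons (0 : Rn (i + 1)) w)) v' = 0 := by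
        unfold PZ
        rw [Finset.sum_eq_zero fun f _ => ZVol_row_zero i (v' ∘ f), zero_div]
      rw [h2, add_zero]
    · have he : (EuclideanSpace.single 0 (1 : ℝ) : Rn (i + 1)) ≠ 0 := by
        intro h
        have := congrArg (fun z : Rn (i + 1) => z 0) h
        simp at this
      obtain ⟨A, hA⟩ := SeparatingDual.exists_continuousLinearEquiv_apply_eq (R := ℝ) h0 he
      refine ZVol_scale v A.toLinearEquiv ?_
      have h1 : (fun j => A.toLinearEquiv (v j)) =
          (Fin.cons (EuclideanSpace.single 0 (1 : ℝ) : Rn (i + 1)) (fun j => A (v' j)) : Fin (N + 1) → Rn (i + 1)) := by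
        rw [hv]
        funext j
        refine Fin.cases ?_ (fun j => ?_) j
        · exact hA
        · rfl
      rw [h1]
      obtain ⟨y, hy⟩ : ∃ y : Fin N → Rn (i + 1), y = fun j => A (v' j) := ⟨_, rfl⟩
      rw [← hy, zon_cons, volume_sweep (isCompact_zon y) (convex_zon y), image_zon, ih, ih,
        PZ_cons i (absdet (i + 1)) (absdet_perm (i + 1)) (absdet_eq_zero (i + 1)),
        ENNReal.ofReal_add (PZ_nonneg _ _ (hnn _) _) (PZ_nonneg _ _ (fun w => hnn _ _) _)]
      congr 2
      unfold PZ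
      congr 1
      refine Finset.sum_congr rfl fun f _ => ?_
      exact (absdet_cons i (y ∘ f)).symm

end Pool.Agent.H89.CZ
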