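import Mathlib
import Pool.Agent.H61.UProj.Stmt

set_option autoImplicit false

/-!
# Zonotopes and zonoids: definitions used in the statement
-/

open Pool.Agent.H61.UProj (Cn)
open Pool.Agent.H61.UProj.Stmt
open scoped Pointwise ENNReal

noncomputable section

namespace Pool.Agent.H89.CZ.SD

/-- A zonotope: a Minkowski sum of finitely many segments. -/
def IsZonotope {n : ℕ} (Z : Set (Cn n)) : Prop :=
  ∃ (N : ℕ) (p q : Fin N → Cn n), Z = ∑ j, segment ℝ (p j) (q j)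

/-- A zonoid: a compact set which is, in the Hausdorff metric, a limit of zonotopes. -/
def IsZonoid {n : ℕ} (K : Set (Cn n)) : Prop :=
  IsCompact K ∧ ∀ ε : ℝ, 0 < ε → ∃ Z : Set (Cn n), IsZonotope Z ∧
    (∀ x ∈ K, ∃ z ∈ Z, ‖x - z‖ ≤ ε) ∧ (∀ z ∈ Z, ∃ x ∈ K, ‖x - z‖ ≤ ε)

/-- `e` is a real orthonormal basis of the real subspace `F`. -/
def IsONB {n i : ℕ} (e : Fin i → Cn n) (F : RSub n) : Prop :=
  Orthonormal ℝ e ∧ Submodule.span ℝ (Set.range e) = F

/-- The Brunn-Minkowski inequality for `V_E` on convex bodies which are zonoids. -/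
def HasBMZonoid {n : ℕ} (E : RSub n) : Prop :=
  ∀ K L : Set (Cn n), IsConvexBody K → IsConvexBody L → IsZonoid K → IsZonoid L →
    (VE E K) ^ (1 / (Module.finrank ℝ E : ℝ)) + (VE E L) ^ (1 / (Module.finrank ℝ E : ℝ)) ≤
      (VE E (K + L)) ^ (1 / (Module.finrank ℝ E : ℝ))

end Pool.Agent.H89.CZ.SD
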