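import Mathlib
import Pool.Agent.H89.CZ.Defs

set_option autoImplicit false

/-!
# Hodge: the Hodge star on `ℝ⁴`

`exists_hodge`: for `u, v ∈ ℝ⁴` there are `r, s ∈ ℝ⁴` with
`det4 (u, v, p, q) = ⟨p, r⟩⟨q, s⟩ - ⟨p, s⟩⟨q, r⟩` for all `p, q`.
If `u, v` are dependent take `r = s = 0` (then `det4 = 0`).  Otherwise let `f1, f2` be an
orthonormal basis of the orthogonal complement of `u, v`; both sides are alternating in `p, q` and
vanish if `p` or `q` is in the span of `u, v`; so `r = det4 (u, v, f1, f2) f1`, `s = f2` works.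
(Alternative: explicit formulas.  Put `m_{kl} = u_k v_l - u_l v_k`.  One needs `r, s` with minors
`r_0 s_1 - r_1 s_0 = m_{23}`, `r_0 s_2 - r_2 s_0 = -m_{13}`, `r_0 s_3 - r_3 s_0 = m_{12}`,
`r_1 s_2 - r_2 s_1 = m_{03}`, `r_1 s_3 - r_3 s_1 = -m_{02}`, `r_2 s_3 - r_3 s_2 = m_{01}`.  These
six numbers satisfy the Plücker relation `m_{01} m_{23} - m_{02} m_{13} + m_{03} m_{12} = 0`.  If
for example `m_{23} ≠ 0` take `r = (1, 0, r_2, r_3)`, `s = (0, m_{23}, s_2, s_3)` with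
`s_2 = -m_{13}`, `s_3 = m_{12}`, `r_2 = -m_{03}/m_{23}`, `r_3 = m_{02}/m_{23}`; the other cases are
similar; if all `m_{kl} = 0` take `0`.)

`hodge_minors`: consequences, by evaluating at basis vectors.
-/

noncomputable section

namespace Pool.Agent.H89.CZ

/-- `det4` of four vectors of `ℝ⁴` -/
def det4 (u v p q : Fin 4 → ℝ) : ℝ := (Matrix.of ![u, v, p, q]).det

private theorem Hodge_det (u v p q : Fin 4 → ℝ) : det4 u v p q =
    (u 0 * v 1 - u 1 * v 0) * (p 2 * q 3 - p 3 * q 2) - (u 0 * v 2 - u 2 * v 0) * (p 1 * q 3 - p 3 * q 1) +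
    (u 0 * v 3 - u 3 * v 0) * (p 1 * q 2 - p 2 * q 1) + (u 1 * v 2 - u 2 * v 1) * (p 0 * q 3 - p 3 * q 0) -
    (u 1 * v 3 - u 3 * v 1) * (p 0 * q 2 - p 2 * q 0) + (u 2 * v 3 - u 3 * v 2) * (p 0 * q 1 - p 1 * q 0) := by
  unfold det4
  rw [Matrix.det_succ_row_zero]
  simp [Fin.sum_univ_succ, Matrix.det_fin_three, Fin.succAbove]
  ring

private theorem Hodge_pl (a b c d e f : ℝ) (h : a * f - b * e + c * d = 0) : ∃ r s : Fin 4 → ℝ,
    r 0 * s 1 - r 1 * s 0 = a ∧ r 0 * s 2 - r 2 * s 0 = b ∧ r 0 * s 3 - r 3 * s 0 = c ∧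
    r 1 * s 2 - r 2 * s 1 = d ∧ r 1 * s 3 - r 3 * s 1 = e ∧ r 2 * s 3 - r 3 * s 2 = f := by
  by_cases ha : a = 0
  · by_cases hb : b = 0
    · by_cases hc : c = 0
      · by_cases hd : d = 0
        · by_cases he : e = 0
          · refine ⟨![0, 0, 1, 0], ![0, 0, 0, f], ?_, ?_, ?_, ?_, ?_, ?_⟩ <;> simp [*]
          · refine ⟨![0, 1, f / e, 0], ![0, 0, 0, e], ?_, ?_, ?_, ?_, ?_, ?_⟩ <;> simp [*]
        · refine ⟨![0, 1, 0, -(f / d)], ![0, 0, d, e], ?_, ?_, ?_, ?_, ?_, ?_⟩ <;> simp [*]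
      · refine ⟨![1, e / c, f / c, 0], ![0, a, b, c], ?_, ?_, ?_, ?_, ?_, ?_⟩ <;> simp [*]
        all_goals try (subst ha; subst hb)
        all_goals try (have h2 : c * d = 0 := by linarith)
        all_goals try (rcases mul_eq_zero.1 h2 with h3 | h3)
        all_goals try (exact absurd h3 hc)
        all_goals try (exact h3.symm)
    · refine ⟨![1, d / b, 0, -(f / b)], ![0, a, b, c], ?_, ?_, ?_, ?_, ?_, ?_⟩
      · simp
      · simp
      · simp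
      · simp
        field_simp
      · simp
        field_simp
        linarith
      · simp
        field_simp
  · refine ⟨![1, 0, -(d / a), -(e / a)], ![0, a, b, c], ?_, ?_, ?_, ?_, ?_, ?_⟩
    · simp
    · simp
    · simp
    · simp
      field_simp
    · simp
      field_simp
    · simp
      field_simp
      linarith

theorem exists_hodge (u v : Fin 4 → ℝ) : ∃ r s : Fin 4 → ℝ, ∀ p q : Fin 4 → ℝ,
    det4 u v p q = (∑ l, p l * r l) * (∑ l, q l * s l) - (∑ l, p l * s l) * (∑ l, q l * r l) := by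
  obtain ⟨r, s, h1, h2, h3, h4, h5, h6⟩ := Hodge_pl (u 2 * v 3 - u 3 * v 2) (-(u 1 * v 3 - u 3 * v 1))
    (u 1 * v 2 - u 2 * v 1) (u 0 * v 3 - u 3 * v 0) (-(u 0 * v 2 - u 2 * v 0)) (u 0 * v 1 - u 1 * v 0) (by ring)
  refine ⟨r, s, fun p q => ?_⟩
  rw [Hodge_det]
  simp only [Fin.sum_univ_four]
  linear_combination -(p 0 * q 1 - p 1 * q 0) * h1 - (p 0 * q 2 - p 2 * q 0) * h2 - (p 0 * q 3 - p 3 * q 0) * h3 -
    (p 1 * q 2 - p 2 * q 1) * h4 - (p 1 * q 3 - p 3 * q 1) * h5 - (p 2 * q 3 - p 3 * q 2) * h6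

theorem hodge_minors {u v r s : Fin 4 → ℝ} (h : ∀ p q : Fin 4 → ℝ,
    det4 u v p q = (∑ l, p l * r l) * (∑ l, q l * s l) - (∑ l, p l * s l) * (∑ l, q l * r l)) :
    r 0 * s 1 - r 1 * s 0 = u 2 * v 3 - u 3 * v 2 ∧
    r 2 * s 3 - r 3 * s 2 = u 0 * v 1 - u 1 * v 0 ∧
    (∑ l, r l ^ 2) * (∑ l, s l ^ 2) - (∑ l, r l * s l) ^ 2 =
      (∑ l, u l ^ 2) * (∑ l, v l ^ 2) - (∑ l, u l * v l) ^ 2 := by
  have h01 := h ![1, 0, 0, 0] ![0, 1, 0, 0]
  have h02 := h ![1, 0, 0, 0] ![0, 0, 1, 0]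
  have h03 := h ![1, 0, 0, 0] ![0, 0, 0, 1]
  have h12 := h ![0, 1, 0, 0] ![0, 0, 1, 0]
  have h13 := h ![0, 1, 0, 0] ![0, 0, 0, 1]
  have h23 := h ![0, 0, 1, 0] ![0, 0, 0, 1]
  rw [Hodge_det] at h01 h02 h03 h12 h13 h23
  simp [Fin.sum_univ_four] at h01 h02 h03 h12 h13 h23
  refine ⟨by linarith, by linarith, ?_⟩
  simp only [Fin.sum_univ_four]
  have e01 : (r 0 * s 1 - r 1 * s 0) ^ 2 = (u 2 * v 3 - u 3 * v 2) ^ 2 := by
    congr 1; linarith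
  have e02 : (r 0 * s 2 - r 2 * s 0) ^ 2 = (u 1 * v 3 - u 3 * v 1) ^ 2 := by
    have : r 0 * s 2 - r 2 * s 0 = -(u 1 * v 3 - u 3 * v 1) := by linarith
    rw [this]; ring
  have e03 : (r 0 * s 3 - r 3 * s 0) ^ 2 = (u 1 * v 2 - u 2 * v 1) ^ 2 := by
    congr 1; linarith
  have e12 : (r 1 * s 2 - r 2 * s 1) ^ 2 = (u 0 * v 3 - u 3 * v 0) ^ 2 := by
    congr 1; linarith
  have e13 : (r 1 * s 3 - r 3 * s 1) ^ 2 = (u 0 * v 2 - u 2 * v 0) ^ 2 := by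
    have : r 1 * s 3 - r 3 * s 1 = -(u 0 * v 2 - u 2 * v 0) := by linarith
    rw [this]; ring
  have e23 : (r 2 * s 3 - r 3 * s 2) ^ 2 = (u 0 * v 1 - u 1 * v 0) ^ 2 := by
    congr 1; linarith
  linear_combination e01 + e02 + e03 + e12 + e13 + e23

end Pool.Agent.H89.CZ
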