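import Mathlib
import Pool.Agent.H89.CZ.Hodge
import Pool.Agent.H89.CZ.HB

set_option autoImplicit false

/-!
# DetF: factorisation of determinants

`e : Fin 4 → Cn n` real orthonormal and orthogonal to all `w j`, `w : Fin k → Cn n`, where
`o` is an orthonormal basis indexed by `Fin (k + 2 + 2)` (so `2n = k + 4`).

`det_factor`: `detO o (u, v, w) p q = D · det4 (cd u, cd v, cd p, cd q)` where
`D = detO o (e 0, e 1, w) (e 2) (e 3)` and `cd e z = (⟨e l, z⟩)_{l < 4}`.

Proof.  For two families `X`, `X'` one has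
`det X' * det X = det (⟨X' i, X j⟩)`; for `X' = (e, w)`, `X = (x, w)` the matrix on the right is
block triangular with blocks `⟨e i, x j⟩` and the Gram matrix of `w`; if that Gram matrix is
singular then `w` is dependent and both sides vanish.
-/

open Pool.Agent.H61.UProj

noncomputable section

namespace Pool.Agent.H89.CZ

variable {n k i : ℕ}

/-- real coordinates with respect to `e` -/
def cd (e : Fin 4 → Cn n) (z : Cn n) : Fin 4 → ℝ := fun l => inner ℝ (e l) z

section general

variable {V : Type*} [NormedAddCommGroup V] [InnerProductSpace ℝ V]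
variable {m κ ι : Type*} [Fintype m] [DecidableEq m] [Fintype κ] [DecidableEq κ]
variable [Fintype ι] [DecidableEq ι]

private theorem DetF_mul (b : OrthonormalBasis ι ℝ V) (X' X : ι → V) :
    b.toBasis.det X' * b.toBasis.det X =
      (Matrix.of fun i j => (inner ℝ (X' i) (X j) : ℝ)).det := by
  rw [Module.Basis.det_apply, Module.Basis.det_apply]
  rw [← Matrix.det_transpose (b.toBasis.toMatrix X'), ← Matrix.det_mul]
  congr 1
  ext i j
  rw [Matrix.mul_apply, Matrix.of_apply]
  simp only [Matrix.transpose_apply, Module.Basis.toMatrix_apply, OrthonormalBasis.coe_toBasis_repr_apply]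
  rw [← b.sum_inner_mul_inner (X' i) (X j)]
  refine Finset.sum_congr rfl fun l _ => ?_
  rw [b.repr_apply_apply, b.repr_apply_apply, real_inner_comm (X' i)]

private theorem DetF_block (b : OrthonormalBasis (m ⊕ κ) ℝ V) {e : m → V} {w : κ → V}
    (hw : ∀ j l, inner ℝ (w j) (e l) = 0) (x : m → V) :
    b.toBasis.det (Sum.elim e w) * b.toBasis.det (Sum.elim x w) =
      (Matrix.of fun i j => (inner ℝ (e i) (x j) : ℝ)).det *
        (Matrix.of fun i j => (inner ℝ (w i) (w j) : ℝ)).det := by
  rw [DetF_mul]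
  rw [← Matrix.det_fromBlocks_zero₁₂ (Matrix.of fun i j => (inner ℝ (e i) (x j) : ℝ))
    (Matrix.of fun i j => (inner ℝ (w i) (x j) : ℝ))
    (Matrix.of fun i j => (inner ℝ (w i) (w j) : ℝ))]
  congr 1
  ext i j
  rcases i with i | i <;> rcases j with j | j
  · simp
  · simp only [Matrix.of_apply, Sum.elim_inl, Sum.elim_inr, Matrix.fromBlocks_apply₁₂,
      Matrix.zero_apply]
    rw [real_inner_comm, hw]
  · simp
  · simp

private theorem DetF_one {e : m → V} (he : Orthonormal ℝ e) :
    (Matrix.of fun i j => (inner ℝ (e i) (e j) : ℝ)).det = 1 := by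
  have : (Matrix.of fun i j => (inner ℝ (e i) (e j) : ℝ)) = (1 : Matrix m m ℝ) := by
    ext i j
    rw [Matrix.of_apply, orthonormal_iff_ite.1 he i j, Matrix.one_apply]
  rw [this, Matrix.det_one]

private theorem DetF_dep {w : κ → V}
    (h : (Matrix.of fun i j => (inner ℝ (w i) (w j) : ℝ)).det = 0) :
    ∃ c : κ → ℝ, c ≠ 0 ∧ ∑ j, c j • w j = 0 := by
  obtain ⟨c, hc, h0⟩ := Matrix.exists_mulVec_eq_zero_iff.2 h
  refine ⟨c, hc, ?_⟩
  have h1 : ∀ i, inner ℝ (w i) (∑ j, c j • w j) = 0 := by
    intro i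
    have := congrFun h0 i
    rw [inner_sum]
    simp only [Matrix.mulVec, dotProduct, Matrix.of_apply, Pi.zero_apply] at this
    rw [← this]
    refine Finset.sum_congr rfl fun j _ => ?_
    rw [real_inner_smul_right, mul_comm]
  have h2 : inner ℝ (∑ j, c j • w j) (∑ j, c j • w j) = 0 := by
    conv_lhs => rw [sum_inner]
    refine Finset.sum_eq_zero fun j _ => ?_
    rw [real_inner_smul_left, h1, mul_zero]
  exact inner_self_eq_zero.1 h2

private theorem DetF_gen (b : OrthonormalBasis (m ⊕ κ) ℝ V) {e : m → V} {w : κ → V}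
    (he : Orthonormal ℝ e) (hw : ∀ j l, inner ℝ (w j) (e l) = 0) (x : m → V) :
    b.toBasis.det (Sum.elim x w) =
      b.toBasis.det (Sum.elim e w) * (Matrix.of fun i j => (inner ℝ (e i) (x j) : ℝ)).det := by
  have h1 := DetF_block b hw x
  have h2 := DetF_block b hw e
  rw [DetF_one he, one_mul] at h2
  by_cases h : b.toBasis.det (Sum.elim e w) = 0
  · rw [h, zero_mul]
    rw [h, zero_mul] at h2
    obtain ⟨c, hc, h0⟩ := DetF_dep h2.symm
    refine AlternatingMap.map_linearDependent _ _ fun hli => hc ?_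
    have h3 := (linearIndependent_sum.1 hli).2.1
    have h4 : (Sum.elim x w) ∘ Sum.inr = w := by
      ext j
      rfl
    rw [h4] at h3
    exact funext (Fintype.linearIndependent_iff.1 h3 c h0)
  · apply mul_left_cancel₀ h
    rw [h1, ← h2]
    ring

private theorem DetF_ne (b : OrthonormalBasis (m ⊕ κ) ℝ V) {e : m → V} {w : κ → V}
    (he : Orthonormal ℝ e) (hw : ∀ j l, inner ℝ (w j) (e l) = 0)
    (hli : LinearIndependent ℝ w) : b.toBasis.det (Sum.elim e w) ≠ 0 := by
  intro h
  have h2 := DetF_block b hw e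
  rw [DetF_one he, one_mul, h, zero_mul] at h2
  obtain ⟨c, hc, h0⟩ := DetF_dep h2.symm
  exact hc (funext (Fintype.linearIndependent_iff.1 hli c h0))

end general

/-- reindexing of a family of `i + 2` vectors -/
private def DetF_eqv (i : ℕ) : Fin (i + 2) ≃ Fin 2 ⊕ Fin i :=
  finSumFinEquiv.symm.trans (Equiv.sumComm _ _)

private theorem DetF_append (w : Fin i → Cn n) (p q : Cn n) :
    (Fin.append w ![p, q] : Fin (i + 2) → Cn n) = Sum.elim ![p, q] w ∘ DetF_eqv i := by
  funext j
  refine Fin.addCases (fun a => ?_) (fun a => ?_) j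
  · simp [DetF_eqv]
  · simp [DetF_eqv]

private theorem DetF_detO (o : OrthonormalBasis (Fin (i + 2)) ℝ (Cn n)) (w : Fin i → Cn n)
    (p q : Cn n) :
    detO o w p q = (o.reindex (DetF_eqv i)).toBasis.det (Sum.elim ![p, q] w) := by
  rw [detO, DetF_append, OrthonormalBasis.reindex_toBasis, Module.Basis.det_reindex]

/-- reindexing of a family of `k + 2 + 2` vectors -/
private def DetF_eqv4 (k : ℕ) : Fin 2 ⊕ Fin (k + 2) ≃ Fin 4 ⊕ Fin k :=
  ((Equiv.refl (Fin 2)).sumCongr ((finSumFinEquiv (m := 2) (n := k)).trans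
    (finCongr (Nat.add_comm 2 k))).symm).trans
    ((Equiv.sumAssoc (Fin 2) (Fin 2) (Fin k)).symm.trans
      (((Equiv.sumComm (Fin 2) (Fin 2)).trans (finSumFinEquiv (m := 2) (n := 2))).sumCongr
        (Equiv.refl (Fin k))))

private theorem DetF_elim4 (w : Fin k → Cn n) (u v p q : Cn n) :
    (Sum.elim ![p, q] (Fin.cons u (Fin.cons v w : Fin (k + 1) → Cn n) : Fin (k + 2) → Cn n)) =
      Sum.elim ![u, v, p, q] w ∘ DetF_eqv4 k := by
  funext j
  rcases j with j | j
  · fin_cases j <;> rfl
  · refine Fin.cases ?_ (fun j => ?_) j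
    · rfl
    · refine Fin.cases ?_ (fun j => ?_) j
      · rfl
      · have : (DetF_eqv4 k) (Sum.inr j.succ.succ) = Sum.inr j := by
          rw [← Equiv.eq_symm_apply]
          simp only [DetF_eqv4, Equiv.symm_trans_apply, Equiv.sumCongr_symm, Equiv.symm_symm,
            Equiv.refl_symm, Equiv.sumCongr_apply, Sum.map_inr, Equiv.coe_refl, id_eq,
            Equiv.sumAssoc_apply_inr, Equiv.trans_apply, finSumFinEquiv_apply_right]
          congr 1
          ext
          simp
        rw [Function.comp_apply, this]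
        simp

theorem det_factor (o : OrthonormalBasis (Fin (k + 2 + 2)) ℝ (Cn n)) {e : Fin 4 → Cn n}
    (he : Orthonormal ℝ e) (w : Fin k → Cn n) (hw : ∀ j l, inner ℝ (w j) (e l) = 0)
    (u v p q : Cn n) :
    detO o (Fin.cons u (Fin.cons v w : Fin (k + 1) → Cn n) : Fin (k + 2) → Cn n) p q =
      detO o (Fin.cons (e 0) (Fin.cons (e 1) w : Fin (k + 1) → Cn n) : Fin (k + 2) → Cn n)
        (e 2) (e 3) * det4 (cd e u) (cd e v) (cd e p) (cd e q) := by
  rw [DetF_detO, DetF_detO, DetF_elim4, DetF_elim4, ← Module.Basis.det_reindex,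
    ← Module.Basis.det_reindex, ← OrthonormalBasis.reindex_toBasis, DetF_gen _ he hw]
  have h1 : (![e 0, e 1, e 2, e 3] : Fin 4 → Cn n) = e := by
    funext l
    fin_cases l <;> rfl
  rw [h1, det4, ← Matrix.det_transpose (Matrix.of ![cd e u, cd e v, cd e p, cd e q])]
  congr 2
  ext a b
  rw [Matrix.transpose_apply, Matrix.of_apply, Matrix.of_apply]
  fin_cases b <;> rfl

theorem det_factor2 (o : OrthonormalBasis (Fin (i + 2)) ℝ (Cn n)) {f : Fin 2 → Cn n}
    (hf : Orthonormal ℝ f) (w : Fin i → Cn n) (hw : ∀ j l, inner ℝ (w j) (f l) = 0)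
    (p q : Cn n) :
    detO o w p q = detO o w (f 0) (f 1) * pair2 p q (f 0) (f 1) := by
  rw [DetF_detO, DetF_detO, DetF_gen _ hf hw]
  have h1 : (![f 0, f 1] : Fin 2 → Cn n) = f := by
    funext l
    fin_cases l <;> rfl
  rw [h1, Matrix.det_fin_two, pair2]
  congr 1
  simp only [Matrix.of_apply, Matrix.cons_val_zero, Matrix.cons_val_one]
  rw [real_inner_comm p, real_inner_comm q, real_inner_comm q, real_inner_comm p]
  ring

theorem detO_ne_zero (o : OrthonormalBasis (Fin (i + 2)) ℝ (Cn n)) {f : Fin 2 → Cn n}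
    (hf : Orthonormal ℝ f) {w : Fin i → Cn n} (hli : LinearIndependent ℝ w)
    (hw : ∀ j l, inner ℝ (w j) (f l) = 0) : detO o w (f 0) (f 1) ≠ 0 := by
  rw [DetF_detO]
  have h1 : (![f 0, f 1] : Fin 2 → Cn n) = f := by
    funext l
    fin_cases l <;> rfl
  rw [h1]
  exact DetF_ne _ hf hw hli

end Pool.Agent.H89.CZ
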