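import Mathlib
import Pool.Agent.H89.CZ.NF0

set_option autoImplicit false

/-!
# NF: normal form of `om` on four dimensions orthogonal to `w`

`w : Fin k → Cn n`, `k + 4 ≤ 2n`.  There is a real orthonormal family `e : Fin 4 → Cn n`,
orthogonal to all `w j`, with `om (e 0) (e 2) = om (e 0) (e 3) = om (e 1) (e 2) = om (e 1) (e 3) = 0`
and `0 ≤ om (e 0) (e 1) ≤ om (e 2) (e 3) ≤ 1`.

Proof.  Let `(f2, f3)` be an orthonormal pair orthogonal to `w` maximising `om f2 f3` (compact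
set); let `c` be the maximum.  For a unit vector `g` orthogonal to `w, f2, f3` and `s = om f2 g`,
the pair `f2, (c f3 + s g) / √(c ^ 2 + s ^ 2)` gives `√(c ^ 2 + s ^ 2) ≤ c`, so `s = 0`; similarly
`om f3 g = 0`.  Let `(f0, f1)` be an orthonormal pair orthogonal to `w, f2, f3` with
`om f0 f1 ≥ 0` (exchange if necessary); `om f0 f1 ≤ c` by maximality.
Take `e = (f0, f1, f2, f3)`.

`exists_perp_pair`: for `w : Fin i → Cn n` with `i + 2 ≤ 2n` there is a real orthonormal pair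
orthogonal to all `w j`.
-/

open Pool.Agent.H61.UProj

noncomputable section

namespace Pool.Agent.H89.CZ

variable {n : ℕ}

private theorem NF_finrank : Module.finrank ℝ (Cn n) = 2 * n := by
  have h := finrank_real_of_complex (Cn n)
  rw [h, finrank_euclideanSpace_fin]

theorem exists_perp_pair {i : ℕ} (hi : i + 2 ≤ 2 * n) (w : Fin i → Cn n) :
    ∃ f : Fin 2 → Cn n, Orthonormal ℝ f ∧ ∀ j l, inner ℝ (w j) (f l) = 0 := by
  classical
  set W : Submodule ℝ (Cn n) := Submodule.span ℝ (Set.range w) with hW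
  have h1 : Module.finrank ℝ W ≤ i := by
    have h := finrank_range_le_card (R := ℝ) w
    simpa [Set.finrank] using h
  have h2 : Module.finrank ℝ W + Module.finrank ℝ Wᗮ = 2 * n := by
    rw [← NF_finrank]
    exact Submodule.finrank_add_finrank_orthogonal W
  have h3 : 2 ≤ Module.finrank ℝ Wᗮ := by omega
  let b := stdOrthonormalBasis ℝ Wᗮ
  refine ⟨fun l => (b (Fin.castLE h3 l) : Cn n), ?_, ?_⟩
  · have hb := b.orthonormal
    have h5 := hb.comp (Fin.castLE h3) (Fin.castLE_injective h3)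
    exact h5.comp_linearIsometry Wᗮ.subtypeₗᵢ
  · intro j l
    have h6 := (b (Fin.castLE h3 l)).2
    exact (Submodule.mem_orthogonal W _).1 h6 (w j) (Submodule.subset_span ⟨j, rfl⟩)

private def NFS {k : ℕ} (w : Fin k → Cn n) : Set (Cn n × Cn n) :=
  {q | (∀ j, inner ℝ (w j) q.1 = 0) ∧ (∀ j, inner ℝ (w j) q.2 = 0) ∧ ‖q.1‖ = 1 ∧ ‖q.2‖ = 1 ∧
    inner ℝ q.1 q.2 = 0}

private theorem NF_compact {k : ℕ} (w : Fin k → Cn n) : IsCompact (NFS w) := by
  have hb : NFS w ⊆ Metric.closedBall 0 1 := by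
    rintro q ⟨-, -, h1, h2, -⟩
    rw [mem_closedBall_zero_iff, Prod.norm_def, h1, h2]
    simp
  refine (isCompact_closedBall (0 : Cn n × Cn n) 1).of_isClosed_subset ?_ hb
  have e : NFS w = (⋂ j, {q : Cn n × Cn n | inner ℝ (w j) q.1 = 0}) ∩
      ((⋂ j, {q : Cn n × Cn n | inner ℝ (w j) q.2 = 0}) ∩ ({q : Cn n × Cn n | ‖q.1‖ = 1} ∩
        ({q : Cn n × Cn n | ‖q.2‖ = 1} ∩ {q : Cn n × Cn n | inner ℝ q.1 q.2 = 0}))) := by
    ext q
    simp [NFS]
  rw [e]
  refine IsClosed.inter (isClosed_iInter fun j => isClosed_eq ?_ continuous_const)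
    (IsClosed.inter (isClosed_iInter fun j => isClosed_eq ?_ continuous_const)
      (IsClosed.inter (isClosed_eq ?_ continuous_const)
        (IsClosed.inter (isClosed_eq ?_ continuous_const) (isClosed_eq ?_ continuous_const))))
  · fun_prop
  · fun_prop
  · fun_prop
  · fun_prop
  · fun_prop

/-- a unit combination -/
private theorem NF_comb {p q : Cn n} (hp : ‖p‖ = 1) (hq : ‖q‖ = 1) (hpq : inner ℝ p q = 0)
    {c s : ℝ} (h : 0 < c ^ 2 + s ^ 2) :
    ‖(√(c ^ 2 + s ^ 2))⁻¹ • (c • p + s • q)‖ = 1 := by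
  have h1 : ‖c • p + s • q‖ ^ 2 = c ^ 2 + s ^ 2 := by
    rw [norm_add_sq_real, real_inner_smul_left, real_inner_smul_right, hpq, norm_smul, norm_smul,
      hp, hq, mul_one, mul_one, Real.norm_eq_abs, Real.norm_eq_abs, sq_abs, sq_abs]
    ring
  have h2 : ‖c • p + s • q‖ = √(c ^ 2 + s ^ 2) := by
    rw [← h1, Real.sqrt_sq (norm_nonneg _)]
  have h3 : 0 < √(c ^ 2 + s ^ 2) := Real.sqrt_pos.2 h
  rw [norm_smul, h2, Real.norm_eq_abs, abs_of_pos (inv_pos.2 h3), inv_mul_cancel₀ h3.ne']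

private theorem NF_zero {c s : ℝ} (h : 0 < c ^ 2 + s ^ 2)
    (h2 : (√(c ^ 2 + s ^ 2))⁻¹ * (c * c + s * s) ≤ c) : s = 0 := by
  have h3 : 0 < √(c ^ 2 + s ^ 2) := Real.sqrt_pos.2 h
  have h4 : √(c ^ 2 + s ^ 2) ^ 2 = c ^ 2 + s ^ 2 := Real.sq_sqrt h.le
  have h5 : (√(c ^ 2 + s ^ 2))⁻¹ * (c * c + s * s) = √(c ^ 2 + s ^ 2) := by
    rw [inv_mul_eq_iff_eq_mul₀ h3.ne']
    nlinarith
  rw [h5] at h2
  have h6 : √(c ^ 2 + s ^ 2) ^ 2 ≤ c ^ 2 := pow_le_pow_left₀ h3.le h2 2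
  rw [h4] at h6
  have h7 : s ^ 2 ≤ 0 := by linarith
  exact pow_eq_zero_iff (two_ne_zero) |>.1 (le_antisymm h7 (sq_nonneg s))

theorem exists_normal {k : ℕ} (hk : k + 4 ≤ 2 * n) (w : Fin k → Cn n) :
    ∃ e : Fin 4 → Cn n, Orthonormal ℝ e ∧ (∀ j l, inner ℝ (w j) (e l) = 0) ∧
      om (e 0) (e 2) = 0 ∧ om (e 0) (e 3) = 0 ∧ om (e 1) (e 2) = 0 ∧ om (e 1) (e 3) = 0 ∧
      0 ≤ om (e 0) (e 1) ∧ om (e 0) (e 1) ≤ om (e 2) (e 3) ∧ om (e 2) (e 3) ≤ 1 := by
  obtain ⟨f, hf, hfw⟩ := exists_perp_pair (i := k) (by omega) w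
  have hne : (NFS w).Nonempty :=
    ⟨(f 0, f 1), fun j => hfw j 0, fun j => hfw j 1, hf.1 0, hf.1 1, hf.2 (by decide)⟩
  obtain ⟨⟨f2, f3⟩, ⟨hw2, hw3, hn2, hn3, h23⟩, hmax⟩ :=
    (NF_compact w).exists_isMaxOn hne continuous_om.continuousOn
  simp only at hw2 hw3 hn2 hn3 h23
  have hM : ∀ p q : Cn n, (p, q) ∈ NFS w → om p q ≤ om f2 f3 := fun p q h => hmax h
  have h32 : inner ℝ f3 f2 = 0 := by rw [real_inner_comm]; exact h23
  -- vanishing
  have key : ∀ g : Cn n, ‖g‖ = 1 → (∀ j, inner ℝ (w j) g = 0) → inner ℝ f2 g = 0 →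
      inner ℝ f3 g = 0 → om f2 g = 0 ∧ om f3 g = 0 := by
    intro g hg hwg h2g h3g
    constructor
    · by_contra hs
      have hpos : 0 < om f2 f3 ^ 2 + om f2 g ^ 2 := by positivity
      apply hs
      refine NF_zero hpos ?_
      have h := hM f2 ((√(om f2 f3 ^ 2 + om f2 g ^ 2))⁻¹ • (om f2 f3 • f3 + om f2 g • g))
        ⟨hw2, fun j => ?_, hn2, NF_comb hn3 hg h3g hpos, ?_⟩
      · rw [om_smul_right, om_add_right, om_smul_right, om_smul_right] at h
        exact h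
      · simp only [real_inner_smul_right, inner_add_right]
        rw [hw3 j, hwg j]; ring
      · simp only [real_inner_smul_right, inner_add_right]
        rw [h23, h2g]; ring
    · by_contra hs
      have hs' : om g f3 ≠ 0 := by
        rw [om_swap f3 g]
        exact neg_ne_zero.2 hs
      have hpos : 0 < om f2 f3 ^ 2 + om g f3 ^ 2 := by positivity
      apply hs'
      refine NF_zero hpos ?_
      have h := hM ((√(om f2 f3 ^ 2 + om g f3 ^ 2))⁻¹ • (om f2 f3 • f2 + om g f3 • g)) f3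
        ⟨fun j => ?_, hw3, NF_comb hn2 hg h2g hpos, hn3, ?_⟩
      · rw [om_smul_left, om_add_left, om_smul_left, om_smul_left] at h
        exact h
      · simp only [real_inner_smul_right, inner_add_right]
        rw [hw2 j, hwg j]; ring
      · simp only [real_inner_smul_left, inner_add_left]
        rw [h23, real_inner_comm, h3g]; ring
  -- the second pair
  obtain ⟨g, hg, hgw⟩ := exists_perp_pair (i := k + 2) (by omega) (Fin.append w ![f2, f3])
  have hgw' : ∀ j l, inner ℝ (w j) (g l) = 0 := fun j l => by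
    have h := hgw (Fin.castAdd 2 j) l
    rwa [Fin.append_left] at h
  have hg2 : ∀ l, inner ℝ f2 (g l) = 0 := fun l => by
    have h := hgw (Fin.natAdd k 0) l
    rwa [Fin.append_right] at h
  have hg3 : ∀ l, inner ℝ f3 (g l) = 0 := fun l => by
    have h := hgw (Fin.natAdd k 1) l
    rwa [Fin.append_right] at h
  -- exchange
  obtain ⟨f0, f1, hn0, hn1, h01, hw0, hw1, h20, h21, h30, h31, hom⟩ : ∃ f0 f1 : Cn n,
      ‖f0‖ = 1 ∧ ‖f1‖ = 1 ∧ inner ℝ f0 f1 = 0 ∧ (∀ j, inner ℝ (w j) f0 = 0) ∧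
      (∀ j, inner ℝ (w j) f1 = 0) ∧ inner ℝ f2 f0 = 0 ∧ inner ℝ f2 f1 = 0 ∧
      inner ℝ f3 f0 = 0 ∧ inner ℝ f3 f1 = 0 ∧ 0 ≤ om f0 f1 := by
    rcases le_total 0 (om (g 0) (g 1)) with h | h
    · exact ⟨g 0, g 1, hg.1 0, hg.1 1, hg.2 (by decide), fun j => hgw' j 0, fun j => hgw' j 1,
        hg2 0, hg2 1, hg3 0, hg3 1, h⟩
    · exact ⟨g 1, g 0, hg.1 1, hg.1 0, hg.2 (by decide), fun j => hgw' j 1, fun j => hgw' j 0,
        hg2 1, hg2 0, hg3 1, hg3 0, by rw [om_swap (g 0) (g 1)]; linarith⟩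
  have k0 := key f0 hn0 hw0 h20 h30
  have k1 := key f1 hn1 hw1 h21 h31
  have h10 : inner ℝ f1 f0 = 0 := by rw [real_inner_comm]; exact h01
  have h02 : inner ℝ f0 f2 = 0 := by rw [real_inner_comm]; exact h20
  have h12 : inner ℝ f1 f2 = 0 := by rw [real_inner_comm]; exact h21
  have h03 : inner ℝ f0 f3 = 0 := by rw [real_inner_comm]; exact h30
  have h13 : inner ℝ f1 f3 = 0 := by rw [real_inner_comm]; exact h31
  refine ⟨![f0, f1, f2, f3], ⟨?_, ?_⟩, ?_, ?_, ?_, ?_, ?_, hom, ?_, ?_⟩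
  · intro l
    fin_cases l
    · exact hn0
    · exact hn1
    · exact hn2
    · exact hn3
  · intro l m hlm
    fin_cases l <;> fin_cases m <;> first | exact absurd rfl hlm | assumption
  · intro j l
    fin_cases l
    · exact hw0 j
    · exact hw1 j
    · exact hw2 j
    · exact hw3 j
  · change om f0 f2 = 0
    rw [om_swap f2 f0, k0.1, neg_zero]
  · change om f0 f3 = 0
    rw [om_swap f3 f0, k0.2, neg_zero]
  · change om f1 f2 = 0
    rw [om_swap f2 f1, k1.1, neg_zero]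
  · change om f1 f3 = 0
    rw [om_swap f3 f1, k1.2, neg_zero]
  · exact hM f0 f1 ⟨hw0, hw1, hn0, hn1, h01⟩
  · change om f2 f3 ≤ 1
    have h := abs_om_le f2 f3
    rw [hn2, hn3, mul_one] at h
    exact (le_abs_self _).trans h

end Pool.Agent.H89.CZ
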