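import Mathlib
import Pool.Agent.H89.CZ.DetF
import Pool.Agent.H89.CZ.TFin
import Pool.Agent.H89.CZ.NF
import Pool.Agent.H89.CZ.GV

set_option autoImplicit false

/-!
# GvEq: the kernel `gv o a b (u, v, w)` in terms of the four dimensions orthogonal to `w`

`e : Fin 4 → Cn n` real orthonormal and orthogonal to all `w j`, `2n = k + 4`, block form of `om`.
Take `r, s` from `exists_hodge (cd e u) (cd e v)` and `q1 = ∑ r_l e l`, `q2 = ∑ s_l e l`.  For all
`p, q`: `pair2 p q q1 q2 = det4 (cd e u) (cd e v) (cd e p) (cd e q)` (`⟨p, q1⟩ = ∑ r_l ⟨e l, p⟩`).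
By `det_factor`, `gv o a b (u, v, w) = |D| ∫ |pair2 (φa) (φb) q1 q2|`; apply `tasaki`.
`area q1 q2 = ar (prj e u) (prj e v)` by `area_comb`, `ar_prj`, `hodge_minors`; and
`om q1 q2 = om (e 0) (e 1) m_{23} + om (e 2) (e 3) m_{01}` by `om_comb`, `hodge_minors`, where
`m_{01} = Im (conj x x')`, `m_{23} = Im (conj y y')` for `prj e u = (x, y)`,
`prj e v = (x', y')`.

`gv_pos`: `w : Fin i → Cn n` linearly independent over `ℝ`, `i + 2 = 2n` (from `o`), `n ≥ 2`:
`exists_perp_pair`, `det_factor2`, `detO_ne_zero`, `tasaki`: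
`gv = |detO o w f0 f1| (al * 1 + be * om f0 f1 ^2)`, `0 ≤ y = om f0 f1 ^ 2 ≤ 1`
and `al + be y ≥ min al (al + be) > 0` (`al_pos`, `al_add_be_pos`, `om_sq_le_one`).
-/

open MeasureTheory Pool.Agent.H61.UProj
open scoped ENNReal

noncomputable section

namespace Pool.Agent.H89.CZ

variable {n k i : ℕ}

theorem GvEq_pair2 (e : Fin 4 → Cn n) (r s : Fin 4 → ℝ) (p q : Cn n) :
    pair2 p q (∑ l, r l • e l) (∑ l, s l • e l) =
      (∑ l, cd e p l * r l) * (∑ l, cd e q l * s l) -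
        (∑ l, cd e p l * s l) * (∑ l, cd e q l * r l) := by
  have h : ∀ (t : Fin 4 → ℝ) (z : Cn n), inner ℝ z (∑ l, t l • e l) = ∑ l, cd e z l * t l := by
    intro t z
    rw [inner_sum]
    refine Finset.sum_congr rfl fun l _ => ?_
    rw [inner_smul_right_eq_smul, real_inner_comm]
    simp [cd, mul_comm]
  unfold pair2
  rw [h, h, h, h]

theorem gv_eq (o : OrthonormalBasis (Fin (k + 2 + 2)) ℝ (Cn n)) (hn : 2 ≤ n) {a : Fin 2 → Cn n}
    (ha : Orthonormal ℝ a) {e : Fin 4 → Cn n} (he : Orthonormal ℝ e) (w : Fin k → Cn n)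
    (hw : ∀ j l, inner ℝ (w j) (e l) = 0) (h02 : om (e 0) (e 2) = 0) (h03 : om (e 0) (e 3) = 0)
    (h12 : om (e 1) (e 2) = 0) (h13 : om (e 1) (e 3) = 0) (u v : Cn n) :
    gv o (a 0) (a 1) (Fin.cons u (Fin.cons v w : Fin (k + 1) → Cn n) : Fin (k + 2) → Cn n) =
      |detO o (Fin.cons (e 0) (Fin.cons (e 1) w : Fin (k + 1) → Cn n) : Fin (k + 2) → Cn n)
        (e 2) (e 3)| *
      (al n (om (a 0) (a 1) ^ 2) * ar (prj e u) (prj e v) +
        be n (om (a 0) (a 1) ^ 2) *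
          (om (e 2) (e 3) * (starRingEnd ℂ (prj e u).1 * (prj e v).1).im +
            om (e 0) (e 1) * (starRingEnd ℂ (prj e u).2 * (prj e v).2).im) ^ 2 /
            ar (prj e u) (prj e v)) := by
  obtain ⟨r, s, hrs⟩ := exists_hodge (cd e u) (cd e v)
  obtain ⟨hm1, hm2, hm3⟩ := hodge_minors hrs
  have hD : ∀ p q : Cn n,
      |detO o (Fin.cons u (Fin.cons v w : Fin (k + 1) → Cn n) : Fin (k + 2) → Cn n) p q| =
      |detO o (Fin.cons (e 0) (Fin.cons (e 1) w : Fin (k + 1) → Cn n) : Fin (k + 2) → Cn n)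
        (e 2) (e 3)| * |pair2 p q (∑ l, r l • e l) (∑ l, s l • e l)| := by
    intro p q
    rw [det_factor o he w hw u v p q, hrs, abs_mul, GvEq_pair2]
  have hI : gv o (a 0) (a 1)
      (Fin.cons u (Fin.cons v w : Fin (k + 1) → Cn n) : Fin (k + 2) → Cn n) =
      |detO o (Fin.cons (e 0) (Fin.cons (e 1) w : Fin (k + 1) → Cn n) : Fin (k + 2) → Cn n)
        (e 2) (e 3)| *
      ∫ φ, |pair2 (uni φ (a 0)) (uni φ (a 1)) (∑ l, r l • e l) (∑ l, s l • e l)| ∂(haarU n) := by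
    unfold gv
    rw [← integral_const_mul]
    exact integral_congr_ae (Filter.Eventually.of_forall fun φ => hD _ _)
  have harea : area (∑ l, r l • e l) (∑ l, s l • e l) = ar (prj e u) (prj e v) := by
    rw [area_comb he, ar_prj, hm3]
    rfl
  have hom : om (∑ l, r l • e l) (∑ l, s l • e l) =
      om (e 2) (e 3) * (starRingEnd ℂ (prj e u).1 * (prj e v).1).im +
        om (e 0) (e 1) * (starRingEnd ℂ (prj e u).2 * (prj e v).2).im := by
    rw [om_comb r s h02 h03 h12 h13, hm1, hm2]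
    simp only [cd, prj, Complex.mul_im, Complex.conj_re, Complex.conj_im]
    ring
  rw [hI, tasaki hn ha, harea, hom]

theorem gv_pos (o : OrthonormalBasis (Fin (i + 2)) ℝ (Cn n)) (hn : 2 ≤ n) {a : Fin 2 → Cn n}
    (ha : Orthonormal ℝ a) {w : Fin i → Cn n} (hw : LinearIndependent ℝ w) :
    0 < gv o (a 0) (a 1) w := by
  have hdim : i + 2 = 2 * n := by
    have h1 := Module.finrank_eq_card_basis o.toBasis
    have h2 := finrank_real_of_complex (Cn n)
    have h3 : Module.finrank ℂ (Cn n) = n := by simp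
    rw [h3] at h2
    rw [h2, Fintype.card_fin] at h1
    omega
  obtain ⟨f, hf, hfw⟩ := exists_perp_pair hdim.le w
  have hne := detO_ne_zero o hf hw hfw
  have hI : gv o (a 0) (a 1) w = |detO o w (f 0) (f 1)| *
      ∫ φ, |pair2 (uni φ (a 0)) (uni φ (a 1)) (f 0) (f 1)| ∂(haarU n) := by
    unfold gv
    rw [← integral_const_mul]
    refine integral_congr_ae (Filter.Eventually.of_forall fun φ => ?_)
    show |detO o w (uni φ (a 0)) (uni φ (a 1))| = _
    rw [det_factor2 o hf w hfw, abs_mul]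
  have harea : area (f 0) (f 1) = 1 := by
    unfold area
    rw [hf.1 0, hf.1 1, hf.2 (by decide : (0 : Fin 2) ≠ 1)]
    norm_num
  rw [hI, tasaki hn ha, harea]
  have hx0 : 0 ≤ om (a 0) (a 1) ^ 2 := sq_nonneg _
  have hx1 := om_sq_le_one ha
  have hy0 : 0 ≤ om (f 0) (f 1) ^ 2 := sq_nonneg _
  have hy1 := om_sq_le_one hf
  have h1 := al_pos hn hx1
  have h2 := al_add_be_pos hn hx0
  refine mul_pos (abs_pos.2 hne) ?_
  rw [mul_one, div_one]
  nlinarith [mul_nonneg (sub_nonneg.2 hy1) h1.le, mul_nonneg hy0 h2.le]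

end Pool.Agent.H89.CZ
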