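import Mathlib
import Pool.Agent.H89.CZ.Defs
import Pool.Agent.H85.BMK.Kernel

set_option autoImplicit false

/-!
# KCnd: the kernel inequality for general vectors, and its hyperbolic form

The inequality for unit vectors is `kernel_nonpos` of `Pool.Agent.H85.BMK.Kernel` (vectors of
`Fin 4 → ℝ`): `(x, y)` corresponds to `(Re x, Im x, Re y, Im y)`, and `ta c u v = (T u) ⬝ v` for
the antisymmetric matrix `T` with blocks `(0, -1; 1, 0)` and `(0, -c; c, 0)`.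

* `ker_cnd`: general vectors with `∑ μ_j ‖u_j‖ = 0` (`‖u_j‖ = √(nsq (u j))`): `Ker b c` is
  homogeneous: `Ker b c (s u) (t v) = s t Ker b c u v` for `s, t ≥ 0`; replace `u_j` by the unit
  vector `u_j/‖u_j‖` (any unit vector if `u_j = 0`) and `μ_j` by `μ_j ‖u_j‖`.
* `hyperbolic`: let `Q` be a symmetric matrix with
  `Q(u,u) ≤ 0` whenever `l(u) = 0` (`l` linear).  Then `Q(u,u) Q(w,w) ≤ Q(u,w)²` whenever
  `0 ≤ Q(w,w)`.  If `Q(w,w) = 0`: trivial.  If `Q(w,w) > 0` then `l(w) ≠ 0`; with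
  `u' = u - (l(u)/l(w)) w`: `Q(u,u)Q(w,w) - Q(u,w)² = Q(u',u')Q(w,w) - Q(u',w)² ≤ 0`.
* `ker_hyp`: `Q = Ker b c (p i) (p j)`, `l_j = √(nsq (p j))`; `Q(w,w) ≥ 0` by `KCnd_ker_nonneg`.
-/

noncomputable section

namespace Pool.Agent.H89.CZ

open Pool.Agent.H85.BMK Matrix

/-! ### Helper lemmas -/

theorem KCnd_dotR_comm (u v : ℂ × ℂ) : dotR u v = dotR v u := by
  simp only [dotR, Complex.add_re, Complex.mul_re, Complex.conj_re, Complex.conj_im]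
  ring

theorem KCnd_ta_comm (c : ℝ) (u v : ℂ × ℂ) : ta c u v = -ta c v u := by
  simp only [ta, Complex.mul_im, Complex.conj_re, Complex.conj_im]
  ring

theorem KCnd_ar_comm (u v : ℂ × ℂ) : ar u v = ar v u := by
  rw [ar, ar, KCnd_dotR_comm u v, mul_comm (nsq u) (nsq v)]

/-- real coordinates -/
def KCnd_vec (u : ℂ × ℂ) : V4 := ![u.1.re, u.1.im, u.2.re, u.2.im]

/-- the antisymmetric matrix -/
def KCnd_T (c : ℝ) : Matrix (Fin 4) (Fin 4) ℝ :=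
  !![0, -1, 0, 0; 1, 0, 0, 0; 0, 0, 0, -c; 0, 0, c, 0]

theorem KCnd_dot (u v : ℂ × ℂ) : KCnd_vec u ⬝ᵥ KCnd_vec v = dotR u v := by
  simp only [dotProduct, Fin.sum_univ_four, KCnd_vec, dotR, Complex.add_re, Complex.mul_re,
    Complex.conj_re, Complex.conj_im, Matrix.cons_val]
  ring

theorem KCnd_nsq (u : ℂ × ℂ) : KCnd_vec u ⬝ᵥ KCnd_vec u = nsq u := by
  simp only [dotProduct, Fin.sum_univ_four, KCnd_vec, nsq, Complex.normSq_apply,
    Matrix.cons_val]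
  ring

theorem KCnd_Tdot (c : ℝ) (u v : ℂ × ℂ) :
    (KCnd_T c *ᵥ KCnd_vec u) ⬝ᵥ KCnd_vec v = ta c u v := by
  simp only [dotProduct, Fin.sum_univ_four, KCnd_vec, ta, Complex.mul_im,
    Complex.conj_re, Complex.conj_im, Matrix.mulVec, KCnd_T, Matrix.cons_val, Matrix.of_apply]
  ring

theorem KCnd_Ta (c : ℝ) : (KCnd_T c)ᵀ = -KCnd_T c := by
  ext i j
  fin_cases i <;> fin_cases j <;> simp [KCnd_T]

theorem KCnd_Tle {c : ℝ} (hc : 0 ≤ c) (hc1 : c ≤ 1) (x : V4) :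
    (KCnd_T c *ᵥ x) ⬝ᵥ (KCnd_T c *ᵥ x) ≤ x ⬝ᵥ x := by
  have h : c ^ 2 ≤ 1 := by nlinarith
  have e : (KCnd_T c *ᵥ x) ⬝ᵥ (KCnd_T c *ᵥ x) =
      x 0 ^ 2 + x 1 ^ 2 + c ^ 2 * (x 2 ^ 2 + x 3 ^ 2) := by
    simp only [dotProduct, Fin.sum_univ_four, Matrix.mulVec, KCnd_T, Matrix.cons_val,
      Matrix.of_apply]
    ring
  have e2 : x ⬝ᵥ x = x 0 ^ 2 + x 1 ^ 2 + (x 2 ^ 2 + x 3 ^ 2) := by
    simp only [dotProduct, Fin.sum_univ_four]
    ring
  rw [e, e2]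
  nlinarith [mul_le_mul_of_nonneg_right h (add_nonneg (sq_nonneg (x 2)) (sq_nonneg (x 3)))]

/-- The kernel inequality for unit vectors. -/
theorem KCnd_unit_case {ι : Type*} [Fintype ι] (u : ι → ℂ × ℂ) (hu : ∀ j, nsq (u j) = 1)
    (μ : ι → ℝ) (hμ : ∑ j, μ j = 0) {b c : ℝ} (hb : -(1 / 5) ≤ b) (hb1 : b ≤ 5 / 9)
    (hc : 0 ≤ c) (hc1 : c ≤ 1) :
    ∑ i, ∑ j, μ i * μ j * Ker b c (u i) (u j) ≤ 0 := by
  have h := kernel_nonpos μ hμ (fun j => KCnd_vec (u j))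
    (fun j => by rw [KCnd_nsq, hu j]) (KCnd_T c) (KCnd_Ta c) (KCnd_Tle hc hc1) b
    (by linarith) hb1
  have e : ∀ i j, Ker b c (u i) (u j) = kf b (KCnd_vec (u i) ⬝ᵥ KCnd_vec (u j))
      ((KCnd_T c *ᵥ KCnd_vec (u i)) ⬝ᵥ KCnd_vec (u j)) := by
    intro i j
    rw [KCnd_dot, KCnd_Tdot, Ker, ar, hu i, hu j, kf, mul_one, mul_div_assoc]
  simp only [e]
  exact h

/-! ### Positivity -/

theorem KCnd_ta_sq_le {c : ℝ} (hc : 0 ≤ c) (hc1 : c ≤ 1) (u v : ℂ × ℂ) :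
    ta c u v ^ 2 ≤ nsq u * nsq v - dotR u v ^ 2 := by
  obtain ⟨⟨p0, p1⟩, ⟨p2, p3⟩⟩ := u
  obtain ⟨⟨q0, q1⟩, ⟨q2, q3⟩⟩ := v
  simp only [ta, nsq, dotR, Complex.normSq_apply, Complex.add_re, Complex.mul_re, Complex.mul_im,
    Complex.conj_re, Complex.conj_im]
  have e : (p0 * p0 + p1 * p1 + (p2 * p2 + p3 * p3)) * (q0 * q0 + q1 * q1 + (q2 * q2 + q3 * q3)) -
      (p0 * q0 - -p1 * q1 + (p2 * q2 - -p3 * q3)) ^ 2 -
      (p0 * q1 + -p1 * q0 + c * (p2 * q3 + -p3 * q2)) ^ 2 =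
      (1 - c) * ((p0 * q2 - p2 * q0) ^ 2 + (p1 * q3 - p3 * q1) ^ 2 + (p0 * q3 - p3 * q0) ^ 2 +
        (p1 * q2 - p2 * q1) ^ 2) +
      c * (((p0 * q2 - p2 * q0) - (p1 * q3 - p3 * q1)) ^ 2 +
        ((p0 * q3 - p3 * q0) + (p1 * q2 - p2 * q1)) ^ 2) +
      (1 - c) * (1 + c) * (p2 * q3 - p3 * q2) ^ 2 := by
    ring
  have h1 : 0 ≤ (1 - c) * ((p0 * q2 - p2 * q0) ^ 2 + (p1 * q3 - p3 * q1) ^ 2 +
      (p0 * q3 - p3 * q0) ^ 2 + (p1 * q2 - p2 * q1) ^ 2) :=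
    mul_nonneg (by linarith) (by positivity)
  have h2 : 0 ≤ c * (((p0 * q2 - p2 * q0) - (p1 * q3 - p3 * q1)) ^ 2 +
      ((p0 * q3 - p3 * q0) + (p1 * q2 - p2 * q1)) ^ 2) :=
    mul_nonneg hc (by positivity)
  have h3 : 0 ≤ (1 - c) * (1 + c) * (p2 * q3 - p3 * q2) ^ 2 :=
    mul_nonneg (mul_nonneg (by linarith) (by linarith)) (sq_nonneg _)
  linarith

theorem KCnd_ker_nonneg {b c : ℝ} (hb : -1 ≤ b) (hc : 0 ≤ c) (hc1 : c ≤ 1) (u v : ℂ × ℂ) :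
    0 ≤ Ker b c u v := by
  have h := KCnd_ta_sq_le hc hc1 u v
  have h0 : 0 ≤ nsq u * nsq v - dotR u v ^ 2 := le_trans (sq_nonneg _) h
  have hr : 0 ≤ ar u v := Real.sqrt_nonneg _
  have hs : ar u v ^ 2 = nsq u * nsq v - dotR u v ^ 2 := Real.sq_sqrt h0
  rw [← hs] at h
  rw [Ker]
  rcases hr.eq_or_lt with h1 | h1
  · rw [← h1]
    simp
  · have h2 : ta c u v ^ 2 / ar u v ≤ ar u v := by
      rw [div_le_iff₀ h1, ← sq]
      exact h
    have h3 : 0 ≤ ta c u v ^ 2 / ar u v := div_nonneg (sq_nonneg _) hr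
    rw [mul_div_assoc]
    nlinarith [mul_nonneg (by linarith : (0:ℝ) ≤ b + 1) h3]

theorem ker_symm (b c : ℝ) (u v : ℂ × ℂ) : Ker b c u v = Ker b c v u := by
  rw [Ker, Ker, KCnd_ar_comm u v, KCnd_ta_comm c u v, neg_sq]

/-! ### Homogeneity -/

/-- real multiples -/
def KCnd_sm (s : ℝ) (u : ℂ × ℂ) : ℂ × ℂ := ((s : ℂ) * u.1, (s : ℂ) * u.2)

theorem KCnd_nsq_sm (s : ℝ) (u : ℂ × ℂ) : nsq (KCnd_sm s u) = s ^ 2 * nsq u := by
  simp only [nsq, KCnd_sm, Complex.normSq_mul, Complex.normSq_ofReal]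
  ring

theorem KCnd_dotR_sm (s t : ℝ) (u v : ℂ × ℂ) :
    dotR (KCnd_sm s u) (KCnd_sm t v) = s * t * dotR u v := by
  simp only [dotR, KCnd_sm, Complex.add_re, Complex.mul_re, Complex.mul_im, Complex.conj_re,
    Complex.conj_im, Complex.ofReal_re, Complex.ofReal_im]
  ring

theorem KCnd_ta_sm (c s t : ℝ) (u v : ℂ × ℂ) :
    ta c (KCnd_sm s u) (KCnd_sm t v) = s * t * ta c u v := by
  simp only [ta, KCnd_sm, Complex.mul_re, Complex.mul_im, Complex.conj_re,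
    Complex.conj_im, Complex.ofReal_re, Complex.ofReal_im]
  ring

theorem KCnd_ar_sm {s t : ℝ} (hs : 0 ≤ s) (ht : 0 ≤ t) (u v : ℂ × ℂ) :
    ar (KCnd_sm s u) (KCnd_sm t v) = s * t * ar u v := by
  rw [ar, ar, KCnd_dotR_sm, KCnd_nsq_sm, KCnd_nsq_sm]
  have h : s ^ 2 * nsq u * (t ^ 2 * nsq v) - (s * t * dotR u v) ^ 2 =
      (s * t) ^ 2 * (nsq u * nsq v - dotR u v ^ 2) := by ring
  rw [h, Real.sqrt_mul (sq_nonneg _), Real.sqrt_sq (mul_nonneg hs ht)]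

theorem KCnd_ker_sm (b c : ℝ) {s t : ℝ} (hs : 0 ≤ s) (ht : 0 ≤ t) (u v : ℂ × ℂ) :
    Ker b c (KCnd_sm s u) (KCnd_sm t v) = s * t * Ker b c u v := by
  rw [Ker, Ker, KCnd_ar_sm hs ht, KCnd_ta_sm]
  rcases eq_or_ne (s * t) 0 with h | h
  · rw [h]
    simp
  · rcases eq_or_ne (ar u v) 0 with h' | h'
    · rw [h']
      simp
    · field_simp

theorem KCnd_nsq_nonneg (u : ℂ × ℂ) : 0 ≤ nsq u :=
  add_nonneg (Complex.normSq_nonneg _) (Complex.normSq_nonneg _)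

theorem KCnd_unit (u : ℂ × ℂ) : ∃ e : ℂ × ℂ, nsq e = 1 ∧ u = KCnd_sm (√(nsq u)) e := by
  rcases eq_or_ne (nsq u) 0 with h | h
  · refine ⟨(1, 0), by simp [nsq], ?_⟩
    have h1 : Complex.normSq u.1 = 0 := by
      have := Complex.normSq_nonneg u.1
      have := Complex.normSq_nonneg u.2
      rw [nsq] at h
      linarith
    have h2 : Complex.normSq u.2 = 0 := by
      have := Complex.normSq_nonneg u.1
      have := Complex.normSq_nonneg u.2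
      rw [nsq] at h
      linarith
    have h1' : u.1 = 0 := Complex.normSq_eq_zero.1 h1
    have h2' : u.2 = 0 := Complex.normSq_eq_zero.1 h2
    rw [h, Real.sqrt_zero]
    apply Prod.ext
    · rw [h1']
      simp [KCnd_sm]
    · rw [h2']
      simp [KCnd_sm]
  · have hpos : 0 < nsq u := lt_of_le_of_ne (KCnd_nsq_nonneg u) (Ne.symm h)
    have hs : 0 < √(nsq u) := Real.sqrt_pos.2 hpos
    have hsc : ((√(nsq u) : ℝ) : ℂ) ≠ 0 := by
      exact_mod_cast hs.ne'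
    refine ⟨KCnd_sm (√(nsq u))⁻¹ u, ?_, ?_⟩
    · rw [KCnd_nsq_sm, inv_pow, Real.sq_sqrt hpos.le, inv_mul_cancel₀ h]
    · apply Prod.ext
      · simp only [KCnd_sm, Complex.ofReal_inv]
        rw [← mul_assoc, mul_inv_cancel₀ hsc, one_mul]
      · simp only [KCnd_sm, Complex.ofReal_inv]
        rw [← mul_assoc, mul_inv_cancel₀ hsc, one_mul]

theorem ker_cnd {ι : Type*} [Fintype ι] (u : ι → ℂ × ℂ) (μ : ι → ℝ)
    (hμ : ∑ j, μ j * √(nsq (u j)) = 0) {b c : ℝ} (hb : -(1 / 5) ≤ b) (hb1 : b ≤ 5 / 9)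
    (hc : 0 ≤ c) (hc1 : c ≤ 1) :
    ∑ i, ∑ j, μ i * μ j * Ker b c (u i) (u j) ≤ 0 := by
  choose e he using fun j => KCnd_unit (u j)
  have hs : ∑ i, ∑ j, μ i * μ j * Ker b c (u i) (u j) =
      ∑ i, ∑ j, (μ i * √(nsq (u i))) * (μ j * √(nsq (u j))) * Ker b c (e i) (e j) := by
    refine Finset.sum_congr rfl fun i _ => Finset.sum_congr rfl fun j _ => ?_
    have h := KCnd_ker_sm b c (Real.sqrt_nonneg (nsq (u i))) (Real.sqrt_nonneg (nsq (u j)))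
      (e i) (e j)
    rw [← (he i).2, ← (he j).2] at h
    rw [h]
    ring
  rw [hs]
  exact KCnd_unit_case e (fun j => (he j).1) _ hμ hb hb1 hc hc1

theorem hyperbolic {ι : Type*} [Fintype ι] (Q : ι → ι → ℝ) (hQ : ∀ i j, Q i j = Q j i)
    (l : ι → ℝ) (h : ∀ u : ι → ℝ, ∑ j, u j * l j = 0 → ∑ i, ∑ j, u i * u j * Q i j ≤ 0)
    (u w : ι → ℝ) (hw : 0 ≤ ∑ i, ∑ j, w i * w j * Q i j) :
    (∑ i, ∑ j, u i * u j * Q i j) * (∑ i, ∑ j, w i * w j * Q i j) ≤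
      (∑ i, ∑ j, u i * w j * Q i j) ^ 2 := by
  set A := ∑ i, ∑ j, u i * u j * Q i j with hA
  set B := ∑ i, ∑ j, w i * w j * Q i j with hB
  set C := ∑ i, ∑ j, u i * w j * Q i j with hC
  have hC' : ∑ i, ∑ j, w i * u j * Q i j = C := by
    rw [hC, Finset.sum_comm]
    refine Finset.sum_congr rfl fun i _ => Finset.sum_congr rfl fun j _ => ?_
    rw [hQ j i]
    ring
  have key : ∀ t : ℝ, ∑ i, ∑ j, (u i - t * w i) * (u j - t * w j) * Q i j =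
      A - 2 * t * C + t ^ 2 * B := by
    intro t
    have e : ∀ i j, (u i - t * w i) * (u j - t * w j) * Q i j =
        u i * u j * Q i j - t * (u i * w j * Q i j) - t * (w i * u j * Q i j) +
          t ^ 2 * (w i * w j * Q i j) := by
      intro i j
      ring
    simp only [e, Finset.sum_add_distrib, Finset.sum_sub_distrib, ← Finset.mul_sum]
    rw [hC']
    ring
  rcases hw.eq_or_lt with h0 | h0
  · rw [← h0, mul_zero]
    exact sq_nonneg C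
  · have hlw : ∑ j, w j * l j ≠ 0 := by
      intro hl
      exact absurd (h w hl) (not_le.2 h0)
    set L := ∑ j, w j * l j with hL
    set t := (∑ j, u j * l j) / L with ht
    have h1 : ∑ j, (u j - t * w j) * l j = 0 := by
      have e : ∀ j, (u j - t * w j) * l j = u j * l j - t * (w j * l j) := fun j => by ring
      simp only [e, Finset.sum_sub_distrib, ← Finset.mul_sum]
      rw [← hL, ht, div_mul_cancel₀ _ hlw, sub_self]
    have h2 : ∑ i, ∑ j, (u i - t * w i) * (u j - t * w j) * Q i j ≤ 0 :=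
      h (fun j => u j - t * w j) h1
    rw [key t] at h2
    have h3 : (A - 2 * t * C + t ^ 2 * B) * B ≤ 0 :=
      mul_nonpos_of_nonpos_of_nonneg h2 h0.le
    nlinarith [sq_nonneg (C - t * B)]

/-- The Lorentzian property of the kernel. -/
theorem ker_hyp {ι : Type*} [Fintype ι] (p : ι → ℂ × ℂ) {b c : ℝ} (hb : -(1 / 5) ≤ b)
    (hb1 : b ≤ 5 / 9) (hc : 0 ≤ c) (hc1 : c ≤ 1) (u w : ι → ℝ) (hw : ∀ j, 0 ≤ w j) :
    (∑ i, ∑ j, u i * u j * Ker b c (p i) (p j)) *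
        (∑ i, ∑ j, w i * w j * Ker b c (p i) (p j)) ≤
      (∑ i, ∑ j, u i * w j * Ker b c (p i) (p j)) ^ 2 := by
  refine hyperbolic (fun i j => Ker b c (p i) (p j)) (fun i j => ker_symm b c _ _)
    (fun j => √(nsq (p j))) ?_ u w ?_
  · intro v hv
    exact ker_cnd p v hv hb hb1 hc hc1
  · refine Finset.sum_nonneg fun i _ => Finset.sum_nonneg fun j _ => ?_
    exact mul_nonneg (mul_nonneg (hw i) (hw j))
      (KCnd_ker_nonneg (by linarith) hc hc1 _ _)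

end Pool.Agent.H89.CZ
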