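import Mathlib
import Pool.Agent.H89.CZ.GvEq
import Pool.Agent.H89.CZ.KCnd

set_option autoImplicit false

/-!
# KerE: the base case

`x = om (a 0) (a 1) ^ 2 ∈ [0,1]` (`om_sq_le_one`), `(a 0, a 1)` real orthonormal, `n ≥ 3`, and
`(9n - 2) x ≤ 5n + 2`.

* `exists_ker`: for every `w : Fin k → Cn n` (`k + 4 = 2n`) there are `C ≥ 0`, `b ∈ [-1/5, 5/9]`,
  `c ∈ [0,1]` and a map `π : Cn n → ℂ × ℂ` with `gv o a0 a1 (u, v, w) = C * Ker b c (π u) (π v)`.
  Take `e` from `exists_normal`, `c1 = om (e 0) (e 1) ≤ c2 = om (e 2) (e 3)`, `π = prj e`, and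
  `gv_eq`.  If `c2 = 0` then `c1 = 0` and `b = 0`, `c = 0`, `C = |D| al`.  Otherwise `c = c1/c2`,
  `b = (be/al) c2²`, `C = |D| al`:  `c2 Im(conj x x') + c1 Im (conj y y') = c2 * ta c`.
  `al n x > 0` (`al_pos`), `-1/5 ≤ be/al ≤ 5/9` (`be_div_al_ge`, `be_div_al_le`); multiplying by
  `c2² ∈ [0,1]` keeps it in `[-1/5, 5/9]`.
* `gv_hyp`: by `ker_hyp` (with `π ∘ p`), factor `C²`.
-/

open MeasureTheory Pool.Agent.H61.UProj
open scoped ENNReal

noncomputable section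

namespace Pool.Agent.H89.CZ

variable {n k : ℕ}

theorem exists_ker (o : OrthonormalBasis (Fin (k + 2 + 2)) ℝ (Cn n)) (hn : 3 ≤ n)
    {a : Fin 2 → Cn n} (ha : Orthonormal ℝ a)
    (hx : (9 * n - 2) * om (a 0) (a 1) ^ 2 ≤ 5 * n + 2) (w : Fin k → Cn n) :
    ∃ C b c : ℝ, 0 ≤ C ∧ -(1 / 5) ≤ b ∧ b ≤ 5 / 9 ∧ 0 ≤ c ∧ c ≤ 1 ∧
      ∃ π : Cn n → ℂ × ℂ, ∀ u v : Cn n,
        gv o (a 0) (a 1) (Fin.cons u (Fin.cons v w : Fin (k + 1) → Cn n) : Fin (k + 2) → Cn n) =
          C * Ker b c (π u) (π v) := by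
  have hdim : k + 4 ≤ 2 * n := by
    have h1 : Module.finrank ℝ (Cn n) = k + 2 + 2 := by
      rw [Module.finrank_eq_card_basis o.toBasis, Fintype.card_fin]
    have h2 : Module.finrank ℝ (Cn n) = 2 * n := by
      rw [finrank_real_of_complex, finrank_euclideanSpace_fin]
    omega
  obtain ⟨e, he, hw, h02, h03, h12, h13, hc0, hc1, hc2⟩ := exists_normal hdim w
  set c1 := om (e 0) (e 1) with hc1d
  set c2 := om (e 2) (e 3) with hc2d
  set x := om (a 0) (a 1) ^ 2 with hxd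
  have hx0 : 0 ≤ x := sq_nonneg _
  have hx1 : x ≤ 1 := om_sq_le_one ha
  have hal : 0 < al n x := al_pos (by omega) hx1
  have hge := be_div_al_ge hn hx0 hx1
  have hle := be_div_al_le (n := n) (by omega) hx1 hx
  set D := |detO o (Fin.cons (e 0) (Fin.cons (e 1) w : Fin (k + 1) → Cn n) : Fin (k + 2) → Cn n)
        (e 2) (e 3)| with hD
  have hD0 : 0 ≤ D := abs_nonneg _
  have hgv : ∀ u v : Cn n, gv o (a 0) (a 1)
      (Fin.cons u (Fin.cons v w : Fin (k + 1) → Cn n) : Fin (k + 2) → Cn n) =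
      D * (al n x * ar (prj e u) (prj e v) + be n x *
        (c2 * (starRingEnd ℂ (prj e u).1 * (prj e v).1).im +
          c1 * (starRingEnd ℂ (prj e u).2 * (prj e v).2).im) ^ 2 / ar (prj e u) (prj e v)) :=
    fun u v => gv_eq o (by omega) ha he w hw h02 h03 h12 h13 u v
  have hc20 : 0 ≤ c2 := hc0.trans hc1
  rcases hc20.lt_or_eq with hpos | hzero
  · refine ⟨D * al n x, be n x / al n x * c2 ^ 2, c1 / c2, mul_nonneg hD0 hal.le, ?_, ?_,
      div_nonneg hc0 hc20, (div_le_one hpos).mpr hc1, prj e, fun u v => ?_⟩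
    · have h1 : c2 ^ 2 ≤ 1 := by nlinarith
      have h2 : 0 ≤ c2 ^ 2 := sq_nonneg _
      nlinarith
    · have h1 : c2 ^ 2 ≤ 1 := by nlinarith
      have h2 : 0 ≤ c2 ^ 2 := sq_nonneg _
      nlinarith
    · rw [hgv]
      unfold Ker ta
      have e1 : c2 * (starRingEnd ℂ (prj e u).1 * (prj e v).1).im +
          c1 * (starRingEnd ℂ (prj e u).2 * (prj e v).2).im
          = c2 * ((starRingEnd ℂ (prj e u).1 * (prj e v).1).im +
            c1 / c2 * (starRingEnd ℂ (prj e u).2 * (prj e v).2).im) := by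
        field_simp
      rw [e1]
      have e2 : be n x = al n x * (be n x / al n x) := by field_simp
      calc D * (al n x * ar (prj e u) (prj e v) + be n x *
            (c2 * ((starRingEnd ℂ (prj e u).1 * (prj e v).1).im +
            c1 / c2 * (starRingEnd ℂ (prj e u).2 * (prj e v).2).im)) ^ 2 /
              ar (prj e u) (prj e v))
          = D * (al n x * ar (prj e u) (prj e v) + (al n x * (be n x / al n x)) *
            (c2 * ((starRingEnd ℂ (prj e u).1 * (prj e v).1).im +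
            c1 / c2 * (starRingEnd ℂ (prj e u).2 * (prj e v).2).im)) ^ 2 /
              ar (prj e u) (prj e v)) := by rw [← e2]
        _ = _ := by ring
  · have hc10 : c1 = 0 := le_antisymm (hc1.trans hzero.symm.le) hc0
    refine ⟨D * al n x, 0, 0, mul_nonneg hD0 hal.le, by norm_num, by norm_num, le_rfl,
      zero_le_one, prj e, fun u v => ?_⟩
    rw [hgv, hc10, ← hzero]
    unfold Ker
    ring

theorem gv_hyp (o : OrthonormalBasis (Fin (k + 2 + 2)) ℝ (Cn n)) (hn : 3 ≤ n)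
    {a : Fin 2 → Cn n} (ha : Orthonormal ℝ a)
    (hx : (9 * n - 2) * om (a 0) (a 1) ^ 2 ≤ 5 * n + 2) (w : Fin k → Cn n)
    {ι : Type*} [Fintype ι] (p : ι → Cn n) (u t : ι → ℝ) (ht : ∀ l, 0 ≤ t l) :
    (∑ l, ∑ m, u l * u m * gv o (a 0) (a 1)
        (Fin.cons (p l) (Fin.cons (p m) w : Fin (k + 1) → Cn n) : Fin (k + 2) → Cn n)) *
      (∑ l, ∑ m, t l * t m * gv o (a 0) (a 1)
        (Fin.cons (p l) (Fin.cons (p m) w : Fin (k + 1) → Cn n) : Fin (k + 2) → Cn n)) ≤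
    (∑ l, ∑ m, u l * t m * gv o (a 0) (a 1)
        (Fin.cons (p l) (Fin.cons (p m) w : Fin (k + 1) → Cn n) : Fin (k + 2) → Cn n)) ^ 2 := by
  obtain ⟨C, b, c, hC, hb, hb1, hc, hc1, π, hπ⟩ := exists_ker o hn ha hx w
  have h := ker_hyp (fun l => π (p l)) hb hb1 hc hc1 u t ht
  have e : ∀ s r : ι → ℝ, ∑ l, ∑ m, s l * r m * gv o (a 0) (a 1)
        (Fin.cons (p l) (Fin.cons (p m) w : Fin (k + 1) → Cn n) : Fin (k + 2) → Cn n)
      = C * ∑ l, ∑ m, s l * r m * Ker b c (π (p l)) (π (p m)) := by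
    intro s r
    rw [Finset.mul_sum]
    refine Finset.sum_congr rfl fun l _ => ?_
    rw [Finset.mul_sum]
    refine Finset.sum_congr rfl fun m _ => ?_
    rw [hπ]
    ring
  rw [e, e, e]
  calc C * (∑ l, ∑ m, u l * u m * Ker b c (π (p l)) (π (p m))) *
        (C * ∑ l, ∑ m, t l * t m * Ker b c (π (p l)) (π (p m)))
      = C ^ 2 * ((∑ l, ∑ m, u l * u m * Ker b c (π (p l)) (π (p m))) *
        ∑ l, ∑ m, t l * t m * Ker b c (π (p l)) (π (p m))) := by ring
    _ ≤ C ^ 2 * (∑ l, ∑ m, u l * t m * Ker b c (π (p l)) (π (p m))) ^ 2 :=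
        mul_le_mul_of_nonneg_left h (sq_nonneg C)
    _ = _ := by ring

end Pool.Agent.H89.CZ
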