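import Mathlib
import Pool.Agent.H89.CZ.KerE
import Pool.Agent.H89.CZ.GAdj
import Pool.Agent.H89.CZ.ZEl
import Pool.Agent.H89.CZ.ZAdd
import Pool.Agent.H85.BMT.Concave
import Pool.Agent.H85.BMT.Conn

set_option autoImplicit false

/-!
# ZonBM: the Brunn–Minkowski inequality for zonotopes with common generators

* `bm_all`: for all `v`, `lam, mu ≥ 0`: the trickle-down theorem
  (`Pool.Agent.H85.BMT.superadd`) for `κ J = gv o a0 a1 (v ∘ enumeration of J)`; the links are
  connected by `conn_of_indep` and `ZonBM_pos_iff`; the base case is `gv_hyp`.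
* `bm_VE`: for `E = range J`: for `v`, `lam, mu ≥ 0`, with
  `K = zon (lam v)`, `L = zon (mu v)`:
  `VE E K ^ (1/(k+2)) + VE E L ^ (1/(k+2)) ≤ VE E (K + L) ^ (1/(k+2))` in `ℝ≥0∞`: by `VE_zon`,
  `PZ_smul` (with `gv_smul`), `zon_add`, and `ENNReal.ofReal_rpow_of_nonneg`,
  `ENNReal.ofReal_add`.
-/

open MeasureTheory Pool.Agent.H61.UProj
open scoped ENNReal Pointwise

noncomputable section

namespace Pool.Agent.H89.CZ

variable {n k : ℕ}

/-! ### The polynomial as a sum over sets of indices -/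

/-- The value of a symmetric function at a finite set of indices. -/
def ZonBM_kap {N : ℕ} (d : ℕ) (G : (Fin d → Fin N) → ℝ) (J : Finset (Fin N)) : ℝ :=
  if h : J.card = d then G (J.orderEmbOfFin h) else 0

theorem ZonBM_exists_perm {N d : ℕ} (J : Finset (Fin N)) (h : J.card = d) (f : Fin d → Fin N)
    (hf : Function.Injective f) (hJ : ∀ k, f k ∈ J) :
    ∃ σ : Equiv.Perm (Fin d), f = (J.orderEmbOfFin h) ∘ σ := by
  let g : Fin d → Fin d := fun k => (J.orderIsoOfFin h).symm ⟨f k, hJ k⟩
  have hg : Function.Injective g := by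
    intro x y hxy
    have h1 := (J.orderIsoOfFin h).symm.injective hxy
    exact hf (Subtype.ext_iff.mp h1)
  refine ⟨Equiv.ofBijective g (Finite.injective_iff_bijective.mp hg), ?_⟩
  funext x
  change f x = J.orderEmbOfFin h (g x)
  rw [← Finset.coe_orderIsoOfFin_apply]
  simp [g]

theorem ZonBM_kap_eq {N d : ℕ} (G : (Fin d → Fin N) → ℝ)
    (hsym : ∀ (σ : Equiv.Perm (Fin d)) (f : Fin d → Fin N), G (f ∘ σ) = G f)
    (f : Fin d → Fin N) (hf : Function.Injective f) (J : Finset (Fin N))
    (hJ : Finset.univ.image f = J) : ZonBM_kap d G J = G f := by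
  have hc : J.card = d := by
    rw [← hJ, Finset.card_image_of_injective _ hf, Finset.card_univ, Fintype.card_fin]
  obtain ⟨σ, hσ⟩ := ZonBM_exists_perm J hc f hf (fun k => by
    rw [← hJ]; exact Finset.mem_image_of_mem f (Finset.mem_univ k))
  unfold ZonBM_kap
  rw [dif_pos hc]
  conv_rhs => rw [hσ]
  rw [hsym]

theorem ZonBM_PW {N d : ℕ} (G : (Fin d → Fin N) → ℝ)
    (hsym : ∀ (σ : Equiv.Perm (Fin d)) (f : Fin d → Fin N), G (f ∘ σ) = G f)
    (hzero : ∀ f : Fin d → Fin N, ¬ Function.Injective f → G f = 0) (lam : Fin N → ℝ) :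
    PW d G lam = ∑ J : Finset (Fin N), if J.card = d then ZonBM_kap d G J * ∏ j ∈ J, lam j
      else 0 := by
  classical
  unfold PW
  rw [div_eq_iff (by positivity), Finset.sum_mul,
    ← Finset.sum_fiberwise Finset.univ (fun f : Fin d → Fin N => Finset.univ.image f)]
  refine Finset.sum_congr rfl fun J _ => ?_
  by_cases hJ : J.card = d
  · rw [if_pos hJ]
    have h1 : ∑ f ∈ Finset.univ.filter (fun f : Fin d → Fin N => Finset.univ.image f = J),
        (∏ k, lam (f k)) * G f
        = ∑ σ : Equiv.Perm (Fin d), (∏ j ∈ J, lam j) * ZonBM_kap d G J := by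
      symm
      refine Finset.sum_bij (fun σ _ => (J.orderEmbOfFin hJ) ∘ σ) ?_ ?_ ?_ ?_
      · intro σ _
        rw [Finset.mem_filter]
        refine ⟨Finset.mem_univ _, ?_⟩
        ext j
        simp only [Finset.mem_image, Finset.mem_univ, true_and, Function.comp]
        constructor
        · rintro ⟨x, rfl⟩
          exact Finset.orderEmbOfFin_mem J hJ _
        · intro hj
          have : j ∈ Set.range (J.orderEmbOfFin hJ) := by
            rw [Finset.range_orderEmbOfFin]; exact hj
          obtain ⟨y, hy⟩ := this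
          exact ⟨σ.symm y, by simp [hy]⟩
      · intro σ _ τ _ h
        apply Equiv.ext
        intro x
        exact (J.orderEmbOfFin hJ).injective (congrFun h x)
      · intro f hf
        rw [Finset.mem_filter] at hf
        have hinj : Function.Injective f := by
          have : (Finset.univ.image f).card = (Finset.univ : Finset (Fin d)).card := by
            rw [hf.2, hJ, Finset.card_univ, Fintype.card_fin]
          have h2 := Finset.card_image_iff.mp this
          rwa [Finset.coe_univ, Set.injOn_univ] at h2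
        obtain ⟨σ, hσ⟩ := ZonBM_exists_perm J hJ f hinj (fun k => by
          rw [← hf.2]; exact Finset.mem_image_of_mem f (Finset.mem_univ k))
        exact ⟨σ, Finset.mem_univ _, hσ.symm⟩
      · intro σ _
        rw [hsym]
        congr 1
        · have e1 : ∏ k, lam (((J.orderEmbOfFin hJ) ∘ σ) k) = ∏ k, lam (J.orderEmbOfFin hJ k) :=
            Equiv.prod_comp σ (fun x => lam (J.orderEmbOfFin hJ x))
          rw [e1, ← Finset.prod_coe_sort J]
          exact (Equiv.prod_comp (J.orderIsoOfFin hJ).toEquiv (fun j : J => lam j)).symm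
        · unfold ZonBM_kap
          rw [dif_pos hJ]
    rw [h1, Finset.sum_const, Finset.card_univ, Fintype.card_perm, Fintype.card_fin,
      nsmul_eq_mul]
    ring
  · rw [if_neg hJ, zero_mul]
    refine Finset.sum_eq_zero fun f hf => ?_
    rw [Finset.mem_filter] at hf
    rw [hzero f, mul_zero]
    intro hinj
    apply hJ
    rw [← hf.2, Finset.card_image_of_injective _ hinj, Finset.card_univ, Fintype.card_fin]

/-! ### Positivity and linear independence -/

theorem ZonBM_gv_zero {i : ℕ} (o : OrthonormalBasis (Fin (i + 2)) ℝ (Cn n)) (a b : Cn n)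
    (w : Fin i → Cn n) (hw : ¬ LinearIndependent ℝ w) : gv o a b w = 0 := by
  unfold gv
  have h : ∀ φ : Un n, |detO o w (uni φ a) (uni φ b)| = 0 := by
    intro φ
    unfold detO
    rw [abs_eq_zero]
    apply AlternatingMap.map_linearDependent
    intro hli
    apply hw
    have h1 := hli.comp (Fin.castAdd 2) (Fin.castAdd_injective i 2)
    have h2 : Fin.append w ![uni φ a, uni φ b] ∘ Fin.castAdd 2 = w := by
      funext x
      simp
    rw [h2] at h1
    exact h1
  simp [h]

theorem ZonBM_indep_iff {N : ℕ} {V : Type*} [AddCommGroup V] [Module ℝ V] (v : Fin N → V)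
    {d : ℕ} (J : Finset (Fin N)) (h : J.card = d) :
    LinearIndependent ℝ (v ∘ J.orderEmbOfFin h) ↔ LinearIndepOn ℝ v (J : Set (Fin N)) := by
  have h1 : v ∘ J.orderEmbOfFin h
      = (fun x : (J : Set (Fin N)) => v x) ∘ (J.orderIsoOfFin h).toEquiv := by
    funext x
    simp
  rw [h1]
  exact linearIndependent_equiv (J.orderIsoOfFin h).toEquiv

theorem bm_all (o : OrthonormalBasis (Fin (k + 2 + 2)) ℝ (Cn n)) (hn : 3 ≤ n)
    {a : Fin 2 → Cn n} (ha : Orthonormal ℝ a)
    (hx : (9 * n - 2) * om (a 0) (a 1) ^ 2 ≤ 5 * n + 2) {N : ℕ} (v : Fin N → Cn n)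
    (lam mu : Fin N → ℝ) (hlam : ∀ l, 0 ≤ lam l) (hmu : ∀ l, 0 ≤ mu l) :
    (PW (k + 2) (fun f : Fin (k + 2) → Fin N => gv o (a 0) (a 1) (v ∘ f)) lam) ^
        (1 / ((k : ℝ) + 2)) +
      (PW (k + 2) (fun f : Fin (k + 2) → Fin N => gv o (a 0) (a 1) (v ∘ f)) mu) ^
        (1 / ((k : ℝ) + 2)) ≤
      (PW (k + 2) (fun f : Fin (k + 2) → Fin N => gv o (a 0) (a 1) (v ∘ f)) (lam + mu)) ^
        (1 / ((k : ℝ) + 2)) := by
  classical
  set G : (Fin (k + 2) → Fin N) → ℝ := fun f => gv o (a 0) (a 1) (v ∘ f) with hG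
  have hsym : ∀ (σ : Equiv.Perm (Fin (k + 2))) (f : Fin (k + 2) → Fin N), G (f ∘ σ) = G f := by
    intro σ f
    exact gv_perm o (a 0) (a 1) σ (v ∘ f)
  have hzero : ∀ f : Fin (k + 2) → Fin N, ¬ Function.Injective f → G f = 0 := by
    intro f hf
    rw [Function.Injective] at hf
    push Not at hf
    obtain ⟨x, y, hxy, hne⟩ := hf
    exact gv_eq_zero o (a 0) (a 1) (v ∘ f) x y hne (by simp [hxy])
  rw [ZonBM_PW G hsym hzero, ZonBM_PW G hsym hzero, ZonBM_PW G hsym hzero]
  set κ : Finset (Fin N) → ℝ := ZonBM_kap (k + 2) G with hκ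
  have hκ0 : ∀ J, 0 ≤ κ J := by
    intro J
    simp only [hκ, ZonBM_kap]
    split_ifs
    · exact gv_nonneg _ _ _ _
    · exact le_rfl
  have hpos : ∀ J : Finset (Fin N), J.card = k + 2 →
      (0 < κ J ↔ LinearIndepOn ℝ v (J : Set (Fin N))) := by
    intro J hJ
    rw [← ZonBM_indep_iff v J hJ]
    simp only [hκ, ZonBM_kap]
    rw [dif_pos hJ]
    constructor
    · intro h
      by_contra h2
      have := ZonBM_gv_zero o (a 0) (a 1) (v ∘ J.orderEmbOfFin hJ) h2
      simp only [hG] at h
      rw [this] at h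
      exact lt_irrefl _ h
    · intro h
      exact gv_pos o (by omega) ha h
  have hconn : H85.BMT.Conn (k + 2) κ := H85.BMT.conn_of_indep (k + 2) κ v hpos
  have hbase : ∀ S : Finset (Fin N), S.card + 2 = k + 2 → ∃ m : Fin N → ℝ, ∀ y : Fin N → ℝ,
      ∑ a, m a * y a = 0 →
      ∑ a, ∑ b, (if a ∉ S ∧ b ∉ S ∧ a ≠ b then κ (insert a (insert b S)) else 0)
        * (y a * y b) ≤ 0 := by
    intro S hS
    have hSk : S.card = k := by omega
    set w : Fin k → Fin N := fun x => S.orderEmbOfFin hSk x with hw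
    have hwinj : Function.Injective w := (S.orderEmbOfFin hSk).injective
    have hwmem : ∀ x, w x ∈ S := fun x => Finset.orderEmbOfFin_mem S hSk x
    have hwrange : ∀ j ∈ S, ∃ x, w x = j := by
      intro j hj
      have : j ∈ Set.range (S.orderEmbOfFin hSk) := by
        rw [Finset.range_orderEmbOfFin]; exact hj
      exact this
    set M : Fin N → Fin N → ℝ := fun l m => gv o (a 0) (a 1)
      (Fin.cons (v l) (Fin.cons (v m) (v ∘ w) : Fin (k + 1) → Cn n) : Fin (k + 2) → Cn n) with hM
    have hcomp : ∀ l m, (Fin.cons (v l) (Fin.cons (v m) (v ∘ w) : Fin (k + 1) → Cn n) :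
        Fin (k + 2) → Cn n)
        = v ∘ (Fin.cons l (Fin.cons m w : Fin (k + 1) → Fin N) : Fin (k + 2) → Fin N) := by
      intro l m
      funext x
      refine Fin.cases ?_ (fun x => ?_) x
      · simp
      · refine Fin.cases ?_ (fun x => ?_) x
        · simp
        · simp
    have hMG : ∀ l m, M l m
        = G (Fin.cons l (Fin.cons m w : Fin (k + 1) → Fin N) : Fin (k + 2) → Fin N) := by
      intro l m
      simp only [hM, hG]
      rw [hcomp]
    have hentry : ∀ l m, (if l ∉ S ∧ m ∉ S ∧ l ≠ m then κ (insert l (insert m S)) else 0)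
        = M l m := by
      intro l m
      by_cases h : l ∉ S ∧ m ∉ S ∧ l ≠ m
      · rw [if_pos h, hMG]
        refine ZonBM_kap_eq G hsym _ ?_ _ ?_
        · rw [Fin.cons_injective_iff]
          refine ⟨?_, ?_⟩
          · rintro ⟨x, hx'⟩
            revert hx'
            refine Fin.cases ?_ (fun x => ?_) x
            · intro hx'
              simp only [Fin.cons_zero] at hx'
              exact h.2.2 hx'.symm
            · intro hx'
              simp only [Fin.cons_succ] at hx'
              exact h.1 (hx' ▸ hwmem x)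
          · rw [Fin.cons_injective_iff]
            refine ⟨?_, hwinj⟩
            rintro ⟨x, hx'⟩
            exact h.2.1 (hx' ▸ hwmem x)
        · ext j
          simp only [Finset.mem_image, Finset.mem_univ, true_and, Finset.mem_insert]
          constructor
          · rintro ⟨x, rfl⟩
            refine Fin.cases ?_ (fun x => ?_) x
            · simp
            · refine Fin.cases ?_ (fun x => ?_) x
              · simp
              · simp [hwmem x]
          · rintro (rfl | rfl | hj)
            · exact ⟨0, by simp⟩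
            · exact ⟨1, by simp⟩
            · obtain ⟨x, hx'⟩ := hwrange j hj
              exact ⟨x.succ.succ, by simp [hx']⟩
      · rw [if_neg h, hMG]
        symm
        apply hzero
        rw [Fin.cons_injective_iff, Fin.cons_injective_iff]
        rintro ⟨h1, h2, -⟩
        apply h
        refine ⟨?_, ?_, ?_⟩
        · intro hl
          obtain ⟨x, hx'⟩ := hwrange l hl
          exact h1 ⟨x.succ, by simp [hx']⟩
        · intro hm
          obtain ⟨x, hx'⟩ := hwrange m hm
          exact h2 ⟨x, hx'⟩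
        · intro hlm
          exact h1 ⟨0, by simp [hlm]⟩
    simp only [hentry]
    have hM0 : ∀ l m, 0 ≤ M l m := fun l m => gv_nonneg _ _ _ _
    have hhyp := gv_hyp o hn ha hx (v ∘ w) v
    refine ⟨fun l => ∑ m, M l m, fun y hy => ?_⟩
    have h1 := hhyp y (fun _ => 1) (fun _ => zero_le_one)
    have hT : ∑ l, ∑ m, (1:ℝ) * 1 * M l m = ∑ l, ∑ m, M l m := by simp
    have hyM : ∑ l, ∑ m, y l * 1 * M l m = 0 := by
      rw [← hy]
      refine Finset.sum_congr rfl fun l _ => ?_
      rw [Finset.sum_mul]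
      exact Finset.sum_congr rfl fun m _ => by ring
    change (∑ l, ∑ m, y l * y m * M l m) * (∑ l, ∑ m, (1:ℝ) * 1 * M l m)
      ≤ (∑ l, ∑ m, y l * 1 * M l m) ^ 2 at h1
    rw [hT, hyM] at h1
    have hT0 : 0 ≤ ∑ l, ∑ m, M l m :=
      Finset.sum_nonneg fun l _ => Finset.sum_nonneg fun m _ => hM0 l m
    have hgoal : ∑ l, ∑ m, M l m * (y l * y m) = ∑ l, ∑ m, y l * y m * M l m :=
      Finset.sum_congr rfl fun l _ => Finset.sum_congr rfl fun m _ => by ring
    rw [hgoal]
    rcases hT0.lt_or_eq with hlt | heq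
    · by_contra hcon
      push Not at hcon
      have := mul_pos hcon hlt
      simp only [ne_eq, OfNat.ofNat_ne_zero, not_false_eq_true, zero_pow] at h1
      linarith
    · have hz : ∀ l m, M l m = 0 := by
        intro l m
        have t1 := (Finset.sum_eq_zero_iff_of_nonneg
          (fun l _ => Finset.sum_nonneg fun m _ => hM0 l m)).mp heq.symm l (Finset.mem_univ l)
        exact (Finset.sum_eq_zero_iff_of_nonneg (fun m _ => hM0 l m)).mp t1 m (Finset.mem_univ m)
      simp [hz]
  have hfin := H85.BMT.superadd (i := k + 2) (κ := κ) (by omega) hκ0 hconn hbase lam mu hlam hmu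
  push_cast at hfin
  exact hfin

theorem bm_VE (o : OrthonormalBasis (Fin (k + 2 + 2)) ℝ (Cn n)) (hn : 3 ≤ n)
    {a : Fin 2 → Cn n} (ha : Orthonormal ℝ a)
    (hx : (9 * n - 2) * om (a 0) (a 1) ^ 2 ≤ 5 * n + 2) (J : Rn (k + 2) →ₗᵢ[ℝ] Cn n)
    (hJ : ∀ y l, inner ℝ (J y) (a l) = 0) {N : ℕ} (v : Fin N → Cn n)
    (lam mu : Fin N → ℝ) (hlam : ∀ l, 0 ≤ lam l) (hmu : ∀ l, 0 ≤ mu l) :
    (VE (LinearMap.range J.toLinearMap) (zon fun j => lam j • v j)) ^ (1 / ((k : ℝ) + 2)) +
      (VE (LinearMap.range J.toLinearMap) (zon fun j => mu j • v j)) ^ (1 / ((k : ℝ) + 2)) ≤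
      (VE (LinearMap.range J.toLinearMap)
        (zon (fun j => lam j • v j) + zon (fun j => mu j • v j))) ^ (1 / ((k : ℝ) + 2)) := by
  have hr : (0 : ℝ) ≤ 1 / ((k : ℝ) + 2) := by positivity
  have hPZ : ∀ nu : Fin N → ℝ, (∀ l, 0 ≤ nu l) →
      PZ (k + 2) (gv o (a 0) (a 1)) (fun j => nu j • v j)
        = PW (k + 2) (fun f : Fin (k + 2) → Fin N => gv o (a 0) (a 1) (v ∘ f)) nu :=
    fun nu hnu => PZ_smul (k + 2) (gv o (a 0) (a 1)) (fun t w => gv_smul o (a 0) (a 1) t w) v nu hnu
  have hP0 : ∀ nu : Fin N → ℝ, 0 ≤ PZ (k + 2) (gv o (a 0) (a 1)) (fun j => nu j • v j) :=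
    fun nu => PZ_nonneg (k + 2) _ (fun w => gv_nonneg _ _ _ w) _
  rw [zon_add v lam mu hlam hmu, VE_zon o J ha hJ, VE_zon o J ha hJ, VE_zon o J ha hJ,
    ENNReal.ofReal_rpow_of_nonneg (hP0 lam) hr, ENNReal.ofReal_rpow_of_nonneg (hP0 mu) hr,
    ENNReal.ofReal_rpow_of_nonneg (hP0 fun j => lam j + mu j) hr,
    ← ENNReal.ofReal_add (Real.rpow_nonneg (hP0 lam) _) (Real.rpow_nonneg (hP0 mu) _)]
  apply ENNReal.ofReal_le_ofReal
  rw [hPZ lam hlam, hPZ mu hmu, hPZ (fun j => lam j + mu j) (fun l => add_nonneg (hlam l) (hmu l))]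
  exact bm_all o hn ha hx v lam mu hlam hmu

end Pool.Agent.H89.CZ
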