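import Mathlib
import Pool.Agent.H89.CZ.ZonBM
import Pool.Agent.H89.CZ.SD

set_option autoImplicit false

/-!
# ZI: the inequality for all zonotopes

* `isZonotope_iff`: `Z = ∑ segment (p j) (q j)` iff `Z = c + zon v` (`v = q - p`, `c = ∑ p j`;
  conversely `p 0 = c`, … or `N + 1` segments, the first one `[c, c]`).
  `segment ℝ p q = {p + t (q - p) | 0 ≤ t ≤ 1}`; an element of a finite pointwise sum is a sum of
  elements (`Set.mem_finset_sum` / `Set.mem_fintype_sum`, or induction on `N`).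
* `IsZonotope.add`, `IsZonotope.smul`, `isCompact`, `convex`.
* `exists_box`: there is a zonotope `B'` with `closedBall 0 1 ⊆ B' ⊆ closedBall 0 R`
  (the sum of the `2n` segments `[-f, f]`, `f` in a real orthonormal basis; `R = 2n`).
* `bm_zonotope`: for zonotopes `c + zon v`, `c' + zon v'`: translate (`VE_add_const`,
  `(c + K) + (c' + L) = (c + c') + (K + L)`) and use `bm_VE` with `W = Fin.append v v'`,
  `lam = append 1 0`, `mu = append 0 1`: `lam • W = append v 0`, `mu • W = append 0 v'`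
  (`zon_append_zero`, `zon_zero_append`).
-/

open MeasureTheory Pool.Agent.H61.UProj
open scoped ENNReal Pointwise

noncomputable section

namespace Pool.Agent.H89.CZ

variable {n k : ℕ}

/-- a sum of segments -/
private theorem ZI_seg {N : ℕ} (p q : Fin N → Cn n) :
    ∑ j, segment ℝ (p j) (q j) = (fun z => (∑ j, p j) + z) '' zon (fun j => q j - p j) := by
  ext z
  rw [Set.mem_fintype_sum, Set.mem_image]
  constructor
  · rintro ⟨g, hg, rfl⟩
    have h1 : ∀ j, ∃ t : ℝ, (0 ≤ t ∧ t ≤ 1) ∧ p j + t • (q j - p j) = g j := by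
      intro j
      have h2 := hg j
      rw [segment_eq_image'] at h2
      obtain ⟨t, ht, h3⟩ := h2
      exact ⟨t, ht, h3⟩
    choose t ht h2 using h1
    refine ⟨∑ j, t j • (q j - p j), ⟨t, ht, rfl⟩, ?_⟩
    show (∑ j, p j) + ∑ j, t j • (q j - p j) = ∑ j, g j
    rw [← Finset.sum_add_distrib]
    exact Finset.sum_congr rfl fun j _ => h2 j
  · rintro ⟨y, ⟨t, ht, rfl⟩, rfl⟩
    refine ⟨fun j => p j + t j • (q j - p j), fun j => ?_, ?_⟩
    · rw [segment_eq_image']
      exact ⟨t j, ht j, rfl⟩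
    · show ∑ j, (p j + t j • (q j - p j)) = (∑ j, p j) + ∑ j, t j • (q j - p j)
      rw [Finset.sum_add_distrib]

private theorem ZI_cons_zero {N : ℕ} (v : Fin N → Cn n) :
    zon (Fin.cons 0 v : Fin (N + 1) → Cn n) = zon v := by
  rw [zon_cons]
  ext z
  constructor
  · rintro ⟨t, _, _, y, hy, rfl⟩
    rwa [smul_zero, zero_add]
  · intro hz
    exact ⟨0, le_rfl, zero_le_one, z, hz, by rw [smul_zero, zero_add]⟩

theorem isZonotope_iff (Z : Set (Cn n)) :
    SD.IsZonotope Z ↔ ∃ (N : ℕ) (c : Cn n) (v : Fin N → Cn n), Z = (fun z => c + z) '' zon v := by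
  constructor
  · rintro ⟨N, p, q, rfl⟩
    exact ⟨N, ∑ j, p j, fun j => q j - p j, ZI_seg p q⟩
  · rintro ⟨N, c, v, rfl⟩
    refine ⟨N + 1, Fin.cons c (fun _ => 0), Fin.cons c v, ?_⟩
    rw [ZI_seg, Fin.sum_univ_succ]
    have h : (fun j : Fin (N + 1) => (Fin.cons c v : Fin (N + 1) → Cn n) j -
        (Fin.cons c (fun _ => 0) : Fin (N + 1) → Cn n) j) = Fin.cons 0 v := by
      funext j
      refine Fin.cases ?_ (fun j => ?_) j
      · simp
      · simp
    rw [h, ZI_cons_zero]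
    simp

/-- a Minkowski sum of translates -/
private theorem ZI_add (c c' : Cn n) (K L : Set (Cn n)) :
    (fun z => c + z) '' K + (fun z => c' + z) '' L = (fun z => (c + c') + z) '' (K + L) := by
  ext z
  constructor
  · rintro ⟨_, ⟨x, hx, rfl⟩, _, ⟨y, hy, rfl⟩, rfl⟩
    refine ⟨x + y, Set.add_mem_add hx hy, ?_⟩
    show c + c' + (x + y) = c + x + (c' + y)
    abel
  · rintro ⟨_, ⟨x, hx, y, hy, rfl⟩, rfl⟩
    refine ⟨c + x, ⟨x, hx, rfl⟩, c' + y, ⟨y, hy, rfl⟩, ?_⟩
    show c + x + (c' + y) = c + c' + (x + y)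
    abel

theorem isZonotope_add {Z Z' : Set (Cn n)} (h : SD.IsZonotope Z) (h' : SD.IsZonotope Z') :
    SD.IsZonotope (Z + Z') := by
  rw [isZonotope_iff] at h h' ⊢
  obtain ⟨N, c, v, rfl⟩ := h
  obtain ⟨N', c', v', rfl⟩ := h'
  exact ⟨N + N', c + c', Fin.append v v', by rw [ZI_add, zon_append]⟩

theorem isZonotope_smul {Z : Set (Cn n)} (h : SD.IsZonotope Z) (s : ℝ) :
    SD.IsZonotope (s • Z) := by
  rw [isZonotope_iff] at h ⊢
  obtain ⟨N, c, v, rfl⟩ := h
  refine ⟨N, s • c, fun j => s • v j, ?_⟩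
  have h1 := image_zon (s • (LinearMap.id : Cn n →ₗ[ℝ] Cn n)) v
  have h2 : (fun j => (s • (LinearMap.id : Cn n →ₗ[ℝ] Cn n)) (v j)) = fun j => s • v j := by
    funext j
    simp
  rw [h2] at h1
  rw [← h1]
  ext z
  constructor
  · rintro ⟨_, ⟨y, hy, rfl⟩, rfl⟩
    refine ⟨s • y, ⟨y, hy, by simp⟩, ?_⟩
    show s • c + s • y = s • (c + y)
    rw [smul_add]
  · rintro ⟨_, ⟨y, hy, rfl⟩, rfl⟩
    refine ⟨c + y, ⟨y, hy, rfl⟩, ?_⟩
    show s • (c + y) = s • c + (s • (LinearMap.id : Cn n →ₗ[ℝ] Cn n)) y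
    rw [smul_add]
    simp

theorem exists_box (n : ℕ) : ∃ (B : Set (Cn n)) (R : ℝ), SD.IsZonotope B ∧ 0 ≤ R ∧
    Metric.closedBall 0 1 ⊆ B ∧ B ⊆ Metric.closedBall 0 R := by
  set f := stdOrthonormalBasis ℝ (Cn n) with hf
  set N := Module.finrank ℝ (Cn n) with hN
  refine ⟨(fun z => (-∑ j, f j) + z) '' zon (fun j : Fin N => (2 : ℝ) • f j), N, ?_,
    Nat.cast_nonneg _, ?_, ?_⟩
  · rw [isZonotope_iff]
    exact ⟨N, _, _, rfl⟩
  · intro z hz
    rw [mem_closedBall_zero_iff] at hz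
    have hc : ∀ j, |inner ℝ (f j) z| ≤ 1 := fun j => by
      have h1 := abs_real_inner_le_norm (f j) z
      rw [f.orthonormal.1 j, one_mul] at h1
      exact h1.trans hz
    refine ⟨∑ j, ((1 + inner ℝ (f j) z) / 2) • ((2 : ℝ) • f j),
      ⟨fun j => (1 + inner ℝ (f j) z) / 2, fun j => ?_, rfl⟩, ?_⟩
    · have := abs_le.mp (hc j)
      constructor
      · linarith [this.1]
      · linarith [this.2]
    · show (-∑ j, f j) + ∑ j, ((1 + inner ℝ (f j) z) / 2) • ((2 : ℝ) • f j) = z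
      rw [← Finset.sum_neg_distrib, ← Finset.sum_add_distrib]
      calc ∑ j, (-f j + ((1 + inner ℝ (f j) z) / 2) • ((2 : ℝ) • f j))
          = ∑ j, (inner ℝ (f j) z) • f j := by
            refine Finset.sum_congr rfl fun j _ => ?_
            rw [smul_smul]
            have : (1 + inner ℝ (f j) z) / 2 * 2 = 1 + inner ℝ (f j) z := by ring
            rw [this, add_smul, one_smul]
            abel
        _ = z := f.sum_repr' z
  · rintro _ ⟨_, ⟨t, ht, rfl⟩, rfl⟩
    rw [mem_closedBall_zero_iff]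
    show ‖(-∑ j, f j) + ∑ j, t j • ((2 : ℝ) • f j)‖ ≤ (N : ℝ)
    rw [← Finset.sum_neg_distrib, ← Finset.sum_add_distrib]
    calc ‖∑ j, (-f j + t j • ((2 : ℝ) • f j))‖ ≤ ∑ j : Fin N, ‖-f j + t j • ((2 : ℝ) • f j)‖ :=
          norm_sum_le _ _
      _ ≤ ∑ _j : Fin N, (1 : ℝ) := by
          refine Finset.sum_le_sum fun j _ => ?_
          have h1 : -f j + t j • ((2 : ℝ) • f j) = (t j * 2 - 1) • f j := by
            rw [smul_smul, sub_smul, one_smul]
            abel
          rw [h1, norm_smul, f.orthonormal.1 j, mul_one, Real.norm_eq_abs, abs_le]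
          constructor
          · linarith [(ht j).1]
          · linarith [(ht j).2]
      _ = (N : ℝ) := by simp

theorem bm_zonotope (o : OrthonormalBasis (Fin (k + 2 + 2)) ℝ (Cn n)) (hn : 3 ≤ n)
    {a : Fin 2 → Cn n} (ha : Orthonormal ℝ a)
    (hx : (9 * n - 2) * om (a 0) (a 1) ^ 2 ≤ 5 * n + 2) (J : Rn (k + 2) →ₗᵢ[ℝ] Cn n)
    (hJ : ∀ y l, inner ℝ (J y) (a l) = 0) (Z Z' : Set (Cn n)) (hZ : SD.IsZonotope Z)
    (hZ' : SD.IsZonotope Z') :
    (VE (LinearMap.range J.toLinearMap) Z) ^ (1 / ((k : ℝ) + 2)) +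
        (VE (LinearMap.range J.toLinearMap) Z') ^ (1 / ((k : ℝ) + 2)) ≤
      (VE (LinearMap.range J.toLinearMap) (Z + Z')) ^ (1 / ((k : ℝ) + 2)) := by
  rw [isZonotope_iff] at hZ hZ'
  obtain ⟨N, c, v, rfl⟩ := hZ
  obtain ⟨N', c', v', rfl⟩ := hZ'
  rw [ZI_add, VE_add_const, VE_add_const, VE_add_const]
  have h := bm_VE o hn ha hx J hJ (Fin.append v v')
    (Fin.append (fun _ : Fin N => (1 : ℝ)) (fun _ : Fin N' => (0 : ℝ)))
    (Fin.append (fun _ : Fin N => (0 : ℝ)) (fun _ : Fin N' => (1 : ℝ)))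
    (fun l => by
      refine Fin.addCases (fun l => ?_) (fun l => ?_) l
      · rw [Fin.append_left]; exact zero_le_one
      · rw [Fin.append_right])
    (fun l => by
      refine Fin.addCases (fun l => ?_) (fun l => ?_) l
      · rw [Fin.append_left]
      · rw [Fin.append_right]; exact zero_le_one)
  have h1 : (fun j => (Fin.append (fun _ : Fin N => (1 : ℝ)) (fun _ : Fin N' => (0 : ℝ))) j •
      (Fin.append v v') j) = Fin.append v (fun _ : Fin N' => (0 : Cn n)) := by
    funext l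
    refine Fin.addCases (fun l => ?_) (fun l => ?_) l
    · rw [Fin.append_left, Fin.append_left, Fin.append_left, one_smul]
    · rw [Fin.append_right, Fin.append_right, Fin.append_right, zero_smul]
  have h2 : (fun j => (Fin.append (fun _ : Fin N => (0 : ℝ)) (fun _ : Fin N' => (1 : ℝ))) j •
      (Fin.append v v') j) = Fin.append (fun _ : Fin N => (0 : Cn n)) v' := by
    funext l
    refine Fin.addCases (fun l => ?_) (fun l => ?_) l
    · rw [Fin.append_left, Fin.append_left, Fin.append_left, zero_smul]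
    · rw [Fin.append_right, Fin.append_right, Fin.append_right, one_smul]
  rw [h1, h2, zon_append_zero, zon_zero_append] at h
  exact h

end Pool.Agent.H89.CZ
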