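import Mathlib
import Pool.Agent.H89.CZ.ZI
import Pool.Agent.H61.UProj.Sanity

set_option autoImplicit false

/-!
# ZL: from zonotopes to zonoids

`V K = VE (range J) K` for a real isometry `J : Rn i → Cn n`.

* `VE_thick`: for `M` compact, `V (cthickening r M) → V M` as `r = 1/(s+1) → 0`: for every `φ`,
  `A = adj (uni φ ∘ J)` is 1-Lipschitz (`norm_adj_le`), so
  `A '' cthickening r M ⊆ cthickening r (A '' M)` and
  `vol (cthickening r (A '' M)) → vol (A '' M)` (`tendsto_measure_cthickening_of_isCompact`);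
  dominated convergence in `∫⁻` (`tendsto_lintegral_of_dominated_convergence`, bound: the volume
  of a fixed ball; measurability of `φ ↦ vol (A '' cthickening r M)`: `measurable_projVol`
  (`UProj/Sanity.lean`) for the compact set `cthickening r M`, and `projVol_eq`, `moved_range` as
  in `VE_range`).
* `bm_limit`: let `K`, `L` be zonoids.  `exists_box` gives `B`, `R`.  Given `δ > 0` choose
  zonotopes `Z, Z'` with the property in the definition of zonoid for `ε = δ`.  `K1 = Z + δ B`,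
  `L1 = Z' + δ B` are zonotopes, `K ⊆ K1` (`x = z + (x - z)`, `x - z ∈ closedBall 0 δ ⊆ δ B`),
  `L ⊆ L1` and `K1 + L1 ⊆ cthickening (2δ(1+R)) (K + L)`.
  `V K ^ p + V L ^ p ≤ V K1 ^ p + V L1 ^ p ≤ V (K1 + L1) ^ p ≤ V (cthickening (2δ(1+R)) (K+L)) ^ p`
  (`VE_mono`).  With `δ = 1/(2(1+R)(s+1))` and `s → ∞` the right-hand side
  tends to `V (K + L) ^ p` (`VE_thick`, `ENNReal.continuous_rpow_const`).
-/

open MeasureTheory Pool.Agent.H61.UProj
open scoped ENNReal Pointwise

noncomputable section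

namespace Pool.Agent.H89.CZ

variable {n i : ℕ}

private theorem ZL_cthick_ball {M : Set (Cn n)} (hM : IsCompact M) {R r : ℝ} (hr : 0 ≤ r) (hr1 : r ≤ 1)
    (hR : M ⊆ Metric.closedBall 0 R) : Metric.cthickening r M ⊆ Metric.closedBall 0 (R + 1) := by
  rw [hM.cthickening_eq_biUnion_closedBall hr]
  intro x hx
  obtain ⟨y, hy, hxy⟩ := Set.mem_iUnion₂.1 hx
  have h1 := hR hy
  rw [mem_closedBall_zero_iff] at h1 ⊢
  rw [Metric.mem_closedBall, dist_eq_norm] at hxy
  have h2 : x = (x - y) + y := by abel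
  rw [h2]
  have h3 := norm_add_le (x - y) y
  linarith

private theorem ZL_measurable (J : Rn i →ₗᵢ[ℝ] Cn n) {K : Set (Cn n)} (hK : IsCompact K) :
    Measurable (fun φ : Un n => volume (adj ((uni φ).comp J) '' K)) := by
  have h1 := measurable_projVol (LinearMap.range J.toLinearMap) hK
  have h2 : (fun φ : Un n => projVol (moved φ (LinearMap.range J.toLinearMap)) K) =
      fun φ : Un n => volume (adj ((uni φ).comp J) '' K) := by
    funext φ
    exact projVol_eq ((uni φ).comp J) _ (inner_adj _) _ (moved_range J φ) K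
  rw [h2] at h1
  exact h1

private theorem ZL_mono (J : Rn i →ₗᵢ[ℝ] Cn n) {K L : Set (Cn n)} (h : K ⊆ L) :
    VE (LinearMap.range J.toLinearMap) K ≤ VE (LinearMap.range J.toLinearMap) L := by
  rw [VE_range, VE_range]
  exact lintegral_mono fun φ => measure_mono (Set.image_mono h)

theorem VE_thick (J : Rn i →ₗᵢ[ℝ] Cn n) {M : Set (Cn n)} (hM : IsCompact M) :
    Filter.Tendsto (fun s : ℕ => VE (LinearMap.range J.toLinearMap)
        (Metric.cthickening (1 / ((s : ℝ) + 1)) M)) Filter.atTop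
      (nhds (VE (LinearMap.range J.toLinearMap) M)) := by
  have hr0 : ∀ s : ℕ, (0 : ℝ) < 1 / ((s : ℝ) + 1) := fun s => by positivity
  have hr1 : ∀ s : ℕ, 1 / ((s : ℝ) + 1) ≤ 1 := by
    intro s
    rw [div_le_one (by positivity)]
    have : (0 : ℝ) ≤ s := Nat.cast_nonneg s
    linarith
  obtain ⟨R, hR⟩ := hM.isBounded.subset_closedBall 0
  simp only [VE_range]
  refine tendsto_lintegral_of_dominated_convergence (fun _ => volume (Metric.closedBall (0 : Rn i) (R + 1)))
    (fun s => ZL_measurable J hM.cthickening) (fun s => Filter.Eventually.of_forall fun φ => ?_) ?_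
    (Filter.Eventually.of_forall fun φ => ?_)
  · refine measure_mono ?_
    rintro _ ⟨z, hz, rfl⟩
    rw [mem_closedBall_zero_iff]
    have h1 := ZL_cthick_ball hM (hr0 s).le (hr1 s) hR hz
    rw [mem_closedBall_zero_iff] at h1
    exact (norm_adj_le _ z).trans h1
  · rw [lintegral_const]
    exact ENNReal.mul_ne_top measure_closedBall_lt_top.ne (measure_ne_top _ _)
  · have hT : IsCompact (adj ((uni φ).comp J) '' M) := hM.image (adj ((uni φ).comp J)).continuous
    have h1 : Filter.Tendsto (fun s : ℕ => volume (Metric.cthickening (1 / ((s : ℝ) + 1)) (adj ((uni φ).comp J) '' M)))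
        Filter.atTop (nhds (volume (adj ((uni φ).comp J) '' M))) :=
      (tendsto_measure_cthickening_of_isCompact (μ := volume) hT).comp tendsto_one_div_add_atTop_nhds_zero_nat
    refine tendsto_of_tendsto_of_tendsto_of_le_of_le tendsto_const_nhds h1 (fun s => ?_) (fun s => ?_)
    · exact measure_mono (Set.image_mono (Metric.self_subset_cthickening M))
    · refine measure_mono ?_
      rintro _ ⟨z, hz, rfl⟩
      rw [hM.cthickening_eq_biUnion_closedBall (hr0 s).le] at hz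
      obtain ⟨x, hx, hzx⟩ := Set.mem_iUnion₂.1 hz
      refine Metric.mem_cthickening_of_dist_le _ (adj ((uni φ).comp J) x) _ _ ⟨x, hx, rfl⟩ ?_
      rw [Metric.mem_closedBall, dist_eq_norm] at hzx
      rw [dist_eq_norm, ← map_sub]
      exact (norm_adj_le _ _).trans hzx

private theorem ZL_sub {B Z K : Set (Cn n)} {δ : ℝ} (hδ : 0 < δ) (hB : Metric.closedBall 0 1 ⊆ B)
    (h : ∀ x ∈ K, ∃ z ∈ Z, ‖x - z‖ ≤ δ) : K ⊆ Z + δ • B := by
  intro x hx
  obtain ⟨z, hz, hxz⟩ := h x hx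
  refine ⟨z, hz, x - z, ⟨δ⁻¹ • (x - z), hB ?_, ?_⟩, by simp⟩
  · rw [mem_closedBall_zero_iff, norm_smul, norm_inv, Real.norm_of_nonneg hδ.le, inv_mul_le_iff₀ hδ, mul_one]
    exact hxz
  · show δ • δ⁻¹ • (x - z) = x - z
    rw [smul_smul, mul_inv_cancel₀ hδ.ne', one_smul]

/-- The inequality for zonoids from the inequality for zonotopes. -/
theorem bm_limit (J : Rn i →ₗᵢ[ℝ] Cn n) (p : ℝ) (hp : 0 < p)
    (h : ∀ Z Z' : Set (Cn n), SD.IsZonotope Z → SD.IsZonotope Z' →
      (VE (LinearMap.range J.toLinearMap) Z) ^ p + (VE (LinearMap.range J.toLinearMap) Z') ^ p ≤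
        (VE (LinearMap.range J.toLinearMap) (Z + Z')) ^ p)
    {K L : Set (Cn n)} (hK : SD.IsZonoid K) (hL : SD.IsZonoid L) :
    (VE (LinearMap.range J.toLinearMap) K) ^ p + (VE (LinearMap.range J.toLinearMap) L) ^ p ≤
      (VE (LinearMap.range J.toLinearMap) (K + L)) ^ p := by
  obtain ⟨B, R, hBz, hR, hB1, hB2⟩ := exists_box n
  have hlim : Filter.Tendsto (fun s : ℕ => (VE (LinearMap.range J.toLinearMap)
        (Metric.cthickening (1 / ((s : ℝ) + 1)) (K + L))) ^ p) Filter.atTop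
      (nhds ((VE (LinearMap.range J.toLinearMap) (K + L)) ^ p)) :=
    ((ENNReal.continuous_rpow_const (y := p)).tendsto _).comp (VE_thick J (hK.1.add hL.1))
  refine ge_of_tendsto' hlim fun s => ?_
  have hs : (0 : ℝ) < (s : ℝ) + 1 := by positivity
  obtain ⟨δ, hδ⟩ : ∃ δ : ℝ, δ = 1 / (2 * (1 + R) * ((s : ℝ) + 1)) := ⟨_, rfl⟩
  have hδ0 : 0 < δ := by
    rw [hδ]
    have : 0 < 1 + R := by linarith
    positivity
  have hδs : 2 * δ * (1 + R) = 1 / ((s : ℝ) + 1) := by
    rw [hδ]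
    have : (1 + R) ≠ 0 := by
      have : 0 < 1 + R := by linarith
      exact this.ne'
    field_simp
  obtain ⟨Z, hZ, hZ1, hZ2⟩ := hK.2 δ hδ0
  obtain ⟨Z', hZ', hZ1', hZ2'⟩ := hL.2 δ hδ0
  have hZ3 : SD.IsZonotope (Z + δ • B) := isZonotope_add hZ (isZonotope_smul hBz δ)
  have hZ3' : SD.IsZonotope (Z' + δ • B) := isZonotope_add hZ' (isZonotope_smul hBz δ)
  have hsub : (Z + δ • B) + (Z' + δ • B) ⊆ Metric.cthickening (1 / ((s : ℝ) + 1)) (K + L) := by
    rintro _ ⟨_, ⟨z, hz, _, ⟨b, hb, rfl⟩, rfl⟩, _, ⟨z', hz', _, ⟨b', hb', rfl⟩, rfl⟩, rfl⟩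
    obtain ⟨x, hx, hxz⟩ := hZ2 z hz
    obtain ⟨y, hy, hyz⟩ := hZ2' z' hz'
    refine Metric.mem_cthickening_of_dist_le _ (x + y) _ _ ⟨x, hx, y, hy, rfl⟩ ?_
    have hbn := hB2 hb
    have hbn' := hB2 hb'
    rw [mem_closedBall_zero_iff] at hbn hbn'
    rw [dist_eq_norm, ← hδs]
    have h1 : z + δ • b + (z' + δ • b') - (x + y) = -(x - z) + -(y - z') + δ • b + δ • b' := by abel
    show ‖z + δ • b + (z' + δ • b') - (x + y)‖ ≤ _
    rw [h1]
    have h2 := norm_add_le (-(x - z) + -(y - z') + δ • b) (δ • b')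
    have h3 := norm_add_le (-(x - z) + -(y - z')) (δ • b)
    have h4 := norm_add_le (-(x - z)) (-(y - z'))
    rw [norm_neg, norm_neg] at h4
    have h5 : ‖δ • b‖ ≤ δ * R := by
      rw [norm_smul, Real.norm_of_nonneg hδ0.le]
      exact mul_le_mul_of_nonneg_left hbn hδ0.le
    have h6 : ‖δ • b'‖ ≤ δ * R := by
      rw [norm_smul, Real.norm_of_nonneg hδ0.le]
      exact mul_le_mul_of_nonneg_left hbn' hδ0.le
    linarith
  calc (VE (LinearMap.range J.toLinearMap) K) ^ p + (VE (LinearMap.range J.toLinearMap) L) ^ p ≤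
      (VE (LinearMap.range J.toLinearMap) (Z + δ • B)) ^ p + (VE (LinearMap.range J.toLinearMap) (Z' + δ • B)) ^ p :=
        add_le_add (ENNReal.rpow_le_rpow (ZL_mono J (ZL_sub hδ0 hB1 hZ1)) hp.le)
          (ENNReal.rpow_le_rpow (ZL_mono J (ZL_sub hδ0 hB1 hZ1')) hp.le)
    _ ≤ (VE (LinearMap.range J.toLinearMap) ((Z + δ • B) + (Z' + δ • B))) ^ p := h _ _ hZ3 hZ3'
    _ ≤ _ := ENNReal.rpow_le_rpow (ZL_mono J hsub) hp.le

end Pool.Agent.H89.CZ
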