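import Mathlib
import Pool.Agent.H89.CZ.KSer

set_option autoImplicit false

/-!
# KHs: power series of the kernel for unit vectors, and elementary bounds

Let `X = dotR u v`, `τ = ta c u v`.

* Lagrange identity: with `u = (p0 + i p1, p2 + i p3)`, `v = (q0 + i q1, q2 + i q3)` and minors
  `m_{kl} = p_k q_l - p_l q_k`: `nsq u * nsq v - X² = ∑_{k<l} m_{kl}²`, `Im (conj x x') = m_{01}`,
  `Im (conj y y') = m_{23}`, and `m_{01} m_{23} = m_{02} m_{13} - m_{03} m_{12}`, so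
  `2 |m_{01} m_{23}| ≤ m_{02}² + m_{13}² + m_{03}² + m_{12}²` and for `|c| ≤ 1`
  `(m_{01} + c m_{23})² ≤ ∑ m_{kl}²`: `ta_sq_le`.  Hence `Ker b c ≥ 0` for `b ≥ -1`
  (`ker_nonneg`), `|Ker b c| ≤ (1 + |b|) ar` (`ker_abs_le`).
* For unit vectors: `ar = √(1 - X²)`, `|X| ≤ 1`.  `hasSum_ker`: by `hasSum_sqrt`,
  `hasSum_inv_sqrt` (if `|X| < 1`):
  `1 - Ker b c = (1 - √(1-X²)) - b τ²/√(1-X²) = ∑_{M ≥ 0} dd M X^(2M) (X²/(2M+2) - b τ²)`.
  If `|X| = 1` then `ar = 0`, so `τ = 0` by `ta_sq_le` (this needs `|c| ≤ 1`), `Ker = 0` and it is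
  `hasSum_sqrt` at `±1`.
-/

noncomputable section

namespace Pool.Agent.H89.CZ

private lemma KHs_dot (u v : ℂ × ℂ) :
    dotR u v = u.1.re * v.1.re + u.1.im * v.1.im + u.2.re * v.2.re + u.2.im * v.2.im := by
  simp only [dotR, Complex.add_re, Complex.mul_re, Complex.conj_re, Complex.conj_im]
  ring

private lemma KHs_nsq (u : ℂ × ℂ) :
    nsq u = u.1.re * u.1.re + u.1.im * u.1.im + (u.2.re * u.2.re + u.2.im * u.2.im) := by
  simp only [nsq, Complex.normSq_apply]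

private lemma KHs_ta (c : ℝ) (u v : ℂ × ℂ) :
    ta c u v = (u.1.re * v.1.im - u.1.im * v.1.re)
      + c * (u.2.re * v.2.im - u.2.im * v.2.re) := by
  simp only [ta, Complex.mul_im, Complex.conj_re, Complex.conj_im]
  ring

private lemma KHs_lag (u v : ℂ × ℂ) :
    nsq u * nsq v - dotR u v ^ 2 =
      (u.1.re * v.1.im - u.1.im * v.1.re) ^ 2 + (u.1.re * v.2.re - u.2.re * v.1.re) ^ 2
      + (u.1.re * v.2.im - u.2.im * v.1.re) ^ 2 + (u.1.im * v.2.re - u.2.re * v.1.im) ^ 2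
      + (u.1.im * v.2.im - u.2.im * v.1.im) ^ 2 + (u.2.re * v.2.im - u.2.im * v.2.re) ^ 2 := by
  rw [KHs_dot, KHs_nsq, KHs_nsq]
  ring

private lemma KHs_gram_nonneg (u v : ℂ × ℂ) : 0 ≤ nsq u * nsq v - dotR u v ^ 2 := by
  rw [KHs_lag]
  positivity

theorem ar_sq (u v : ℂ × ℂ) : ar u v ^ 2 = nsq u * nsq v - dotR u v ^ 2 := by
  rw [ar, Real.sq_sqrt (KHs_gram_nonneg u v)]

theorem ar_nonneg (u v : ℂ × ℂ) : 0 ≤ ar u v := Real.sqrt_nonneg _

private lemma KHs_alg {c A B C D E F : ℝ} (hc : |c| ≤ 1) (h : A * B = C * D - E * F) :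
    (A + c * B) ^ 2 ≤ A ^ 2 + C ^ 2 + E ^ 2 + F ^ 2 + D ^ 2 + B ^ 2 := by
  have h1 : |A * B| ≤ (C ^ 2 + D ^ 2 + E ^ 2 + F ^ 2) / 2 := by
    rw [h, abs_le]
    constructor
    · nlinarith [sq_nonneg (C + D), sq_nonneg (E - F)]
    · nlinarith [sq_nonneg (C - D), sq_nonneg (E + F)]
  have h2 : c * (A * B) ≤ |A * B| := by
    calc c * (A * B) ≤ |c * (A * B)| := le_abs_self _
      _ = |c| * |A * B| := abs_mul _ _
      _ ≤ 1 * |A * B| := mul_le_mul_of_nonneg_right hc (abs_nonneg _)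
      _ = |A * B| := one_mul _
  have h3 : c ^ 2 ≤ 1 := by
    rw [← sq_abs]
    nlinarith [abs_nonneg c]
  have h4 : c ^ 2 * B ^ 2 ≤ B ^ 2 := by
    nlinarith [sq_nonneg B]
  nlinarith

theorem ta_sq_le {c : ℝ} (hc : |c| ≤ 1) (u v : ℂ × ℂ) : ta c u v ^ 2 ≤ ar u v ^ 2 := by
  rw [ar_sq, KHs_lag, KHs_ta]
  exact KHs_alg hc (by ring)

theorem ker_nonneg {b c : ℝ} (hb : -1 ≤ b) (hc : |c| ≤ 1) (u v : ℂ × ℂ) : 0 ≤ Ker b c u v := by
  have h1 := ta_sq_le hc u v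
  have h0 := ar_nonneg u v
  rcases h0.eq_or_lt with h | h
  · simp [Ker, ← h]
  · have h2 : Ker b c u v = (ar u v ^ 2 + b * ta c u v ^ 2) / ar u v := by
      rw [Ker]
      field_simp
    rw [h2]
    refine div_nonneg ?_ h0
    nlinarith [sq_nonneg (ta c u v)]

theorem ker_abs_le {b c : ℝ} (hc : |c| ≤ 1) (u v : ℂ × ℂ) :
    |Ker b c u v| ≤ (1 + |b|) * ar u v := by
  have h1 := ta_sq_le hc u v
  have h0 := ar_nonneg u v
  rcases h0.eq_or_lt with h | h
  · simp [Ker, ← h]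
  · have h3 : ta c u v ^ 2 / ar u v ≤ ar u v := by
      rw [div_le_iff₀ h]
      nlinarith
    have h4 : 0 ≤ ta c u v ^ 2 / ar u v := by positivity
    calc |Ker b c u v| = |ar u v + b * (ta c u v ^ 2 / ar u v)| := by
          rw [Ker, mul_div_assoc]
      _ ≤ |ar u v| + |b * (ta c u v ^ 2 / ar u v)| := abs_add_le _ _
      _ = ar u v + |b| * (ta c u v ^ 2 / ar u v) := by
          rw [abs_of_nonneg h0, abs_mul, abs_of_nonneg h4]
      _ ≤ ar u v + |b| * ar u v := by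
          have := mul_le_mul_of_nonneg_left h3 (abs_nonneg b)
          linarith
      _ = (1 + |b|) * ar u v := by ring

/-- Expansion of the kernel for unit vectors. -/
theorem hasSum_ker (b : ℝ) {c : ℝ} (hc : |c| ≤ 1) (u v : ℂ × ℂ) (hu : nsq u = 1)
    (hv : nsq v = 1) :
    HasSum (fun M : ℕ => dd M * (dotR u v ^ (2 * M) *
      (dotR u v ^ 2 / (2 * M + 2) - b * ta c u v ^ 2))) (1 - Ker b c u v) := by
  have har : ar u v = √(1 - dotR u v ^ 2) := by
    rw [ar, hu, hv, one_mul]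
  have hsq := ar_sq u v
  rw [hu, hv, one_mul] at hsq
  have hX2 : dotR u v ^ 2 ≤ 1 := by nlinarith [sq_nonneg (ar u v)]
  have hX : |dotR u v| ≤ 1 := by
    rw [← sq_abs] at hX2
    nlinarith [abs_nonneg (dotR u v)]
  rcases hX.eq_or_lt with h | h
  · have hX1 : dotR u v ^ 2 = 1 := by
      rw [← sq_abs, h, one_pow]
    have ha : ar u v = 0 := by
      rw [har, hX1, sub_self, Real.sqrt_zero]
    have ht : ta c u v ^ 2 = 0 := by
      have h1 := ta_sq_le hc u v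
      rw [ha] at h1
      have h2 := sq_nonneg (ta c u v)
      nlinarith
    have hk : 1 - Ker b c u v = 1 - √(1 - dotR u v ^ 2) := by
      rw [Ker, ← har, ha, ht]
      simp
    rw [hk]
    have h5 := hasSum_sqrt hX
    refine h5.congr_fun ?_
    intro M
    rw [ht]
    ring
  · have h5 := hasSum_sqrt hX
    have h6 := hasSum_inv_sqrt h
    have h7 := h5.sub (h6.mul_left (b * ta c u v ^ 2))
    have hk : 1 - Ker b c u v
        = (1 - √(1 - dotR u v ^ 2)) - b * ta c u v ^ 2 * (1 / √(1 - dotR u v ^ 2)) := by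
      rw [Ker, ← har]
      ring
    rw [hk]
    refine h7.congr_fun ?_
    intro M
    ring

end Pool.Agent.H89.CZ
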