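import Mathlib
import Pool.Agent.H89.CZ.TMom
import Pool.Agent.H89.CZ.KHs

set_option autoImplicit false

/-!
# FIa: reduction of the test integral

`pt φ = (φ 0 0, φ 1 0) ∈ ℂ × ℂ` is the first column of `φ ∈ U(2)`, a unit vector,
`dl (x, y) = |x|² - |y|²`.  Claim (`int_reduce`): with `κ = 1/3`,
`∫∫ dl (pt φ) dl (pt ψ) Ker b 1 (pt φ) (pt ψ) dφ dψ =
 κ ∫ (2 |ψ00|² - 1) Ker b 1 (1,0) (pt ψ) dψ`.

Step 1.  Substitute `ψ → φ ψ` (`integral_mulLeft`, for fixed `φ`): `pt (φψ) = φ (pt ψ)`, and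
`Ker b 1 (pt φ) (φ (pt ψ)) = Ker b 1 (1,0) (pt ψ)` since `Ker b 1 u v` depends only on `nsq u`,
`nsq v` and the hermitian product `z = conj u.1 v.1 + conj u.2 v.2` (`dotR = Re z`, `ta 1 = Im z`),
which are preserved by the unitary `φ` (`pt φ = φ (1,0)`).

Step 2.  Exchange the integrals (bounded measurable integrand): for fixed `ψ`, with `z = ψ 0 0`,
`w = ψ 1 0`, `|z|²+|w|² = 1`:
`A(ψ) = ∫_φ dl (φ (1,0)) dl (φ (z,w)) dφ`.  `dl (φ (1,0)) = |φ00|² - |φ10|² = 2|φ00|² - 1` and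
`dl (φ (z,w)) = |φ00 z + φ01 w|² - |φ10 z + φ11 w|² = (2|φ00|² - 1)(|z|² - |w|²) +
4 Re (φ00 conj φ01 z conj w)` (unitarity: `|φ01|² = 1 - |φ00|²`, `|φ10|² = 1 - |φ00|²`,
`|φ11|² = |φ00|²`, `φ10 conj φ11 = - φ00 conj φ01`).  The term
`∫ (2|φ00|²-1) φ00 conj φ01` is `0` (replace `φ` by `φ * diag(1, -1)`, `integral_mulRight`).  So
`A(ψ) = κ (2|z|² - 1)`, `κ = ∫ (2|φ00|² - 1)² = ∫_0^1 (2t-1)² dt = 1/3` (`law` or `moment`).

Measurability: `Ker b 1 (pt φ) (pt ψ)` is a measurable function of `(φ, ψ)` (compositions of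
continuous functions, square root and division), bounded by `1 + |b|` (`ker_abs_le`, `ar ≤ 1`).
-/

open MeasureTheory Pool.Agent.H61.UProj

noncomputable section

namespace Pool.Agent.H89.CZ

/-- first column -/
def pt (φ : Un 2) : ℂ × ℂ :=
  ((φ : Matrix (Fin 2) (Fin 2) ℂ) 0 0, (φ : Matrix (Fin 2) (Fin 2) ℂ) 1 0)

/-- `|x|² - |y|²` -/
def dl (u : ℂ × ℂ) : ℝ := Complex.normSq u.1 - Complex.normSq u.2

/-- entries -/
private abbrev en (φ : Un 2) (i j : Fin 2) : ℂ := (φ : Matrix (Fin 2) (Fin 2) ℂ) i j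

private theorem cols (φ : Un 2) (i j : Fin 2) :
    (starRingEnd ℂ) (en φ 0 i) * en φ 0 j + (starRingEnd ℂ) (en φ 1 i) * en φ 1 j =
      if i = j then 1 else 0 := by
  have h := congrFun (congrFun (Matrix.mem_unitaryGroup_iff'.1 φ.2) i) j
  rw [Matrix.mul_apply, Fin.sum_univ_two, Matrix.one_apply] at h
  exact h

private theorem rows (φ : Un 2) (i j : Fin 2) :
    en φ i 0 * (starRingEnd ℂ) (en φ j 0) + en φ i 1 * (starRingEnd ℂ) (en φ j 1) =
      if i = j then 1 else 0 := by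
  have h := congrFun (congrFun (Matrix.mem_unitaryGroup_iff.1 φ.2) i) j
  rw [Matrix.mul_apply, Fin.sum_univ_two, Matrix.one_apply] at h
  exact h

private theorem en_mul (φ ψ : Un 2) (i j : Fin 2) :
    en (φ * ψ) i j = en φ i 0 * en ψ 0 j + en φ i 1 * en ψ 1 j := by
  have h : en (φ * ψ) i j =
      ((φ : Matrix (Fin 2) (Fin 2) ℂ) * (ψ : Matrix (Fin 2) (Fin 2) ℂ)) i j := rfl
  rw [h, Matrix.mul_apply, Fin.sum_univ_two]

private theorem colsq (φ : Un 2) (j : Fin 2) :
    Complex.normSq (en φ 0 j) + Complex.normSq (en φ 1 j) = 1 := by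
  have h := congrArg Complex.re (cols φ j j)
  rw [if_pos rfl, ← Complex.normSq_eq_conj_mul_self, ← Complex.normSq_eq_conj_mul_self] at h
  simpa using h

private theorem rowsq (φ : Un 2) (j : Fin 2) :
    Complex.normSq (en φ j 0) + Complex.normSq (en φ j 1) = 1 := by
  have h := congrArg Complex.re (rows φ j j)
  rw [if_pos rfl, Complex.mul_conj, Complex.mul_conj] at h
  simpa using h

theorem nsq_pt (φ : Un 2) : nsq (pt φ) = 1 := colsq φ 0

private theorem continuous_en (i j : Fin 2) : Continuous (fun φ : Un 2 => en φ i j) :=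
  continuous_subtype_val.matrix_elem i j

private theorem continuous_pt : Continuous pt :=
  (continuous_en 0 0).prodMk (continuous_en 1 0)

private theorem continuous_ar : Continuous (fun q : (ℂ × ℂ) × (ℂ × ℂ) => ar q.1 q.2) := by
  unfold ar nsq dotR
  simp only [Complex.normSq_eq_norm_sq]
  fun_prop

private theorem continuous_ta (c : ℝ) :
    Continuous (fun q : (ℂ × ℂ) × (ℂ × ℂ) => ta c q.1 q.2) := by
  unfold ta
  fun_prop

private theorem sct : SecondCountableTopology (Un 2) := by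
  have : SecondCountableTopology (Matrix (Fin 2) (Fin 2) ℂ) :=
    inferInstanceAs (SecondCountableTopology (Fin 2 → Fin 2 → ℂ))
  exact Topology.IsInducing.subtypeVal.secondCountableTopology

theorem measurable_ker_pt (b : ℝ) :
    Measurable (fun q : Un 2 × Un 2 => Ker b 1 (pt q.1) (pt q.2)) := by
  have := sct
  have h1 : Continuous (fun q : Un 2 × Un 2 => (pt q.1, pt q.2)) :=
    (continuous_pt.comp continuous_fst).prodMk (continuous_pt.comp continuous_snd)
  have h2 : Measurable (fun q : Un 2 × Un 2 => ar (pt q.1) (pt q.2)) :=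
    (continuous_ar.comp h1).measurable
  have h3 : Measurable (fun q : Un 2 × Un 2 => ta 1 (pt q.1) (pt q.2)) :=
    ((continuous_ta 1).comp h1).measurable
  unfold Ker
  exact h2.add (((h3.pow_const 2).const_mul b).div h2)

private theorem ar_pt_le (φ ψ : Un 2) : ar (pt φ) (pt ψ) ≤ 1 := by
  unfold ar
  rw [nsq_pt, nsq_pt, Real.sqrt_le_one]
  nlinarith [sq_nonneg (dotR (pt φ) (pt ψ))]

theorem ker_pt_le (b : ℝ) (φ ψ : Un 2) : |Ker b 1 (pt φ) (pt ψ)| ≤ 1 + |b| := by
  refine (ker_abs_le (c := 1) (by simp) _ _).trans ?_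
  have h1 := ar_pt_le φ ψ
  have h2 : 0 ≤ 1 + |b| := by positivity
  nlinarith

private theorem continuous_dl : Continuous dl := by
  unfold dl
  simp only [Complex.normSq_eq_norm_sq]
  fun_prop

theorem continuous_dl_pt : Continuous (fun φ : Un 2 => dl (pt φ)) :=
  continuous_dl.comp continuous_pt

private theorem dl_pt_le (φ : Un 2) : |dl (pt φ)| ≤ 1 := by
  have h := nsq_pt φ
  unfold nsq at h
  unfold dl
  rw [abs_le]
  constructor <;> nlinarith [Complex.normSq_nonneg (pt φ).1, Complex.normSq_nonneg (pt φ).2]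

private theorem herm_eq (φ ψ : Un 2) :
    (starRingEnd ℂ) (pt φ).1 * (pt (φ * ψ)).1 + (starRingEnd ℂ) (pt φ).2 * (pt (φ * ψ)).2 =
      en ψ 0 0 := by
  have h0 := cols φ 0 0
  have h1 := cols φ 0 1
  rw [if_pos rfl] at h0
  rw [if_neg (by decide)] at h1
  change (starRingEnd ℂ) (en φ 0 0) * en (φ * ψ) 0 0 +
    (starRingEnd ℂ) (en φ 1 0) * en (φ * ψ) 1 0 = _
  rw [en_mul, en_mul]
  linear_combination (en ψ 0 0) * h0 + (en ψ 1 0) * h1

private theorem ker_mul (b : ℝ) (φ ψ : Un 2) :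
    Ker b 1 (pt φ) (pt (φ * ψ)) = Ker b 1 (1, 0) (pt ψ) := by
  have h := herm_eq φ ψ
  have hd : dotR (pt φ) (pt (φ * ψ)) = dotR (1, 0) (pt ψ) := by
    unfold dotR
    rw [h]
    simp [pt]
  have ht : ta 1 (pt φ) (pt (φ * ψ)) = ta 1 (1, 0) (pt ψ) := by
    unfold ta
    rw [one_mul, ← Complex.add_im, h]
    simp [pt]
  have hn : nsq ((1, 0) : ℂ × ℂ) = 1 := by simp [nsq]
  unfold Ker ar
  rw [hd, ht, nsq_pt, nsq_pt, nsq_pt, hn]

private theorem ker_one (b : ℝ) (ψ : Un 2) : Ker b 1 (1, 0) (pt ψ) = Ker b 1 (pt 1) (pt ψ) := by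
  have h : pt 1 = (1, 0) := by
    simp [pt]
  rw [h]

private theorem dl_mul (φ ψ : Un 2) :
    dl (pt (φ * ψ)) = dl (pt φ) * dl (pt ψ) +
      4 * (en φ 0 0 * (starRingEnd ℂ) (en φ 0 1) *
        (en ψ 0 0 * (starRingEnd ℂ) (en ψ 1 0))).re := by
  have h1 := rowsq φ 0
  have h2 := rowsq φ 1
  have h6 := cols φ 0 1
  rw [if_neg (by decide)] at h6
  have h7 := congrArg (starRingEnd ℂ) h6
  simp only [map_add, map_mul, Complex.conj_conj, map_zero] at h7
  change Complex.normSq (en (φ * ψ) 0 0) - Complex.normSq (en (φ * ψ) 1 0) =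
    (Complex.normSq (en φ 0 0) - Complex.normSq (en φ 1 0)) *
    (Complex.normSq (en ψ 0 0) - Complex.normSq (en ψ 1 0)) + _
  rw [en_mul, en_mul]
  generalize en φ 0 0 = a at *
  generalize en φ 0 1 = b at *
  generalize en φ 1 0 = c at *
  generalize en φ 1 1 = d at *
  generalize en ψ 0 0 = z at *
  generalize en ψ 1 0 = w at *
  have e1 : a * z * (starRingEnd ℂ) (b * w) =
      a * (starRingEnd ℂ) b * (z * (starRingEnd ℂ) w) := by
    rw [map_mul]; ring
  have e2 : c * z * (starRingEnd ℂ) (d * w) =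
      -(a * (starRingEnd ℂ) b * (z * (starRingEnd ℂ) w)) := by
    rw [map_mul]
    linear_combination (z * (starRingEnd ℂ) w) * h7
  rw [Complex.normSq_add, Complex.normSq_add, e1, e2, Complex.neg_re, map_mul, map_mul, map_mul,
    map_mul]
  linear_combination (Complex.normSq w) * h1 - (Complex.normSq w) * h2

/-- `diag(1, -1)` -/
private def sg : Un 2 := ⟨Matrix.diagonal ![1, -1], by
  rw [Matrix.mem_unitaryGroup_iff, Matrix.star_eq_conjTranspose, Matrix.diagonal_conjTranspose,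
    Matrix.diagonal_mul_diagonal, ← Matrix.diagonal_one]
  congr 1
  funext i
  fin_cases i <;> simp⟩

private theorem en_sg (φ : Un 2) (i j : Fin 2) :
    en (φ * sg) i j = en φ i j * (![1, -1] : Fin 2 → ℂ) j := by
  have h : en (φ * sg) i j =
      ((φ : Matrix (Fin 2) (Fin 2) ℂ) *
        (Matrix.diagonal ![1, -1] : Matrix (Fin 2) (Fin 2) ℂ)) i j := rfl
  rw [h, Matrix.mul_diagonal]

private theorem cross_zero (q : ℂ) :
    ∫ φ : Un 2, dl (pt φ) * (4 * (en φ 0 0 * (starRingEnd ℂ) (en φ 0 1) * q).re) ∂(haarU 2) =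
      0 := by
  have h := integral_mulRight
    (fun φ : Un 2 => dl (pt φ) * (4 * (en φ 0 0 * (starRingEnd ℂ) (en φ 0 1) * q).re)) sg
  have h2 : ∀ φ : Un 2, dl (pt (φ * sg)) *
      (4 * (en (φ * sg) 0 0 * (starRingEnd ℂ) (en (φ * sg) 0 1) * q).re) =
      -(dl (pt φ) * (4 * (en φ 0 0 * (starRingEnd ℂ) (en φ 0 1) * q).re)) := by
    intro φ
    have h3 : pt (φ * sg) = pt φ := by
      have e1 := en_sg φ 0 0
      have e2 := en_sg φ 1 0
      simp only [Matrix.cons_val_zero, mul_one] at e1 e2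
      exact Prod.ext e1 e2
    rw [h3, en_sg, en_sg]
    simp only [Matrix.cons_val_zero, Matrix.cons_val_one, mul_one, mul_neg, map_neg, neg_mul,
      Complex.neg_re]
  simp only [h2, integral_neg] at h
  linarith

private theorem int_sq : ∫ φ : Un 2, dl (pt φ) * dl (pt φ) ∂(haarU 2) = 1 / 3 := by
  have h := law (F := fun t => (2 * t - 1) ^ 2) (by fun_prop)
  have h1 : ∀ φ : Un 2, dl (pt φ) * dl (pt φ) =
      (2 * ‖(φ : Matrix (Fin 2) (Fin 2) ℂ) 0 0‖ ^ 2 - 1) ^ 2 := by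
    intro φ
    have h2 := colsq φ 0
    have h3 : dl (pt φ) = 2 * Complex.normSq (en φ 0 0) - 1 := by
      change Complex.normSq (en φ 0 0) - Complex.normSq (en φ 1 0) = _
      linarith
    rw [h3, Complex.normSq_eq_norm_sq]
    ring
  simp only [h1]
  refine h.trans ?_
  have h4 : ∀ t : ℝ, (2 * t - 1) ^ 2 = 4 * t ^ 2 - 4 * t + 1 := fun t => by ring
  simp only [h4]
  rw [intervalIntegral.integral_add (Continuous.intervalIntegrable (by fun_prop) _ _)
      (Continuous.intervalIntegrable (by fun_prop) _ _),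
    intervalIntegral.integral_sub (Continuous.intervalIntegrable (by fun_prop) _ _)
      (Continuous.intervalIntegrable (by fun_prop) _ _),
    intervalIntegral.integral_const_mul, intervalIntegral.integral_const_mul, integral_pow,
    integral_id]
  norm_num

private theorem inner_int (ψ : Un 2) :
    ∫ φ : Un 2, dl (pt φ) * dl (pt (φ * ψ)) ∂(haarU 2) =
      1 / 3 * (2 * ‖(ψ : Matrix (Fin 2) (Fin 2) ℂ) 0 0‖ ^ 2 - 1) := by
  have h1 : ∀ φ : Un 2, dl (pt φ) * dl (pt (φ * ψ)) =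
      dl (pt φ) * dl (pt φ) * dl (pt ψ) + dl (pt φ) * (4 * (en φ 0 0 *
        (starRingEnd ℂ) (en φ 0 1) * (en ψ 0 0 * (starRingEnd ℂ) (en ψ 1 0))).re) := by
    intro φ
    rw [dl_mul]
    ring
  simp only [h1]
  have c1 := continuous_dl_pt
  have c2 := continuous_en 0 0
  have c3 := continuous_en 0 1
  rw [integral_add, cross_zero, add_zero, integral_mul_const, int_sq]
  · have h3 : dl (pt ψ) = 2 * ‖(ψ : Matrix (Fin 2) (Fin 2) ℂ) 0 0‖ ^ 2 - 1 := by
      have h2 := colsq ψ 0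
      rw [← Complex.normSq_eq_norm_sq]
      change Complex.normSq (en ψ 0 0) - Complex.normSq (en ψ 1 0) =
        2 * Complex.normSq (en ψ 0 0) - 1
      linarith
    rw [h3]
  · exact integrable_of_continuous ((c1.mul c1).mul continuous_const)
  · refine integrable_of_continuous (c1.mul (continuous_const.mul ?_))
    exact Complex.continuous_re.comp
      ((c2.mul (Complex.continuous_conj.comp c3)).mul continuous_const)

theorem int_reduce (b : ℝ) :
    ∫ φ, ∫ ψ, dl (pt φ) * dl (pt ψ) * Ker b 1 (pt φ) (pt ψ) ∂(haarU 2) ∂(haarU 2) =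
      (1 / 3) * ∫ ψ : Un 2, (2 * ‖(ψ : Matrix (Fin 2) (Fin 2) ℂ) 0 0‖ ^ 2 - 1) *
        Ker b 1 (1, 0) (pt ψ) ∂(haarU 2) := by
  have h1 : ∀ φ : Un 2, ∫ ψ, dl (pt φ) * dl (pt ψ) * Ker b 1 (pt φ) (pt ψ) ∂(haarU 2) =
      ∫ ψ, dl (pt φ) * dl (pt (φ * ψ)) * Ker b 1 (1, 0) (pt ψ) ∂(haarU 2) := by
    intro φ
    rw [← integral_mulLeft (fun ψ => dl (pt φ) * dl (pt ψ) * Ker b 1 (pt φ) (pt ψ)) φ]
    simp only [ker_mul]
  simp only [h1]
  have := sct
  have hcm : Continuous (fun q : Un 2 × Un 2 => dl (pt q.1) * dl (pt (q.1 * q.2))) :=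
    (continuous_dl_pt.comp continuous_fst).mul (continuous_dl_pt.comp continuous_mul)
  have hmk : Measurable (fun q : Un 2 × Un 2 => Ker b 1 (1, 0) (pt q.2)) := by
    simp only [ker_one]
    have h2 : Measurable (fun q : Un 2 × Un 2 => ((1 : Un 2), q.2)) :=
      measurable_const.prodMk measurable_snd
    have h3 := (measurable_ker_pt b).comp h2
    simpa only [Function.comp_def] using h3
  rw [integral_integral_swap]
  · rw [← integral_const_mul]
    refine integral_congr_ae (Filter.Eventually.of_forall fun ψ => ?_)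
    simp only
    rw [integral_mul_const, inner_int]
    ring
  · refine Integrable.of_bound (C := 1 * 1 * (1 + |b|))
      (hcm.measurable.mul hmk).aestronglyMeasurable (Filter.Eventually.of_forall fun q => ?_)
    simp only [Function.uncurry, Real.norm_eq_abs, abs_mul, ker_one]
    have g1 := dl_pt_le q.1
    have g2 := dl_pt_le (q.1 * q.2)
    have g3 := ker_pt_le b 1 q.2
    have g4 : |dl (pt q.1)| * |dl (pt (q.1 * q.2))| ≤ 1 * 1 :=
      mul_le_mul g1 g2 (abs_nonneg _) zero_le_one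
    exact mul_le_mul g4 g3 (abs_nonneg _) (by norm_num)

end Pool.Agent.H89.CZ
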