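import Mathlib
import Pool.Agent.H89.CZ.Defs

set_option autoImplicit false

/-!
# KTel: two telescoping sums (both checked numerically)

* `tele_one`: by induction on `K`: with `dd (K+1) = dd K (2K+1)/(2K+2)` the step is a rational
  identity (`field_simp; ring`).
* `tele_two`: for `h ≥ 1`, `M = h + k`: the terms are
  `T M = cb M h (dd (M-1)/(2M)) (1 + β (2M - 4h²)/(2M-1)) / (M+h+1)`, `β = (2h+3)/(6h+1)`, and
  `∑_{M=h}^{K} T M = -((2h+1)/((6h+1)(K+h+1))) cb K h dd K`.  Base case `K = h` and step: rational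
  identities, using `cb (M+1) h = cb M h (2M+1)(2M+2)/(4 (M+1+h)(M+1-h))`, that is
  `C(2M+2, M+1+h) = C(2M, M+h) (2M+1)(2M+2)/((M+1+h)(M+1-h))` for `h ≤ M`, and
  `dd M = dd (M-1) (2M-1)/(2M)` for `M ≥ 1`; `cb h h = 1/4^h`.
-/

noncomputable section

namespace Pool.Agent.H89.CZ

private theorem KTel_dd (m : ℕ) : dd (m + 1) = dd m * (2 * m + 1) / (2 * m + 2) := by
  have h := Nat.succ_mul_centralBinom_succ m
  have h2 : ((m : ℝ) + 1) * ((m + 1).centralBinom : ℝ) =
      2 * (2 * (m : ℝ) + 1) * (m.centralBinom : ℝ) := by exact_mod_cast h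
  unfold dd
  have h3 : ((m + 1).centralBinom : ℝ) =
      2 * (2 * (m : ℝ) + 1) * (m.centralBinom : ℝ) / ((m : ℝ) + 1) := by
    rw [eq_div_iff (by positivity)]
    linarith
  rw [h3, pow_succ]
  field_simp
  ring

private theorem KTel_cb (h k : ℕ) : cb (h + (k + 1)) h =
    cb (h + k) h * ((2 * h + 2 * k + 1) * (2 * h + 2 * k + 2)) /
      (4 * (2 * h + k + 1) * (k + 1)) := by
  unfold cb
  rw [Nat.cast_choose ℝ (by omega : h + (k + 1) + h ≤ 2 * (h + (k + 1))),
    Nat.cast_choose ℝ (by omega : h + k + h ≤ 2 * (h + k))]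
  have e1 : 2 * (h + (k + 1)) - (h + (k + 1) + h) = k + 1 := by omega
  have e2 : 2 * (h + k) - (h + k + h) = k := by omega
  have e3 : 2 * (h + (k + 1)) = (2 * (h + k) + 1) + 1 := by omega
  have e4 : h + (k + 1) + h = (h + k + h) + 1 := by omega
  rw [e1, e2, e3, e4, Nat.factorial_succ (2 * (h + k) + 1), Nat.factorial_succ (2 * (h + k)),
    Nat.factorial_succ (h + k + h), Nat.factorial_succ k,
    show h + (k + 1) = (h + k) + 1 from rfl, pow_succ]
  have f1 : ((2 * (h + k)).factorial : ℝ) ≠ 0 := by positivity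
  have f2 : ((h + k + h).factorial : ℝ) ≠ 0 := by positivity
  have f3 : ((k).factorial : ℝ) ≠ 0 := by positivity
  push_cast
  field_simp
  ring

theorem tele_one (K : ℕ) :
    ∑ m ∈ Finset.range K, dd m * dd (m + 1) * (8 * m - 1) /
      (9 * (2 * m + 1) * (m + 2) * (m + 3)) =
      -(2 / 9) * K * dd K ^ 2 / ((K + 1) * (K + 2)) := by
  induction K with
  | zero => simp
  | succ K ih =>
    rw [Finset.sum_range_succ, ih, KTel_dd K]
    push_cast
    field_simp
    ring

theorem tele_two (h : ℕ) (hh : 1 ≤ h) (j : ℕ) :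
    ∑ k ∈ Finset.range (j + 1), cb (h + k) h * (dd (h + k - 1) / (2 * (h + k))) *
      (1 + (2 * h + 3) / (6 * h + 1) * (2 * (h + k) - 4 * h ^ 2) / (2 * (h + k) - 1)) /
        (2 * h + k + 1) =
      -((2 * h + 1) / ((6 * h + 1) * (2 * h + j + 1))) * cb (h + j) h * dd (h + j) := by
  obtain ⟨a, rfl⟩ : ∃ a, h = a + 1 := ⟨h - 1, by omega⟩
  induction j with
  | zero =>
    rw [Finset.sum_range_one]
    have e1 : a + 1 + 0 - 1 = a := by omega
    have e2 : a + 1 + 0 = a + 1 := by omega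
    rw [e1, e2, KTel_dd a]
    push_cast
    have g1 : (2 * ((a : ℝ) + 1 + 0) - 1) ≠ 0 := by
      have : (0 : ℝ) ≤ a := by positivity
      intro hc
      linarith
    have g2 : (2 * ((a : ℝ) + 1) - 1) ≠ 0 := by
      have : (0 : ℝ) ≤ a := by positivity
      intro hc
      linarith
    field_simp
    ring
  | succ j ih =>
    rw [Finset.sum_range_succ, ih]
    have e1 : a + 1 + (j + 1) - 1 = a + 1 + j := by omega
    rw [e1, KTel_cb (a + 1) j, show a + 1 + (j + 1) = (a + 1 + j) + 1 from rfl,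
      KTel_dd (a + 1 + j)]
    push_cast
    have g1 : (2 * ((a : ℝ) + 1 + (j + 1)) - 1) ≠ 0 := by
      have : (0 : ℝ) ≤ a := by positivity
      have : (0 : ℝ) ≤ j := by positivity
      intro hc
      linarith
    field_simp
    ring

end Pool.Agent.H89.CZ
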