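import Mathlib
import Pool.Agent.H89.CZ.FIa
import Pool.Agent.H89.CZ.KTel

set_option autoImplicit false

/-!
# FIb: positivity of the reduced integral for `b > 5/9`

Write `z = ψ 0 0`, `X = Re z`, `Y = Im z`; `dotR (1,0) (pt ψ) = X`, `ta 1 (1,0) (pt ψ) = Y`.
By `hasSum_ker` (unit vectors)
`Ker b 1 (1,0) (pt ψ) = 1 - ∑_{M ≥ 0} dd M X^(2M) (X²/(2M+2) - b Y²)`.  Partial sums
are bounded: `0 ≤ ∑_{M<K} dd M X^(2M+2)/(2M+2) ≤ ∑ dd M/(2M+2) ≤ 1`, and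
`0 ≤ ∑_{M<K} dd M X^(2M) Y² ≤ Y²/√(1-X²) ≤ √(1-X²) ≤ 1` if `|X| < 1` (`Y = 0` if `|X| = 1`;
`X² + Y² = |z|² ≤ 1`).  So integrate termwise (dominated convergence).  `∫ (2|z|² - 1) = 0`
(`moment 1`):
`∫ (2|z|²-1) Ker = - lim_K ∑_{M<K} dd M ∫ (2|z|²-1) X^(2M) (X²/(2M+2) - b Y²)`.

`int_term`: `∫ (2|z|²-1) X^(2M) (X²/(2M+2) - b Y²) =
 dd (M+1) (1/(2M+2) - b/(2M+1)) (M+1)/((M+2)(M+3))`.
Expand in `z`, `conj z`; only the powers `|z|^(2M+2)` contribute (`moment_mixed`).  Their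
coefficient in `X^(2M+2) = ((z + conj z)/2)^(2M+2)` is `C(2M+2, M+1)/4^(M+1) = dd (M+1)`, and in
`X^(2M) Y²`, `Y² = -(z - conj z)²/4`, it is
`-(1/4^(M+1)) (2 C(2M, M-1) - 2 C(2M, M)) = dd (M+1)/(2M+1)`.
(Alternatively: `∑_p C(N,p)(2p-N)² z^p z'^(N-p) = N(N-1)(z+z')^(N-2)(z-z')² + N (z+z')^N`,
`N = 2M+2`.)  `∫ (2|z|² - 1) |z|^(2M+2) = 2/(M+3) - 1/(M+2) = (M+1)/((M+2)(M+3))` (`moment`).

Conclusion: with `b = 5/9 + η`, `η > 0`, by `tele_one`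
(`(1/(2M+2) - 5/(9(2M+1))) (M+1) = (8M-1)/(18(2M+1))`) the partial sum is
`-(1/9) K dd K²/((K+1)(K+2)) - η ∑_{M<K} dd M dd (M+1) (M+1)/((2M+1)(M+2)(M+3))`, which is
`≤ - η dd 0 dd 1 / 6 = -η/12` for `K ≥ 1`.  So `∫ (2|z|²-1) Ker ≥ η/12 > 0`.
-/

open MeasureTheory Pool.Agent.H61.UProj

noncomputable section

namespace Pool.Agent.H89.CZ

/-! ### binomial sums -/

private theorem FIb_S0 (z w : ℂ) (n : ℕ) :
    ∑ p ∈ Finset.range (n + 1), (n.choose p : ℂ) * (z ^ p * w ^ (n - p)) = (z + w) ^ n := by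
  rw [add_pow]
  exact Finset.sum_congr rfl fun p _ => by ring

private theorem FIb_S1 (z w : ℂ) (n : ℕ) :
    ∑ p ∈ Finset.range (n + 2), (p : ℂ) * ((n + 1).choose p : ℂ) * (z ^ p * w ^ (n + 1 - p)) =
      (n + 1) * z * (z + w) ^ n := by
  rw [Finset.sum_range_succ', Nat.cast_zero, zero_mul, zero_mul, add_zero, ← FIb_S0 z w n,
    Finset.mul_sum]
  refine Finset.sum_congr rfl fun p _ => ?_
  have h : (((n + 1).choose (p + 1) : ℕ) : ℂ) * ((p : ℂ) + 1) =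
      ((n : ℂ) + 1) * (n.choose p : ℕ) := by
    exact_mod_cast (Nat.add_one_mul_choose_eq n p).symm
  have e : n + 1 - (p + 1) = n - p := by omega
  rw [e]
  push_cast
  linear_combination (z ^ (p + 1) * w ^ (n - p)) * h

private theorem FIb_S2 (z w : ℂ) (n : ℕ) :
    ∑ p ∈ Finset.range (n + 3), (p : ℂ) * ((p : ℂ) - 1) * ((n + 2).choose p : ℂ) *
      (z ^ p * w ^ (n + 2 - p)) = (n + 2) * (n + 1) * z ^ 2 * (z + w) ^ n := by
  rw [Finset.sum_range_succ', Nat.cast_zero, zero_mul, zero_mul, zero_mul, add_zero]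
  have h1 := FIb_S1 z w n
  have h2 : ((n : ℂ) + 2) * (n + 1) * z ^ 2 * (z + w) ^ n =
      ((n : ℂ) + 2) * z * ((n + 1) * z * (z + w) ^ n) := by ring
  rw [h2, ← h1, Finset.mul_sum]
  refine Finset.sum_congr rfl fun p _ => ?_
  have h : (((n + 2).choose (p + 1) : ℕ) : ℂ) * ((p : ℂ) + 1) =
      ((n : ℂ) + 2) * ((n + 1).choose p : ℕ) := by
    have := (Nat.add_one_mul_choose_eq (n + 1) p).symm
    have h' : (((n + 1 + 1).choose (p + 1) * (p + 1) : ℕ) : ℂ) =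
      (((n + 1 + 1) * (n + 1).choose p : ℕ) : ℂ) := by rw [this]
    push_cast at h'
    rw [show (n : ℂ) + 2 = n + 1 + 1 by ring]
    exact h'
  have e : n + 2 - (p + 1) = n + 1 - p := by omega
  rw [e]
  push_cast
  linear_combination ((p : ℂ) * z ^ (p + 1) * w ^ (n + 1 - p)) * h

private theorem FIb_key (z w : ℂ) (n : ℕ) :
    ∑ p ∈ Finset.range (n + 3), ((n + 2).choose p : ℂ) * (2 * (p : ℂ) - (n + 2)) ^ 2 *
      (z ^ p * w ^ (n + 2 - p)) =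
      (n + 2) * (n + 1) * (z + w) ^ n * (z - w) ^ 2 + (n + 2) * (z + w) ^ (n + 2) := by
  have h0 := FIb_S0 z w (n + 2)
  have h1 := FIb_S1 z w (n + 1)
  have h2 := FIb_S2 z w n
  have e : ∑ p ∈ Finset.range (n + 3), ((n + 2).choose p : ℂ) * (2 * (p : ℂ) - (n + 2)) ^ 2 *
      (z ^ p * w ^ (n + 2 - p)) =
      4 * (∑ p ∈ Finset.range (n + 3), (p : ℂ) * ((p : ℂ) - 1) * ((n + 2).choose p : ℂ) *
        (z ^ p * w ^ (n + 2 - p))) + (4 - 4 * ((n : ℂ) + 2)) *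
        (∑ p ∈ Finset.range (n + 3), (p : ℂ) * ((n + 2).choose p : ℂ) *
          (z ^ p * w ^ (n + 2 - p))) + ((n : ℂ) + 2) ^ 2 *
        (∑ p ∈ Finset.range (n + 3), ((n + 2).choose p : ℂ) * (z ^ p * w ^ (n + 2 - p))) := by
    rw [Finset.mul_sum, Finset.mul_sum, Finset.mul_sum, ← Finset.sum_add_distrib,
      ← Finset.sum_add_distrib]
    refine Finset.sum_congr rfl fun p _ => ?_
    ring
  have h1' : ∑ p ∈ Finset.range (n + 3), (p : ℂ) * ((n + 2).choose p : ℂ) *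
      (z ^ p * w ^ (n + 2 - p)) = ((n : ℂ) + 2) * z * (z + w) ^ (n + 1) := by
    have : (((n + 1 : ℕ) : ℂ) + 1) = (n : ℂ) + 2 := by push_cast; ring
    rw [← this]
    exact h1
  rw [e, h2, h1', h0]
  ring

/-- the coefficient of `z^p conj(z)^(2M+2-p)` -/
private def FIb_g (b : ℝ) (M p : ℕ) : ℝ :=
  ((2 * M + 2).choose p : ℝ) / 4 ^ (M + 1) / (2 * M + 2) *
    (1 - b * (2 * M + 2 - (2 * (p : ℝ) - (2 * M + 2)) ^ 2) / (2 * M + 1))

private theorem FIb_point (z : ℂ) (b : ℝ) (M : ℕ) :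
    ((z.re ^ (2 * M) * (z.re ^ 2 / (2 * M + 2) - b * z.im ^ 2) : ℝ) : ℂ) =
      ∑ p ∈ Finset.range (2 * M + 3),
        (FIb_g b M p : ℂ) * (z ^ p * starRingEnd ℂ z ^ (2 * M + 2 - p)) := by
  have hk := FIb_key z (starRingEnd ℂ z) (2 * M)
  have h0 := FIb_S0 z (starRingEnd ℂ z) (2 * M + 2)
  have hz1 : z + starRingEnd ℂ z = ((2 * z.re : ℝ) : ℂ) := Complex.add_conj z
  have hz2 : (z - starRingEnd ℂ z) ^ 2 = ((-4 * z.im ^ 2 : ℝ) : ℂ) := by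
    rw [Complex.sub_conj]
    push_cast
    rw [mul_pow, Complex.I_sq]
    ring
  rw [hz1, hz2] at hk
  rw [hz1] at h0
  have hM1 : (2 * (M : ℂ) + 1) ≠ 0 := by
    have : ((2 * M + 1 : ℕ) : ℂ) ≠ 0 := by exact_mod_cast Nat.succ_ne_zero (2 * M)
    push_cast at this
    exact this
  have hM2 : (2 * (M : ℂ) + 2) ≠ 0 := by
    have : ((2 * M + 2 : ℕ) : ℂ) ≠ 0 := by exact_mod_cast Nat.succ_ne_zero (2 * M + 1)
    push_cast at this
    exact this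
  have hsum : ∑ p ∈ Finset.range (2 * M + 3),
        (FIb_g b M p : ℂ) * (z ^ p * starRingEnd ℂ z ^ (2 * M + 2 - p)) =
      (1 / 4 ^ (M + 1) / (2 * M + 2) * (1 - (b : ℂ) * (2 * M + 2) / (2 * M + 1))) *
        (∑ p ∈ Finset.range (2 * M + 3), ((2 * M + 2).choose p : ℂ) *
          (z ^ p * starRingEnd ℂ z ^ (2 * M + 2 - p))) +
      (1 / 4 ^ (M + 1) / (2 * M + 2) * ((b : ℂ) / (2 * M + 1))) *
        (∑ p ∈ Finset.range (2 * M + 3), ((2 * M + 2).choose p : ℂ) *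
          (2 * (p : ℂ) - (((2 * M : ℕ) : ℂ) + 2)) ^ 2 *
            (z ^ p * starRingEnd ℂ z ^ (2 * M + 2 - p))) := by
    rw [Finset.mul_sum, Finset.mul_sum, ← Finset.sum_add_distrib]
    refine Finset.sum_congr rfl fun p _ => ?_
    unfold FIb_g
    push_cast
    ring
  rw [hsum, h0, hk]
  have h5 : (4 : ℂ) ^ (M + 1) = 2 ^ (2 * M + 2) := by
    rw [show (4 : ℂ) = 2 ^ 2 by norm_num, ← pow_mul]
    congr 1
  have h9 : (2 : ℂ) ^ (2 * M) ≠ 0 := pow_ne_zero _ two_ne_zero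
  have h8 : (2 : ℂ) ^ (2 * M + 2) = 4 * 2 ^ (2 * M) := by rw [pow_add]; ring
  rw [h5]
  push_cast
  rw [mul_pow, mul_pow, h8]
  field_simp
  ring

private theorem FIb_mid (b : ℝ) (M : ℕ) :
    FIb_g b M (M + 1) = dd (M + 1) * (1 / (2 * M + 2) - b / (2 * M + 1)) := by
  unfold FIb_g dd
  rw [Nat.centralBinom_eq_two_mul_choose]
  have e : 2 * (M + 1) = 2 * M + 2 := by ring
  rw [e]
  have h1 : (2 * (M : ℝ) + 1) ≠ 0 := by positivity
  have h2 : (2 * (M : ℝ) + 2) ≠ 0 := by positivity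
  push_cast
  field_simp
  ring

private theorem FIb_cont : Continuous (fun ψ : Un 2 => (ψ : Matrix (Fin 2) (Fin 2) ℂ) 0 0) :=
  (continuous_id.matrix_elem 0 0).comp continuous_subtype_val

private theorem FIb_int (p q : ℕ) :
    Integrable (fun ψ : Un 2 => (ψ : Matrix (Fin 2) (Fin 2) ℂ) 0 0 ^ p *
      (starRingEnd ℂ ((ψ : Matrix (Fin 2) (Fin 2) ℂ) 0 0)) ^ q) (haarU 2) :=
  integrable_of_continuous ((FIb_cont.pow p).mul ((Complex.continuous_conj.comp FIb_cont).pow q))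

private theorem FIb_diag (k : ℕ) :
    ∫ ψ : Un 2, (ψ : Matrix (Fin 2) (Fin 2) ℂ) 0 0 ^ k *
      (starRingEnd ℂ ((ψ : Matrix (Fin 2) (Fin 2) ℂ) 0 0)) ^ k ∂(haarU 2) =
      ((1 / (k + 1) : ℝ) : ℂ) := by
  rw [← moment k, ← integral_complex_ofReal]
  refine integral_congr_ae (Filter.Eventually.of_forall fun ψ => ?_)
  show (ψ : Matrix (Fin 2) (Fin 2) ℂ) 0 0 ^ k *
      (starRingEnd ℂ ((ψ : Matrix (Fin 2) (Fin 2) ℂ) 0 0)) ^ k =
      ((‖(ψ : Matrix (Fin 2) (Fin 2) ℂ) 0 0‖ ^ (2 * k) : ℝ) : ℂ)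
  rw [← mul_pow, Complex.mul_conj, Complex.normSq_eq_norm_sq, ← Complex.ofReal_pow, ← pow_mul]

theorem int_term (b : ℝ) (M : ℕ) :
    ∫ ψ : Un 2, (2 * ‖(ψ : Matrix (Fin 2) (Fin 2) ℂ) 0 0‖ ^ 2 - 1) *
      (((ψ : Matrix (Fin 2) (Fin 2) ℂ) 0 0).re ^ (2 * M) *
        (((ψ : Matrix (Fin 2) (Fin 2) ℂ) 0 0).re ^ 2 / (2 * M + 2) -
          b * ((ψ : Matrix (Fin 2) (Fin 2) ℂ) 0 0).im ^ 2)) ∂(haarU 2) =
      dd (M + 1) * (1 / (2 * M + 2) - b / (2 * M + 1)) * ((M + 1) / ((M + 2) * (M + 3))) := by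
  have hc : ∀ ψ : Un 2, (((2 * ‖(ψ : Matrix (Fin 2) (Fin 2) ℂ) 0 0‖ ^ 2 - 1) *
      (((ψ : Matrix (Fin 2) (Fin 2) ℂ) 0 0).re ^ (2 * M) *
        (((ψ : Matrix (Fin 2) (Fin 2) ℂ) 0 0).re ^ 2 / (2 * M + 2) -
          b * ((ψ : Matrix (Fin 2) (Fin 2) ℂ) 0 0).im ^ 2)) : ℝ) : ℂ) =
      ∑ p ∈ Finset.range (2 * M + 3), (FIb_g b M p : ℂ) *
        (2 * ((ψ : Matrix (Fin 2) (Fin 2) ℂ) 0 0 ^ (p + 1) *
          (starRingEnd ℂ ((ψ : Matrix (Fin 2) (Fin 2) ℂ) 0 0)) ^ (2 * M + 2 - p + 1)) -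
          (ψ : Matrix (Fin 2) (Fin 2) ℂ) 0 0 ^ p *
          (starRingEnd ℂ ((ψ : Matrix (Fin 2) (Fin 2) ℂ) 0 0)) ^ (2 * M + 2 - p)) := by
    intro ψ
    set z := (ψ : Matrix (Fin 2) (Fin 2) ℂ) 0 0 with hz
    have h1 : ((‖z‖ ^ 2 : ℝ) : ℂ) = z * starRingEnd ℂ z := by
      rw [Complex.mul_conj, Complex.normSq_eq_norm_sq]
    rw [Complex.ofReal_mul, FIb_point z b M]
    have h2 : ((2 * ‖z‖ ^ 2 - 1 : ℝ) : ℂ) = 2 * (z * starRingEnd ℂ z) - 1 := by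
      rw [← h1]
      push_cast
      ring
    rw [h2, Finset.mul_sum]
    refine Finset.sum_congr rfl fun p _ => ?_
    rw [pow_succ z p, pow_succ (starRingEnd ℂ z)]
    ring
  have hint : ∀ p ∈ Finset.range (2 * M + 3), Integrable (fun ψ : Un 2 => (FIb_g b M p : ℂ) *
        (2 * ((ψ : Matrix (Fin 2) (Fin 2) ℂ) 0 0 ^ (p + 1) *
          (starRingEnd ℂ ((ψ : Matrix (Fin 2) (Fin 2) ℂ) 0 0)) ^ (2 * M + 2 - p + 1)) -
          (ψ : Matrix (Fin 2) (Fin 2) ℂ) 0 0 ^ p *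
          (starRingEnd ℂ ((ψ : Matrix (Fin 2) (Fin 2) ℂ) 0 0)) ^ (2 * M + 2 - p))) (haarU 2) := by
    intro p _
    exact (((FIb_int (p + 1) (2 * M + 2 - p + 1)).const_mul 2).sub
      (FIb_int p (2 * M + 2 - p))).const_mul _
  have hI : ((∫ ψ : Un 2, (2 * ‖(ψ : Matrix (Fin 2) (Fin 2) ℂ) 0 0‖ ^ 2 - 1) *
      (((ψ : Matrix (Fin 2) (Fin 2) ℂ) 0 0).re ^ (2 * M) *
        (((ψ : Matrix (Fin 2) (Fin 2) ℂ) 0 0).re ^ 2 / (2 * M + 2) -
          b * ((ψ : Matrix (Fin 2) (Fin 2) ℂ) 0 0).im ^ 2)) ∂(haarU 2) : ℝ) : ℂ) =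
      ∑ p ∈ Finset.range (2 * M + 3), (FIb_g b M p : ℂ) *
        (2 * ∫ ψ : Un 2, ((ψ : Matrix (Fin 2) (Fin 2) ℂ) 0 0 ^ (p + 1) *
          (starRingEnd ℂ ((ψ : Matrix (Fin 2) (Fin 2) ℂ) 0 0)) ^ (2 * M + 2 - p + 1))
            ∂(haarU 2) -
          ∫ ψ : Un 2, (ψ : Matrix (Fin 2) (Fin 2) ℂ) 0 0 ^ p *
          (starRingEnd ℂ ((ψ : Matrix (Fin 2) (Fin 2) ℂ) 0 0)) ^ (2 * M + 2 - p)
            ∂(haarU 2)) := by
    rw [← integral_complex_ofReal, integral_congr_ae (Filter.Eventually.of_forall hc),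
      integral_finsetSum _ hint]
    refine Finset.sum_congr rfl fun p _ => ?_
    rw [integral_const_mul, integral_sub ((FIb_int (p + 1) (2 * M + 2 - p + 1)).const_mul 2)
      (FIb_int p (2 * M + 2 - p)), integral_const_mul]
  rw [Finset.sum_eq_single (M + 1)] at hI
  · have e1 : 2 * M + 2 - (M + 1) = M + 1 := by omega
    rw [e1, FIb_diag (M + 1), FIb_diag (M + 1 + 1), FIb_mid] at hI
    have h2 : ((2 : ℝ) * (1 / (((M + 1 + 1 : ℕ) : ℝ) + 1)) - 1 / (((M + 1 : ℕ) : ℝ) + 1)) =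
        (M + 1) / ((M + 2) * (M + 3)) := by
      push_cast
      field_simp
      ring
    rw [← h2]
    have h3 : ((dd (M + 1) * (1 / (2 * M + 2) - b / (2 * M + 1)) : ℝ) : ℂ) *
        (2 * ((1 / (((M + 1 + 1 : ℕ) : ℝ) + 1) : ℝ) : ℂ) -
          ((1 / (((M + 1 : ℕ) : ℝ) + 1) : ℝ) : ℂ)) =
        ((dd (M + 1) * (1 / (2 * M + 2) - b / (2 * M + 1)) *
          (2 * (1 / (((M + 1 + 1 : ℕ) : ℝ) + 1)) - 1 / (((M + 1 : ℕ) : ℝ) + 1)) : ℝ) : ℂ) := by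
      push_cast
      ring
    rw [h3] at hI
    exact Complex.ofReal_injective hI
  · intro p hp hpM
    rw [Finset.mem_range] at hp
    have hne1 : p + 1 ≠ 2 * M + 2 - p + 1 := by omega
    have hne2 : p ≠ 2 * M + 2 - p := by omega
    rw [moment_mixed hne1, moment_mixed hne2]
    ring
  · intro h
    exact absurd (Finset.mem_range.2 (by omega)) h

private theorem FIb_pt_one : pt (1 : Un 2) = (1, 0) := by
  unfold pt
  simp

private theorem FIb_zle (ψ : Un 2) : ‖(ψ : Matrix (Fin 2) (Fin 2) ℂ) 0 0‖ ^ 2 ≤ 1 := by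
  have h := nsq_pt ψ
  unfold nsq pt at h
  simp only at h
  rw [Complex.normSq_eq_norm_sq, Complex.normSq_eq_norm_sq] at h
  nlinarith [sq_nonneg ‖(ψ : Matrix (Fin 2) (Fin 2) ℂ) 1 0‖]

/-- the series for the kernel along `pt ψ` -/
private theorem FIb_hasSum (b : ℝ) (ψ : Un 2) :
    HasSum (fun M : ℕ => dd M * (((ψ : Matrix (Fin 2) (Fin 2) ℂ) 0 0).re ^ (2 * M) *
      (((ψ : Matrix (Fin 2) (Fin 2) ℂ) 0 0).re ^ 2 / (2 * M + 2) -
        b * ((ψ : Matrix (Fin 2) (Fin 2) ℂ) 0 0).im ^ 2))) (1 - Ker b 1 (1, 0) (pt ψ)) := by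
  have h := hasSum_ker b (c := 1) (by norm_num) (1, 0) (pt ψ) (by simp [nsq]) (nsq_pt ψ)
  have h1 : dotR (1, 0) (pt ψ) = ((ψ : Matrix (Fin 2) (Fin 2) ℂ) 0 0).re := by
    simp [dotR, pt]
  have h2 : ta 1 (1, 0) (pt ψ) = ((ψ : Matrix (Fin 2) (Fin 2) ℂ) 0 0).im := by
    simp [ta, pt]
  rw [h1, h2] at h
  exact h

private theorem FIb_ker_le (b : ℝ) (ψ : Un 2) : |Ker b 1 (1, 0) (pt ψ)| ≤ 1 + |b| := by
  have h := ker_pt_le b 1 ψ
  rwa [FIb_pt_one] at h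

private theorem FIb_dd_nonneg (m : ℕ) : 0 ≤ dd m := by
  unfold dd
  positivity

/-- partial sums are bounded -/
private theorem FIb_partial (b : ℝ) (ψ : Un 2) (K : ℕ) :
    |∑ M ∈ Finset.range K, dd M * (((ψ : Matrix (Fin 2) (Fin 2) ℂ) 0 0).re ^ (2 * M) *
      (((ψ : Matrix (Fin 2) (Fin 2) ℂ) 0 0).re ^ 2 / (2 * M + 2) -
        b * ((ψ : Matrix (Fin 2) (Fin 2) ℂ) 0 0).im ^ 2))| ≤ 2 + |b| * 3 := by
  set x := ((ψ : Matrix (Fin 2) (Fin 2) ℂ) 0 0).re with hx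
  set y := ((ψ : Matrix (Fin 2) (Fin 2) ℂ) 0 0).im with hy
  have hxe : ∀ M : ℕ, 0 ≤ x ^ (2 * M) := fun M => by
    rw [pow_mul]
    exact pow_nonneg (sq_nonneg x) M
  have h0 := FIb_hasSum 0 ψ
  have h1 := FIb_hasSum 1 ψ
  rw [← hx, ← hy] at h0 h1
  have k0 := abs_le.1 (FIb_ker_le 0 ψ)
  have k1 := abs_le.1 (FIb_ker_le 1 ψ)
  rw [abs_zero] at k0
  rw [abs_one] at k1
  have hd := h0.sub h1
  have e0 : ∀ M : ℕ, dd M * (x ^ (2 * M) * (x ^ 2 / (2 * M + 2) - 0 * y ^ 2)) =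
      dd M * (x ^ (2 * M) * (x ^ 2 / (2 * M + 2))) := fun M => by ring
  have e1 : ∀ M : ℕ, dd M * (x ^ (2 * M) * (x ^ 2 / (2 * M + 2) - 0 * y ^ 2)) -
      dd M * (x ^ (2 * M) * (x ^ 2 / (2 * M + 2) - 1 * y ^ 2)) =
      dd M * (x ^ (2 * M) * y ^ 2) := fun M => by ring
  simp only [e1] at hd
  simp only [e0] at h0
  have n0 : ∀ M : ℕ, 0 ≤ dd M * (x ^ (2 * M) * (x ^ 2 / (2 * M + 2))) := fun M =>
    mul_nonneg (FIb_dd_nonneg M) (mul_nonneg (hxe M) (by positivity))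
  have n1 : ∀ M : ℕ, 0 ≤ dd M * (x ^ (2 * M) * y ^ 2) := fun M =>
    mul_nonneg (FIb_dd_nonneg M) (mul_nonneg (hxe M) (sq_nonneg y))
  have s0 : ∑ M ∈ Finset.range K, dd M * (x ^ (2 * M) * (x ^ 2 / (2 * M + 2))) ≤ 2 := by
    have := sum_le_hasSum (Finset.range K) (fun M _ => n0 M) h0
    linarith [k0.1]
  have s1 : ∑ M ∈ Finset.range K, dd M * (x ^ (2 * M) * y ^ 2) ≤ 3 := by
    have := sum_le_hasSum (Finset.range K) (fun M _ => n1 M) hd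
    linarith [k0.1, k1.2]
  have p0 : 0 ≤ ∑ M ∈ Finset.range K, dd M * (x ^ (2 * M) * (x ^ 2 / (2 * M + 2))) :=
    Finset.sum_nonneg fun M _ => n0 M
  have p1 : 0 ≤ ∑ M ∈ Finset.range K, dd M * (x ^ (2 * M) * y ^ 2) :=
    Finset.sum_nonneg fun M _ => n1 M
  have e2 : ∑ M ∈ Finset.range K, dd M * (x ^ (2 * M) * (x ^ 2 / (2 * M + 2) - b * y ^ 2)) =
      (∑ M ∈ Finset.range K, dd M * (x ^ (2 * M) * (x ^ 2 / (2 * M + 2)))) -
        b * ∑ M ∈ Finset.range K, dd M * (x ^ (2 * M) * y ^ 2) := by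
    rw [Finset.mul_sum, ← Finset.sum_sub_distrib]
    exact Finset.sum_congr rfl fun M _ => by ring
  rw [e2]
  calc |(∑ M ∈ Finset.range K, dd M * (x ^ (2 * M) * (x ^ 2 / (2 * M + 2)))) -
        b * ∑ M ∈ Finset.range K, dd M * (x ^ (2 * M) * y ^ 2)| ≤
      |∑ M ∈ Finset.range K, dd M * (x ^ (2 * M) * (x ^ 2 / (2 * M + 2)))| +
        |b * ∑ M ∈ Finset.range K, dd M * (x ^ (2 * M) * y ^ 2)| := abs_sub _ _
    _ ≤ 2 + |b| * 3 := by
        rw [abs_of_nonneg p0, abs_mul, abs_of_nonneg p1]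
        exact add_le_add s0 (mul_le_mul_of_nonneg_left s1 (abs_nonneg b))

theorem int_reduced_pos {b : ℝ} (hb : 5 / 9 < b) :
    0 < ∫ ψ : Un 2, (2 * ‖(ψ : Matrix (Fin 2) (Fin 2) ℂ) 0 0‖ ^ 2 - 1) *
        Ker b 1 (1, 0) (pt ψ) ∂(haarU 2) := by
  set w : Un 2 → ℝ := fun ψ => 2 * ‖(ψ : Matrix (Fin 2) (Fin 2) ℂ) 0 0‖ ^ 2 - 1 with hw
  have hwc : Continuous w := (continuous_const.mul (FIb_cont.norm.pow 2)).sub continuous_const
  have hwb : ∀ ψ, |w ψ| ≤ 1 := by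
    intro ψ
    have h1 := FIb_zle ψ
    have h2 : 0 ≤ ‖(ψ : Matrix (Fin 2) (Fin 2) ℂ) 0 0‖ ^ 2 := sq_nonneg _
    rw [abs_le]
    constructor <;> simp only [hw] <;> linarith
  set P : ℕ → Un 2 → ℝ := fun K ψ => ∑ M ∈ Finset.range K,
    dd M * (((ψ : Matrix (Fin 2) (Fin 2) ℂ) 0 0).re ^ (2 * M) *
      (((ψ : Matrix (Fin 2) (Fin 2) ℂ) 0 0).re ^ 2 / (2 * M + 2) -
        b * ((ψ : Matrix (Fin 2) (Fin 2) ℂ) 0 0).im ^ 2)) with hP
  have hre : Continuous (fun ψ : Un 2 => ((ψ : Matrix (Fin 2) (Fin 2) ℂ) 0 0).re) :=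
    Complex.continuous_re.comp FIb_cont
  have him : Continuous (fun ψ : Un 2 => ((ψ : Matrix (Fin 2) (Fin 2) ℂ) 0 0).im) :=
    Complex.continuous_im.comp FIb_cont
  have hTc : ∀ M : ℕ, Continuous (fun ψ : Un 2 =>
      (((ψ : Matrix (Fin 2) (Fin 2) ℂ) 0 0).re ^ (2 * M) *
      (((ψ : Matrix (Fin 2) (Fin 2) ℂ) 0 0).re ^ 2 / (2 * M + 2) -
        b * ((ψ : Matrix (Fin 2) (Fin 2) ℂ) 0 0).im ^ 2))) := fun M =>
    (hre.pow (2 * M)).mul (((hre.pow 2).div_const _).sub (continuous_const.mul (him.pow 2)))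
  have hPc : ∀ K, Continuous (P K) := fun K =>
    continuous_finsetSum _ fun M _ => continuous_const.mul (hTc M)
  -- convergence of the integrals
  have hlim : Filter.Tendsto (fun K => ∫ ψ, w ψ * P K ψ ∂(haarU 2)) Filter.atTop
      (nhds (∫ ψ, w ψ * (1 - Ker b 1 (1, 0) (pt ψ)) ∂(haarU 2))) := by
    refine tendsto_integral_of_dominated_convergence (fun _ => 2 + |b| * 3) ?_ ?_ ?_ ?_
    · intro K
      exact (hwc.mul (hPc K)).aestronglyMeasurable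
    · exact integrable_const _
    · intro K
      refine Filter.Eventually.of_forall fun ψ => ?_
      rw [Real.norm_eq_abs, abs_mul]
      have h1 := FIb_partial b ψ K
      have h2 := hwb ψ
      calc |w ψ| * |P K ψ| ≤ 1 * (2 + |b| * 3) :=
            mul_le_mul h2 h1 (abs_nonneg _) zero_le_one
        _ = _ := one_mul _
    · refine Filter.Eventually.of_forall fun ψ => ?_
      exact (FIb_hasSum b ψ).tendsto_sum_nat.const_mul (w ψ)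
  -- the integrals
  have hval : ∀ K, ∫ ψ, w ψ * P K ψ ∂(haarU 2) = ∑ M ∈ Finset.range K,
      dd M * (dd (M + 1) * (1 / (2 * M + 2) - b / (2 * M + 1)) *
        ((M + 1) / ((M + 2) * (M + 3)))) := by
    intro K
    have h1 : ∀ ψ : Un 2, w ψ * P K ψ = ∑ M ∈ Finset.range K, dd M * (w ψ *
        (((ψ : Matrix (Fin 2) (Fin 2) ℂ) 0 0).re ^ (2 * M) *
      (((ψ : Matrix (Fin 2) (Fin 2) ℂ) 0 0).re ^ 2 / (2 * M + 2) -
        b * ((ψ : Matrix (Fin 2) (Fin 2) ℂ) 0 0).im ^ 2))) := by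
      intro ψ
      rw [hP]
      simp only
      rw [Finset.mul_sum]
      exact Finset.sum_congr rfl fun M _ => by ring
    rw [integral_congr_ae (Filter.Eventually.of_forall h1), integral_finsetSum]
    · refine Finset.sum_congr rfl fun M _ => ?_
      rw [integral_const_mul, int_term b M]
    · intro M _
      exact integrable_of_continuous (continuous_const.mul (hwc.mul (hTc M)))
  -- upper bound
  have hub : ∀ K, 1 ≤ K → ∑ M ∈ Finset.range K,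
      dd M * (dd (M + 1) * (1 / (2 * M + 2) - b / (2 * M + 1)) *
        ((M + 1) / ((M + 2) * (M + 3)))) ≤ -((b - 5 / 9) * (dd 0 * dd 1 / 6)) := by
    intro K hK
    have h1 : ∑ M ∈ Finset.range K,
        dd M * (dd (M + 1) * (1 / (2 * M + 2) - b / (2 * M + 1)) *
          ((M + 1) / ((M + 2) * (M + 3)))) =
        (1 / 2) * ∑ m ∈ Finset.range K, dd m * dd (m + 1) * (8 * m - 1) /
          (9 * (2 * m + 1) * (m + 2) * (m + 3)) - (b - 5 / 9) * ∑ m ∈ Finset.range K,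
            dd m * dd (m + 1) * ((m + 1) / ((2 * m + 1) * (m + 2) * (m + 3))) := by
      rw [Finset.mul_sum, Finset.mul_sum, ← Finset.sum_sub_distrib]
      refine Finset.sum_congr rfl fun m _ => ?_
      have a1 : (2 * (m : ℝ) + 1) ≠ 0 := by positivity
      have a2 : (2 * (m : ℝ) + 2) ≠ 0 := by positivity
      have a3 : ((m : ℝ) + 2) ≠ 0 := by positivity
      have a4 : ((m : ℝ) + 3) ≠ 0 := by positivity
      field_simp
      ring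
    rw [h1, tele_one]
    have h2 : (1 : ℝ) / 2 * (-(2 / 9) * K * dd K ^ 2 / ((K + 1) * (K + 2))) ≤ 0 := by
      have : 0 ≤ (K : ℝ) * dd K ^ 2 / ((K + 1) * (K + 2)) := by positivity
      have e : (1 : ℝ) / 2 * (-(2 / 9) * K * dd K ^ 2 / ((K + 1) * (K + 2))) =
          -(1 / 9) * ((K : ℝ) * dd K ^ 2 / ((K + 1) * (K + 2))) := by ring
      rw [e]
      linarith
    have h3 : dd 0 * dd 1 / 6 ≤ ∑ m ∈ Finset.range K,
            dd m * dd (m + 1) * (((m : ℝ) + 1) / ((2 * m + 1) * (m + 2) * (m + 3))) := by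
      have h4 := Finset.single_le_sum (f := fun m : ℕ =>
            dd m * dd (m + 1) * (((m : ℝ) + 1) / ((2 * m + 1) * (m + 2) * (m + 3))))
            (s := Finset.range K) (fun m _ => mul_nonneg (mul_nonneg (FIb_dd_nonneg m)
              (FIb_dd_nonneg (m + 1))) (by positivity)) (Finset.mem_range.2 hK)
      refine le_trans (le_of_eq ?_) h4
      norm_num
      ring
    have h5 : 0 ≤ b - 5 / 9 := by linarith
    have h6 := mul_le_mul_of_nonneg_left h3 h5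
    linarith
  have hle : ∫ ψ, w ψ * (1 - Ker b 1 (1, 0) (pt ψ)) ∂(haarU 2) ≤
      -((b - 5 / 9) * (dd 0 * dd 1 / 6)) := by
    refine le_of_tendsto hlim (Filter.eventually_atTop.2 ⟨1, fun K hK => ?_⟩)
    rw [hval K]
    exact hub K hK
  have hneg : ∫ ψ, w ψ * (1 - Ker b 1 (1, 0) (pt ψ)) ∂(haarU 2) < 0 := by
    refine lt_of_le_of_lt hle ?_
    have h1 : 0 < dd 0 * dd 1 / 6 := by
      have := mul_pos (dd_pos 0) (dd_pos 1)
      linarith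
    have h2 : 0 < b - 5 / 9 := by linarith
    have := mul_pos h2 h1
    linarith
  have hKm : Measurable (fun ψ : Un 2 => Ker b 1 (1, 0) (pt ψ)) := by
    have h := (measurable_ker_pt b).comp (measurable_const.prodMk measurable_id :
      Measurable (fun ψ : Un 2 => ((1 : Un 2), ψ)))
    have e : (fun q : Un 2 × Un 2 => Ker b 1 (pt q.1) (pt q.2)) ∘
        (fun ψ : Un 2 => ((1 : Un 2), ψ)) = fun ψ : Un 2 => Ker b 1 (1, 0) (pt ψ) := by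
      funext ψ
      show Ker b 1 (pt 1) (pt ψ) = _
      rw [FIb_pt_one]
    rw [← e]
    exact h
  have hKi : Integrable (fun ψ : Un 2 => w ψ * Ker b 1 (1, 0) (pt ψ)) (haarU 2) := by
    refine Integrable.of_bound (hwc.measurable.mul hKm).aestronglyMeasurable (1 + |b|)
      (Filter.Eventually.of_forall fun ψ => ?_)
    rw [Real.norm_eq_abs, abs_mul]
    calc |w ψ| * |Ker b 1 (1, 0) (pt ψ)| ≤ 1 * (1 + |b|) :=
          mul_le_mul (hwb ψ) (FIb_ker_le b ψ) (abs_nonneg _) zero_le_one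
      _ = _ := one_mul _
  have hw0 : ∫ ψ, w ψ ∂(haarU 2) = 0 := by
    have h1 := moment 1
    have hi : Integrable (fun ψ : Un 2 => ‖(ψ : Matrix (Fin 2) (Fin 2) ℂ) 0 0‖ ^ (2 * 1))
        (haarU 2) := integrable_of_continuous (FIb_cont.norm.pow (2 * 1))
    have e : ∀ ψ : Un 2, w ψ = 2 * ‖(ψ : Matrix (Fin 2) (Fin 2) ℂ) 0 0‖ ^ (2 * 1) - 1 := by
      intro ψ
      simp only [hw, mul_one]
    rw [integral_congr_ae (Filter.Eventually.of_forall e),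
      integral_sub (hi.const_mul 2) (integrable_const _), integral_const_mul, h1]
    simp
    norm_num
  have hsplit : ∫ ψ, w ψ * (1 - Ker b 1 (1, 0) (pt ψ)) ∂(haarU 2) =
      ∫ ψ, w ψ ∂(haarU 2) - ∫ ψ, w ψ * Ker b 1 (1, 0) (pt ψ) ∂(haarU 2) := by
    rw [← integral_sub (integrable_of_continuous hwc) hKi]
    exact integral_congr_ae (Filter.Eventually.of_forall fun ψ => by
      show w ψ * (1 - Ker b 1 (1, 0) (pt ψ)) = w ψ - w ψ * Ker b 1 (1, 0) (pt ψ)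
      ring)
  rw [hsplit, hw0] at hneg
  have hfin : 0 < ∫ ψ, w ψ * Ker b 1 (1, 0) (pt ψ) ∂(haarU 2) := by linarith
  exact hfin

end Pool.Agent.H89.CZ
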