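import Mathlib
import Pool.Agent.H89.CZ.HB

set_option autoImplicit false

/-!
# FSamp: sampling

`P` a probability measure on `X`, `F : X → X → ℝ` bounded and measurable (jointly), with
`∫∫ F > 0`.  Then there are `N` and `x : Fin N → X` with `∑_{j,l} F (x j) (x l) > 0`.

Proof.  Otherwise, integrating over the product measure `P^N` (`Measure.pi`):
`0 ≥ ∑_{j,l} ∫ F (x j) (x l) = N (N-1) ∫∫ F + N ∫ F(x,x)` for all `N`; divide by `N²` and let
`N → ∞`: `∫∫ F ≤ 0`.  For `j ≠ l` the pair `(x j, x l)` has law `P × P`.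
-/

open MeasureTheory

noncomputable section

namespace Pool.Agent.H89.CZ

private theorem FSamp_pair {X : Type*} [MeasurableSpace X] (P : Measure X)
    [IsProbabilityMeasure P] {N : ℕ} (j l : Fin N) (hjl : j ≠ l) :
    (Measure.pi (fun _ : Fin N => P)).map (fun x => (x j, x l)) = P.prod P := by
  have hind : ProbabilityTheory.iIndepFun (fun (i : Fin N) (ω : Fin N → X) => (id (ω i) : X))
      (Measure.pi (fun _ : Fin N => P)) :=
    ProbabilityTheory.iIndepFun_pi (X := fun _ => (id : X → X)) (fun _ => aemeasurable_id)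
  have h1 := (hind.indepFun hjl)
  have h2 := (ProbabilityTheory.indepFun_iff_map_prod_eq_prod_map_map
    (measurable_pi_apply j).aemeasurable (measurable_pi_apply l).aemeasurable).1 h1
  have e : ∀ i : Fin N, (Measure.pi (fun _ : Fin N => P)).map (fun x : Fin N → X => x i) = P :=
    fun i => (measurePreserving_eval (fun _ : Fin N => P) i).map_eq
  have h3 : (Measure.pi (fun _ : Fin N => P)).map (fun x : Fin N → X => (x j, x l)) =
      ((Measure.pi (fun _ : Fin N => P)).map (fun x : Fin N → X => x j)).prod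
        ((Measure.pi (fun _ : Fin N => P)).map (fun x : Fin N → X => x l)) := h2
  rw [h3, e j, e l]

theorem sampling {X : Type*} [MeasurableSpace X] (P : Measure X) [IsProbabilityMeasure P]
    (F : X → X → ℝ) (hF : Measurable (fun q : X × X => F q.1 q.2)) (B : ℝ)
    (hB : ∀ x y, |F x y| ≤ B) (hI : 0 < ∫ x, ∫ y, F x y ∂P ∂P) :
    ∃ (N : ℕ) (x : Fin N → X), 0 < ∑ j, ∑ l, F (x j) (x l) := by
  by_contra hcon
  push Not at hcon
  set I : ℝ := ∫ x, ∫ y, F x y ∂P ∂P with hIdef
  obtain ⟨M, hM⟩ := exists_nat_gt (B / I)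
  set N : ℕ := M + 1 with hN
  set μ : Measure (Fin N → X) := Measure.pi (fun _ : Fin N => P) with hμ
  have hmeas : ∀ j l : Fin N, Measurable (fun x : Fin N → X => F (x j) (x l)) := by
    intro j l
    have h : Measurable (fun x : Fin N → X => (x j, x l)) :=
      (measurable_pi_apply j).prodMk (measurable_pi_apply l)
    exact hF.comp h
  have hint : ∀ j l : Fin N, Integrable (fun x : Fin N → X => F (x j) (x l)) μ := fun j l =>
    Integrable.of_bound (hmeas j l).aestronglyMeasurable B
      (Filter.Eventually.of_forall fun x => by rw [Real.norm_eq_abs]; exact hB _ _)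
  have hoff : ∀ j l : Fin N, j ≠ l → ∫ x, F (x j) (x l) ∂μ = I := by
    intro j l hjl
    have h1 : ∫ x, F (x j) (x l) ∂μ = ∫ q, F q.1 q.2 ∂(P.prod P) := by
      rw [← FSamp_pair P j l hjl, integral_map]
      · exact ((measurable_pi_apply j).prodMk (measurable_pi_apply l)).aemeasurable
      · exact hF.aestronglyMeasurable
    rw [h1, hIdef]
    exact integral_prod _ (Integrable.of_bound hF.aestronglyMeasurable B
      (Filter.Eventually.of_forall fun x => by rw [Real.norm_eq_abs]; exact hB _ _))
  have hdiag : ∀ j : Fin N, -B ≤ ∫ x, F (x j) (x j) ∂μ := by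
    intro j
    have h1 : ∫ _x : Fin N → X, (-B) ∂μ ≤ ∫ x, F (x j) (x j) ∂μ := by
      apply integral_mono (integrable_const _) (hint j j)
      intro x
      exact (abs_le.1 (hB _ _)).1
    simpa using h1
  have htot : ∫ x, ∑ j, ∑ l, F (x j) (x l) ∂μ ≤ 0 := integral_nonpos fun x => hcon N x
  have hsum : ∫ x, ∑ j, ∑ l, F (x j) (x l) ∂μ = ∑ j, ∑ l, ∫ x, F (x j) (x l) ∂μ := by
    rw [integral_finsetSum _ (fun j _ => integrable_finsetSum _ fun l _ => hint j l)]
    exact Finset.sum_congr rfl fun j _ => integral_finsetSum _ fun l _ => hint j l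
  have hlow : (N : ℝ) * (M * I - B) ≤ ∑ j : Fin N, ∑ l : Fin N, ∫ x, F (x j) (x l) ∂μ := by
    have h1 : ∀ j : Fin N, M * I - B ≤ ∑ l : Fin N, ∫ x, F (x j) (x l) ∂μ := by
      intro j
      rw [← Finset.add_sum_erase _ _ (Finset.mem_univ j),
        Finset.sum_congr rfl (fun l hl => hoff j l (Finset.ne_of_mem_erase hl).symm),
        Finset.sum_const, Finset.card_erase_of_mem (Finset.mem_univ _), Finset.card_univ,
        Fintype.card_fin, nsmul_eq_mul]
      have := hdiag j
      have e : ((N - 1 : ℕ) : ℝ) = M := by rw [hN]; simp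
      rw [e]
      linarith
    calc (N : ℝ) * (M * I - B) = ∑ _j : Fin N, (M * I - B) := by
          rw [Finset.sum_const, Finset.card_univ, Fintype.card_fin, nsmul_eq_mul]
      _ ≤ _ := Finset.sum_le_sum fun j _ => h1 j
  have hpos : 0 < (N : ℝ) * (M * I - B) := by
    apply mul_pos
    · rw [hN]; positivity
    · rw [div_lt_iff₀ hI] at hM
      linarith
  rw [hsum] at htot
  linarith

end Pool.Agent.H89.CZ
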