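import Mathlib
import Pool.Agent.H89.CZ.FIb
import Pool.Agent.H89.CZ.FSamp

set_option autoImplicit false

/-!
# FConf: a finite configuration violating the reversed Cauchy–Schwarz inequality

`b > 5/9`.  There are points `x : Fin 4 ⊕ Fin N → ℂ × ℂ`, weights `lam > 0`, `u` with
`∑ lam_j u_l Ker b 1 (x_j) (x_l) = 0`, `∑ u_j u_l Ker b 1 (x_j) (x_l) > 0`, and the first four
points are the basis vectors `(1,0), (i,0), (0,1), (0,i)`.

Proof.  `σ (x, y) = (y, x)`; `Ker b 1` and `nsq` are `σ`-invariant, `dl (σ u) = - dl u`.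
`F φ ψ = ∑_{ε, ε' ∈ {1, σ}} dl (ε pt φ) dl (ε' pt ψ) Ker b 1 (ε pt φ) (ε' pt ψ)` is bounded and
measurable; its double integral is four times `(1/3) ∫ …  > 0` of `int_reduce`, `int_reduced_pos`:
`σ (pt φ) = pt (s φ)`, `s` the permutation matrix in `U(2)` (`swapU` in UProj/Avg), left
invariance.  By `sampling` there are
`φ_1, …, φ_N` with `∑_{j,l} F (φ_j) (φ_l) > 0`.  The configuration: the four basis vectors with
`lam = 1`, `u = 0`, and the `2N` points `pt φ_j`, `σ (pt φ_j)` with `lam = 1` and `u = dl` (so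
`u = dl (pt φ_j)`, `- dl (pt φ_j)`).  The family of points is `σ`-invariant (up to a permutation
`π` of the index set: it exchanges `(1,0)` and `(0,1)`, `(i,0)` and `(0,i)`, `pt φ_j` and
`σ (pt φ_j)`), `lam ∘ π = lam` and `u ∘ π = - u`, so `∑ lam_j u_l Ker = - ∑ lam_j u_l Ker = 0`.  And
`∑ u_j u_l Ker = ∑_{j,l} F (φ_j) (φ_l) > 0`.
Index the `2N` points by `Fin N ⊕ Fin N` first and transport to `Fin (N + N)`
(`finSumFinEquiv`).
-/

open MeasureTheory Pool.Agent.H61.UProj

noncomputable section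

namespace Pool.Agent.H89.CZ

/-- the four real basis vectors of `ℂ × ℂ` -/
def bas (l : Fin 4) : ℂ × ℂ := ![(1, 0), (Complex.I, 0), (0, 1), (0, Complex.I)] l

private theorem FConf_ker_swap (b : ℝ) (u v : ℂ × ℂ) : Ker b 1 u.swap v.swap = Ker b 1 u v := by
  have h1 : dotR u.swap v.swap = dotR u v := by simp [dotR, add_comm]
  have h2 : ∀ u : ℂ × ℂ, nsq u.swap = nsq u := fun u => by simp [nsq, add_comm]
  have h3 : ta 1 u.swap v.swap = ta 1 u v := by simp [ta, add_comm]
  unfold Ker ar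
  rw [h1, h2, h2, h3]

private theorem FConf_ker_swap' (b : ℝ) (u v : ℂ × ℂ) : Ker b 1 u.swap v = Ker b 1 u v.swap := by
  conv_lhs => rw [← Prod.swap_swap v]
  rw [FConf_ker_swap]

private theorem FConf_dl_swap (u : ℂ × ℂ) : dl u.swap = - dl u := by
  simp [dl]

private theorem FConf_dl_le (φ : Un 2) : |dl (pt φ)| ≤ 1 := by
  have h := nsq_pt φ
  unfold nsq at h
  unfold dl
  have h1 := Complex.normSq_nonneg (pt φ).1
  have h2 := Complex.normSq_nonneg (pt φ).2
  rw [abs_le]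
  constructor <;> linarith

private def FConf_s : Un 2 :=
  ⟨(Equiv.swap (0 : Fin 2) 1).permMatrix ℂ, by
    rw [Matrix.mem_unitaryGroup_iff, Matrix.star_eq_conjTranspose,
      Matrix.conjTranspose_permMatrix, Equiv.swap_inv, ← Matrix.permMatrix_mul, Equiv.swap_mul_self,
      Matrix.permMatrix_one]⟩

private theorem FConf_pt_s (φ : Un 2) : pt (FConf_s * φ) = (pt φ).swap := by
  have h : ∀ a b : Fin 2, ((FConf_s * φ : Un 2) : Matrix (Fin 2) (Fin 2) ℂ) a b =
      (φ : Matrix (Fin 2) (Fin 2) ℂ) (Equiv.swap 0 1 a) b := by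
    intro a b
    change (((Equiv.swap (0 : Fin 2) 1).permMatrix ℂ) * (φ : Matrix (Fin 2) (Fin 2) ℂ)) a b = _
    rw [Equiv.Perm.permMatrix, PEquiv.toMatrix_toPEquiv_mul]
    rfl
  unfold pt
  rw [h, h]
  simp

/-- the symmetrized kernel -/
private def FConf_G (b : ℝ) (φ ψ : Un 2) : ℝ :=
  dl (pt φ) * dl (pt ψ) * (Ker b 1 (pt φ) (pt ψ) - Ker b 1 (pt φ) (pt ψ).swap)

private theorem FConf_G_eq (b : ℝ) (φ ψ : Un 2) : FConf_G b φ ψ =
    dl (pt φ) * dl (pt ψ) * Ker b 1 (pt φ) (pt ψ) +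
      dl (pt φ) * dl (pt (FConf_s * ψ)) * Ker b 1 (pt φ) (pt (FConf_s * ψ)) := by
  unfold FConf_G
  rw [FConf_pt_s, FConf_dl_swap]
  ring

private theorem FConf_meas (b : ℝ) : Measurable (fun q : Un 2 × Un 2 =>
    dl (pt q.1) * dl (pt q.2) * Ker b 1 (pt q.1) (pt q.2)) :=
  ((continuous_dl_pt.measurable.comp measurable_fst).mul
    (continuous_dl_pt.measurable.comp measurable_snd)).mul (measurable_ker_pt b)

private theorem FConf_bound (b : ℝ) (φ ψ : Un 2) :
    |dl (pt φ) * dl (pt ψ) * Ker b 1 (pt φ) (pt ψ)| ≤ 1 + |b| := by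
  rw [abs_mul, abs_mul]
  have h1 := FConf_dl_le φ
  have h2 := FConf_dl_le ψ
  have h3 := ker_pt_le b φ ψ
  have h4 : |dl (pt φ)| * |dl (pt ψ)| ≤ 1 := mul_le_one₀ h1 (abs_nonneg _) h2
  calc _ ≤ 1 * |Ker b 1 (pt φ) (pt ψ)| := mul_le_mul_of_nonneg_right h4 (abs_nonneg _)
    _ ≤ _ := by rw [one_mul]; exact h3

private theorem FConf_int {b : ℝ} (hb : 5 / 9 < b) :
    0 < ∫ φ, ∫ ψ, FConf_G b φ ψ ∂(haarU 2) ∂(haarU 2) := by
  have h1 : ∀ φ, ∫ ψ, FConf_G b φ ψ ∂(haarU 2) =
      2 * ∫ ψ, dl (pt φ) * dl (pt ψ) * Ker b 1 (pt φ) (pt ψ) ∂(haarU 2) := by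
    intro φ
    have hm : Measurable (fun ψ : Un 2 => dl (pt φ) * dl (pt ψ) * Ker b 1 (pt φ) (pt ψ)) :=
      (FConf_meas b).comp (measurable_const.prodMk measurable_id)
    have hi : Integrable (fun ψ : Un 2 => dl (pt φ) * dl (pt ψ) * Ker b 1 (pt φ) (pt ψ))
        (haarU 2) :=
      Integrable.of_bound hm.aestronglyMeasurable (1 + |b|)
        (Filter.Eventually.of_forall fun ψ => FConf_bound b φ ψ)
    have hi' : Integrable (fun ψ : Un 2 => dl (pt φ) * dl (pt (FConf_s * ψ)) *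
        Ker b 1 (pt φ) (pt (FConf_s * ψ))) (haarU 2) :=
      Integrable.of_bound (hm.comp (measurable_const_mul FConf_s)).aestronglyMeasurable (1 + |b|)
        (Filter.Eventually.of_forall fun ψ => FConf_bound b φ (FConf_s * ψ))
    have h2 : (fun ψ => FConf_G b φ ψ) = fun ψ => dl (pt φ) * dl (pt ψ) * Ker b 1 (pt φ) (pt ψ) +
        dl (pt φ) * dl (pt (FConf_s * ψ)) * Ker b 1 (pt φ) (pt (FConf_s * ψ)) := by
      funext ψ
      exact FConf_G_eq b φ ψ
    rw [h2, integral_add hi hi',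
      integral_mulLeft (fun ψ => dl (pt φ) * dl (pt ψ) * Ker b 1 (pt φ) (pt ψ)) FConf_s]
    ring
  have h3 := int_reduced_pos hb
  simp only [h1]
  rw [integral_const_mul, int_reduce]
  positivity

theorem exists_conf {b : ℝ} (hb : 5 / 9 < b) :
    ∃ (N : ℕ) (x : Fin 4 ⊕ Fin N → ℂ × ℂ) (lam u : Fin 4 ⊕ Fin N → ℝ),
      (∀ l, x (Sum.inl l) = bas l) ∧ (∀ j, 0 < lam j) ∧
      ∑ j, ∑ l, lam j * u l * Ker b 1 (x j) (x l) = 0 ∧
      0 < ∑ j, ∑ l, u j * u l * Ker b 1 (x j) (x l) := by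
  have hmeas : Measurable (fun q : Un 2 × Un 2 => FConf_G b q.1 q.2) := by
    have h1 : Measurable (fun q : Un 2 × Un 2 => ((q.1, FConf_s * q.2) : Un 2 × Un 2)) :=
      measurable_fst.prodMk ((measurable_const_mul FConf_s).comp measurable_snd)
    have h2 := (FConf_meas b).add ((FConf_meas b).comp h1)
    have h3 : (fun q : Un 2 × Un 2 => FConf_G b q.1 q.2) = _ := funext fun q => FConf_G_eq b q.1 q.2
    rw [h3]
    exact h2
  have hbd : ∀ φ ψ, |FConf_G b φ ψ| ≤ 2 * (1 + |b|) := by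
    intro φ ψ
    rw [FConf_G_eq]
    refine (abs_add_le _ _).trans ?_
    have h1 := FConf_bound b φ ψ
    have h2 := FConf_bound b φ (FConf_s * ψ)
    linarith
  obtain ⟨N, φ, hφ⟩ := sampling (haarU 2) (FConf_G b) hmeas _ hbd (FConf_int hb)
  -- the configuration
  obtain ⟨y, hy⟩ : ∃ y : Fin N → ℂ × ℂ, y = fun j => pt (φ j) := ⟨_, rfl⟩
  refine ⟨N + N, Sum.elim bas (Fin.append y fun j => (y j).swap), fun _ => 1,
    Sum.elim (fun _ => 0) (Fin.append (fun j => dl (y j)) fun j => - dl (y j)), fun l => rfl,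
    fun _ => one_pos, ?_, ?_⟩
  · -- the total kernel is symmetric
    have hK : ∀ p : ℂ × ℂ, ∑ j, Ker b 1 (Sum.elim bas (Fin.append y fun j => (y j).swap) j) p.swap =
        ∑ j, Ker b 1 (Sum.elim bas (Fin.append y fun j => (y j).swap) j) p := by
      intro p
      rw [Fintype.sum_sum_type, Fintype.sum_sum_type]
      simp only [Sum.elim_inl, Sum.elim_inr, Fin.sum_univ_add, Fin.append_left, Fin.append_right,
        FConf_ker_swap, Fin.sum_univ_four]
      have b0 : bas 0 = (bas 2).swap := rfl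
      have b1 : bas 1 = (bas 3).swap := rfl
      have e1 : Ker b 1 (bas 0) p.swap = Ker b 1 (bas 2) p := by rw [b0, FConf_ker_swap]
      have e2 : Ker b 1 (bas 1) p.swap = Ker b 1 (bas 3) p := by rw [b1, FConf_ker_swap]
      have e3 : Ker b 1 (bas 2) p.swap = Ker b 1 (bas 0) p := by rw [b0, FConf_ker_swap']
      have e4 : Ker b 1 (bas 3) p.swap = Ker b 1 (bas 1) p := by rw [b1, FConf_ker_swap']
      have e5 : ∀ j, Ker b 1 (y j).swap p = Ker b 1 (y j) p.swap := fun j => FConf_ker_swap' b _ _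
      rw [e1, e2, e3, e4]
      simp only [e5]
      ring
    rw [Finset.sum_comm]
    have h1 : ∀ l, ∑ j, (fun _ => (1 : ℝ)) j *
        Sum.elim (fun _ => 0) (Fin.append (fun j => dl (y j)) fun j => - dl (y j)) l *
        Ker b 1 (Sum.elim bas (Fin.append y fun j => (y j).swap) j)
          (Sum.elim bas (Fin.append y fun j => (y j).swap) l) =
        Sum.elim (fun _ => 0) (Fin.append (fun j => dl (y j)) fun j => - dl (y j)) l *
        ∑ j, Ker b 1 (Sum.elim bas (Fin.append y fun j => (y j).swap) j)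
          (Sum.elim bas (Fin.append y fun j => (y j).swap) l) := by
      intro l
      rw [Finset.mul_sum]
      refine Finset.sum_congr rfl fun j _ => ?_
      simp only [one_mul]
    rw [Finset.sum_congr rfl fun l _ => h1 l, Fintype.sum_sum_type, Fin.sum_univ_add]
    simp only [Sum.elim_inl, Sum.elim_inr, Fin.append_left, Fin.append_right, zero_mul,
      Finset.sum_const_zero, zero_add, hK]
    rw [← Finset.sum_add_distrib]
    refine Finset.sum_eq_zero fun j _ => ?_
    ring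
  · have h1 : ∑ j, ∑ l, Sum.elim (fun _ => 0) (Fin.append (fun j => dl (y j)) fun j => - dl (y j)) j *
        Sum.elim (fun _ => 0) (Fin.append (fun j => dl (y j)) fun j => - dl (y j)) l *
        Ker b 1 (Sum.elim bas (Fin.append y fun j => (y j).swap) j)
          (Sum.elim bas (Fin.append y fun j => (y j).swap) l) =
        2 * ∑ j, ∑ l, FConf_G b (φ j) (φ l) := by
      simp only [Fintype.sum_sum_type, Sum.elim_inl, Sum.elim_inr, zero_mul, mul_zero,
        Finset.sum_const_zero, zero_add, Fin.sum_univ_add, Fin.append_left, Fin.append_right]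
      rw [← Finset.sum_add_distrib, Finset.mul_sum]
      refine Finset.sum_congr rfl fun j _ => ?_
      rw [← Finset.sum_add_distrib, ← Finset.sum_add_distrib, ← Finset.sum_add_distrib,
        Finset.mul_sum]
      refine Finset.sum_congr rfl fun l _ => ?_
      rw [FConf_ker_swap, FConf_ker_swap']
      unfold FConf_G
      rw [hy]
      ring
    rw [h1]
    positivity

end Pool.Agent.H89.CZ
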