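import Mathlib
import Pool.Agent.H89.CZ.FConf
import Pool.Agent.H89.CZ.GvEq

set_option autoImplicit false

/-!
# FFrame: the explicit frame for the counterexample

`exists_frame`: `n ≥ 2`, `k + 4 = 2n`.  Let `p, q` be two vectors of the standard complex basis
(`p = single i0 1`, `q = single i1 1`), `e = (p, ip, q, iq)`: real orthonormal,
`om (e 0) (e 1) = Im ⟨p, ip⟩ = 1`, `om (e 2) (e 3) = 1`, the others vanish.  `w : Fin k → Cn n` is
a real orthonormal basis of the real orthogonal complement of `span e` (dimension `2n - 4 = k`),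
`emb (x, y) = x • p + y • q`, `prj e (emb P) = P` and `emb (bas l) = e l`.

`gv_frame`: with `C = |D| al n x`, `D = detO o (e 0, e 1, w) (e 2) (e 3)`; by `gv_append`, `gv_eq`
(with `om (e 0) (e 1) = om (e 2) (e 3) = 1`), `al > 0` (`al_pos`, `om_sq_le_one`) and
`Ker b 1 = ar + b (Im + Im)²/ar`.  `D ≠ 0`: the family `(e 0, e 1, w, e 2, e 3)` is orthonormal,
hence linearly independent (`detO_ne_zero` with the family `(e 0, e 1, w)` and the pair
`(e 2, e 3)`).
-/

open MeasureTheory Pool.Agent.H61.UProj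

noncomputable section

namespace Pool.Agent.H89.CZ

variable {n k : ℕ}

private theorem FFrame_om (z w : Cn n) : om z w = (∑ j, (starRingEnd ℂ) (z j) * w j).im := by
  unfold om
  congr 1
  simp only [PiLp.inner_apply, RCLike.inner_apply]
  exact Finset.sum_congr rfl fun j _ => mul_comm _ _

/-- the sum `∑ conj (z j) * w j` for multiples of basis vectors -/
private theorem FFrame_ip (i : Fin n) (x : ℂ) (w : Cn n) :
    ∑ j, (starRingEnd ℂ) ((EuclideanSpace.single i x : Cn n) j) * w j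
      = (starRingEnd ℂ) x * w i := by
  rw [Finset.sum_eq_single i]
  · simp
  · intro j _ hj
    simp [hj]
  · intro h
    exact absurd (Finset.mem_univ i) h

/-- the embedding -/
private def FFrame_emb (i0 i1 : Fin n) : ℂ × ℂ →ₗ[ℝ] Cn n where
  toFun P := EuclideanSpace.single i0 P.1 + EuclideanSpace.single i1 P.2
  map_add' P Q := by
    ext j
    simp only [Prod.fst_add, Prod.snd_add, PiLp.add_apply, PiLp.single_apply]
    split_ifs <;> ring
  map_smul' t P := by
    ext j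
    simp only [Prod.smul_fst, Prod.smul_snd, RingHom.id_apply, PiLp.add_apply, PiLp.smul_apply,
      PiLp.single_apply, smul_add]
    split_ifs <;> simp

private theorem FFrame_emb_apply (i0 i1 : Fin n) (P : ℂ × ℂ) :
    FFrame_emb i0 i1 P = EuclideanSpace.single i0 P.1 + EuclideanSpace.single i1 P.2 := rfl

/-- the inner products of embedded vectors -/
private theorem FFrame_ipe (i0 i1 : Fin n) (h : i0 ≠ i1) (P Q : ℂ × ℂ) :
    ∑ j, (starRingEnd ℂ) ((FFrame_emb i0 i1 P) j) * (FFrame_emb i0 i1 Q) j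
      = (starRingEnd ℂ) P.1 * Q.1 + (starRingEnd ℂ) P.2 * Q.2 := by
  have h1 : ∀ j, (starRingEnd ℂ) ((FFrame_emb i0 i1 P) j) * (FFrame_emb i0 i1 Q) j
      = (starRingEnd ℂ) ((EuclideanSpace.single i0 P.1 : Cn n) j) * (FFrame_emb i0 i1 Q) j
        + (starRingEnd ℂ) ((EuclideanSpace.single i1 P.2 : Cn n) j) * (FFrame_emb i0 i1 Q) j := by
    intro j
    rw [← add_mul, ← map_add]
    rfl
  simp only [h1]
  rw [Finset.sum_add_distrib, FFrame_ip, FFrame_ip]
  have h2 : (FFrame_emb i0 i1 Q) i0 = Q.1 := by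
    rw [FFrame_emb_apply]
    simp [h]
  have h3 : (FFrame_emb i0 i1 Q) i1 = Q.2 := by
    rw [FFrame_emb_apply]
    simp [h.symm]
  rw [h2, h3]

private theorem FFrame_inner (i0 i1 : Fin n) (h : i0 ≠ i1) (P Q : ℂ × ℂ) :
    inner ℝ (FFrame_emb i0 i1 P) (FFrame_emb i0 i1 Q)
      = ((starRingEnd ℂ) P.1 * Q.1 + (starRingEnd ℂ) P.2 * Q.2).re := by
  rw [real_inner_eq, FFrame_ipe i0 i1 h]

private theorem FFrame_omE (i0 i1 : Fin n) (h : i0 ≠ i1) (P Q : ℂ × ℂ) :
    om (FFrame_emb i0 i1 P) (FFrame_emb i0 i1 Q)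
      = ((starRingEnd ℂ) P.1 * Q.1 + (starRingEnd ℂ) P.2 * Q.2).im := by
  rw [FFrame_om, FFrame_ipe i0 i1 h]

theorem exists_frame (hn : 2 ≤ n) (hk : k + 4 = 2 * n) :
    ∃ (e : Fin 4 → Cn n) (w : Fin k → Cn n) (emb : ℂ × ℂ →ₗ[ℝ] Cn n),
      Orthonormal ℝ e ∧ Orthonormal ℝ w ∧ (∀ j l, inner ℝ (w j) (e l) = 0) ∧
      om (e 0) (e 1) = 1 ∧ om (e 2) (e 3) = 1 ∧ om (e 0) (e 2) = 0 ∧ om (e 0) (e 3) = 0 ∧
      om (e 1) (e 2) = 0 ∧ om (e 1) (e 3) = 0 ∧
      (∀ P, prj e (emb P) = P) ∧ ∀ l, emb (bas l) = e l := by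
  set i0 : Fin n := ⟨0, by omega⟩ with hi0
  set i1 : Fin n := ⟨1, by omega⟩ with hi1
  have h01 : i0 ≠ i1 := by
    intro h
    have := congrArg Fin.val h
    simp [hi0, hi1] at this
  set e : Fin 4 → Cn n := fun l => FFrame_emb i0 i1 (bas l) with he
  have hon : Orthonormal ℝ e := by
    rw [orthonormal_iff_ite]
    intro j l
    show inner ℝ (FFrame_emb i0 i1 (bas j)) (FFrame_emb i0 i1 (bas l)) = _
    rw [FFrame_inner i0 i1 h01]
    fin_cases j <;> fin_cases l <;> simp [bas]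
  have hspan : Module.finrank ℝ (Submodule.span ℝ (Set.range e)) = 4 := by
    rw [finrank_span_eq_card hon.linearIndependent]
    simp
  have hfr : Module.finrank ℝ (Cn n) = 2 * n := by
    rw [finrank_real_of_complex, finrank_euclideanSpace_fin]
  have hperp : Module.finrank ℝ ((Submodule.span ℝ (Set.range e))ᗮ : Submodule ℝ (Cn n)) = k := by
    have := Submodule.finrank_add_finrank_orthogonal (Submodule.span ℝ (Set.range e))
    rw [hspan, hfr] at this
    omega
  set b := (stdOrthonormalBasis ℝ ((Submodule.span ℝ (Set.range e))ᗮ : Submodule ℝ (Cn n))).reindex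
    (finCongr hperp) with hb
  refine ⟨e, fun j => (b j : Cn n), FFrame_emb i0 i1, hon, ?_, ?_, ?_, ?_, ?_, ?_, ?_, ?_, ?_,
    fun l => rfl⟩
  · have := b.orthonormal
    rw [orthonormal_iff_ite] at this ⊢
    intro j l
    rw [← this j l]
    rfl
  · intro j l
    rw [real_inner_comm]
    exact (Submodule.mem_orthogonal _ _).mp (b j).2 (e l)
      (Submodule.subset_span (Set.mem_range_self l))
  · show om (FFrame_emb i0 i1 (bas 0)) (FFrame_emb i0 i1 (bas 1)) = 1
    rw [FFrame_omE i0 i1 h01]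
    simp [bas]
  · show om (FFrame_emb i0 i1 (bas 2)) (FFrame_emb i0 i1 (bas 3)) = 1
    rw [FFrame_omE i0 i1 h01]
    simp [bas]
  · show om (FFrame_emb i0 i1 (bas 0)) (FFrame_emb i0 i1 (bas 2)) = 0
    rw [FFrame_omE i0 i1 h01]
    simp [bas]
  · show om (FFrame_emb i0 i1 (bas 0)) (FFrame_emb i0 i1 (bas 3)) = 0
    rw [FFrame_omE i0 i1 h01]
    simp [bas]
  · show om (FFrame_emb i0 i1 (bas 1)) (FFrame_emb i0 i1 (bas 2)) = 0
    rw [FFrame_omE i0 i1 h01]
    simp [bas]
  · show om (FFrame_emb i0 i1 (bas 1)) (FFrame_emb i0 i1 (bas 3)) = 0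
    rw [FFrame_omE i0 i1 h01]
    simp [bas]
  · intro P
    show ((⟨inner ℝ (FFrame_emb i0 i1 (bas 0)) (FFrame_emb i0 i1 P),
        inner ℝ (FFrame_emb i0 i1 (bas 1)) (FFrame_emb i0 i1 P)⟩ : ℂ),
      (⟨inner ℝ (FFrame_emb i0 i1 (bas 2)) (FFrame_emb i0 i1 P),
        inner ℝ (FFrame_emb i0 i1 (bas 3)) (FFrame_emb i0 i1 P)⟩ : ℂ)) = P
    rw [FFrame_inner i0 i1 h01, FFrame_inner i0 i1 h01, FFrame_inner i0 i1 h01,
      FFrame_inner i0 i1 h01]
    refine Prod.ext ?_ ?_
    · apply Complex.ext <;> simp [bas]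
    · apply Complex.ext <;> simp [bas]

/-- the family `(e 0, e 1, w)` is orthonormal -/
private theorem FFrame_on {e : Fin 4 → Cn n} (he : Orthonormal ℝ e)
    {w : Fin k → Cn n} (hw : Orthonormal ℝ w) (hwe : ∀ j l, inner ℝ (w j) (e l) = 0) :
    Orthonormal ℝ (Fin.cons (e 0) (Fin.cons (e 1) w : Fin (k + 1) → Cn n) : Fin (k + 2) → Cn n) := by
  have he' := orthonormal_iff_ite.mp he
  have hw' := orthonormal_iff_ite.mp hw
  have hwe' : ∀ j l, inner ℝ (e l) (w j) = 0 := fun j l => by rw [real_inner_comm]; exact hwe j l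
  rw [orthonormal_iff_ite]
  intro i j
  refine Fin.cases ?_ (fun i => ?_) i
  · refine Fin.cases ?_ (fun j => ?_) j
    · simp [he.1]
    · refine Fin.cases ?_ (fun j => ?_) j
      · simp only [Fin.cons_zero, Fin.cons_succ]
        rw [he' 0 1]
        simp
      · simp only [Fin.cons_zero, Fin.cons_succ]
        rw [hwe' j 0, if_neg (Fin.succ_ne_zero _).symm]
  · refine Fin.cases ?_ (fun i => ?_) i
    · refine Fin.cases ?_ (fun j => ?_) j
      · simp only [Fin.cons_zero, Fin.cons_succ]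
        rw [he' 1 0]
        simp
      · refine Fin.cases ?_ (fun j => ?_) j
        · simp [he.1]
        · simp only [Fin.cons_zero, Fin.cons_succ]
          rw [hwe' j 1, if_neg]
          simp [Fin.ext_iff]
    · refine Fin.cases ?_ (fun j => ?_) j
      · simp only [Fin.cons_zero, Fin.cons_succ]
        rw [hwe i 0, if_neg (Fin.succ_ne_zero _)]
      · refine Fin.cases ?_ (fun j => ?_) j
        · simp only [Fin.cons_zero, Fin.cons_succ]
          rw [hwe i 1, if_neg]
          simp [Fin.ext_iff]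
        · simp only [Fin.cons_succ]
          rw [hw' i j]
          simp

theorem gv_frame (o : OrthonormalBasis (Fin (k + 2 + 2)) ℝ (Cn n)) (hn : 2 ≤ n)
    {a : Fin 2 → Cn n} (ha : Orthonormal ℝ a) {e : Fin 4 → Cn n} (he : Orthonormal ℝ e)
    {w : Fin k → Cn n} (hw : Orthonormal ℝ w) (hwe : ∀ j l, inner ℝ (w j) (e l) = 0)
    (h01 : om (e 0) (e 1) = 1) (h23 : om (e 2) (e 3) = 1) (h02 : om (e 0) (e 2) = 0)
    (h03 : om (e 0) (e 3) = 0) (h12 : om (e 1) (e 2) = 0) (h13 : om (e 1) (e 3) = 0) :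
    ∃ C : ℝ, 0 < C ∧ ∀ p q : Cn n, gv o (a 0) (a 1) (Fin.append w ![p, q]) =
      C * Ker (be n (om (a 0) (a 1) ^ 2) / al n (om (a 0) (a 1) ^ 2)) 1 (prj e p) (prj e q) := by
  have hal : 0 < al n (om (a 0) (a 1) ^ 2) := al_pos hn (om_sq_le_one ha)
  have hf : Orthonormal ℝ (![e 2, e 3] : Fin 2 → Cn n) := by
    have he' := orthonormal_iff_ite.mp he
    rw [orthonormal_iff_ite]
    intro i j
    fin_cases i <;> fin_cases j
    · simpa using he' 2 2
    · simpa using he' 2 3
    · simpa using he' 3 2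
    · simpa using he' 3 3
  have hD : detO o (Fin.cons (e 0) (Fin.cons (e 1) w : Fin (k + 1) → Cn n) : Fin (k + 2) → Cn n)
      (e 2) (e 3) ≠ 0 := by
    refine detO_ne_zero o hf (FFrame_on he hw hwe).linearIndependent ?_
    have he' := orthonormal_iff_ite.mp he
    intro j l
    refine Fin.cases ?_ (fun j => ?_) j
    · fin_cases l
      · simpa using he' 0 2
      · simpa using he' 0 3
    · refine Fin.cases ?_ (fun j => ?_) j
      · fin_cases l
        · simpa using he' 1 2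
        · simpa using he' 1 3
      · fin_cases l
        · simpa using hwe j 2
        · simpa using hwe j 3
  refine ⟨|detO o (Fin.cons (e 0) (Fin.cons (e 1) w : Fin (k + 1) → Cn n) : Fin (k + 2) → Cn n)
      (e 2) (e 3)| * al n (om (a 0) (a 1) ^ 2), mul_pos (abs_pos.mpr hD) hal, fun p q => ?_⟩
  rw [gv_append, gv_eq o hn ha he w hwe h02 h03 h12 h13, h01, h23]
  unfold Ker ta
  rw [one_mul, one_mul]
  have : al n (om (a 0) (a 1) ^ 2) ≠ 0 := hal.ne'
  field_simp

end Pool.Agent.H89.CZ
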