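import Mathlib
import Pool.Agent.H89.CZ.ZAdd

set_option autoImplicit false

/-!
# FLead: the leading term of `PZ` when some of the vectors are multiplied by a large number

`g` symmetric, zero when two entries agree, homogeneous.  `w : Fin k → V`, `x : Fin N → V`.

* `PZ_growth`: `|PZ d g (append (R w) x)| ≤ C R^k` for `R ≥ 1`, for some `C` (for every `d`).
  Induction on `k`, for all `d` and `g`: `append (R w) x = cons (R w 0) (append (R w') x)`;
  `PZ_cons` and homogeneity: `PZ (d+1) g (…) = PZ (d+1) g (append (R w') x) +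
  R · PZ d (g (cons (w 0) ·)) (append (R w') x)` (for `d = 0` use `PZ_zero_left`).
* `lead`: `PZ (k+2) g (append (R w) x) / R^k → PZ 2 (fun t => g (append w t)) x` as `R → ∞`.
  Induction on `k`, for all `g`: by `PZ_cons` the quotient for `k + 1` is
  `PZ (k+3) g (append (R w') x) / R^(k+1) + PZ (k+2) (g (cons (w 0) ·)) (append (R w') x) / R^k`;
  the first term tends to `0` by `PZ_growth`, the second one is the induction hypothesis;
  `cons (w 0) (append w' t) = append w t`.
-/

noncomputable section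

namespace Pool.Agent.H89.CZ

private theorem FLead_append {V : Type*} {k m : ℕ} (w : Fin (k + 1) → V) (t : Fin m → V)
    (i : Fin (k + 1 + m)) :
    Fin.append w t i = (Fin.cons (w 0) (Fin.append (fun j : Fin k => w j.succ) t) :
      Fin (k + m + 1) → V) (Fin.cast (by omega) i) := by
  refine Fin.addCases (fun j => ?_) (fun j => ?_) i
  · rw [Fin.append_left]
    refine Fin.cases ?_ (fun j => ?_) j
    · have h : Fin.cast (by omega : k + 1 + m = k + m + 1) (Fin.castAdd m (0 : Fin (k + 1))) = 0 := by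
        ext; simp
      rw [h, Fin.cons_zero]
    · have h : Fin.cast (by omega : k + 1 + m = k + m + 1) (Fin.castAdd m j.succ) =
          (Fin.castAdd m j).succ := by
        ext; simp
      rw [h, Fin.cons_succ, Fin.append_left]
  · rw [Fin.append_right]
    have h : Fin.cast (by omega : k + 1 + m = k + m + 1) (Fin.natAdd (k + 1) j) =
        (Fin.natAdd k j).succ := by
      ext; simp; omega
    rw [h, Fin.cons_succ, Fin.append_right]

private theorem FLead_step {V : Type*} (d k : ℕ) (g : (Fin (d + 1) → V) → ℝ)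
    (hsym : ∀ (σ : Equiv.Perm (Fin (d + 1))) (w : Fin (d + 1) → V), g (w ∘ σ) = g w)
    (halt : ∀ (w : Fin (d + 1) → V) (k l : Fin (d + 1)), k ≠ l → w k = w l → g w = 0)
    (w : Fin (k + 1) → V) {N : ℕ} (x : Fin N → V) :
    PZ (d + 1) g (Fin.append w x) = PZ (d + 1) g (Fin.append (fun j : Fin k => w j.succ) x) +
      PZ d (fun t => g (Fin.cons (w 0) t)) (Fin.append (fun j : Fin k => w j.succ) x) := by
  rw [← PZ_cons d g hsym halt]
  have h : (Fin.append w x : Fin (k + 1 + N) → V) =
      (Fin.cons (w 0) (Fin.append (fun j : Fin k => w j.succ) x) : Fin (k + N + 1) → V) ∘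
        finCongr (by omega : k + 1 + N = k + N + 1) := by
    funext i
    rw [FLead_append]
    rfl
  rw [h, PZ_congr_equiv]

section cons

variable {V : Type*} [AddCommGroup V] [Module ℝ V] {d : ℕ} {g : (Fin (d + 1) → V) → ℝ} (x : V)

omit [AddCommGroup V] [Module ℝ V] in
private theorem FLead_sym
    (hsym : ∀ (σ : Equiv.Perm (Fin (d + 1))) (w : Fin (d + 1) → V), g (w ∘ σ) = g w)
    (σ : Equiv.Perm (Fin d)) (w : Fin d → V) :
    g (Fin.cons x (w ∘ σ)) = g (Fin.cons x w) := by
  rw [← hsym (Equiv.Perm.decomposeFin.symm (0, σ)) (Fin.cons x w)]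
  congr 1
  funext i
  refine Fin.cases ?_ (fun j => ?_) i
  · simp
  · simp

omit [AddCommGroup V] [Module ℝ V] in
private theorem FLead_alt
    (halt : ∀ (w : Fin (d + 1) → V) (p q : Fin (d + 1)), p ≠ q → w p = w q → g w = 0)
    (w : Fin d → V) (p q : Fin d) (hpq : p ≠ q) (h : w p = w q) :
    g (Fin.cons x w) = 0 := by
  refine halt _ p.succ q.succ (fun h1 => hpq (Fin.succ_injective _ h1)) ?_
  rw [Fin.cons_succ, Fin.cons_succ, h]

private theorem FLead_hom
    (hhom : ∀ (t : Fin (d + 1) → ℝ) (w : Fin (d + 1) → V),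
      g (fun p => t p • w p) = (∏ p, |t p|) * g w) (s : ℝ) (t : Fin d → ℝ) (w : Fin d → V) :
    g (Fin.cons (s • x) (fun p => t p • w p)) = |s| * ((∏ p, |t p|) * g (Fin.cons x w)) := by
  have h := hhom (Fin.cons s t) (Fin.cons x w)
  rw [Fin.prod_univ_succ] at h
  simp only [Fin.cons_zero, Fin.cons_succ] at h
  rw [← mul_assoc, ← h]
  congr 1
  funext i
  refine Fin.cases ?_ (fun j => ?_) i
  · simp
  · simp

end cons

private theorem FLead_mul {V : Type*} (d : ℕ) (c : ℝ) (g : (Fin d → V) → ℝ) {N : ℕ}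
    (x : Fin N → V) : PZ d (fun t => c * g t) x = c * PZ d g x := by
  unfold PZ
  rw [← Finset.mul_sum, mul_div_assoc]

/-- one step for the scaled vectors -/
private theorem FLead_step' {V : Type*} [AddCommGroup V] [Module ℝ V] (d k : ℕ)
    (g : (Fin (d + 1) → V) → ℝ)
    (hsym : ∀ (σ : Equiv.Perm (Fin (d + 1))) (w : Fin (d + 1) → V), g (w ∘ σ) = g w)
    (halt : ∀ (w : Fin (d + 1) → V) (k l : Fin (d + 1)), k ≠ l → w k = w l → g w = 0)
    (hhom : ∀ (t : Fin (d + 1) → ℝ) (w : Fin (d + 1) → V),
      g (fun p => t p • w p) = (∏ p, |t p|) * g w)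
    (w : Fin (k + 1) → V) {N : ℕ} (x : Fin N → V) (R : ℝ) :
    PZ (d + 1) g (Fin.append (fun j => R • w j) x) =
      PZ (d + 1) g (Fin.append (fun j : Fin k => R • w j.succ) x) +
      |R| * PZ d (fun t => g (Fin.cons (w 0) t)) (Fin.append (fun j : Fin k => R • w j.succ) x) := by
  rw [FLead_step d k g hsym halt, ← FLead_mul]
  congr 2
  funext t
  have h := FLead_hom (w 0) hhom R (fun _ => 1) t
  simpa using h

theorem PZ_growth {V : Type*} [AddCommGroup V] [Module ℝ V] (k d : ℕ) (g : (Fin d → V) → ℝ)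
    (hsym : ∀ (σ : Equiv.Perm (Fin d)) (w : Fin d → V), g (w ∘ σ) = g w)
    (halt : ∀ (w : Fin d → V) (p q : Fin d), p ≠ q → w p = w q → g w = 0)
    (hhom : ∀ (t : Fin d → ℝ) (w : Fin d → V), g (fun p => t p • w p) = (∏ p, |t p|) * g w)
    (w : Fin k → V) {N : ℕ} (x : Fin N → V) :
    ∃ C : ℝ, 0 ≤ C ∧ ∀ R : ℝ, 1 ≤ R →
      |PZ d g (Fin.append (fun j => R • w j) x)| ≤ C * R ^ k := by
  induction k generalizing d with
  | zero =>
    refine ⟨|PZ d g (Fin.append w x)|, abs_nonneg _, fun R _ => ?_⟩
    have h : (fun j => R • w j) = w := by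
      funext j
      exact j.elim0
    rw [h, pow_zero, mul_one]
  | succ k ih =>
    cases d with
    | zero =>
      refine ⟨|g Fin.elim0|, abs_nonneg _, fun R hR => ?_⟩
      rw [PZ_zero_left]
      exact le_mul_of_one_le_right (abs_nonneg _) (one_le_pow₀ hR)
    | succ d =>
      obtain ⟨C1, h1, h2⟩ := ih (d + 1) g hsym halt hhom (fun j => w j.succ)
      obtain ⟨C2, h3, h4⟩ := ih d (fun t => g (Fin.cons (w 0) t)) (FLead_sym (w 0) hsym)
        (FLead_alt (w 0) halt) (fun t u => by simpa using FLead_hom (w 0) hhom 1 t u)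
        (fun j => w j.succ)
      refine ⟨C1 + C2, add_nonneg h1 h3, fun R hR => ?_⟩
      have hR0 : 0 ≤ R := le_trans zero_le_one hR
      rw [FLead_step' d k g hsym halt hhom, abs_of_nonneg hR0]
      refine (abs_add_le _ _).trans ?_
      rw [abs_mul, abs_of_nonneg hR0]
      have h5 := h2 R hR
      have h6 := h4 R hR
      have h7 : C1 * R ^ k ≤ C1 * R ^ (k + 1) :=
        mul_le_mul_of_nonneg_left (pow_le_pow_right₀ hR (Nat.le_succ k)) h1
      have h8 := mul_le_mul_of_nonneg_left h6 hR0
      have h9 : R * (C2 * R ^ k) = C2 * R ^ (k + 1) := by ring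
      rw [h9] at h8
      rw [add_mul]
      linarith

theorem lead {V : Type*} [AddCommGroup V] [Module ℝ V] (k : ℕ) (g : (Fin (k + 2) → V) → ℝ)
    (hsym : ∀ (σ : Equiv.Perm (Fin (k + 2))) (w : Fin (k + 2) → V), g (w ∘ σ) = g w)
    (halt : ∀ (w : Fin (k + 2) → V) (p q : Fin (k + 2)), p ≠ q → w p = w q → g w = 0)
    (hhom : ∀ (t : Fin (k + 2) → ℝ) (w : Fin (k + 2) → V),
      g (fun p => t p • w p) = (∏ p, |t p|) * g w)
    (w : Fin k → V) {N : ℕ} (x : Fin N → V) :
    Filter.Tendsto (fun R : ℝ => PZ (k + 2) g (Fin.append (fun j => R • w j) x) / R ^ k)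
      Filter.atTop (nhds (PZ 2 (fun t : Fin 2 → V => g (Fin.append w t)) x)) := by
  induction k with
  | zero =>
    have h1 : ∀ R : ℝ, (fun j => R • w j) = w := by
      intro R
      funext j
      exact j.elim0
    have h2 : PZ (0 + 2) g (Fin.append w x) = PZ 2 (fun t : Fin 2 → V => g (Fin.append w t)) x := by
      have h3 : (Fin.append w x : Fin (0 + N) → V) = x ∘ finCongr (by omega : 0 + N = N) := by
        funext i
        refine Fin.addCases (fun j => j.elim0) (fun j => ?_) i
        rw [Fin.append_right]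
        simp
      rw [h3, PZ_congr_equiv]
      unfold PZ
      congr 1
      refine Finset.sum_congr rfl fun f _ => ?_
      congr 1
      funext i
      refine Fin.addCases (fun j => j.elim0) (fun j => ?_) i
      rw [Fin.append_right]
      congr 2
      ext
      simp
    simp only [h1, pow_zero, div_one, h2]
    exact tendsto_const_nhds
  | succ k ih =>
    have e1 := ih (fun t => g (Fin.cons (w 0) t)) (FLead_sym (w 0) hsym)
        (FLead_alt (w 0) halt) (fun t u => by simpa using FLead_hom (w 0) hhom 1 t u)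
        (fun j => w j.succ)
    have e2 : (fun t : Fin 2 → V => (fun t => g (Fin.cons (w 0) t))
        (Fin.append (fun j : Fin k => w j.succ) t)) = fun t : Fin 2 → V => g (Fin.append w t) := by
      funext t
      show g _ = g _
      congr 1
      funext i
      exact (FLead_append w t i).symm
    rw [e2] at e1
    obtain ⟨C, hC, h1⟩ := PZ_growth k (k + 2 + 1) g hsym halt hhom (fun j => w j.succ) x
    have e3 : Filter.Tendsto (fun R : ℝ => PZ (k + 2 + 1) g
        (Fin.append (fun j : Fin k => R • w j.succ) x) / R ^ (k + 1)) Filter.atTop (nhds 0) := by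
      have h2 : Filter.Tendsto (fun R : ℝ => C / R) Filter.atTop (nhds 0) :=
        tendsto_const_nhds.div_atTop Filter.tendsto_id
      refine squeeze_zero_norm' ?_ h2
      filter_upwards [Filter.eventually_ge_atTop (1 : ℝ)] with R hR
      have hR0 : 0 < R := lt_of_lt_of_le zero_lt_one hR
      rw [Real.norm_eq_abs, abs_div, abs_of_pos (pow_pos hR0 (k + 1)), div_le_div_iff₀ (pow_pos hR0 _) hR0]
      have h3 := mul_le_mul_of_nonneg_right (h1 R hR) hR0.le
      calc _ ≤ _ := h3
        _ = C * R ^ (k + 1) := by ring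
    have e4 := e3.add e1
    rw [zero_add] at e4
    refine e4.congr' ?_
    filter_upwards [Filter.eventually_gt_atTop (0 : ℝ)] with R hR
    rw [show PZ (k + 1 + 2) g (Fin.append (fun j => R • w j) x) = _ from
      FLead_step' (k + 2) k g hsym halt hhom w x R, abs_of_pos hR, add_div]
    congr 1
    rw [pow_succ, mul_comm (R ^ k) R, mul_div_mul_left _ _ hR.ne']

end Pool.Agent.H89.CZ
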