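import Mathlib
import Pool.Agent.H89.CZ.FLead
import Pool.Agent.H89.CZ.FFrame
import Pool.Agent.H89.CZ.GAdj

set_option autoImplicit false

/-!
# FBody: zonotopes violating the Brunn–Minkowski inequality

`n ≥ 3`, `k + 4 = 2n` (from `o`), `x = om (a 0) (a 1) ^ 2 ≤ 1`, `5n + 2 < (9n - 2) x`.  Then
`b = be n x / al n x > 5/9` (`lt_be_div_al`).
Frame `e, w, emb` from `exists_frame`, constant `C` from `gv_frame`.

Let `(x, lam, u)` be the configuration of `exists_conf` for `b`, index set `Fin 4 ⊕ Fin N'`,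
transported to `Fin N` (`N = 4 + N'`, `finSumFinEquiv`).  `q(μ) = ∑_{j,l} μ_j μ_l Ker b 1 x_j x_l`.
Choose `t > 0` with `lam ± t u > 0`; `q(lam ± t u) = q(lam) + t² q(u) > q(lam)`
(symmetry of `Ker`).
For `R > 0` and `s ∈ {t, -t, 0}` let `A_R(s) = append (R w) ((lam + s u) emb x)`.
`zon A_R(t) + zon A_R(-t) = zon (2 A_R(0))` (`zon_add` with the vectors `append w (emb x)` and
weights) and `PZ (k+2) gv (2 v) = 2^(k+2) PZ (k+2) gv v` (`PZ_smul_const`).
By `lead`, `PZ_two`, `gv_frame` and homogeneity of `Ker`: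
`PZ (k+2) gv (A_R(s)) / R^k → (C / 2) q(lam + s u)`, so for large `R` the value of `PZ` for
`s = 0` is smaller than the values for `s = t` and `s = -t`.
With `VE_zon`, `p = 1/(k+2)`:
`VE (zon A_R(t) + zon A_R(-t))^p = 2 (VE (zon A_R(0)))^p`,
which is smaller than `VE (zon A_R(t))^p + VE (zon A_R(-t))^p`.
Interior: the `k + 4 = 2n` vectors `R w_j`, `(lam_l ± t u_l) emb (bas l)` (`l : Fin 4`, positive
multiples of `e l`) are linearly independent; `interior_zon`.
-/

open MeasureTheory Pool.Agent.H61.UProj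
open scoped ENNReal Pointwise

noncomputable section

namespace Pool.Agent.H89.CZ

variable {n k : ℕ}

private theorem FBody_ker_symm (b c : ℝ) (u v : ℂ × ℂ) : Ker b c u v = Ker b c v u := by
  have h1 : dotR u v = dotR v u := by
    simp [dotR, Complex.add_re, Complex.mul_re]; ring
  have h2 : ta c u v = -ta c v u := by
    simp [ta, Complex.mul_im]; ring
  have h3 : ar u v = ar v u := by
    simp only [ar, h1, mul_comm (nsq u)]
  unfold Ker
  rw [h3, h2]
  simp

private theorem FBody_ker_smul (b c s t : ℝ) (hs : 0 ≤ s) (ht : 0 ≤ t) (u v : ℂ × ℂ) :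
    Ker b c (s • u) (t • v) = s * t * Ker b c u v := by
  have h1 : dotR (s • u) (t • v) = s * t * dotR u v := by
    simp [dotR, Complex.add_re, Complex.mul_re]; ring
  have h2 : ta c (s • u) (t • v) = s * t * ta c u v := by
    simp [ta, Complex.mul_im]; ring
  have hn : ∀ (r : ℝ) (z : ℂ × ℂ), nsq (r • z) = r ^ 2 * nsq z := by
    intro r z
    simp [nsq, Complex.normSq_apply]; ring
  have h3 : ar (s • u) (t • v) = s * t * ar u v := by
    unfold ar
    rw [hn, hn, h1]
    have : s ^ 2 * nsq u * (t ^ 2 * nsq v) - (s * t * dotR u v) ^ 2 =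
        (s * t) ^ 2 * (nsq u * nsq v - dotR u v ^ 2) := by ring
    rw [this, Real.sqrt_mul (sq_nonneg _), Real.sqrt_sq (mul_nonneg hs ht)]
  unfold Ker
  rw [h3, h2]
  by_cases h : s * t = 0
  · simp [h]
  · by_cases h' : ar u v = 0
    · simp [h']
    · field_simp

private theorem FBody_li {N : ℕ} {e : Fin 4 → Cn n} (he : Orthonormal ℝ e)
    {w : Fin k → Cn n} (hw : Orthonormal ℝ w) (hwe : ∀ j l, inner ℝ (w j) (e l) = 0)
    (R : ℝ) (hR : R ≠ 0) (c : Fin 4 → ℝ) (hc : ∀ l, c l ≠ 0)
    (hdim : k + 4 = Module.finrank ℝ (Cn n)) (Z : Fin (4 + N) → Cn n)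
    (hZ : ∀ l, Z (Fin.castAdd N l) = c l • e l) :
    (interior (zon (Fin.append (fun j => R • w j) Z))).Nonempty := by
  have hle : k + 4 ≤ k + (4 + N) := by omega
  refine interior_zon (Fin.append (fun j => R • w j) (fun l => c l • e l)) ?_ hdim _
    (Fin.castLE hle) (Fin.castLE_injective hle) ?_
  · apply linearIndependent_of_ne_zero_of_inner_eq_zero (𝕜 := ℝ)
    · intro i
      refine Fin.addCases (fun j => ?_) (fun l => ?_) i
      · rw [Fin.append_left]
        exact smul_ne_zero hR (hw.ne_zero j)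
      · rw [Fin.append_right]
        exact smul_ne_zero (hc l) (he.ne_zero l)
    · intro i i' hii
      revert hii
      refine Fin.addCases (fun j => ?_) (fun l => ?_) i
      · refine Fin.addCases (fun j' => ?_) (fun l' => ?_) i'
        · intro hii
          have hjj : j ≠ j' := fun h => hii (by rw [h])
          rw [Fin.append_left, Fin.append_left, real_inner_smul_left, real_inner_smul_right,
            hw.2 hjj]
          simp
        · intro _
          rw [Fin.append_left, Fin.append_right, real_inner_smul_left, real_inner_smul_right,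
            hwe]
          simp
      · refine Fin.addCases (fun j' => ?_) (fun l' => ?_) i'
        · intro _
          rw [Fin.append_left, Fin.append_right, real_inner_smul_left, real_inner_smul_right,
            real_inner_comm, hwe]
          simp
        · intro hii
          have hll : l ≠ l' := fun h => hii (by rw [h])
          rw [Fin.append_right, Fin.append_right, real_inner_smul_left, real_inner_smul_right,
            he.2 hll]
          simp
  · intro i
    refine Fin.addCases (fun j => ?_) (fun l => ?_) i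
    · have h1 : Fin.castLE hle (Fin.castAdd 4 j) = Fin.castAdd (4 + N) j := rfl
      rw [h1, Fin.append_left, Fin.append_left]
    · have h1 : Fin.castLE hle (Fin.natAdd k l) = Fin.natAdd k (Fin.castAdd N l) := rfl
      rw [h1, Fin.append_right, Fin.append_right, hZ]

private theorem FBody_eps {ι : Type*} [Fintype ι] (lam u : ι → ℝ) (hlam : ∀ j, 0 < lam j) :
    ∃ t : ℝ, 0 < t ∧ (∀ j, 0 < lam j + t * u j) ∧ ∀ j, 0 < lam j + -t * u j := by
  have h1 : ∀ j, ∀ᶠ t in nhds (0 : ℝ), 0 < lam j + t * u j ∧ 0 < lam j + -t * u j := by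
    intro j
    have c1 : Filter.Tendsto (fun t : ℝ => lam j + t * u j) (nhds 0) (nhds (lam j + 0 * u j)) :=
      (Continuous.tendsto (by fun_prop) 0)
    have c2 : Filter.Tendsto (fun t : ℝ => lam j + -t * u j) (nhds 0)
        (nhds (lam j + -0 * u j)) := (Continuous.tendsto (by fun_prop) 0)
    refine (c1.eventually (lt_mem_nhds ?_)).and (c2.eventually (lt_mem_nhds ?_))
    · simpa using hlam j
    · simpa using hlam j
  have h2 : ∀ᶠ t in nhds (0 : ℝ), ∀ j, 0 < lam j + t * u j ∧ 0 < lam j + -t * u j :=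
    Filter.eventually_all.2 h1
  have h3 : ∀ᶠ t in nhdsWithin (0 : ℝ) (Set.Ioi 0),
      (∀ j, 0 < lam j + t * u j ∧ 0 < lam j + -t * u j) ∧ t ∈ Set.Ioi (0 : ℝ) :=
    (h2.filter_mono nhdsWithin_le_nhds).and self_mem_nhdsWithin
  obtain ⟨t, ht, ht0⟩ := h3.exists
  exact ⟨t, ht0, fun j => (ht j).1, fun j => (ht j).2⟩

private theorem FBody_quad {ι : Type*} [Fintype ι] (K : ι → ι → ℝ) (hK : ∀ j l, K j l = K l j)
    (lam u : ι → ℝ) (h0 : ∑ j, ∑ l, lam j * u l * K j l = 0) (s : ℝ) :
    ∑ j, ∑ l, (lam j + s * u j) * (lam l + s * u l) * K j l =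
      ∑ j, ∑ l, lam j * lam l * K j l + s ^ 2 * ∑ j, ∑ l, u j * u l * K j l := by
  have h1 : ∑ j, ∑ l, u j * lam l * K j l = 0 := by
    rw [Finset.sum_comm, ← h0]
    refine Finset.sum_congr rfl fun j _ => Finset.sum_congr rfl fun l _ => ?_
    rw [hK]; ring
  have h2 : ∑ j, ∑ l, (lam j + s * u j) * (lam l + s * u l) * K j l =
      ∑ j, ∑ l, lam j * lam l * K j l + s * ∑ j, ∑ l, lam j * u l * K j l +
        s * ∑ j, ∑ l, u j * lam l * K j l + s ^ 2 * ∑ j, ∑ l, u j * u l * K j l := by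
    simp only [Finset.mul_sum, ← Finset.sum_add_distrib]
    refine Finset.sum_congr rfl fun j _ => Finset.sum_congr rfl fun l _ => ?_
    ring
  rw [h2, h0, h1]; ring

theorem exists_fail (o : OrthonormalBasis (Fin (k + 2 + 2)) ℝ (Cn n)) (hn : 3 ≤ n)
    {a : Fin 2 → Cn n} (ha : Orthonormal ℝ a)
    (hx : 5 * n + 2 < (9 * n - 2) * om (a 0) (a 1) ^ 2) (J : Rn (k + 2) →ₗᵢ[ℝ] Cn n)
    (hJ : ∀ y l, inner ℝ (J y) (a l) = 0) :
    ∃ (N : ℕ) (v v' : Fin N → Cn n), (interior (zon v)).Nonempty ∧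
      (interior (zon v')).Nonempty ∧
      (VE (LinearMap.range J.toLinearMap) (zon v + zon v')) ^ (1 / ((k : ℝ) + 2)) <
        (VE (LinearMap.range J.toLinearMap) (zon v)) ^ (1 / ((k : ℝ) + 2)) +
          (VE (LinearMap.range J.toLinearMap) (zon v')) ^ (1 / ((k : ℝ) + 2)) := by
  have hn2 : 2 ≤ n := by omega
  have hdim : k + 4 = Module.finrank ℝ (Cn n) := by
    rw [Module.finrank_eq_card_basis o.toBasis]; simp
  have hk : k + 4 = 2 * n := by
    rw [hdim, finrank_real_of_complex, finrank_euclideanSpace_fin]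
  set b : ℝ := be n (om (a 0) (a 1) ^ 2) / al n (om (a 0) (a 1) ^ 2) with hbdef
  have hb : 5 / 9 < b := lt_be_div_al hn2 (om_sq_le_one ha) hx
  obtain ⟨e, w, emb, he, hw, hwe, h01, h23, h02, h03, h12, h13, hprj, hemb⟩ :=
    exists_frame (n := n) (k := k) hn2 hk
  obtain ⟨C, hC, hgv⟩ := gv_frame o hn2 ha he hw hwe h01 h23 h02 h03 h12 h13
  obtain ⟨N', x, lam', u', hx0, hlam', h0', hpos'⟩ := exists_conf hb
  -- transport to Fin (4 + N')
  set E : Fin 4 ⊕ Fin N' ≃ Fin (4 + N') := finSumFinEquiv with hE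
  let X : Fin (4 + N') → ℂ × ℂ := fun j => x (E.symm j)
  let lam : Fin (4 + N') → ℝ := fun j => lam' (E.symm j)
  let u : Fin (4 + N') → ℝ := fun j => u' (E.symm j)
  have hlam : ∀ j, 0 < lam j := fun j => hlam' _
  have h0 : ∑ j, ∑ l, lam j * u l * Ker b 1 (X j) (X l) = 0 := by
    rw [← h0', ← Equiv.sum_comp E.symm]
    refine Finset.sum_congr rfl fun j _ => ?_
    rw [← Equiv.sum_comp E.symm]
  have hpos : 0 < ∑ j, ∑ l, u j * u l * Ker b 1 (X j) (X l) := by
    refine hpos'.trans_eq ?_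
    rw [← Equiv.sum_comp E.symm]
    refine Finset.sum_congr rfl fun j _ => ?_
    rw [← Equiv.sum_comp E.symm]
  obtain ⟨t, ht, htp, htm⟩ := FBody_eps lam u hlam
  let Y : Fin (4 + N') → Cn n := fun j => emb (X j)
  have hY : ∀ l, Y (Fin.castAdd N' l) = e l := by
    intro l
    have : X (Fin.castAdd N' l) = bas l := by
      change x (finSumFinEquiv.symm (Fin.castAdd N' l)) = bas l
      rw [finSumFinEquiv_symm_apply_castAdd, hx0]
    change emb (X (Fin.castAdd N' l)) = e l
    rw [this, hemb]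
  let g : (Fin (k + 2) → Cn n) → ℝ := gv o (a 0) (a 1)
  let A : ℝ → ℝ → Fin (k + (4 + N')) → Cn n := fun R s =>
    Fin.append (fun j => R • w j) (fun l => (lam l + s * u l) • Y l)
  let P : ℝ → ℝ → ℝ := fun R s => PZ (k + 2) g (A R s)
  let q : ℝ → ℝ := fun s => ∑ j, ∑ l, (lam j + s * u j) * (lam l + s * u l) *
    Ker b 1 (X j) (X l)
  -- the limit
  have hlim : ∀ s : ℝ, (∀ j, 0 < lam j + s * u j) →
      Filter.Tendsto (fun R : ℝ => P R s / R ^ k) Filter.atTop (nhds (C / 2 * q s)) := by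
    intro s hs
    have h := lead k g (gv_perm o (a 0) (a 1))
      (fun w p q hpq h => gv_eq_zero o (a 0) (a 1) w p q hpq h) (gv_smul o (a 0) (a 1)) w
      (fun l => (lam l + s * u l) • Y l)
    have hval : PZ 2 (fun t : Fin 2 → Cn n => g (Fin.append w t))
        (fun l => (lam l + s * u l) • Y l) = C / 2 * q s := by
      rw [PZ_two]
      have : ∀ j l, g (Fin.append w ![(lam j + s * u j) • Y j, (lam l + s * u l) • Y l]) =
          C * ((lam j + s * u j) * (lam l + s * u l) * Ker b 1 (X j) (X l)) := by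
        intro j l
        have e1 : ∀ j, prj e ((lam j + s * u j) • Y j) = (lam j + s * u j) • X j := by
          intro j
          change prj e ((lam j + s * u j) • emb (X j)) = _
          rw [← map_smul, hprj]
        change gv o (a 0) (a 1) _ = _
        rw [hgv, e1, e1, FBody_ker_smul _ _ _ _ (hs j).le (hs l).le]
      simp only [this]
      simp only [q, ← Finset.mul_sum]
      ring
    rw [hval] at h
    exact h
  have hq : ∀ s : ℝ, q s = q 0 + s ^ 2 * ∑ j, ∑ l, u j * u l * Ker b 1 (X j) (X l) := by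
    intro s
    have e1 := FBody_quad (fun j l => Ker b 1 (X j) (X l))
      (fun j l => FBody_ker_symm b 1 (X j) (X l)) lam u h0 s
    have e2 := FBody_quad (fun j l => Ker b 1 (X j) (X l))
      (fun j l => FBody_ker_symm b 1 (X j) (X l)) lam u h0 0
    change (∑ j, ∑ l, (lam j + s * u j) * (lam l + s * u l) * Ker b 1 (X j) (X l)) =
      (∑ j, ∑ l, (lam j + 0 * u j) * (lam l + 0 * u l) * Ker b 1 (X j) (X l)) + _
    rw [e1, e2]; ring
  have hgap : ∀ s : ℝ, s ≠ 0 → C / 2 * q 0 < C / 2 * q s := by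
    intro s hs
    rw [hq s]
    have : 0 < C / 2 * (s ^ 2 * ∑ j, ∑ l, u j * u l * Ker b 1 (X j) (X l)) := by positivity
    linarith
  have hz : ∀ j, 0 < lam j + 0 * u j := fun j => by simpa using hlam j
  have hev : ∀ s : ℝ, s ≠ 0 → (∀ j, 0 < lam j + s * u j) →
      ∀ᶠ R in Filter.atTop, P R 0 < P R s := by
    intro s hs hs'
    have h := (hlim 0 hz).eventually_lt (hlim s hs') (hgap s hs)
    filter_upwards [h, Filter.eventually_gt_atTop (0 : ℝ)] with R h1 h2
    exact (div_lt_div_iff_of_pos_right (pow_pos h2 k)).1 h1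
  obtain ⟨R, ⟨h1, h2⟩, hR⟩ := (((hev t ht.ne' htp).and (hev (-t) (neg_ne_zero.2 ht.ne') htm)).and
    (Filter.eventually_gt_atTop (0 : ℝ))).exists
  have hP0 : 0 ≤ P R 0 := PZ_nonneg _ _ (gv_nonneg o (a 0) (a 1)) _
  refine ⟨k + (4 + N'), A R t, A R (-t), ?_, ?_, ?_⟩
  · refine FBody_li he hw hwe R hR.ne' (fun l => lam (Fin.castAdd N' l) +
      t * u (Fin.castAdd N' l)) (fun l => (htp _).ne') hdim _ (fun l => ?_)
    rw [hY]
  · refine FBody_li he hw hwe R hR.ne' (fun l => lam (Fin.castAdd N' l) +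
      -t * u (Fin.castAdd N' l)) (fun l => (htm _).ne') hdim _ (fun l => ?_)
    rw [hY]
  · -- the sum
    have hsum : zon (A R t) + zon (A R (-t)) = zon (fun j => (2 : ℝ) • A R 0 j) := by
      let B : Fin (k + (4 + N')) → Cn n := Fin.append (fun j => R • w j) Y
      let W : ℝ → Fin (k + (4 + N')) → ℝ := fun s =>
        Fin.append (fun _ => (1 : ℝ)) (fun l => lam l + s * u l)
      have hA : ∀ s, A R s = fun j => W s j • B j := by
        intro s
        funext i
        refine Fin.addCases (fun j => ?_) (fun l => ?_) i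
        · simp only [A, W, B, Fin.append_left, one_smul]
        · simp only [A, W, B, Fin.append_right]
      have hW : ∀ s, (∀ j, 0 < lam j + s * u j) → ∀ i, 0 ≤ W s i := by
        intro s hs i
        refine Fin.addCases (fun j => ?_) (fun l => ?_) i
        · simp only [W, Fin.append_left]; norm_num
        · simp only [W, Fin.append_right]; exact (hs l).le
      rw [hA t, hA (-t), hA 0, zon_add B (W t) (W (-t)) (hW t htp) (hW (-t) htm)]
      congr 1
      funext i
      rw [smul_smul]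
      congr 1
      refine Fin.addCases (fun j => ?_) (fun l => ?_) i
      · simp only [W, Fin.append_left]; norm_num
      · simp only [W, Fin.append_right]; ring
    have hp : (0 : ℝ) < 1 / ((k : ℝ) + 2) := by positivity
    rw [hsum, VE_zon o J ha hJ, VE_zon o J ha hJ, VE_zon o J ha hJ]
    have h3 : PZ (k + 2) (gv o (a 0) (a 1)) (fun j => (2 : ℝ) • A R 0 j) =
        2 ^ (k + 2) * P R 0 :=
      PZ_smul_const (k + 2) (gv o (a 0) (a 1)) (gv_smul o (a 0) (a 1)) (A R 0) 2 (by norm_num)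
    rw [h3, ENNReal.ofReal_mul (by positivity), ENNReal.mul_rpow_of_nonneg _ _ hp.le]
    have h4 : (ENNReal.ofReal (2 ^ (k + 2))) ^ (1 / ((k : ℝ) + 2)) = 2 := by
      rw [ENNReal.ofReal_pow (by norm_num), ← ENNReal.rpow_natCast, ← ENNReal.rpow_mul]
      have : ((k + 2 : ℕ) : ℝ) * (1 / ((k : ℝ) + 2)) = 1 := by
        push_cast
        field_simp
      rw [this, ENNReal.rpow_one]
      simp
    rw [h4, two_mul]
    have h5 : (ENNReal.ofReal (P R 0)) ^ (1 / ((k : ℝ) + 2)) <
        (ENNReal.ofReal (P R t)) ^ (1 / ((k : ℝ) + 2)) :=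
      ENNReal.rpow_lt_rpow ((ENNReal.ofReal_lt_ofReal_iff (hP0.trans_lt h1)).2 h1) hp
    have h6 : (ENNReal.ofReal (P R 0)) ^ (1 / ((k : ℝ) + 2)) <
        (ENNReal.ofReal (P R (-t))) ^ (1 / ((k : ℝ) + 2)) :=
      ENNReal.rpow_lt_rpow ((ENNReal.ofReal_lt_ofReal_iff (hP0.trans_lt h2)).2 h2) hp
    exact ENNReal.add_lt_add h5 h6

end Pool.Agent.H89.CZ
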