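import Mathlib
import Pool.Agent.H89.CZ.ZL
import Pool.Agent.H89.CZ.FBody
import Pool.Agent.H61.UProj.StmtEquiv

set_option autoImplicit false

/-!
# Main: assembly

`n ≥ 3`, `E` a real subspace, `(a, b)` a real orthonormal basis of `Eᗮ`.
Let `k = 2n - 4`, so `finrank E = 2n - 2 = k + 2` (`Submodule.finrank_add_finrank_orthogonal`,
`finrank ℝ (Cn n) = 2n`, `finrank_span_eq_card` for the orthonormal family).  `o`: the standard
orthonormal basis of `Cn n` reindexed to `Fin (k+2+2)`.  `J : Rn (k+2) → Cn n` an isometry with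
range `E` (`exists_iso` applied to an orthonormal basis of `E`, see `measurable_projVol` in
`UProj/Sanity.lean`); `inner ℝ (J y) a = 0` as `a ∈ Eᗮ`.  Orthonormal family `![a, b]`.

`HasBMZonoid → inequality`: by contraposition from `exists_fail`: `zon v`, `zon v'` are compact,
convex, with nonempty interior, and zonotopes (`isZonotope_iff` with `c = 0`), hence zonoids
(take `Z = K` in the definition).
`inequality → HasBMZonoid`: `bm_limit` with `bm_zonotope`, `p = 1/(k+2)`.
`VE_eq` (`UProj/StmtEquiv.lean`) identifies the two versions of `VE`.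
-/

open MeasureTheory Pool.Agent.H61.UProj
open scoped ENNReal Pointwise

noncomputable section

namespace Pool.Agent.H89.CZ

private theorem Main_finrank (n : ℕ) : Module.finrank ℝ (Cn n) = 2 * n := by
  rw [finrank_real_of_complex]
  simp

private theorem Main_zonotope {n N : ℕ} (v : Fin N → Cn n) : SD.IsZonotope (zon v) :=
  (isZonotope_iff _).2 ⟨N, 0, v, by simp⟩

private theorem Main_zonoid {n N : ℕ} (v : Fin N → Cn n) : SD.IsZonoid (zon v) :=
  ⟨isCompact_zon v, fun ε hε => ⟨zon v, Main_zonotope v, fun x hx => ⟨x, hx, by simpa using hε.le⟩,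
    fun x hx => ⟨x, hx, by simpa using hε.le⟩⟩⟩

theorem main_iff (n : ℕ) (hn : 3 ≤ n) (E : Submodule ℝ (Cn n)) (a b : Cn n)
    (hE : SD.IsONB ![a, b] Eᗮ) :
    SD.HasBMZonoid E ↔ (9 * n - 2) * (inner ℂ a b).im ^ 2 ≤ (5 * n + 2 : ℝ) := by
  obtain ⟨k, hk⟩ : ∃ k, 2 * n = k + 2 + 2 := ⟨2 * n - 4, by omega⟩
  have hfr : Module.finrank ℝ (Cn n) = k + 2 + 2 := by rw [Main_finrank, hk]
  obtain ⟨hon, hsp⟩ := hE
  let o : OrthonormalBasis (Fin (k + 2 + 2)) ℝ (Cn n) := (stdOrthonormalBasis ℝ (Cn n)).reindex (finCongr hfr)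
  have hE2 : Module.finrank ℝ (Eᗮ : Submodule ℝ (Cn n)) = 2 := by
    rw [← hsp, finrank_span_eq_card hon.linearIndependent]
    simp
  have hE1 : Module.finrank ℝ E = k + 2 := by
    have h1 := Submodule.finrank_add_finrank_orthogonal E
    omega
  let bE := (stdOrthonormalBasis ℝ E).reindex (finCongr hE1)
  have he : Orthonormal ℝ (fun j => (bE j : Cn n)) := bE.orthonormal.comp_linearIsometry E.subtypeₗᵢ
  obtain ⟨J, -, hJ⟩ := exists_iso he
  have hEs : Submodule.span ℝ (Set.range fun j => (bE j : Cn n)) = E := by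
    have h1 : (Set.range fun j => (bE j : Cn n)) = E.subtype '' (Set.range bE) := by
      rw [← Set.range_comp]
      rfl
    rw [h1, Submodule.span_image]
    have h2 : Submodule.span ℝ (Set.range bE) = ⊤ := by
      rw [← OrthonormalBasis.coe_toBasis]
      exact bE.toBasis.span_eq
    rw [h2, Submodule.map_subtype_top]
  rw [hEs] at hJ
  have hJa : ∀ y l, inner ℝ (J y) ((![a, b] : Fin 2 → Cn n) l) = 0 := by
    intro y l
    have h1 : J y ∈ E := by
      rw [← hJ]
      exact ⟨y, rfl⟩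
    have h2 : (![a, b] : Fin 2 → Cn n) l ∈ (Eᗮ : Submodule ℝ (Cn n)) := by
      rw [← hsp]
      exact Submodule.subset_span ⟨l, rfl⟩
    exact Submodule.inner_right_of_mem_orthogonal h1 h2
  have hp : (1 / (Module.finrank ℝ E : ℝ)) = 1 / ((k : ℝ) + 2) := by
    rw [hE1]
    push_cast
    ring
  have hom : om ((![a, b] : Fin 2 → Cn n) 0) ((![a, b] : Fin 2 → Cn n) 1) = (inner ℂ a b).im := rfl
  constructor
  · intro h
    by_contra hx
    rw [not_le, ← hom] at hx
    obtain ⟨N, v, v', h1, h2, h3⟩ := exists_fail o hn hon hx J hJa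
    have h4 := h (zon v) (zon v') ⟨convex_zon v, isCompact_zon v, h1⟩ ⟨convex_zon v', isCompact_zon v', h2⟩
      (Main_zonoid v) (Main_zonoid v')
    rw [hp, Stmt.VE_eq, Stmt.VE_eq, Stmt.VE_eq] at h4
    rw [hJ] at h3
    exact absurd h4 (not_le.2 h3)
  · intro hx K L hK hL hKz hLz
    rw [← hom] at hx
    have hp0 : (0 : ℝ) < 1 / ((k : ℝ) + 2) := by positivity
    have h4 := bm_limit J (1 / ((k : ℝ) + 2)) hp0 (fun Z Z' hZ hZ' => bm_zonotope o hn hon hx J hJa Z Z' hZ hZ') hKz hLz
    rw [hp, Stmt.VE_eq, Stmt.VE_eq, Stmt.VE_eq]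
    rw [hJ] at h4
    exact h4

end Pool.Agent.H89.CZ
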